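import Pool.Agent.Helper22.SC.Defs

/-!
# SC-U1: the phase function at a small angle

PROOF. `B = 2 + sup |ρ|` (`rho H` is continuous and periodic). For fixed `t` the derivative of `β ↦ ga H β t` is `- rho H (t + β) sin β`
(`ga H β t = H (t + β) cos β - H' (t + β) sin β`, `H ∈ C²`). If `cos α ≥ 0`, reduce `α` modulo `2π` to `[-π/2, π/2]` (`ga` is `2π`-periodic in `α`):
`|ga H α t - ga H 0 t| ≤ sup |ρ| · (1 - cos α) ≤ sup |ρ| sin² α`, because `1 - c ≤ 1 - c²` for `0 ≤ c ≤ 1`.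
If `cos α ≤ 0`: `ga H (π + β) t = - ga H β (t + π)` with `cos β ≥ 0`, `sin² β = sin² α`.
-/

open MeasureTheory Real Set Filter Topology

set_option autoImplicit false

namespace Pool.Agent.Helper22.SC

open Pool.Agent.Helper22.AE Pool.Agent.Helper22.AC

private lemma u1_min {f : ℝ → ℝ} (hf : Continuous f) (hp : Function.Periodic f (2 * π)) :
    ∃ x₀, ∀ x, f x₀ ≤ f x := by
  obtain ⟨x₀, -, h⟩ := (isCompact_Icc : IsCompact (Icc (0 : ℝ) (2 * π))).exists_isMinOn
    ⟨0, left_mem_Icc.2 (by positivity)⟩ hf.continuousOn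
  refine ⟨x₀, fun x => ?_⟩
  obtain ⟨y, hy, e⟩ := hp.exists_mem_Ico₀ (by positivity) x
  rw [e]
  exact h (Ico_subset_Icc_self hy)

private lemma u1_bdd {f : ℝ → ℝ} (hf : Continuous f) (hp : Function.Periodic f (2 * π)) :
    ∃ A : ℝ, 0 ≤ A ∧ ∀ x, |f x| ≤ A := by
  have hp' : Function.Periodic (fun x => -|f x|) (2 * π) := fun x => by
    show -|f (x + 2 * π)| = -|f x|
    rw [hp x]
  obtain ⟨x₀, h⟩ := u1_min (f := fun x => -|f x|) (by fun_prop) hp'
  exact ⟨|f x₀|, abs_nonneg _, fun x => by have := h x; linarith⟩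

private lemma u1_der {f : ℝ → ℝ} {c : ℝ} (hp : Function.Periodic f c) :
    Function.Periodic (deriv f) c := by
  intro x
  have h : (fun y => f (y + c)) = f := funext fun y => hp y
  have h2 := deriv_comp_add_const f c x
  rw [h] at h2
  exact h2.symm

private lemma u1_cd {G : ℝ → ℝ} (hG : ContDiff ℝ 2 G) : ContDiff ℝ 1 (deriv G) :=
  ((contDiff_succ_iff_deriv (n := 1)).1 hG).2.2

private lemma u1_rhoc {G : ℝ → ℝ} (hG : ContDiff ℝ 2 G) : Continuous (rho G) := by
  unfold rho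
  exact hG.continuous.add ((u1_cd hG).continuous_deriv le_rfl)

private lemma u1_rhop {H : ℝ → ℝ} (hp : Function.Periodic H (2 * π)) :
    Function.Periodic (rho H) (2 * π) := fun x => by
  unfold rho
  rw [hp x, u1_der (u1_der hp) x]

private lemma u1_deriv {H : ℝ → ℝ} (hH : ContDiff ℝ 2 H) (t β : ℝ) :
    HasDerivAt (fun α => ga H α t) (-(rho H (t + β) * sin β)) β := by
  have e0 : Differentiable ℝ H := hH.differentiable (by norm_num)
  have e1 : Differentiable ℝ (deriv H) := (u1_cd hH).differentiable (by norm_num)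
  have a1 : HasDerivAt (fun α => H (t + α)) (deriv H (t + β)) β :=
    (e0 (t + β)).hasDerivAt.comp_const_add t β
  have a2 : HasDerivAt (fun α => deriv H (t + α)) (deriv (deriv H) (t + β)) β :=
    (e1 (t + β)).hasDerivAt.comp_const_add t β
  have a3 := (a1.mul (hasDerivAt_cos β)).sub (a2.mul (hasDerivAt_sin β))
  unfold ga rho
  refine a3.congr_deriv ?_
  ring

private lemma u1_bd {F r : ℝ → ℝ} {S : ℝ} (hF : ∀ β, HasDerivAt F (-(r β * sin β)) β) (hr : ∀ β, |r β| ≤ S)
    {β : ℝ} (h0 : 0 ≤ β) (h1 : β ≤ π) : |F β - F 0| ≤ S * (1 - cos β) := by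
  have h := image_norm_le_of_norm_deriv_right_le_deriv_boundary (f := fun x => F x - F 0) (a := 0) (b := π)
    (f' := fun x => -(r x * sin x)) (B := fun x => S * (1 - cos x)) (B' := fun x => S * sin x)
    (fun x _ => ((hF x).sub_const (F 0)).continuousAt.continuousWithinAt)
    (fun x _ => ((hF x).sub_const (F 0)).hasDerivWithinAt)
    (by simp)
    (fun x => by
      have h2 := ((hasDerivAt_cos x).const_sub 1).const_mul S
      refine h2.congr_deriv ?_
      ring)
    (fun x hx => by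
      have hs : 0 ≤ sin x := sin_nonneg_of_nonneg_of_le_pi hx.1 hx.2.le
      rw [Real.norm_eq_abs, abs_neg, abs_mul, abs_of_nonneg hs]
      exact mul_le_mul_of_nonneg_right (hr x) hs)
  exact h ⟨h0, h1⟩

private lemma u1_ga0 (H : ℝ → ℝ) (t : ℝ) : ga H 0 t = H t := by
  unfold ga
  simp

private lemma u1_small {H : ℝ → ℝ} (hH : IsSupp H) {S : ℝ} (hS : ∀ x, |rho H x| ≤ S) (t : ℝ) {β : ℝ}
    (h0 : -π ≤ β) (h1 : β ≤ π) : |ga H β t - H t| ≤ S * (1 - cos β) := by
  rcases le_total 0 β with h2 | h2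
  · have h3 := u1_bd (F := fun α => ga H α t) (r := fun β => rho H (t + β)) (u1_deriv hH.smooth t)
      (fun β => hS _) h2 h1
    simp only [u1_ga0] at h3
    exact h3
  · have h3 := u1_bd (F := fun α => ga H (-α) t) (r := fun β => rho H (t + -β)) (S := S) (fun β => by
      have h4 := (u1_deriv hH.smooth t (-β)).comp β (hasDerivAt_neg β)
      refine h4.congr_deriv ?_
      rw [sin_neg]
      ring)
      (fun β => hS _) (β := -β) (by linarith) (by linarith)
    simp only [neg_neg, neg_zero, u1_ga0, cos_neg] at h3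
    exact h3

private lemma u1_pos {H : ℝ → ℝ} (hH : IsSupp H) {S : ℝ} (h0 : 0 ≤ S) (hS : ∀ x, |rho H x| ≤ S) (t : ℝ) {α : ℝ}
    (hc : 0 ≤ cos α) : |ga H α t - H t| ≤ S * sin α ^ 2 := by
  have hper : Function.Periodic (fun x => (ga H x t, sin x, cos x)) (2 * π) := fun x => by
    have e1 : ga H (x + 2 * π) t = ga H x t := by
      unfold ga
      rw [← add_assoc, hH.per, u1_der hH.per, cos_add_two_pi, sin_add_two_pi]
    simp only [e1, cos_add_two_pi, sin_add_two_pi]
  obtain ⟨β, hβ, he⟩ := hper.exists_mem_Ioc (by positivity) α (-π)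
  simp only [Prod.mk.injEq] at he
  obtain ⟨e1, e2, e3⟩ := he
  rw [e3] at hc
  rw [e1, e2]
  refine (u1_small hH hS t hβ.1.le (by linarith [hβ.2])).trans ?_
  apply mul_le_mul_of_nonneg_left _ h0
  have h4 := sin_sq_add_cos_sq β
  have h5 := cos_le_one β
  nlinarith

theorem ga_near {H : ℝ → ℝ} (hH : IsSupp H) : ∃ B : ℝ, 0 < B ∧ ∀ α t : ℝ,
    (0 ≤ cos α → |ga H α t - H t| ≤ B * sin α ^ 2) ∧ (cos α ≤ 0 → |ga H α t + H (t + π)| ≤ B * sin α ^ 2) := by
  obtain ⟨S, hS0, hS⟩ := u1_bdd (u1_rhoc hH.smooth) (u1_rhop hH.per)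
  refine ⟨S + 1, by linarith, fun α t => ⟨fun hc => ?_, fun hc => ?_⟩⟩
  · refine (u1_pos hH hS0 hS t hc).trans ?_
    nlinarith [sq_nonneg (sin α)]
  · have h1 : 0 ≤ cos (α - π) := by
      rw [cos_sub_pi]
      linarith
    have h2 := u1_pos hH hS0 hS (t + π) h1
    have h3 : ga H (α - π) (t + π) = -ga H α t := by
      unfold ga
      rw [show t + π + (α - π) = t + α by ring, cos_sub_pi, sin_sub_pi]
      ring
    rw [h3, sin_sub_pi] at h2
    have h4 : |ga H α t + H (t + π)| = |-ga H α t - H (t + π)| := by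
      rw [← abs_neg]
      congr 1
      ring
    rw [h4]
    refine h2.trans ?_
    nlinarith [sq_nonneg (sin α)]

theorem adm_self {H : ℝ → ℝ} (hH : IsSupp H) : ∃ c₁ c₂ : ℝ, 0 < c₁ ∧ c₁ ≤ c₂ ∧ Adm c₁ c₂ H ∧ Adm c₁ c₂ (fun t => H (t + π)) := by
  obtain ⟨x₀, hx₀⟩ := u1_min (u1_rhoc hH.smooth) (u1_rhop hH.per)
  obtain ⟨A, hA0, hA⟩ := u1_bdd (u1_rhoc hH.smooth) (u1_rhop hH.per)
  have hx : ∀ x, rho H x ≤ A := fun x => (le_abs_self _).trans (hA x)
  have hd : deriv (fun t => H (t + π)) = fun t => deriv H (t + π) := by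
    funext t
    exact deriv_comp_add_const H π t
  have hdd : ∀ t, deriv (deriv (fun t => H (t + π))) t = deriv (deriv H) (t + π) := by
    intro t
    rw [hd]
    exact deriv_comp_add_const (deriv H) π t
  have hr : ∀ t, rho (fun t => H (t + π)) t = rho H (t + π) := by
    intro t
    unfold rho
    rw [hdd]
  refine ⟨rho H x₀, A, hH.rho_pos x₀, hx x₀, ⟨hH.smooth, hH.per, hx₀, hx⟩, ⟨?_, ?_, ?_, ?_⟩⟩
  · exact hH.smooth.comp (contDiff_id.add contDiff_const)
  · intro t
    show H (t + 2 * π + π) = H (t + π)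
    rw [show t + 2 * π + π = t + π + 2 * π by ring, hH.per]
  · intro t
    rw [hr]
    exact hx₀ _
  · intro t
    rw [hr]
    exact hx _

end Pool.Agent.Helper22.SC
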