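import Pool.Agent.Helper22.SC.Defs
import Pool.Agent.Helper92.EO.One
import Pool.Agent.Helper92.EO.Avg2
import Pool.Agent.Helper22.AC.D1a

/-!
# SC-L1: one-sided bounds for the lattice error with a centre

PROOF. As `one_sided` (Helper92/EO/One.lean). Let `G θ = r H θ + c.1 cos θ + c.2 sin θ`. `(k - c)·u ≤ r H` iff `k·u ≤ G`, so `cntc H c r` is the number of lattice points in `dom G`. For `c ∈ [0,1]²`,
`r ≥ R/2 ≥ R₁/2` and `|s| ≤ 1` the functions `G`, `G + s` satisfy `IsSupp` (`rho` of `c.1 cos + c.2 sin` is `0`, and `r H ≥ r min H ≥ 4`). `le_smc` / `smc_le` (AE/P3):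
`smc φ δ (G - δ) ≤ cntc H c r ≤ smc φ δ (G + δ)`; `smc_real` (EO/Poi) for `G ± δ`; `dom (G ± δ)` is the translate by `c` of `dom (r H ± δ)` (same volume), `area_bound` (AE/G6).
`hk (G ± δ) k = chc c k * hk (r H ± δ) k` for `k ≠ 0`: `rho` is the same and `nk k * gph (G ± δ) k α = nk k * gph (r H ± δ) k α + (k.1 c.1 + k.2 c.2)`
(`k.1 = nk k cos (tk k)`, `k.2 = nk k sin (tk k)`); for `k = 0` both terms `tr` vanish (`nk 0 = 0`).
`cntc_mono`, `erc_int`: as `cnt_mono`, `av_err_int` in EO/Av.lean (finiteness: a box around `c`).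
-/

open MeasureTheory Real Set Filter Topology

set_option autoImplicit false

namespace Pool.Agent.Helper22.SC

open Pool.Agent.Helper22.AE Pool.Agent.Helper22.AC Pool.Agent.Helper92.EO

private lemma l1_finite (G : ℝ → ℝ) (c : ℝ × ℝ) :
    {k : ℤ × ℤ | ∀ θ : ℝ, ((k.1 : ℝ) - c.1) * cos θ + ((k.2 : ℝ) - c.2) * sin θ ≤ G θ}.Finite := by
  apply Set.Finite.subset (Set.Finite.prod (Set.finite_Icc (-⌈G π - c.1⌉) ⌈G 0 + c.1⌉)
    (Set.finite_Icc (-⌈G (-(π / 2)) - c.2⌉) ⌈G (π / 2) + c.2⌉))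
  intro k hk
  have hk' : ∀ θ : ℝ, ((k.1 : ℝ) - c.1) * cos θ + ((k.2 : ℝ) - c.2) * sin θ ≤ G θ := hk
  have h1 := hk' 0
  have h2 := hk' π
  have h3 := hk' (π / 2)
  have h4 := hk' (-(π / 2))
  simp only [cos_zero, sin_zero, cos_pi, sin_pi, cos_pi_div_two, sin_pi_div_two, cos_neg, sin_neg, mul_one,
    mul_zero, add_zero, zero_add, mul_neg] at h1 h2 h3 h4
  rw [Set.mem_prod, Set.mem_Icc, Set.mem_Icc]
  refine ⟨⟨?_, ?_⟩, ?_, ?_⟩
  · have : (-(⌈G π - c.1⌉ : ℝ)) ≤ k.1 := by linarith [Int.le_ceil (G π - c.1)]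
    exact_mod_cast this
  · have : (k.1 : ℝ) ≤ ⌈G 0 + c.1⌉ := by linarith [Int.le_ceil (G 0 + c.1)]
    exact_mod_cast this
  · have : (-(⌈G (-(π / 2)) - c.2⌉ : ℝ)) ≤ k.2 := by linarith [Int.le_ceil (G (-(π / 2)) - c.2)]
    exact_mod_cast this
  · have : (k.2 : ℝ) ≤ ⌈G (π / 2) + c.2⌉ := by linarith [Int.le_ceil (G (π / 2) + c.2)]
    exact_mod_cast this

private lemma l1_mono {H : ℝ → ℝ} (hH : IsSupp H) (c : ℝ × ℝ) : Monotone (cntc H c) := by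
  intro R R' h
  unfold cntc
  have hf := l1_finite (fun θ => R' * H θ) c
  have h1 : Nat.card {k : ℤ × ℤ | ∀ θ : ℝ, ((k.1 : ℝ) - c.1) * cos θ + ((k.2 : ℝ) - c.2) * sin θ ≤ R * H θ} ≤
      Nat.card {k : ℤ × ℤ | ∀ θ : ℝ, ((k.1 : ℝ) - c.1) * cos θ + ((k.2 : ℝ) - c.2) * sin θ ≤ R' * H θ} := by
    apply Nat.card_mono hf
    intro k hk θ
    exact (hk θ).trans (mul_le_mul_of_nonneg_right h (hH.pos θ).le)
  exact_mod_cast h1

private lemma l1_fhat_neg (φ : ℝ × ℝ → ℝ) (x y : ℝ) :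
    fhat φ (-x) (-y) = (starRingEnd ℂ) (fhat φ x y) := by
  unfold fhat
  rw [← integral_conj]
  congr 1
  funext p
  rw [map_mul, Complex.conj_ofReal, ← ee_neg]
  congr 2
  ring

private lemma l1_ft_zero (G : ℝ → ℝ) : ft G 0 = (((volume (dom G)).toReal : ℝ) : ℂ) := by
  unfold ft
  have h : ∀ p : ℝ × ℝ, ee (-((((0 : ℤ × ℤ).1 : ℤ) : ℝ) * p.1 + (((0 : ℤ × ℤ).2 : ℤ) : ℝ) * p.2)) = 1 := by
    intro p
    simp [ee_zero]
  simp only [h]
  rw [MeasureTheory.setIntegral_const]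
  simp [Measure.real]

private lemma l1_fhat_zero {φ : ℝ × ℝ → ℝ} (hφ : IsBump φ) : fhat φ 0 0 = 1 := by
  unfold fhat
  have h : ∀ p : ℝ × ℝ, ee (-((0 : ℝ) * p.1 + 0 * p.2)) * (φ p : ℂ) = ((φ p : ℝ) : ℂ) := by
    intro p
    simp [ee_zero]
  simp only [h]
  rw [integral_complex_ofReal, hφ.int_one]
  simp

private lemma l1_nk_zero : nk 0 = 0 := by
  unfold nk cz
  have : (⟨(((0 : ℤ × ℤ).1 : ℤ) : ℝ), (((0 : ℤ × ℤ).2 : ℤ) : ℝ)⟩ : ℂ) = 0 := by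
    apply Complex.ext <;> simp
  rw [this, norm_zero]

private lemma l1_chc_norm (c : ℝ × ℝ) (k : ℤ × ℤ) : ‖chc c k‖ = 1 := ee_norm _

private lemma l1_chc_zero (c : ℝ × ℝ) : chc c 0 = 1 := by
  unfold chc
  simp [ee_zero]

private lemma l1_chc_neg (c : ℝ × ℝ) (k : ℤ × ℤ) : (starRingEnd ℂ) (chc c (-k)) = chc c k := by
  unfold chc
  rw [← ee_neg]
  congr 1
  simp only [Prod.fst_neg, Prod.snd_neg, Int.cast_neg]
  ring

/-- the half term -/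
private noncomputable def zc (φ : ℝ × ℝ → ℝ) (δ : ℝ) (G : ℝ → ℝ) (c : ℝ × ℝ) (k : ℤ × ℤ) : ℂ :=
  (((2 * π * nk k)⁻¹ : ℝ) : ℂ) * (Complex.I * (chc c k * hk G k) * fhat φ (δ * k.1) (δ * k.2))

private lemma zc_re (φ : ℝ × ℝ → ℝ) (δ : ℝ) (G : ℝ → ℝ) (c : ℝ × ℝ) (k : ℤ × ℤ) :
    2 * (zc φ δ G c k).re = tr φ δ k (chc c k * hk G k) := by
  unfold zc tr
  rw [Complex.re_ofReal_mul]
  have h : (π * nk k)⁻¹ = 2 * (2 * π * nk k)⁻¹ := by
    rw [mul_assoc, mul_inv 2]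
    ring
  rw [h]
  ring

private lemma zc_summable {G : ℝ → ℝ} (hG : IsSupp G) {φ : ℝ × ℝ → ℝ} (hφ : IsBump φ) {δ : ℝ}
    (hδ : 0 < δ) (hδ1 : δ ≤ 1) (c : ℝ × ℝ) : Summable (zc φ δ G c) := by
  obtain ⟨C, hC0, hC⟩ := fhat_sum hφ
  obtain ⟨B, hB0, hB⟩ := hk_bound hG
  have hs := (hC δ hδ hδ1).1
  have h1 := hs.mul_left ((2 * π)⁻¹ * (B * 2))
  refine Summable.of_norm_bounded h1 (fun k => ?_)
  have h2 := hB 1 0 zero_le_one (by simp) k
  have h3 : (fun θ => 1 * G θ + 0) = G := by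
    funext θ
    ring
  rw [h3] at h2
  have h4 : 0 ≤ nk k := norm_nonneg _
  unfold zc
  rw [norm_mul, norm_mul, norm_mul, norm_mul, l1_chc_norm, one_mul, Complex.norm_I, one_mul, Complex.norm_real,
    Real.norm_eq_abs, abs_of_nonneg (by positivity), mul_inv]
  calc (2 * π)⁻¹ * (nk k)⁻¹ * (‖hk G k‖ * ‖fhat φ (δ * k.1) (δ * k.2)‖)
      = (2 * π)⁻¹ * ‖hk G k‖ * ((nk k)⁻¹ * ‖fhat φ (δ * k.1) (δ * k.2)‖) := by ring
    _ ≤ (2 * π)⁻¹ * (B * 2) * ((nk k)⁻¹ * ‖fhat φ (δ * k.1) (δ * k.2)‖) := by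
        refine mul_le_mul_of_nonneg_right ?_ (by positivity)
        refine mul_le_mul_of_nonneg_left ?_ (by positivity)
        linarith

private lemma l1_term {G : ℝ → ℝ} (hG : IsSupp G) {φ : ℝ × ℝ → ℝ} (hφ : IsBump φ) (δ : ℝ) (c : ℝ × ℝ)
    (k : ℤ × ℤ) :
    ft G k * fhat φ (δ * k.1) (δ * k.2) * ee (-((k.1 : ℝ) * c.1 + (k.2 : ℝ) * c.2)) -
        (if k = 0 then (((volume (dom G)).toReal : ℝ) : ℂ) else 0) =
      zc φ δ G c k + (starRingEnd ℂ) (zc φ δ G c (-k)) := by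
  have hch : ee (-((k.1 : ℝ) * c.1 + (k.2 : ℝ) * c.2)) = chc c k := rfl
  rw [hch]
  by_cases hk0 : k = 0
  · subst hk0
    rw [if_pos rfl, l1_ft_zero, l1_chc_zero]
    have h1 : fhat φ (δ * (((0 : ℤ × ℤ).1 : ℤ) : ℝ)) (δ * (((0 : ℤ × ℤ).2 : ℤ) : ℝ)) = 1 := by
      rw [← l1_fhat_zero hφ]
      simp
    rw [h1, neg_zero]
    unfold zc
    rw [l1_nk_zero]
    simp
  · rw [if_neg hk0, sub_zero, ft_half hG hk0]
    unfold zc
    have h1 : fhat φ (δ * (((-k).1 : ℤ) : ℝ)) (δ * (((-k).2 : ℤ) : ℝ)) =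
        (starRingEnd ℂ) (fhat φ (δ * k.1) (δ * k.2)) := by
      rw [← l1_fhat_neg]
      congr 1
      · simp
      · simp
    rw [h1, nk_neg]
    have h2 : (nk k : ℂ) ≠ 0 := by
      rw [Complex.ofReal_ne_zero]
      exact (nk_pos hk0).ne'
    have h3 : (π : ℂ) ≠ 0 := by
      rw [Complex.ofReal_ne_zero]
      exact pi_ne_zero
    rw [map_mul, map_mul, map_mul, map_mul, l1_chc_neg, Complex.conj_conj, Complex.conj_I, Complex.conj_ofReal]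
    push_cast
    have h4 : -(1 / (2 * (π : ℂ) * Complex.I * (nk k : ℂ))) = Complex.I * (2 * (π : ℂ) * (nk k : ℂ))⁻¹ := by
      have h5 : Complex.I ≠ 0 := Complex.I_ne_zero
      field_simp
      rw [Complex.I_sq]
    rw [h4]
    ring

private lemma smcc_real {G : ℝ → ℝ} (hG : IsSupp G) {φ : ℝ × ℝ → ℝ} (hφ : IsBump φ) {δ : ℝ} (hδ : 0 < δ)
    (hδ1 : δ ≤ 1) (c : ℝ × ℝ) :
    smcc φ δ G c = (volume (dom G)).toReal + ∑' k : ℤ × ℤ, tr φ δ k (chc c k * hk G k) := by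
  have h1 := poisson_c hG hφ hδ c
  have h2 : HasSum (fun k : ℤ × ℤ => if k = 0 then (((volume (dom G)).toReal : ℝ) : ℂ) else 0)
      (((volume (dom G)).toReal : ℝ) : ℂ) := hasSum_ite_eq _ _
  have h3 := h1.sub h2
  simp only [l1_term hG hφ δ c] at h3
  have hz := (zc_summable hG hφ hδ hδ1 c).hasSum
  set Z := ∑' k, zc φ δ G c k with hZ
  have h4 : HasSum (fun k => (starRingEnd ℂ) (zc φ δ G c k)) ((starRingEnd ℂ) Z) :=
    hz.map (starRingEnd ℂ) Complex.continuous_conj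
  have h5 : HasSum (fun k => (starRingEnd ℂ) (zc φ δ G c (-k))) ((starRingEnd ℂ) Z) :=
    (Equiv.neg (ℤ × ℤ)).hasSum_iff.2 h4
  have h6 := h3.unique (hz.add h5)
  have h7 : HasSum (fun k => 2 * (zc φ δ G c k).re) (2 * Z.re) :=
    (Complex.hasSum_re hz).mul_left 2
  simp only [zc_re] at h7
  rw [h7.tsum_eq]
  have h8 := congrArg Complex.re h6
  rw [Complex.sub_re, Complex.ofReal_re, Complex.ofReal_re, Complex.add_re, Complex.conj_re] at h8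
  linarith

theorem one_sided_c {H : ℝ → ℝ} (hH : IsSupp H) {φ : ℝ × ℝ → ℝ} (hφ : IsBump φ) :
    ∃ C R₁ : ℝ, 0 ≤ C ∧ 1 ≤ R₁ ∧ ∀ R : ℝ, R₁ ≤ R → ∀ c ∈ Icc (0 : ℝ) 1 ×ˢ Icc (0 : ℝ) 1, ∀ r ∈ Icc (R / 2) (3 * R / 2),
      erc H c r ≤ C * R ^ (1 / 2 : ℝ) +
        ∑' k : ℤ × ℤ, tr φ (R ^ (-(1 / 2) : ℝ)) k (chc c k * hk (fun θ => r * H θ + R ^ (-(1 / 2) : ℝ)) k) ∧
      -(C * R ^ (1 / 2 : ℝ)) +
        ∑' k : ℤ × ℤ, tr φ (R ^ (-(1 / 2) : ℝ)) k (chc c k * hk (fun θ => r * H θ + -R ^ (-(1 / 2) : ℝ)) k) ≤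
        erc H c r := by
  obtain ⟨C, R₁, hR₁, hC⟩ := area_bound hH
  obtain ⟨R₂, hR₂, hS⟩ := supp_affine hH
  refine ⟨2 * |C|, max (2 * R₁) (max (2 * R₂) 1), by positivity,
    (le_max_right _ _).trans (le_max_right _ _), ?_⟩
  intro R hR c _ r hr
  have hRa : 2 * R₁ ≤ R := (le_max_left _ _).trans hR
  have hRb : 2 * R₂ ≤ R := ((le_max_left _ _).trans (le_max_right _ _)).trans hR
  have hRc : 1 ≤ R := ((le_max_right _ _).trans (le_max_right _ _)).trans hR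
  have hRp : 0 < R := by linarith
  have hr1 : R₁ ≤ r := by linarith [hr.1]
  have hr2 : R₂ ≤ r := by linarith [hr.1]
  have hrp : 0 < r := by linarith [hr.1]
  set δ : ℝ := R ^ (-(1 / 2) : ℝ) with hδdef
  have hδ0 : 0 < δ := Real.rpow_pos_of_pos hRp _
  have hδ1 : δ ≤ 1 := Real.rpow_le_one_of_one_le_of_nonpos hRc (by norm_num)
  have hδR : R * δ = R ^ (1 / 2 : ℝ) := by
    rw [hδdef]
    nth_rewrite 1 [← Real.rpow_one R]
    rw [← Real.rpow_add hRp]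
    norm_num
  have hsupp0 : IsSupp (fun θ => r * H θ) := by
    have h := hS r hr2 0 (by norm_num)
    simpa using h
  have hsuppp : IsSupp (fun θ => r * H θ + δ) :=
    hS r hr2 δ (by rw [abs_of_pos hδ0]; exact hδ1)
  have hsuppm : IsSupp (fun θ => r * H θ + -δ) :=
    hS r hr2 (-δ) (by rw [abs_neg, abs_of_pos hδ0]; exact hδ1)
  have hbd : C * r * δ ≤ 2 * |C| * R ^ (1 / 2 : ℝ) := by
    have h1 : C * r ≤ |C| * (2 * R) :=
      mul_le_mul (le_abs_self C) (by linarith [hr.2]) hrp.le (abs_nonneg C)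
    have h2 : C * r * δ ≤ |C| * (2 * R) * δ := mul_le_mul_of_nonneg_right h1 hδ0.le
    refine h2.trans (le_of_eq ?_)
    rw [← hδR]
    ring
  have hap := hC r hr1 δ (by rw [abs_of_pos hδ0]; exact hδ1)
  have ham := hC r hr1 (-δ) (by rw [abs_neg, abs_of_pos hδ0]; exact hδ1)
  rw [abs_of_pos hδ0] at hap
  rw [abs_neg, abs_of_pos hδ0] at ham
  have hcnt : cntc H c r =
      (Nat.card {k : ℤ × ℤ // ((k.1 : ℝ) - c.1, (k.2 : ℝ) - c.2) ∈ dom (fun θ => r * H θ)} : ℝ) := rfl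
  have h1 : cntc H c r ≤ smcc φ δ (fun θ => r * H θ + δ) c := by
    rw [hcnt]
    exact le_smcc hsupp0 hsuppp hφ hδ0 (fun θ => le_rfl) c
  have h2 : smcc φ δ (fun θ => r * H θ + -δ) c ≤ cntc H c r := by
    rw [hcnt]
    exact smcc_le hsuppm hsupp0 hφ hδ0 (fun θ => by linarith) c
  rw [smcc_real hsuppp hφ hδ0 hδ1 c] at h1
  rw [smcc_real hsuppm hφ hδ0 hδ1 c] at h2
  have h3 := (abs_le.1 (hap.trans hbd))
  have h4 := (abs_le.1 (ham.trans hbd))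
  unfold erc
  constructor
  · linarith [h3.2]
  · linarith [h4.1]

theorem erc_int {H : ℝ → ℝ} (hH : IsSupp H) (c : ℝ × ℝ) {a b : ℝ} (ha : 0 ≤ a) (hab : a ≤ b) :
    IntervalIntegrable (fun r => erc H c r) volume a b := by
  unfold erc
  refine IntervalIntegrable.sub ?_ (Continuous.intervalIntegrable (by fun_prop) _ _)
  exact (l1_mono hH c).intervalIntegrable

end Pool.Agent.Helper22.SC
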