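import Pool.Agent.Helper22.SC.U9
import Pool.Agent.Helper22.SC.L1
import Pool.Agent.Helper22.AC.D9a

/-!
# SC-M2: large values contribute little

PROOF of `pointwise`. `errc_le_blocks` (AC/D1) with `τ = 1/3`, `e2 = κ`, minimal `n1` with `R₀^(1/3+κ) ≤ 2^n1` and `VKc_trivial` (AC/D3): `∑_{n < n1} C R₀^(1/2) 2^(n/2) ≤ C' R₀^(1/2) R₀^(1/6+κ/2)`; `R₀ = R`
(small `R`: `cntc_bdd` in AC/D9a.lean for the centre `c`, or uniformly: `c ∈ [0,1]²` by periodicity; here only the centre `(0,0)` is needed).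
PROOF of `tail`. Let `κ > 0` be small, `θ i = θ₁ + i κ`, `i = 0..m`, `m` maximal with `θ m < 2/3`. The set splits into layers `r^(θ i) < |erc| ≤ r^(θ (i+1))` (`i < m`) and `r^(θ m) < |erc| ≤ C r^(2/3+κ)`
(`pointwise`); `[X/2, 4X]` is the union of three intervals `[Y, 2Y]`, `Y = X/2, X, 2X ≥ 1`, and `all_centres2` bounds the measure of `{r ∈ [Y,2Y] : r^(θ i) < |erc|}` by `C Y^(5 - 8 θ i + κ)`. A layer contributes at most
`C (4X)^(θ i + κ) X^(5 - 8 θ i + κ) ≤ C' X^(5 - 7 θ₁ + 2κ)`, the last one `C' X^(2/3 + κ + 5 - 8 θ m + κ) ≤ C' X^(5 - 7 θ₁ + 3κ)` since `2/3 - θ m ≤ κ`. Take `κ = ε/4` (or smaller). Measurability: `erc_int` / `erc` is a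
difference of a monotone and a continuous function on `[0,∞)`.
-/

open MeasureTheory Real Set Filter Topology

set_option autoImplicit false

namespace Pool.Agent.Helper22.SC

open Pool.Agent.Helper22.AE Pool.Agent.Helper22.AC

private lemma geo_h82 (m : ℕ) : ∑ n ∈ Finset.range m, (2 : ℝ) ^ ((n : ℝ) / 2) ≤ 4 * (2 : ℝ) ^ ((m : ℝ) / 2) := by
  induction m with
  | zero => simp
  | succ m ih =>
    rw [Finset.sum_range_succ]
    have e : (2 : ℝ) ^ (((m + 1 : ℕ) : ℝ) / 2) = (2 : ℝ) ^ (1 / 2 : ℝ) * (2 : ℝ) ^ ((m : ℝ) / 2) := by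
      rw [← Real.rpow_add (by norm_num)]
      congr 1
      push_cast
      ring
    have h1 : (5 / 4 : ℝ) ≤ (2 : ℝ) ^ (1 / 2 : ℝ) := by
      rw [← Real.sqrt_eq_rpow]
      apply Real.le_sqrt_of_sq_le
      norm_num
    have h2 : (0 : ℝ) < (2 : ℝ) ^ ((m : ℝ) / 2) := by positivity
    rw [e]
    nlinarith

theorem pointwise {H : ℝ → ℝ} (hH : IsSupp H) {κ : ℝ} (hκ : 0 < κ) : ∃ C : ℝ, 0 ≤ C ∧ ∀ r : ℝ, 1 ≤ r →
    |erc H (0, 0) r| ≤ C * r ^ (2 / 3 + κ) := by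
  classical
  obtain ⟨φ, hφ⟩ := exists_bump
  obtain ⟨C2, hC2, HT⟩ := VKc_trivial hH hφ
  obtain ⟨C3, R1, hR1, HD⟩ := errc_le_blocks hH hφ (τ := 1 / 3) (e2 := κ) (by norm_num) (by norm_num) hκ
  obtain ⟨C0, hC0⟩ := cntc_bdd hH (0, 0) R1
  refine ⟨|C0| + |C3| + 8 * C2, by positivity, fun r hr => ?_⟩
  have hr0 : 0 < r := by linarith
  have hone : 1 ≤ r ^ (2 / 3 + κ) := Real.one_le_rpow hr (by linarith)
  rcases le_total r R1 with hcase | hcase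
  · have h1 := hC0 r hr hcase
    have h2 : |C0| ≤ (|C0| + |C3| + 8 * C2) * r ^ (2 / 3 + κ) := by
      have h3 : |C0| ≤ |C0| + |C3| + 8 * C2 := by
        have := abs_nonneg C3
        linarith
      have h4 : 0 ≤ |C0| + |C3| + 8 * C2 := by positivity
      nlinarith
    exact (h1.trans (le_abs_self _)).trans h2
  · have hex : ∃ n1 : ℕ, r ^ (1 / 3 + κ) ≤ 2 ^ n1 := by
      obtain ⟨n, hn⟩ := pow_unbounded_of_one_lt (r ^ (1 / 3 + κ)) (one_lt_two : (1 : ℝ) < 2)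
      exact ⟨n, hn.le⟩
    obtain ⟨n1, hn1d⟩ : ∃ n1, n1 = Nat.find hex := ⟨_, rfl⟩
    have hn1 : r ^ (1 / 3 + κ) ≤ 2 ^ n1 := by rw [hn1d]; exact Nat.find_spec hex
    have hmin : (2 : ℝ) ^ n1 ≤ 2 * r ^ (1 / 3 + κ) := by
      have hone' : 1 ≤ r ^ (1 / 3 + κ) := Real.one_le_rpow hr (by linarith)
      rcases Nat.eq_zero_or_pos n1 with h0 | h0
      · rw [h0, pow_zero]
        linarith
      · have h5 : ¬ r ^ (1 / 3 + κ) ≤ 2 ^ (n1 - 1) := by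
          apply Nat.find_min hex
          rw [← hn1d]
          omega
        have h6 : (2 : ℝ) ^ n1 = 2 * 2 ^ (n1 - 1) := by
          rw [← pow_succ']
          congr 1
          omega
        rw [h6]
        linarith [not_le.1 h5]
    obtain ⟨σ, hσ, hsupp, hle⟩ := HD r hcase r ⟨le_rfl, by linarith⟩ (0, 0) n1 hn1
    have hδ : r ^ (-(1 / 3) : ℝ) ∈ Icc (0 : ℝ) 1 :=
      ⟨by positivity, Real.rpow_le_one_of_one_le_of_nonpos hr (by norm_num)⟩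
    have hblock : ∀ n ∈ Finset.range n1, ‖VKc φ (fun t => r * H t + σ * r ^ (-(1 / 3) : ℝ)) (r ^ (-(1 / 3) : ℝ)) n (0, 0)‖ ≤
        C2 * r ^ (1 / 2 : ℝ) * (2 : ℝ) ^ ((n : ℝ) / 2) := fun n _ =>
      HT r hr n _ hδ σ hσ r ⟨le_rfl, by linarith⟩ hsupp (0, 0)
    have hsum := Finset.sum_le_sum hblock
    rw [← Finset.mul_sum] at hsum
    have h7 : (2 : ℝ) ^ ((n1 : ℝ) / 2) ≤ 2 * r ^ ((1 / 3 + κ) / 2) := by
      have e1 : (2 : ℝ) ^ ((n1 : ℝ) / 2) = ((2 : ℝ) ^ n1) ^ (1 / 2 : ℝ) := by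
        rw [← Real.rpow_natCast, ← Real.rpow_mul (by norm_num)]
        congr 1
        ring
      have e2 : r ^ ((1 / 3 + κ) / 2) = (r ^ (1 / 3 + κ)) ^ (1 / 2 : ℝ) := by
        rw [← Real.rpow_mul hr0.le]
        congr 1
        ring
      rw [e1, e2]
      have e3 : ((2 : ℝ) ^ n1) ^ (1 / 2 : ℝ) ≤ (2 * r ^ (1 / 3 + κ)) ^ (1 / 2 : ℝ) :=
        Real.rpow_le_rpow (by positivity) hmin (by norm_num)
      rw [Real.mul_rpow (by norm_num) (by positivity)] at e3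
      have e4 : (2 : ℝ) ^ (1 / 2 : ℝ) ≤ 2 := by
        calc (2 : ℝ) ^ (1 / 2 : ℝ) ≤ (2 : ℝ) ^ (1 : ℝ) := Real.rpow_le_rpow_of_exponent_le (by norm_num) (by norm_num)
          _ = 2 := Real.rpow_one _
      exact e3.trans (mul_le_mul_of_nonneg_right e4 (by positivity))
    have h8 : C2 * r ^ (1 / 2 : ℝ) * ∑ n ∈ Finset.range n1, (2 : ℝ) ^ ((n : ℝ) / 2) ≤ 8 * C2 * r ^ (2 / 3 + κ) := by
      have h9 : ∑ n ∈ Finset.range n1, (2 : ℝ) ^ ((n : ℝ) / 2) ≤ 8 * r ^ ((1 / 3 + κ) / 2) := by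
        have := geo_h82 n1
        linarith
      calc C2 * r ^ (1 / 2 : ℝ) * ∑ n ∈ Finset.range n1, (2 : ℝ) ^ ((n : ℝ) / 2)
          ≤ C2 * r ^ (1 / 2 : ℝ) * (8 * r ^ ((1 / 3 + κ) / 2)) := mul_le_mul_of_nonneg_left h9 (by positivity)
        _ = 8 * C2 * (r ^ (1 / 2 : ℝ) * r ^ ((1 / 3 + κ) / 2)) := by ring
        _ = 8 * C2 * r ^ (1 / 2 + (1 / 3 + κ) / 2) := by rw [← Real.rpow_add hr0]
        _ ≤ 8 * C2 * r ^ (2 / 3 + κ) := by
            apply mul_le_mul_of_nonneg_left _ (by positivity)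
            apply Real.rpow_le_rpow_of_exponent_le hr
            linarith
    have h10 : C3 * r ^ (1 - 1 / 3 : ℝ) ≤ |C3| * r ^ (2 / 3 + κ) := by
      have h11 : r ^ (1 - 1 / 3 : ℝ) ≤ r ^ (2 / 3 + κ) := by
        apply Real.rpow_le_rpow_of_exponent_le hr
        linarith
      exact mul_le_mul (le_abs_self _) h11 (by positivity) (abs_nonneg _)
    have h12 : 0 ≤ |C0| * r ^ (2 / 3 + κ) := by positivity
    have h13 : |erc H (0, 0) r| ≤ C3 * r ^ (1 - 1 / 3 : ℝ) +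
        ∑ n ∈ Finset.range n1, ‖VKc φ (fun t => r * H t + σ * r ^ (-(1 / 3) : ℝ)) (r ^ (-(1 / 3) : ℝ)) n (0, 0)‖ := hle
    calc |erc H (0, 0) r| ≤ |C3| * r ^ (2 / 3 + κ) + 8 * C2 * r ^ (2 / 3 + κ) := by linarith
      _ ≤ (|C0| + |C3| + 8 * C2) * r ^ (2 / 3 + κ) := by
          rw [add_mul, add_mul]
          linarith

private lemma pw_h82 {X t E : ℝ} (hX : 0 < X) (ht : 0 < t) (h1 : X ≤ 2 * t) (h2 : t ≤ 2 * X) :
    t ^ E ≤ 2 ^ |E| * X ^ E := by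
  have h3 : t ^ E = (t / X) ^ E * X ^ E := by
    rw [← Real.mul_rpow (div_nonneg ht.le hX.le) hX.le, div_mul_cancel₀ _ hX.ne']
  rw [h3]
  refine mul_le_mul_of_nonneg_right ?_ (Real.rpow_nonneg hX.le _)
  have h4 : t / X ≤ 2 := by rwa [div_le_iff₀ hX]
  have h5 : 1 / 2 ≤ t / X := by
    rw [le_div_iff₀ hX]
    linarith
  have h6 : 0 < t / X := div_pos ht hX
  rcases le_total 0 E with hE | hE
  · rw [abs_of_nonneg hE]
    exact Real.rpow_le_rpow h6.le h4 hE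
  · rw [abs_of_nonpos hE]
    have h7 : (t / X) ^ E ≤ (1 / 2 : ℝ) ^ E := Real.rpow_le_rpow_of_nonpos (by norm_num) h5 hE
    have h8 : (1 / 2 : ℝ) ^ E = 2 ^ (-E) := by
      rw [one_div, Real.inv_rpow (by norm_num), Real.rpow_neg (by norm_num)]
    rwa [h8] at h7

/-- the measure of the set of large values -/
private lemma vol_h82 {H : ℝ → ℝ} (hH : IsSupp H) {θ κ : ℝ} (h1 : 1 / 2 < θ) (h2 : θ < 2 / 3) (hκ : 0 < κ) :
    ∃ C : ℝ, 0 ≤ C ∧ ∀ X : ℝ, 2 ≤ X →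
      volume {r : ℝ | r ∈ Icc (X / 2) (4 * X) ∧ r ^ θ < |erc H (0, 0) r|} ≤
        ENNReal.ofReal (C * X ^ (5 - 8 * θ + κ)) := by
  obtain ⟨C₁, hC₁⟩ := all_centres2 hH h1 h2 hκ
  obtain ⟨E, hE⟩ : ∃ E : ℝ, E = 5 - 8 * θ + κ := ⟨_, rfl⟩
  rw [← hE] at hC₁ ⊢
  refine ⟨3 * (|C₁| * 2 ^ |E|), by positivity, fun X hX => ?_⟩
  have hX0 : 0 < X := by linarith
  obtain ⟨A, hA⟩ : ∃ A : ℝ → Set ℝ, A = fun Y => {R : ℝ | R ∈ Icc Y (2 * Y) ∧
      ∃ c : ℝ × ℝ, R ^ θ < |cntc H c R - area H * R ^ 2|} := ⟨_, rfl⟩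
  have key : ∀ Y : ℝ, 1 ≤ Y → X ≤ 2 * Y → Y ≤ 2 * X →
      volume (A Y) ≤ ENNReal.ofReal (|C₁| * 2 ^ |E| * X ^ E) := by
    intro Y hY h3 h4
    rw [hA]
    refine (hC₁ Y hY).trans (ENNReal.ofReal_le_ofReal ?_)
    have h5 : Y ^ E ≤ 2 ^ |E| * X ^ E := pw_h82 hX0 (by linarith) h3 h4
    calc C₁ * Y ^ E ≤ |C₁| * Y ^ E := mul_le_mul_of_nonneg_right (le_abs_self _) (Real.rpow_nonneg (by linarith) _)
      _ ≤ |C₁| * (2 ^ |E| * X ^ E) := mul_le_mul_of_nonneg_left h5 (abs_nonneg _)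
      _ = |C₁| * 2 ^ |E| * X ^ E := by ring
  have hsub : {r : ℝ | r ∈ Icc (X / 2) (4 * X) ∧ r ^ θ < |erc H (0, 0) r|} ⊆
      A (X / 2) ∪ (A X ∪ A (2 * X)) := by
    rintro r ⟨⟨hr1, hr2⟩, hr3⟩
    rw [hA]
    have hc : ∃ c : ℝ × ℝ, r ^ θ < |cntc H c r - area H * r ^ 2| := ⟨(0, 0), hr3⟩
    rcases le_total r X with h | h
    · left
      exact ⟨⟨hr1, by linarith⟩, hc⟩
    · right
      rcases le_total r (2 * X) with h' | h'
      · left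
        exact ⟨⟨h, h'⟩, hc⟩
      · right
        exact ⟨⟨h', by linarith⟩, hc⟩
  obtain ⟨b, hb⟩ : ∃ b : ℝ, b = |C₁| * 2 ^ |E| * X ^ E := ⟨_, rfl⟩
  have hb0 : 0 ≤ b := by rw [hb]; positivity
  rw [← hb] at key
  have e : 3 * (|C₁| * 2 ^ |E|) * X ^ E = b + (b + b) := by rw [hb]; ring
  rw [e, ENNReal.ofReal_add hb0 (by linarith), ENNReal.ofReal_add hb0 hb0]
  refine (measure_mono hsub).trans ((measure_union_le _ _).trans ?_)
  refine add_le_add (key _ (by linarith) (by linarith) (by linarith)) ?_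
  refine (measure_union_le _ _).trans ?_
  exact add_le_add (key _ (by linarith) (by linarith) (by linarith)) (key _ (by linarith) (by linarith) (by linarith))

private lemma lay_h82 {H : ℝ → ℝ} {T : Set ℝ} {B V : ℝ} (hB : ∀ r ∈ T, |erc H (0, 0) r| ≤ B) (hB0 : 0 ≤ B)
    (hT : volume T ≤ ENNReal.ofReal V) :
    ∫⁻ r in T, ENNReal.ofReal |erc H (0, 0) r| ≤ ENNReal.ofReal (B * V) := by
  calc ∫⁻ r in T, ENNReal.ofReal |erc H (0, 0) r| ≤ ∫⁻ _ in T, ENNReal.ofReal B :=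
        setLIntegral_mono measurable_const (fun r hr => ENNReal.ofReal_le_ofReal (hB r hr))
    _ = ENNReal.ofReal B * volume T := setLIntegral_const _ _
    _ ≤ ENNReal.ofReal B * ENNReal.ofReal V := by gcongr
    _ = ENNReal.ofReal (B * V) := (ENNReal.ofReal_mul hB0).symm

/-- the product of the powers of `X` -/
private lemma prod_h82 {X a b E A V : ℝ} (hX : 2 ≤ X) (hA : 0 ≤ A) (hV : 0 ≤ V) (h : a + b ≤ E) :
    A * (4 * X) ^ a * (V * X ^ b) ≤ A * 4 ^ a * V * X ^ E := by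
  have hX0 : 0 < X := by linarith
  rw [Real.mul_rpow (by norm_num) hX0.le]
  calc A * (4 ^ a * X ^ a) * (V * X ^ b) = A * 4 ^ a * V * (X ^ a * X ^ b) := by ring
    _ = A * 4 ^ a * V * X ^ (a + b) := by rw [← Real.rpow_add hX0]
    _ ≤ A * 4 ^ a * V * X ^ E := by
        apply mul_le_mul_of_nonneg_left _ (by positivity)
        exact Real.rpow_le_rpow_of_exponent_le (by linarith) h

private lemma base_h82 {H : ℝ → ℝ} (hH : IsSupp H) {κ θ : ℝ} (hκ : 0 < κ) (h1 : 1 / 2 < θ) (h2 : θ < 2 / 3)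
    (h3 : 2 / 3 ≤ θ + κ) : ∃ C : ℝ, 0 ≤ C ∧ ∀ X : ℝ, 2 ≤ X →
      ∫⁻ r in {r : ℝ | r ∈ Icc (X / 2) (4 * X) ∧ r ^ θ < |erc H (0, 0) r|}, ENNReal.ofReal |erc H (0, 0) r| ≤
        ENNReal.ofReal (C * X ^ (5 - 7 * θ + 3 * κ)) := by
  obtain ⟨Cp, hCp, hp⟩ := pointwise hH hκ
  obtain ⟨Cv, hCv, hv⟩ := vol_h82 hH h1 h2 hκ
  refine ⟨Cp * 4 ^ (2 / 3 + κ) * Cv, by positivity, fun X hX => ?_⟩
  have hX0 : 0 < X := by linarith
  have h4 := lay_h82 (H := H) (T := {r : ℝ | r ∈ Icc (X / 2) (4 * X) ∧ r ^ θ < |erc H (0, 0) r|})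
    (B := Cp * (4 * X) ^ (2 / 3 + κ)) ?_ (by positivity) (hv X hX)
  · refine h4.trans (ENNReal.ofReal_le_ofReal ?_)
    exact prod_h82 hX hCp hCv (by linarith)
  · rintro r ⟨⟨hr1, hr2⟩, -⟩
    have hr0 : 1 ≤ r := by linarith
    refine (hp r hr0).trans (mul_le_mul_of_nonneg_left ?_ hCp)
    exact Real.rpow_le_rpow (by linarith) hr2 (by linarith)

private lemma ind_h82 {H : ℝ → ℝ} (hH : IsSupp H) {κ : ℝ} (hκ : 0 < κ) (n : ℕ) : ∀ θ : ℝ, 1 / 2 < θ → θ < 2 / 3 →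
    2 / 3 ≤ θ + (n + 1) * κ → ∃ C : ℝ, 0 ≤ C ∧ ∀ X : ℝ, 2 ≤ X →
      ∫⁻ r in {r : ℝ | r ∈ Icc (X / 2) (4 * X) ∧ r ^ θ < |erc H (0, 0) r|}, ENNReal.ofReal |erc H (0, 0) r| ≤
        ENNReal.ofReal (C * X ^ (5 - 7 * θ + 3 * κ)) := by
  induction n with
  | zero =>
    intro θ h1 h2 h3
    refine base_h82 hH hκ h1 h2 ?_
    push_cast at h3
    linarith
  | succ n ih =>
    intro θ h1 h2 h3
    rcases le_or_gt (2 / 3) (θ + κ) with h4 | h4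
    · exact base_h82 hH hκ h1 h2 h4
    · obtain ⟨C₁, hC₁, hI⟩ := ih (θ + κ) (by linarith) h4 (by push_cast at h3; linarith)
      obtain ⟨Cv, hCv, hv⟩ := vol_h82 hH h1 h2 hκ
      refine ⟨1 * 4 ^ (θ + κ) * Cv + C₁, by positivity, fun X hX => ?_⟩
      have hX0 : 0 < X := by linarith
      have hsub : {r : ℝ | r ∈ Icc (X / 2) (4 * X) ∧ r ^ θ < |erc H (0, 0) r|} ⊆
          {r : ℝ | (r ∈ Icc (X / 2) (4 * X) ∧ r ^ θ < |erc H (0, 0) r|) ∧ |erc H (0, 0) r| ≤ 1 * (4 * X) ^ (θ + κ)} ∪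
          {r : ℝ | r ∈ Icc (X / 2) (4 * X) ∧ r ^ (θ + κ) < |erc H (0, 0) r|} := by
        rintro r ⟨hr1, hr2⟩
        rcases lt_or_ge (r ^ (θ + κ)) |erc H (0, 0) r| with h5 | h5
        · right
          exact ⟨hr1, h5⟩
        · left
          refine ⟨⟨hr1, hr2⟩, h5.trans ?_⟩
          rw [one_mul]
          exact Real.rpow_le_rpow (by linarith [hr1.1]) hr1.2 (by linarith)
      refine (lintegral_mono_set hsub).trans ((lintegral_union_le _ _ _).trans ?_)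
      have h6 := lay_h82 (H := H)
        (T := {r : ℝ | (r ∈ Icc (X / 2) (4 * X) ∧ r ^ θ < |erc H (0, 0) r|) ∧ |erc H (0, 0) r| ≤ 1 * (4 * X) ^ (θ + κ)})
        (B := 1 * (4 * X) ^ (θ + κ)) (fun r hr => hr.2) (by positivity)
        ((measure_mono (fun r hr => hr.1)).trans (hv X hX))
      have h7 : 1 * (4 * X) ^ (θ + κ) * (Cv * X ^ (5 - 8 * θ + κ)) ≤ 1 * 4 ^ (θ + κ) * Cv * X ^ (5 - 7 * θ + 3 * κ) :=
        prod_h82 hX zero_le_one hCv (by linarith)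
      have h8 := hI X hX
      have h9 : C₁ * X ^ (5 - 7 * (θ + κ) + 3 * κ) ≤ C₁ * X ^ (5 - 7 * θ + 3 * κ) := by
        apply mul_le_mul_of_nonneg_left _ hC₁
        apply Real.rpow_le_rpow_of_exponent_le (by linarith)
        linarith
      rw [add_mul, ENNReal.ofReal_add (by positivity) (by positivity)]
      exact add_le_add (h6.trans (ENNReal.ofReal_le_ofReal h7)) (h8.trans (ENNReal.ofReal_le_ofReal h9))

theorem tail {H : ℝ → ℝ} (hH : IsSupp H) {θ₁ ε : ℝ} (h1 : 1 / 2 < θ₁) (h2 : θ₁ < 2 / 3) (hε : 0 < ε) : ∃ C : ℝ, 0 ≤ C ∧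
    ∀ X : ℝ, 2 ≤ X → ∫ r in {r : ℝ | r ∈ Icc (X / 2) (4 * X) ∧ r ^ θ₁ < |erc H (0, 0) r|}, |erc H (0, 0) r| ≤
      C * X ^ (5 - 7 * θ₁ + ε) := by
  obtain ⟨n, hn⟩ := exists_nat_ge ((2 / 3 - θ₁) / (ε / 3))
  have hκ : 0 < ε / 3 := by linarith
  rw [div_le_iff₀ hκ] at hn
  obtain ⟨C, hC, h⟩ := ind_h82 hH hκ n θ₁ h1 h2 (by nlinarith)
  refine ⟨C, hC, fun X hX => ?_⟩
  have hX0 : 0 < X := by linarith
  have h3 := h X hX
  have e : 5 - 7 * θ₁ + 3 * (ε / 3) = 5 - 7 * θ₁ + ε := by ring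
  rw [e] at h3
  have h4 := norm_integral_le_lintegral_norm (μ := volume.restrict {r : ℝ | r ∈ Icc (X / 2) (4 * X) ∧
    r ^ θ₁ < |erc H (0, 0) r|}) (fun r => |erc H (0, 0) r|)
  simp only [Real.norm_eq_abs, abs_abs] at h4
  refine (le_abs_self _).trans (h4.trans ?_)
  exact ENNReal.toReal_le_of_le_ofReal (by positivity) h3

end Pool.Agent.Helper22.SC
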