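import Pool.Agent.Helper22.SC.M1
import Pool.Agent.Helper22.SC.M2
import Pool.Agent.Helper92.EO.Av

/-!
# SC-M3: the measure of the bad radii is exactly of order `X^(5 - 8θ)`

PROOF. Replace `δ` by `min δ (1/4)`; `n s = (s + 20)!`, `D = max 1 (C₁/δ)`, `H` from `oval_seq` with `u = 0`. Let `1/2 < θ < 2/3`, `κ > 0` small (`2θ - 1 + κ < 1/3`, `θ + κ < 2/3`). `N = 2^(n s)`, `T = TT D n s = D 2^s N³`,
`J = ⌊N^(1/(2θ-1+κ)) / T⌋₊ ≥ 1` for large `s` (`1/(2θ-1+κ) > 3`, `2^s ≤ N^o(1)`), `X = J T ∈ [(1/2) N^(1/(2θ-1+κ)), N^(1/(2θ-1+κ))]`, `2J ≤ N^(1/(2θ-1)) · 2 ≤ 2^((s+20) n s)` for large `s`.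
`V = c₁ (X N)^(1/2) ≥ c₁ X^(θ + κ/2) ≥ (4X)^θ` for large `X`, so the set `B` of `first_moment` lies in `{|erc| > r^θ}`. With `θ₁ = θ + κ` and `tail` (`ε = κ`):
`c₁ (X N)^(1/2) J/N ≤ ∫_B |erc| ≤ C X^(5 - 7θ - 6κ) + (4X)^(θ+κ) |B|`. The left side is `≥ c₁ X^(3/2) N^(-7/2) / (D 2^s) ≥ X^(5 - 7θ - 4κ)` for large `s` (`N ≤ (2X)^(2θ-1+κ)`), so
`|B| ≥ X^(5 - 8θ - 6κ)` for large `s`. `[X/2, 4X]` is the union of `[Y, 2Y]`, `Y = X/2, X, 2X`; one of them contains a third of `B`. Take `κ` with `7κ ≤ ε`.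
-/

open MeasureTheory Real Set Filter Topology

set_option autoImplicit false

namespace Pool.Agent.Helper22.SC

open Pool.Agent.Helper22.AE Pool.Agent.Helper22.AC

private lemma m3_sq (s : ℕ) : s * s ≤ (s + 20).factorial := by
  have h1 : s + 19 ≤ (s + 19).factorial := Nat.self_le_factorial _
  have h2 : (s + 20).factorial = (s + 20) * (s + 19).factorial := Nat.factorial_succ _
  rw [h2]
  exact Nat.mul_le_mul (by omega) (by omega)

private lemma m3_seq : ∃ n : ℕ → ℕ, (∀ s, 1 ≤ n s) ∧ (∀ s, (s + 20) * n s ≤ n (s + 1)) ∧ ∀ s, s * s ≤ n s := by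
  refine ⟨fun s => (s + 20).factorial, fun s => Nat.factorial_pos _, fun s => ?_, m3_sq⟩
  show (s + 20) * (s + 20).factorial ≤ (s + 20 + 1).factorial
  rw [Nat.factorial_succ]
  exact Nat.mul_le_mul (by omega) le_rfl

private lemma m3_big {n : ℕ → ℕ} (hn : ∀ s, s * s ≤ n s) {a : ℝ} (ha : 0 < a) (K : ℝ) :
    ∀ᶠ s : ℕ in atTop, K * 2 ^ s ≤ ((2 : ℝ) ^ n s) ^ a := by
  obtain ⟨L, hL⟩ := pow_unbounded_of_one_lt K (by norm_num : (1:ℝ) < 2)
  filter_upwards [eventually_ge_atTop (⌈(1 + (L : ℝ)) / a⌉₊), eventually_ge_atTop 1] with s hs hs1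
  have h1 : (1 + (L : ℝ)) / a ≤ s := (Nat.le_ceil _).trans (by exact_mod_cast hs)
  have h2 : 1 + (L:ℝ) ≤ a * s := by
    rw [div_le_iff₀ ha] at h1
    linarith
  have h3 : ((s:ℝ) + L) ≤ (n s : ℝ) * a := by
    have h4 : (s:ℝ) * s ≤ (n s : ℝ) := by exact_mod_cast hn s
    have hs1' : (1:ℝ) ≤ s := by exact_mod_cast hs1
    have h5 : (s:ℝ) * s * a ≤ (n s : ℝ) * a := mul_le_mul_of_nonneg_right h4 ha.le
    have hL0 : (0:ℝ) ≤ L := Nat.cast_nonneg L
    have h6 : (s:ℝ) * (1 + L) ≤ s * (a * s) := mul_le_mul_of_nonneg_left h2 (by linarith)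
    nlinarith
  calc K * 2 ^ s ≤ 2 ^ L * 2 ^ s := mul_le_mul_of_nonneg_right hL.le (by positivity)
    _ = (2:ℝ) ^ ((s:ℝ) + L) := by
        rw [Real.rpow_add (by norm_num), Real.rpow_natCast, Real.rpow_natCast, mul_comm]
    _ ≤ (2:ℝ) ^ ((n s : ℝ) * a) := Real.rpow_le_rpow_of_exponent_le (by norm_num) h3
    _ = _ := by rw [Real.rpow_mul (by norm_num), Real.rpow_natCast]

private lemma m3_erc {H : ℝ → ℝ} (r : ℝ) : erc H (0, 0) r = cnt H r - area H * r ^ 2 := by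
  unfold erc cntc cnt
  simp only [sub_zero]

private lemma m3_meas {H : ℝ → ℝ} (hH : IsSupp H) :
    ∃ E : ℝ → ℝ, Measurable E ∧ ∀ r, 0 ≤ r → E r = erc H (0, 0) r := by
  have hm : Monotone fun r : ℝ => cnt H (max r 0) := by
    intro x y hxy
    exact Pool.Agent.Helper92.EO.cnt_mono hH (le_max_right x 0) (le_max_right y 0) (max_le_max hxy le_rfl)
  refine ⟨fun r => cnt H (max r 0) - area H * r ^ 2, hm.measurable.sub (by fun_prop), fun r hr => ?_⟩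
  rw [m3_erc]
  simp only [max_eq_left hr]

private lemma m3_msB {H : ℝ → ℝ} (hH : IsSupp H) {X : ℝ} (hX : 0 ≤ X) (V : ℝ) :
    MeasurableSet {r : ℝ | r ∈ Icc (X / 2) (4 * X) ∧ erc H (0, 0) r < V} := by
  obtain ⟨E, hE, hEe⟩ := m3_meas hH
  have e : {r : ℝ | r ∈ Icc (X / 2) (4 * X) ∧ erc H (0, 0) r < V} = Icc (X / 2) (4 * X) ∩ {r | E r < V} := by
    ext r
    simp only [mem_setOf_eq, mem_inter_iff]
    constructor
    · rintro ⟨h1, h2⟩
      exact ⟨h1, by rw [hEe r (by linarith [h1.1])]; exact h2⟩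
    · rintro ⟨h1, h2⟩
      exact ⟨h1, by rw [← hEe r (by linarith [h1.1])]; exact h2⟩
  rw [e]
  exact measurableSet_Icc.inter (measurableSet_lt hE measurable_const)

private lemma m3_msT {H : ℝ → ℝ} (hH : IsSupp H) {X : ℝ} (hX : 0 ≤ X) (θ : ℝ) :
    MeasurableSet {r : ℝ | r ∈ Icc (X / 2) (4 * X) ∧ r ^ θ < |erc H (0, 0) r|} := by
  obtain ⟨E, hE, hEe⟩ := m3_meas hH
  have e : {r : ℝ | r ∈ Icc (X / 2) (4 * X) ∧ r ^ θ < |erc H (0, 0) r|} =
      Icc (X / 2) (4 * X) ∩ {r | r ^ θ < |E r|} := by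
    ext r
    simp only [mem_setOf_eq, mem_inter_iff]
    constructor
    · rintro ⟨h1, h2⟩
      exact ⟨h1, by rw [hEe r (by linarith [h1.1])]; exact h2⟩
    · rintro ⟨h1, h2⟩
      exact ⟨h1, by rw [← hEe r (by linarith [h1.1])]; exact h2⟩
  rw [e]
  exact measurableSet_Icc.inter (measurableSet_lt (by fun_prop) hE.abs)

private lemma m3_split {H : ℝ → ℝ} (hH : IsSupp H) {X : ℝ} (hX : 0 < X) (V θ : ℝ) (hθ : 0 ≤ θ) :
    ∫ r in {r : ℝ | r ∈ Icc (X / 2) (4 * X) ∧ erc H (0, 0) r < V}, |erc H (0, 0) r| ≤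
      (∫ r in {r : ℝ | r ∈ Icc (X / 2) (4 * X) ∧ r ^ θ < |erc H (0, 0) r|}, |erc H (0, 0) r|) +
        (4 * X) ^ θ * volume.real {r : ℝ | r ∈ Icc (X / 2) (4 * X) ∧ erc H (0, 0) r < V} := by
  set B : Set ℝ := {r : ℝ | r ∈ Icc (X / 2) (4 * X) ∧ erc H (0, 0) r < V} with hB
  set T : Set ℝ := {r : ℝ | r ∈ Icc (X / 2) (4 * X) ∧ r ^ θ < |erc H (0, 0) r|} with hT
  have hBm : MeasurableSet B := m3_msB hH hX.le V
  have hTm : MeasurableSet T := m3_msT hH hX.le θ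
  have hBs : B ⊆ Icc (X / 2) (4 * X) := fun r hr => hr.1
  have hTs : T ⊆ Icc (X / 2) (4 * X) := fun r hr => hr.1
  have hI : IntegrableOn (fun r => |erc H (0, 0) r|) (Icc (X / 2) (4 * X)) := by
    have h := erc_int hH (0, 0) (a := X / 2) (b := 4 * X) (by positivity) (by linarith)
    rw [intervalIntegrable_iff_integrableOn_Icc_of_le (by linarith)] at h
    exact h.abs
  have hIB : IntegrableOn (fun r => |erc H (0, 0) r|) B := hI.mono_set hBs
  have hIT : IntegrableOn (fun r => |erc H (0, 0) r|) T := hI.mono_set hTs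
  have hfin : volume B ≠ ⊤ := by
    refine ne_top_of_le_ne_top ?_ (measure_mono hBs)
    rw [Real.volume_Icc]
    exact ENNReal.ofReal_ne_top
  rw [← integral_inter_add_diff hTm hIB]
  refine add_le_add ?_ ?_
  · exact setIntegral_mono_set hIT (Eventually.of_forall fun r => abs_nonneg _)
      (HasSubset.Subset.eventuallyLE inter_subset_right)
  · have hd : volume (B \ T) ≠ ⊤ := ne_top_of_le_ne_top hfin (measure_mono diff_subset)
    calc ∫ r in B \ T, |erc H (0, 0) r| ≤ ∫ _r in B \ T, (4 * X) ^ θ := by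
          refine setIntegral_mono_on (hIB.mono_set diff_subset) (integrableOn_const hd) (hBm.diff hTm) ?_
          intro r hr
          have h1 := hBs hr.1
          have h2 : ¬ r ^ θ < |erc H (0, 0) r| := fun h => hr.2 ⟨h1, h⟩
          rw [not_lt] at h2
          exact h2.trans (Real.rpow_le_rpow (by linarith [h1.1]) h1.2 hθ)
      _ = (4 * X) ^ θ * volume.real (B \ T) := by
          rw [setIntegral_const, smul_eq_mul, mul_comm]
      _ ≤ (4 * X) ^ θ * volume.real B := by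
          refine mul_le_mul_of_nonneg_left ?_ (by positivity)
          exact measureReal_mono diff_subset hfin

private lemma m3_cover {X a θ : ℝ} (hX : 0 < X) (ha : 0 ≤ a) {E : ℝ → ℝ} {B : Set ℝ}
    (hB : B ⊆ Icc (X / 2) (4 * X)) (hBE : ∀ r ∈ B, r ^ θ < |E r|) (h : 3 * a ≤ volume.real B) :
    ∃ Y : ℝ, (Y = X / 2 ∨ Y = X ∨ Y = 2 * X) ∧
      ENNReal.ofReal a ≤ volume {R : ℝ | R ∈ Icc Y (2 * Y) ∧ R ^ θ < |E R|} := by
  by_contra hc
  push Not at hc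
  have h1 := hc (X / 2) (Or.inl rfl)
  have h2 := hc X (Or.inr (Or.inl rfl))
  have h3 := hc (2 * X) (Or.inr (Or.inr rfl))
  have hsub : B ⊆ ({R : ℝ | R ∈ Icc (X / 2) (2 * (X / 2)) ∧ R ^ θ < |E R|} ∪
      {R : ℝ | R ∈ Icc X (2 * X) ∧ R ^ θ < |E R|}) ∪
      {R : ℝ | R ∈ Icc (2 * X) (2 * (2 * X)) ∧ R ^ θ < |E R|} := by
    intro r hr
    have hr1 := hB hr
    have hr2 := hBE r hr
    rcases le_total r X with hx | hx
    · exact Or.inl (Or.inl ⟨⟨hr1.1, by linarith⟩, hr2⟩)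
    · rcases le_total r (2 * X) with hy | hy
      · exact Or.inl (Or.inr ⟨⟨hx, hy⟩, hr2⟩)
      · exact Or.inr ⟨⟨hy, by linarith [hr1.2]⟩, hr2⟩
  have h4 : volume B < ENNReal.ofReal a + ENNReal.ofReal a + ENNReal.ofReal a := by
    refine (measure_mono hsub).trans_lt ?_
    refine (measure_union_le _ _).trans_lt ?_
    refine lt_of_le_of_lt (add_le_add (measure_union_le _ _) le_rfl) ?_
    exact ENNReal.add_lt_add (ENNReal.add_lt_add h1 h2) h3
  have h5 : ENNReal.ofReal a + ENNReal.ofReal a + ENNReal.ofReal a = ENNReal.ofReal (3 * a) := by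
    rw [← ENNReal.ofReal_add ha ha, ← ENNReal.ofReal_add (by positivity) ha]
    congr 1
    ring
  rw [h5] at h4
  have hfin : volume B ≠ ⊤ := (h4.trans_le le_top).ne
  have h6 : ENNReal.ofReal (3 * a) ≤ volume B := by
    rw [← ENNReal.ofReal_toReal hfin]
    exact ENNReal.ofReal_le_ofReal h
  exact absurd h4 (not_lt.mpr h6)

private lemma m3_num {c₁ C D θ κ X N J P m : ℝ} (hc : 0 < c₁) (hD : 1 ≤ D)
    (h1 : 1 / 2 < θ) (hκ : 0 < κ) (h2 : θ + κ < 2 / 3) (hP : 1 ≤ P) (hN : 2 ≤ N) (hNX : N ≤ X)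
    (hNX2 : N ≤ (2 * X) ^ (2 * θ - 1 + κ)) (hXJ : X = J * (D * P * N ^ 3))
    (hb1 : 4 * D / c₁ * P ≤ N ^ (κ / 2)) (hb2 : 2 * C ≤ N ^ (2 * κ)) (hb3 : 192 ≤ N ^ (2 * κ)) (hm0 : 0 ≤ m)
    (hm : c₁ * (X * N) ^ (1 / 2 : ℝ) * (J / N) ≤ C * X ^ (5 - 7 * (θ + κ) + κ) + (4 * X) ^ (θ + κ) * m) :
    24 * X ^ (5 - 8 * θ - 7 * κ) ≤ m := by
  have hX0 : 0 < X := by linarith
  have hX1 : 1 ≤ X := by linarith
  have hN0 : 0 < N := by linarith
  have hD0 : 0 < D := by linarith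
  have hP0 : 0 < P := by linarith
  have hη : 0 < 2 * θ - 1 + κ := by linarith
  have hη3 : 2 * θ - 1 + κ < 1 / 3 := by linarith
  have hXκ : N ^ (κ / 2) ≤ X ^ (κ / 2) := Real.rpow_le_rpow hN0.le hNX (by positivity)
  have hX2κ : N ^ (2 * κ) ≤ X ^ (2 * κ) := Real.rpow_le_rpow hN0.le hNX (by positivity)
  -- the left side
  have hJ : J = X / (D * P * N ^ 3) := by
    rw [hXJ]
    field_simp
  have hN72 : N ^ (7 / 2 : ℝ) ≤ 4 * X ^ (7 / 2 * (2 * θ - 1 + κ)) := by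
    calc N ^ (7 / 2 : ℝ) ≤ ((2 * X) ^ (2 * θ - 1 + κ)) ^ (7 / 2 : ℝ) :=
          Real.rpow_le_rpow hN0.le hNX2 (by norm_num)
      _ = (2 * X) ^ (7 / 2 * (2 * θ - 1 + κ)) := by
          rw [← Real.rpow_mul (by positivity), mul_comm (7 / 2 : ℝ)]
      _ = 2 ^ (7 / 2 * (2 * θ - 1 + κ)) * X ^ (7 / 2 * (2 * θ - 1 + κ)) :=
          Real.mul_rpow (by norm_num) hX0.le
      _ ≤ 4 * X ^ (7 / 2 * (2 * θ - 1 + κ)) := by
          refine mul_le_mul_of_nonneg_right ?_ (by positivity)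
          calc (2:ℝ) ^ (7 / 2 * (2 * θ - 1 + κ)) ≤ (2:ℝ) ^ (2:ℝ) :=
                Real.rpow_le_rpow_of_exponent_le (by norm_num) (by linarith)
            _ = 4 := by norm_num
  have hL : X ^ (5 - 7 * θ - 4 * κ) ≤ c₁ * (X * N) ^ (1 / 2 : ℝ) * (J / N) := by
    have e1 : c₁ * (X * N) ^ (1 / 2 : ℝ) * (J / N) = c₁ / (D * P) * (X ^ (3 / 2 : ℝ) / N ^ (7 / 2 : ℝ)) := by
      rw [hJ, Real.mul_rpow hX0.le hN0.le]
      have e2 : X ^ (3 / 2 : ℝ) = X ^ (1 / 2 : ℝ) * X := by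
        rw [show (3 / 2 : ℝ) = 1 / 2 + 1 by norm_num, Real.rpow_add hX0, Real.rpow_one]
      have e3 : N ^ (7 / 2 : ℝ) * N ^ (1 / 2 : ℝ) = N ^ 4 := by
        rw [← Real.rpow_add hN0, ← Real.rpow_natCast]
        norm_num
      have hp : N ^ (7 / 2 : ℝ) ≠ 0 := (Real.rpow_pos_of_pos hN0 _).ne'
      rw [e2]
      field_simp
      rw [← e3]
      ring
    rw [e1]
    have hx : c₁ / (D * P) * (X ^ (3 / 2 : ℝ) / N ^ (7 / 2 : ℝ)) ≥
        c₁ / (D * P) * (X ^ (3 / 2 : ℝ) / (4 * X ^ (7 / 2 * (2 * θ - 1 + κ)))) := by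
      apply mul_le_mul_of_nonneg_left _ (by positivity)
      exact div_le_div_of_nonneg_left (by positivity) (Real.rpow_pos_of_pos hN0 _) hN72
    refine le_trans ?_ hx
    have e4 : X ^ (3 / 2 : ℝ) / (4 * X ^ (7 / 2 * (2 * θ - 1 + κ))) =
        1 / 4 * (X ^ (5 - 7 * θ - 4 * κ) * X ^ (κ / 2)) := by
      rw [← Real.rpow_add hX0]
      have : (5 - 7 * θ - 4 * κ + κ / 2) = 3 / 2 - 7 / 2 * (2 * θ - 1 + κ) := by ring
      rw [this, Real.rpow_sub hX0]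
      field_simp
    rw [e4]
    have h5 : 1 ≤ c₁ / (4 * (D * P)) * X ^ (κ / 2) := by
      rw [div_mul_eq_mul_div, le_div_iff₀ (by positivity)]
      have h6 := hb1.trans hXκ
      rw [div_mul_eq_mul_div, div_le_iff₀ hc] at h6
      linarith
    calc X ^ (5 - 7 * θ - 4 * κ) = X ^ (5 - 7 * θ - 4 * κ) * 1 := (mul_one _).symm
      _ ≤ X ^ (5 - 7 * θ - 4 * κ) * (c₁ / (4 * (D * P)) * X ^ (κ / 2)) :=
          mul_le_mul_of_nonneg_left h5 (by positivity)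
      _ = c₁ / (D * P) * (1 / 4 * (X ^ (5 - 7 * θ - 4 * κ) * X ^ (κ / 2))) := by
          field_simp
  have hR : C * X ^ (5 - 7 * (θ + κ) + κ) ≤ 1 / 2 * X ^ (5 - 7 * θ - 4 * κ) := by
    have e5 : X ^ (5 - 7 * θ - 4 * κ) = X ^ (2 * κ) * X ^ (5 - 7 * (θ + κ) + κ) := by
      rw [← Real.rpow_add hX0]
      congr 1
      ring
    rw [e5, ← mul_assoc]
    refine mul_le_mul_of_nonneg_right ?_ (by positivity)
    linarith [hb2.trans hX2κ]
  have h4X : (4 * X) ^ (θ + κ) ≤ 4 * X ^ (θ + κ) := by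
    rw [Real.mul_rpow (by norm_num) hX0.le]
    refine mul_le_mul_of_nonneg_right ?_ (by positivity)
    calc (4:ℝ) ^ (θ + κ) ≤ (4:ℝ) ^ (1:ℝ) := Real.rpow_le_rpow_of_exponent_le (by norm_num) (by linarith)
      _ = 4 := by norm_num
  have hF : 1 / 2 * X ^ (5 - 7 * θ - 4 * κ) ≤ 4 * X ^ (θ + κ) * m := by
    have h7 : (4 * X) ^ (θ + κ) * m ≤ 4 * X ^ (θ + κ) * m := mul_le_mul_of_nonneg_right h4X hm0
    linarith
  have e6 : X ^ (5 - 7 * θ - 4 * κ) = X ^ (θ + κ) * X ^ (5 - 8 * θ - 5 * κ) := by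
    rw [← Real.rpow_add hX0]
    congr 1
    ring
  have hp : 0 < X ^ (θ + κ) := Real.rpow_pos_of_pos hX0 _
  have h8 : X ^ (5 - 8 * θ - 5 * κ) ≤ 8 * m := by
    rw [e6] at hF
    have : X ^ (θ + κ) * X ^ (5 - 8 * θ - 5 * κ) ≤ X ^ (θ + κ) * (8 * m) := by linarith
    exact le_of_mul_le_mul_left this hp
  have e7 : X ^ (5 - 8 * θ - 5 * κ) = X ^ (2 * κ) * X ^ (5 - 8 * θ - 7 * κ) := by
    rw [← Real.rpow_add hX0]
    congr 1
    ring
  have h9 : 192 * X ^ (5 - 8 * θ - 7 * κ) ≤ X ^ (2 * κ) * X ^ (5 - 8 * θ - 7 * κ) :=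
    mul_le_mul_of_nonneg_right (hb3.trans hX2κ) (by positivity)
  linarith

theorem exact_radii {δ : ℝ} (hδ : 0 < δ) : ∃ H : ℝ → ℝ, Near δ H ∧ IsSupp H ∧ ∀ θ : ℝ, 1 / 2 < θ → θ < 2 / 3 → ∀ ε : ℝ, 0 < ε →
    ∀ X₀ : ℝ, ∃ X : ℝ, X₀ ≤ X ∧ 1 ≤ X ∧ ENNReal.ofReal (X ^ (5 - 8 * θ - ε)) ≤
      volume {R : ℝ | R ∈ Icc X (2 * X) ∧ R ^ θ < |erc H (0, 0) R|} := by
  obtain ⟨C₁, hC₁, hO⟩ := oval_seq
  set δ' : ℝ := min δ (1 / 4) with hδ'
  have hδ'0 : 0 < δ' := lt_min hδ (by norm_num)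
  have hδ'4 : δ' ≤ 1 / 4 := min_le_right _ _
  set D : ℝ := max 1 (C₁ / δ') with hDdef
  have hD : 1 ≤ D := le_max_left _ _
  have hDC : C₁ / δ' ≤ D := le_max_right _ _
  have hδ'1 : δ' ≤ δ := min_le_left _ _
  clear_value D δ'
  obtain ⟨n, hn, hg, hsq⟩ := m3_seq
  obtain ⟨H, hH, hA⟩ := hO δ' D hδ'0 hDC hD (fun _ => (0, 0)) n hn hg
  have hS : IsSupp H := isSupp_of_near hδ'4 hH
  refine ⟨H, ⟨hH.smooth, hH.per, fun t => (hH.d0 t).trans hδ'1,
    fun t => (hH.d1 t).trans hδ'1, fun t => (hH.d2 t).trans hδ'1⟩, hS, ?_⟩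
  intro θ h1 h2 ε hε X₀
  obtain ⟨c₁, s₀, hc₁, hfm⟩ := first_moment hD hδ'4 hH hn hg hA
  set κ : ℝ := min (ε / 7) ((2 / 3 - θ) / 2) with hκdef
  have hκ : 0 < κ := lt_min (by positivity) (by linarith)
  have hκε : 7 * κ ≤ ε := by
    have := min_le_left (ε / 7) ((2 / 3 - θ) / 2)
    linarith
  have hκθ : θ + κ < 2 / 3 := by
    have := min_le_right (ε / 7) ((2 / 3 - θ) / 2)
    linarith
  obtain ⟨C, hC, htail⟩ := tail hS (θ₁ := θ + κ) (ε := κ) (by linarith) hκθ hκ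
  set η : ℝ := 2 * θ - 1 + κ with hηdef
  have hη : 0 < η := by linarith
  have hη3 : η < 1 / 3 := by linarith
  clear_value κ
  clear_value η
  have hη' : 3 < 1 / η := by
    rw [lt_div_iff₀ hη]
    linarith
  -- the large stage
  have hev := (((m3_big hsq (a := 1 / η - 3) (by linarith) D).and (m3_big hsq (a := κ / 2) (by positivity) (4 * D / c₁))).and
    ((m3_big hsq (a := 2 * κ) (by positivity) (2 * C)).and (m3_big hsq (a := 2 * κ) (by positivity) 192))).and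
    (((m3_big hsq (a := κ / 2) (by positivity) (4 / c₁)).and (m3_big hsq (a := 1) one_pos (2 * (|X₀| + 1)))).and
    ((eventually_ge_atTop s₀).and (eventually_ge_atTop ⌈1 / η⌉₊)))
  obtain ⟨s, ⟨⟨hbT, hb1⟩, hb2, hb3⟩, ⟨hb4, hb5⟩, hs0, hs1⟩ := hev.exists
  set N : ℝ := 2 ^ n s with hNdef
  set P : ℝ := 2 ^ s with hPdef
  have hP : 1 ≤ P := one_le_pow₀ (by norm_num)
  have hN2 : 2 ≤ N := by
    calc (2:ℝ) = 2 ^ 1 := by norm_num
      _ ≤ 2 ^ n s := pow_le_pow_right₀ (by norm_num) (hn s)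
  clear_value N P
  have hN0 : 0 < N := by linarith
  have hN1 : 1 ≤ N := by linarith
  have h8 : (8:ℝ) ^ n s = N ^ 3 := by
    rw [hNdef, ← pow_mul, mul_comm, pow_mul]
    norm_num
  have hTT : TT D n s = D * P * N ^ 3 := by
    unfold TT
    rw [h8, hPdef]
  set T : ℝ := D * P * N ^ 3 with hTdef
  have hT0 : 0 < T := by positivity
  clear_value T
  set Q : ℝ := N ^ (1 / η) with hQdef
  have hTQ : T ≤ Q := by
    have e : Q = N ^ (1 / η - 3) * N ^ 3 := by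
      rw [hQdef, ← Real.rpow_natCast, ← Real.rpow_add hN0]
      norm_num
    rw [e, hTdef]
    exact mul_le_mul_of_nonneg_right hbT (by positivity)
  have hQ0 : 0 < Q := hT0.trans_le hTQ
  have hQT : 1 ≤ Q / T := (one_le_div hT0).mpr hTQ
  clear_value Q
  set J : ℕ := ⌊Q / T⌋₊ with hJdef
  have hJ1 : 1 ≤ J := by
    rw [hJdef, Nat.one_le_floor_iff]
    exact hQT
  have hJ1' : (1:ℝ) ≤ J := by exact_mod_cast hJ1
  have hJle : (J : ℝ) ≤ Q / T := Nat.floor_le (by positivity)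
  have hJge : Q / T ≤ 2 * J := by
    have := Nat.lt_floor_add_one (Q / T)
    rw [← hJdef] at this
    linarith
  clear_value J
  set X : ℝ := J * T with hXdef
  clear_value X
  have hXQ : X ≤ Q := by
    rw [hXdef]
    exact (le_div_iff₀ hT0).mp hJle
  have hQX : Q ≤ 2 * X := by
    have := (div_le_iff₀ hT0).mp hJge
    rw [hXdef]
    linarith
  have hNX : N ≤ X := by
    have h3 : N * N * N ≤ Q := by
      have h4 : N ^ (3:ℝ) = N * N * N := by
        rw [show (3:ℝ) = ((3:ℕ):ℝ) by norm_num, Real.rpow_natCast]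
        ring
      rw [← h4, hQdef]
      exact Real.rpow_le_rpow_of_exponent_le hN1 hη'.le
    have h5 : 2 * N ≤ N * N * N := by
      have h6 : 2 * 2 ≤ N * N := mul_le_mul hN2 hN2 (by norm_num) hN0.le
      nlinarith
    linarith
  have hX2 : 2 ≤ X := hN2.trans hNX
  have hX0 : 0 < X := by linarith
  have hX1 : 1 ≤ X := by linarith
  -- the condition on J
  have h2J : 2 * J ≤ 2 ^ ((s + 20) * n s) := by
    have hr : (2 * J : ℝ) ≤ (2:ℝ) ^ ((s + 20) * n s) := by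
      have h3 : (2:ℝ) * J ≤ N * N ^ (1 / η) := by
        have hT1 : 1 ≤ T := by
          rw [hTdef]
          have : 1 ≤ N ^ 3 := one_le_pow₀ hN1
          exact one_le_mul_of_one_le_of_one_le (one_le_mul_of_one_le_of_one_le hD hP) this
        have h4 : (J:ℝ) ≤ Q := by
          refine hJle.trans (div_le_self (by positivity) hT1)
        rw [← hQdef]
        exact mul_le_mul hN2 h4 (by linarith) (by linarith)
      have h4 : N * N ^ (1 / η) = N ^ (1 + 1 / η) := by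
        rw [Real.rpow_add hN0, Real.rpow_one]
      have h5 : N ^ (1 + 1 / η) ≤ N ^ (((s + 20 : ℕ)) : ℝ) := by
        refine Real.rpow_le_rpow_of_exponent_le hN1 ?_
        have : 1 / η ≤ s := (Nat.le_ceil _).trans (by exact_mod_cast hs1)
        push_cast
        linarith
      have h6 : N ^ (((s + 20 : ℕ)) : ℝ) = (2:ℝ) ^ ((s + 20) * n s) := by
        rw [Real.rpow_natCast, hNdef, ← pow_mul, mul_comm]
      rw [← h6]
      linarith [h3.trans (h4.le.trans h5)]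
    exact_mod_cast hr
  have hfm' := hfm s hs0 J hJ1 h2J X (by rw [hXdef, hTT])
  have hN' : (2:ℝ) ^ n s = N := hNdef.symm
  rw [hN'] at hfm'
  set V : ℝ := c₁ * (X * N) ^ (1 / 2 : ℝ) with hVdef
  set B : Set ℝ := {r : ℝ | r ∈ Icc (X / 2) (4 * X) ∧ erc H (0, 0) r < -V} with hBdef
  have hsplit := m3_split hS hX0 (-V) (θ + κ) (by linarith)
  have htl := htail X hX2
  have hXη : X ^ η ≤ N := by
    calc X ^ η ≤ Q ^ η := Real.rpow_le_rpow hX0.le hXQ hη.le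
      _ = N := by
        rw [hQdef, ← Real.rpow_mul hN0.le, one_div, inv_mul_cancel₀ hη.ne', Real.rpow_one]
  have hNη : N ≤ (2 * X) ^ η := by
    calc N = Q ^ η := by
          rw [hQdef, ← Real.rpow_mul hN0.le, one_div, inv_mul_cancel₀ hη.ne', Real.rpow_one]
      _ ≤ (2 * X) ^ η := Real.rpow_le_rpow (by positivity) hQX hη.le
  have hkey : 24 * X ^ (5 - 8 * θ - 7 * κ) ≤ volume.real B := by
    refine m3_num (J := (J:ℝ)) (P := P) (N := N) (C := C) hc₁ hD h1 hκ hκθ hP hN2 hNX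
      (by rw [← hηdef]; exact hNη) (by rw [hXdef, hTdef]) hb1 ?_ ?_ measureReal_nonneg ?_
    · rcases le_or_gt 0 C with h | h
      · refine le_trans ?_ hb2
        exact le_mul_of_one_le_right (by positivity) hP
      · linarith
    · refine le_trans ?_ hb3
      exact le_mul_of_one_le_right (by positivity) hP
    · refine hfm'.trans (hsplit.trans ?_)
      exact add_le_add htl le_rfl
  have hBE : ∀ r ∈ B, r ^ θ < |erc H (0, 0) r| := by
    intro r hr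
    have hr1 := hr.1
    have hr2 := hr.2
    have h3 : r ^ θ ≤ (4 * X) ^ θ := Real.rpow_le_rpow (by linarith [hr1.1]) hr1.2 (by linarith)
    have h4 : (4 * X) ^ θ ≤ 4 * X ^ θ := by
      rw [Real.mul_rpow (by norm_num) hX0.le]
      refine mul_le_mul_of_nonneg_right ?_ (by positivity)
      calc (4:ℝ) ^ θ ≤ (4:ℝ) ^ (1:ℝ) := Real.rpow_le_rpow_of_exponent_le (by norm_num) (by linarith)
        _ = 4 := by norm_num
    have h5 : X ^ (θ + κ / 2) ≤ (X * N) ^ (1 / 2 : ℝ) := by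
      have e : X ^ (θ + κ / 2) = (X * X ^ η) ^ (1 / 2 : ℝ) := by
        have e1 : X * X ^ η = X ^ (1 + η) := by
          rw [Real.rpow_add hX0, Real.rpow_one]
        rw [e1, ← Real.rpow_mul hX0.le]
        congr 1
        rw [hηdef]
        ring
      rw [e]
      exact Real.rpow_le_rpow (by positivity) (mul_le_mul_of_nonneg_left hXη hX0.le) (by norm_num)
    have h6 : 4 ≤ c₁ * X ^ (κ / 2) := by
      have h7 : 4 / c₁ ≤ X ^ (κ / 2) := by
        have h8 : 4 / c₁ ≤ 4 / c₁ * P := le_mul_of_one_le_right (by positivity) hP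
        exact h8.trans (hb4.trans (Real.rpow_le_rpow hN0.le hNX (by positivity)))
      rw [div_le_iff₀ hc₁] at h7
      linarith
    have h7 : 4 * X ^ θ ≤ V := by
      calc 4 * X ^ θ ≤ c₁ * X ^ (κ / 2) * X ^ θ := mul_le_mul_of_nonneg_right h6 (by positivity)
        _ = c₁ * X ^ (θ + κ / 2) := by
            rw [mul_assoc, ← Real.rpow_add hX0, add_comm (κ / 2)]
        _ ≤ V := mul_le_mul_of_nonneg_left h5 hc₁.le
    have h9 : V < |erc H (0, 0) r| := by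
      have := neg_le_abs (erc H (0, 0) r)
      linarith
    linarith
  obtain ⟨Y, hY, hYv⟩ := m3_cover (a := 8 * X ^ (5 - 8 * θ - 7 * κ)) (θ := θ) hX0 (by positivity)
    (fun r hr => hr.1) hBE (by linarith)
  have hYlow : X / 2 ≤ Y := by
    rcases hY with h | h | h <;> rw [h] <;> linarith
  have hXX : |X₀| + 1 ≤ X / 2 := by
    have h3 : 2 * (|X₀| + 1) ≤ 2 * (|X₀| + 1) * P := le_mul_of_one_le_right (by positivity) hP
    rw [Real.rpow_one] at hb5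
    linarith
  have hY1 : 1 ≤ Y := by linarith [abs_nonneg X₀]
  refine ⟨Y, by linarith [le_abs_self X₀], hY1, le_trans (ENNReal.ofReal_le_ofReal ?_) hYv⟩
  have h3 : Y ^ (5 - 8 * θ - ε) ≤ Y ^ (5 - 8 * θ - 7 * κ) :=
    Real.rpow_le_rpow_of_exponent_le hY1 (by linarith)
  refine h3.trans ?_
  have hp1 : 5 - 8 * θ - 7 * κ ≤ 3 := by linarith
  have hp2 : -(5 - 8 * θ - 7 * κ) ≤ 3 := by linarith
  have h4 : ∀ t : ℝ, t ≤ 3 → (2:ℝ) ^ t ≤ 8 := by
    intro t ht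
    calc (2:ℝ) ^ t ≤ (2:ℝ) ^ (3:ℝ) := Real.rpow_le_rpow_of_exponent_le (by norm_num) ht
      _ = 8 := by norm_num
  have hXp : 0 ≤ X ^ (5 - 8 * θ - 7 * κ) := by positivity
  rcases hY with h | h | h
  · rw [h, div_eq_mul_inv, mul_comm X, Real.mul_rpow (by norm_num) hX0.le, Real.inv_rpow (by norm_num),
      ← Real.rpow_neg (by norm_num)]
    exact mul_le_mul_of_nonneg_right (h4 _ hp2) hXp
  · rw [h]
    linarith
  · rw [h, Real.mul_rpow (by norm_num) hX0.le]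
    exact mul_le_mul_of_nonneg_right (h4 _ hp1) hXp

end Pool.Agent.Helper22.SC
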