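import Pool.Agent.Helper22.SC.U7
import Pool.Agent.Helper22.AC.E2
import Pool.Agent.Helper22.AC.E3

/-!
# SC-U9: almost all radii, all centres (C² version of AC/E2.lean and AC/E3.lean)

PROOF. Copy AC/E2.lean (`meas_block`) with `bad_radii2`: in the middle range `‖VKc‖ ≤ C₁ (R₀^(θ'-e) + 2^n)` and `2^n ≤ R₀^(1-θ'+e2) ≤ R₀^(θ'-e)`; for this `exps2` (AC/E2a.lean; `θ' = θ - t`,
`e = e2 = ε' = t ≤ (2θ-1)/10`) needs the additional conclusion `e + e2 ≤ 2θ' - 1` (state and prove a variant). Then copy AC/E3.lean without `h3`.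
-/

open MeasureTheory Real Set Filter Topology

set_option autoImplicit false

namespace Pool.Agent.Helper22.SC

open Pool.Agent.Helper22.AE Pool.Agent.Helper22.AC

private theorem exps3 {θ ε : ℝ} (h1 : 1 / 2 < θ) (h2 : θ < 2 / 3) (hε : 0 < ε) : ∃ θ' e e2 ε' : ℝ, 0 < e ∧ 0 < e2 ∧ 0 < ε' ∧
    ε' ≤ 1 ∧ 1 / 2 < θ' ∧ θ' < θ ∧ 2 * e < 2 * θ' - 1 ∧ 1 - θ' + e2 < 1 ∧ e + e2 ≤ 2 * θ' - 1 ∧
    4 - 6 * θ' + 6 * e - (1 - ε') * (2 * θ' - 1 - 2 * e) ≤ 5 - 8 * θ + ε / 2 ∧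
    3 - 6 * θ' + 6 * e + (2 + ε') * (1 - θ' + e2) ≤ 5 - 8 * θ + ε / 2 := by
  obtain ⟨t, ht0, ht1, ht2, ht3⟩ : ∃ t : ℝ, 0 < t ∧ t ≤ ε / 36 ∧ t ≤ (2 * θ - 1) / 10 ∧ t ≤ 1 / 10 :=
    ⟨min (ε / 36) (min ((2 * θ - 1) / 10) (1 / 10)),
      lt_min (by linarith) (lt_min (by linarith) (by norm_num)), min_le_left _ _,
      (min_le_right _ _).trans (min_le_left _ _), (min_le_right _ _).trans (min_le_right _ _)⟩
  refine ⟨θ - t, t, t, t, ht0, ht0, ht0, by linarith, by linarith, by linarith, by linarith,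
    by linarith, by linarith, ?_, ?_⟩
  · have h3 : t * (2 * θ - 1 - 4 * t) ≤ t * 1 := mul_le_mul_of_nonneg_left (by linarith) ht0.le
    have h4 : 4 - 6 * (θ - t) + 6 * t - (1 - t) * (2 * (θ - t) - 1 - 2 * t) =
        5 - 8 * θ + 16 * t + t * (2 * θ - 1 - 4 * t) := by ring
    rw [h4]
    linarith
  · have h3 : t * (1 - θ + 2 * t) ≤ t * 1 := mul_le_mul_of_nonneg_left (by linarith) ht0.le
    have h4 : 3 - 6 * (θ - t) + 6 * t + (2 + t) * (1 - (θ - t) + t) =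
        5 - 8 * θ + 16 * t + t * (1 - θ + 2 * t) := by ring
    rw [h4]
    linarith

private lemma h34_pow (N : ℕ) (x : ℝ) : ((2 : ℝ) ^ N) ^ x = (2 : ℝ) ^ ((N : ℝ) * x) := by
  rw [← Real.rpow_natCast 2 N, ← Real.rpow_mul (by norm_num)]

private lemma h34_card (N n : ℕ) {θ e ε : ℝ} :
    (((2 : ℝ) ^ N) ^ (θ - e - 1 / 2) * (2 : ℝ) ^ ((3 / 2 : ℝ) * n)) ^ (-(6 : ℝ)) * ((2 : ℝ) ^ n) ^ (9 + ε) *
      ((2 : ℝ) ^ N + 8 ^ n) =
    ((2 : ℝ) ^ n) ^ ε * (((2 : ℝ) ^ N) ^ (4 - 6 * θ + 6 * e) + 8 ^ n * ((2 : ℝ) ^ N) ^ (3 - 6 * θ + 6 * e)) := by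
  have h2 : (0 : ℝ) < 2 := by norm_num
  have e1 : (((2 : ℝ) ^ N) ^ (θ - e - 1 / 2) * (2 : ℝ) ^ ((3 / 2 : ℝ) * n)) ^ (-(6 : ℝ)) * ((2 : ℝ) ^ n) ^ (9 + ε) =
      ((2 : ℝ) ^ n) ^ ε * ((2 : ℝ) ^ N) ^ (3 - 6 * θ + 6 * e) := by
    rw [h34_pow, h34_pow, h34_pow, h34_pow, ← Real.rpow_add h2, ← Real.rpow_mul h2.le, ← Real.rpow_add h2, ← Real.rpow_add h2]
    congr 1
    ring
  have e2 : ((2 : ℝ) ^ N) ^ (4 - 6 * θ + 6 * e) = ((2 : ℝ) ^ N) ^ (3 - 6 * θ + 6 * e) * (2 : ℝ) ^ N := by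
    have h3 : (4 - 6 * θ + 6 * e) = (3 - 6 * θ + 6 * e) + 1 := by ring
    rw [h3, Real.rpow_add (by positivity), Real.rpow_one]
  rw [e1, e2]
  ring

private lemma h34_N (N : ℕ) {e : ℝ} (he : 0 < e) : (N : ℝ) * ((2 : ℝ) ^ N) ^ (-e) ≤ 1 / (e * Real.log 2) := by
  have hl : 0 < Real.log 2 := Real.log_pos (by norm_num)
  have h1 : (N : ℝ) * (e * Real.log 2) ≤ ((2 : ℝ) ^ N) ^ e := by
    rw [h34_pow, Real.rpow_def_of_pos (by norm_num)]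
    have := Real.add_one_le_exp (Real.log 2 * ((N : ℝ) * e))
    linarith
  have h2 : 0 < ((2 : ℝ) ^ N) ^ e := by positivity
  rw [Real.rpow_neg (by positivity), le_div_iff₀ (by positivity), mul_right_comm, ← div_eq_mul_inv, div_le_one h2]
  exact h1

private lemma h34_cntc (H : ℝ → ℝ) (c : ℝ × ℝ) (m : ℤ × ℤ) (R : ℝ) :
    cntc H (c + ((m.1 : ℝ), (m.2 : ℝ))) R = cntc H c R := by
  unfold cntc
  congr 1
  refine Nat.card_congr ((Equiv.subRight m).subtypeEquiv fun k => ?_)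
  have h1 : (((Equiv.subRight m) k).1 : ℝ) - c.1 = (k.1 : ℝ) - (c + ((m.1 : ℝ), (m.2 : ℝ))).1 := by
    simp only [Equiv.subRight_apply, Prod.fst_sub, Prod.fst_add]
    push_cast
    ring
  have h2 : (((Equiv.subRight m) k).2 : ℝ) - c.2 = (k.2 : ℝ) - (c + ((m.1 : ℝ), (m.2 : ℝ))).2 := by
    simp only [Equiv.subRight_apply, Prod.snd_sub, Prod.snd_add]
    push_cast
    ring
  rw [h1, h2]

/-- reduction to the unit square -/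
private lemma h34_frac (H : ℝ → ℝ) (c : ℝ × ℝ) (R : ℝ) :
    ∃ c' ∈ Icc (0 : ℝ) 1 ×ˢ Icc (0 : ℝ) 1, cntc H c' R = cntc H c R := by
  refine ⟨(Int.fract c.1, Int.fract c.2), ⟨⟨Int.fract_nonneg _, (Int.fract_lt_one _).le⟩,
    ⟨Int.fract_nonneg _, (Int.fract_lt_one _).le⟩⟩, ?_⟩
  have h := h34_cntc H (Int.fract c.1, Int.fract c.2) (⌊c.1⌋, ⌊c.2⌋) R
  rw [← h]
  congr 1
  ext
  · simp [Int.fract_add_floor]
  · simp [Int.fract_add_floor]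

/-- the levels -/
private noncomputable def h34_mid (θ e e2 : ℝ) (N : ℕ) : Finset ℕ :=
  (Finset.range N).filter fun n => ((2 : ℝ) ^ N) ^ (2 * θ - 1 - 2 * e) ≤ 2 ^ n ∧ (2 : ℝ) ^ n ≤ 2 * ((2 : ℝ) ^ N) ^ (1 - θ + e2)

theorem meas_block2 {H : ℝ → ℝ} (hH : IsSupp H) {θ ε : ℝ} (h1 : 1 / 2 < θ) (h2 : θ < 2 / 3)
    (hε : 0 < ε) : ∃ (C : ℝ) (N₀ : ℕ), 0 ≤ C ∧ ∀ N : ℕ, N₀ ≤ N →
      volume {R : ℝ | R ∈ Icc ((2 : ℝ) ^ N) (2 * 2 ^ N) ∧ ∃ c : ℝ × ℝ, R ^ θ < |cntc H c R - area H * R ^ 2|} ≤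
        ENNReal.ofReal (C * ((2 : ℝ) ^ N) ^ (5 - 8 * θ + ε)) := by
  classical
  obtain ⟨θ', e, e2, ε', he, he2, hε', hε1, hθ1, hθ2, h2e, hτ1, hee, hE1, hE2⟩ := exps3 h1 h2 hε
  obtain ⟨φ, hφ⟩ := exists_bump
  obtain ⟨C1, hC1, HB⟩ := bad_radii2 hH hφ hε'
  obtain ⟨C2, hC2, HT⟩ := VKc_trivial hH hφ
  obtain ⟨C3, R1, hR1, HD⟩ := errc_le_blocks hH hφ (τ := 1 - θ') (e2 := e2) (by linarith) (by linarith) he2
  have hR : ∀ N : ℕ, (1 : ℝ) ≤ 2 ^ N := fun N => one_le_pow₀ (by norm_num)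
  have hδ : ∀ N : ℕ, ((2 : ℝ) ^ N) ^ (-(1 - θ')) ∈ Icc (0 : ℝ) 1 := fun N =>
    ⟨by positivity, Real.rpow_le_one_of_one_le_of_nonpos (hR N) (by linarith)⟩
  have hlam : ∀ N n : ℕ, 0 < ((2 : ℝ) ^ N) ^ (θ' - e - 1 / 2) * (2 : ℝ) ^ ((3 / 2 : ℝ) * n) := fun N n => by positivity
  choose S hS2 hS3 using fun (N n : ℕ) => HB ((2 : ℝ) ^ N) (hR N) n _ (hδ N) _ (hlam N n)
  obtain ⟨N2, hN2⟩ := pow_unbounded_of_one_lt R1 (by norm_num : (1 : ℝ) < 2)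
  have hlog : 0 < Real.log 2 := Real.log_pos (by norm_num)
  obtain ⟨K, hK⟩ : ∃ K : ℝ, K = |C3| + (C2 + 2 * C1) * (1 / (e * Real.log 2)) := ⟨_, rfl⟩
  have hK0 : 0 ≤ K := by rw [hK]; positivity
  -- the second threshold
  obtain ⟨N3, hN3⟩ : ∃ N3 : ℕ, ∀ N, N3 ≤ N → K ≤ ((2 : ℝ) ^ N) ^ (θ - θ') := by
    have ht : 0 < θ - θ' := by linarith
    have h2' : (1 : ℝ) < 2 ^ (θ - θ') := Real.one_lt_rpow (by norm_num) ht
    obtain ⟨N3, hN3⟩ := pow_unbounded_of_one_lt K h2'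
    refine ⟨N3, fun N hN => ?_⟩
    have h5 : ((2 : ℝ) ^ N) ^ (θ - θ') = ((2 : ℝ) ^ (θ - θ')) ^ N := by
      rw [← Real.rpow_natCast, ← Real.rpow_natCast, ← Real.rpow_mul (by norm_num), ← Real.rpow_mul (by norm_num), mul_comm]
    rw [h5]
    exact hN3.le.trans (pow_le_pow_right₀ h2'.le hN)
  -- one dyadic range
  have main : ∀ N, max N2 N3 ≤ N → ∀ R ∈ Icc ((2 : ℝ) ^ N) (2 * 2 ^ N),
      (∀ n ∈ h34_mid θ' e e2 N, ∀ j ∈ S N n, R ∉ Icc ((2 : ℝ) ^ N + (j : ℝ) / 2 ^ n) (2 ^ N + ((j : ℝ) + 1) / 2 ^ n)) →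
        ∀ c : ℝ × ℝ, |cntc H c R - area H * R ^ 2| ≤ R ^ θ := by
    intro N hN R hRm hgood c₀
    obtain ⟨c, hc, hcc⟩ := h34_frac H c₀ R
    rw [← hcc]
    have hR1N : R1 ≤ (2 : ℝ) ^ N := by
      have : (2 : ℝ) ^ N2 ≤ 2 ^ N := pow_le_pow_right₀ (by norm_num) ((le_max_left _ _).trans hN)
      linarith
    have hex : ∃ n1 : ℕ, ((2 : ℝ) ^ N) ^ (1 - θ' + e2) ≤ 2 ^ n1 := by
      refine ⟨N, ?_⟩
      calc ((2 : ℝ) ^ N) ^ (1 - θ' + e2) ≤ ((2 : ℝ) ^ N) ^ (1 : ℝ) := Real.rpow_le_rpow_of_exponent_le (hR N) hτ1.le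
        _ = 2 ^ N := Real.rpow_one _
    obtain ⟨n1, hn1d⟩ : ∃ n1, n1 = Nat.find hex := ⟨_, rfl⟩
    have hn1 : ((2 : ℝ) ^ N) ^ (1 - θ' + e2) ≤ 2 ^ n1 := by rw [hn1d]; exact Nat.find_spec hex
    have hn1N : n1 ≤ N := by
      rw [hn1d]
      apply Nat.find_min' hex
      calc ((2 : ℝ) ^ N) ^ (1 - θ' + e2) ≤ ((2 : ℝ) ^ N) ^ (1 : ℝ) := Real.rpow_le_rpow_of_exponent_le (hR N) hτ1.le
        _ = 2 ^ N := Real.rpow_one _
    have hmin : ∀ n < n1, (2 : ℝ) ^ n < ((2 : ℝ) ^ N) ^ (1 - θ' + e2) := by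
      intro n hn
      rw [hn1d] at hn
      exact not_le.1 (Nat.find_min hex hn)
    obtain ⟨σ, hσ, hsupp, hle⟩ := HD ((2 : ℝ) ^ N) hR1N R hRm c n1 hn1
    have h11 : 1 - (1 - θ') = θ' := by ring
    rw [h11] at hle
    have hblock : ∀ n ∈ Finset.range n1, ‖VKc φ (fun t => R * H t + σ * ((2 : ℝ) ^ N) ^ (-(1 - θ'))) (((2 : ℝ) ^ N) ^ (-(1 - θ'))) n c‖ ≤
        (C2 + 2 * C1) * ((2 : ℝ) ^ N) ^ (θ' - e) := by
      intro n hn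
      rw [Finset.mem_range] at hn
      have hone : 1 ≤ ((2 : ℝ) ^ N) ^ (θ' - e) := Real.one_le_rpow (hR N) (by linarith)
      by_cases hcase : (2 : ℝ) ^ n < ((2 : ℝ) ^ N) ^ (2 * θ' - 1 - 2 * e)
      · have h5 := HT ((2 : ℝ) ^ N) (hR N) n _ (hδ N) σ hσ R hRm hsupp c
        refine h5.trans ?_
        have h6 : (2 : ℝ) ^ ((n : ℝ) / 2) ≤ ((2 : ℝ) ^ N) ^ (θ' - 1 / 2 - e) := by
          have e3 : (2 : ℝ) ^ ((n : ℝ) / 2) = ((2 : ℝ) ^ n) ^ (1 / 2 : ℝ) := by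
            rw [h34_pow]
            congr 1
            ring
          have e4 : ((2 : ℝ) ^ N) ^ (θ' - 1 / 2 - e) = (((2 : ℝ) ^ N) ^ (2 * θ' - 1 - 2 * e)) ^ (1 / 2 : ℝ) := by
            rw [← Real.rpow_mul (by positivity)]
            congr 1
            ring
          rw [e3, e4]
          exact Real.rpow_le_rpow (by positivity) hcase.le (by norm_num)
        calc C2 * ((2 : ℝ) ^ N) ^ (1 / 2 : ℝ) * (2 : ℝ) ^ ((n : ℝ) / 2) ≤ C2 * ((2 : ℝ) ^ N) ^ (1 / 2 : ℝ) * ((2 : ℝ) ^ N) ^ (θ' - 1 / 2 - e) :=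
              mul_le_mul_of_nonneg_left h6 (by positivity)
          _ = C2 * ((2 : ℝ) ^ N) ^ (θ' - e) := by
              rw [mul_assoc, ← Real.rpow_add (by positivity)]
              congr 2
              ring
          _ ≤ (C2 + 2 * C1) * ((2 : ℝ) ^ N) ^ (θ' - e) := mul_le_mul_of_nonneg_right (by linarith) (by positivity)
      · have hmid : n ∈ h34_mid θ' e e2 N := by
          unfold h34_mid
          rw [Finset.mem_filter, Finset.mem_range]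
          refine ⟨by omega, not_lt.1 hcase, ?_⟩
          have h7 := (hmin n hn).le
          have h8 : 0 ≤ ((2 : ℝ) ^ N) ^ (1 - θ' + e2) := by positivity
          linarith
        have h9 := hS3 N n R hRm (hgood n hmid) c hc σ hσ hsupp
        refine h9.trans ?_
        have e5 : ((2 : ℝ) ^ N) ^ (1 / 2 : ℝ) * (2 : ℝ) ^ (-(3 / 2 : ℝ) * n) *
            (((2 : ℝ) ^ N) ^ (θ' - e - 1 / 2) * (2 : ℝ) ^ ((3 / 2 : ℝ) * n)) = ((2 : ℝ) ^ N) ^ (θ' - e) := by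
          have h20 : (0 : ℝ) < 2 := by norm_num
          rw [h34_pow, h34_pow, h34_pow, ← Real.rpow_add h20, ← Real.rpow_add h20, ← Real.rpow_add h20]
          congr 1
          ring
        rw [e5]
        have h7' : (2 : ℝ) ^ n ≤ ((2 : ℝ) ^ N) ^ (θ' - e) :=
          (hmin n hn).le.trans (Real.rpow_le_rpow_of_exponent_le (hR N) (by linarith))
        calc C1 * (((2 : ℝ) ^ N) ^ (θ' - e) + 2 ^ n) ≤ C1 * (((2 : ℝ) ^ N) ^ (θ' - e) + ((2 : ℝ) ^ N) ^ (θ' - e)) :=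
              mul_le_mul_of_nonneg_left (by linarith) hC1.le
          _ = 2 * C1 * ((2 : ℝ) ^ N) ^ (θ' - e) := by ring
          _ ≤ (C2 + 2 * C1) * ((2 : ℝ) ^ N) ^ (θ' - e) := mul_le_mul_of_nonneg_right (by linarith) (by positivity)
    have hsum2 := Finset.sum_le_sum hblock
    rw [Finset.sum_const, Finset.card_range, nsmul_eq_mul] at hsum2
    have hfin : (n1 : ℝ) * ((C2 + 2 * C1) * ((2 : ℝ) ^ N) ^ (θ' - e)) ≤ (C2 + 2 * C1) * (1 / (e * Real.log 2)) * ((2 : ℝ) ^ N) ^ θ' := by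
      have h10 : ((2 : ℝ) ^ N) ^ (θ' - e) = ((2 : ℝ) ^ N) ^ (-e) * ((2 : ℝ) ^ N) ^ θ' := by
        rw [← Real.rpow_add (by positivity)]
        congr 1
        ring
      have h12 := h34_N N he
      have h13 : (n1 : ℝ) ≤ N := by exact_mod_cast hn1N
      calc (n1 : ℝ) * ((C2 + 2 * C1) * ((2 : ℝ) ^ N) ^ (θ' - e)) ≤ (N : ℝ) * ((C2 + 2 * C1) * ((2 : ℝ) ^ N) ^ (θ' - e)) :=
            mul_le_mul_of_nonneg_right h13 (by positivity)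
        _ = (C2 + 2 * C1) * ((N : ℝ) * ((2 : ℝ) ^ N) ^ (-e)) * ((2 : ℝ) ^ N) ^ θ' := by rw [h10]; ring
        _ ≤ (C2 + 2 * C1) * (1 / (e * Real.log 2)) * ((2 : ℝ) ^ N) ^ θ' := by
            apply mul_le_mul_of_nonneg_right _ (by positivity)
            exact mul_le_mul_of_nonneg_left h12 (by positivity)
    have h14 : C3 * ((2 : ℝ) ^ N) ^ θ' ≤ |C3| * ((2 : ℝ) ^ N) ^ θ' := mul_le_mul_of_nonneg_right (le_abs_self _) (by positivity)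
    have h15 : |cntc H c R - area H * R ^ 2| ≤ K * ((2 : ℝ) ^ N) ^ θ' := by
      rw [hK, add_mul]
      linarith
    have h16 := hN3 N ((le_max_right _ _).trans hN)
    calc |cntc H c R - area H * R ^ 2| ≤ K * ((2 : ℝ) ^ N) ^ θ' := h15
      _ ≤ ((2 : ℝ) ^ N) ^ (θ - θ') * ((2 : ℝ) ^ N) ^ θ' := mul_le_mul_of_nonneg_right h16 (by positivity)
      _ = ((2 : ℝ) ^ N) ^ θ := by
          rw [← Real.rpow_add (by positivity)]
          congr 1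
          ring
      _ ≤ R ^ θ := Real.rpow_le_rpow (by positivity) hRm.1 (by linarith)
  refine ⟨9 * C1 * (1 / (ε / 2 * Real.log 2)), max N2 N3, by positivity, fun N hN => ?_⟩
  -- the covering
  have hcover : {R : ℝ | R ∈ Icc ((2 : ℝ) ^ N) (2 * 2 ^ N) ∧ ∃ c : ℝ × ℝ, R ^ θ < |cntc H c R - area H * R ^ 2|} ⊆
      ⋃ n ∈ h34_mid θ' e e2 N, ⋃ j ∈ S N n, Icc ((2 : ℝ) ^ N + (j : ℝ) / 2 ^ n) (2 ^ N + ((j : ℝ) + 1) / 2 ^ n) := by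
    rintro R ⟨hRm, c, hc⟩
    by_contra hcon
    have hgood : ∀ n ∈ h34_mid θ' e e2 N, ∀ j ∈ S N n,
        R ∉ Icc ((2 : ℝ) ^ N + (j : ℝ) / 2 ^ n) (2 ^ N + ((j : ℝ) + 1) / 2 ^ n) := by
      intro n hn j hj hmem
      apply hcon
      simp only [mem_iUnion]
      exact ⟨n, hn, j, hj, hmem⟩
    exact absurd (main N hN R hRm hgood c) (not_le.2 hc)
  have hvol : ∀ n j : ℕ, volume (Icc ((2 : ℝ) ^ N + (j : ℝ) / 2 ^ n) (2 ^ N + ((j : ℝ) + 1) / 2 ^ n)) =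
      ENNReal.ofReal (1 / 2 ^ n) := by
    intro n j
    rw [Real.volume_Icc]
    congr 1
    ring
  have hterm : ∀ n ∈ h34_mid θ' e e2 N, ((S N n).card : ℝ) * (1 / 2 ^ n) ≤ 9 * C1 * ((2 : ℝ) ^ N) ^ (5 - 8 * θ + ε / 2) := by
    intro n hn
    unfold h34_mid at hn
    rw [Finset.mem_filter] at hn
    have h4 := hS2 N n
    rw [mul_assoc, mul_assoc, ← mul_assoc (_ ^ (-(6:ℝ))), h34_card] at h4
    have h5 := term2_le he2 hε' hε1 (by linarith) h2e hE1 hE2 hn.2.1 hn.2.2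
    have h6 : (0 : ℝ) < 1 / 2 ^ n := by positivity
    calc ((S N n).card : ℝ) * (1 / 2 ^ n) ≤ (C1 * (((2 : ℝ) ^ n) ^ ε' * (((2 : ℝ) ^ N) ^ (4 - 6 * θ' + 6 * e) +
          8 ^ n * ((2 : ℝ) ^ N) ^ (3 - 6 * θ' + 6 * e)))) * (1 / 2 ^ n) := mul_le_mul_of_nonneg_right h4 h6.le
      _ = C1 * (((2 : ℝ) ^ n) ^ ε' * (((2 : ℝ) ^ N) ^ (4 - 6 * θ' + 6 * e) +
          8 ^ n * ((2 : ℝ) ^ N) ^ (3 - 6 * θ' + 6 * e)) / 2 ^ n) := by ring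
      _ ≤ C1 * (9 * ((2 : ℝ) ^ N) ^ (5 - 8 * θ + ε / 2)) := mul_le_mul_of_nonneg_left h5 hC1.le
      _ = 9 * C1 * ((2 : ℝ) ^ N) ^ (5 - 8 * θ + ε / 2) := by ring
  have hreal : ∑ n ∈ h34_mid θ' e e2 N, ((S N n).card : ℝ) * (1 / 2 ^ n) ≤
      9 * C1 * (1 / (ε / 2 * Real.log 2)) * ((2 : ℝ) ^ N) ^ (5 - 8 * θ + ε) := by
    have hcard : ((h34_mid θ' e e2 N).card : ℝ) ≤ N := by
      have : (h34_mid θ' e e2 N).card ≤ N := by
        unfold h34_mid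
        exact (Finset.card_filter_le _ _).trans (by rw [Finset.card_range])
      exact_mod_cast this
    calc ∑ n ∈ h34_mid θ' e e2 N, ((S N n).card : ℝ) * (1 / 2 ^ n)
        ≤ ∑ n ∈ h34_mid θ' e e2 N, 9 * C1 * ((2 : ℝ) ^ N) ^ (5 - 8 * θ + ε / 2) := Finset.sum_le_sum hterm
      _ = ((h34_mid θ' e e2 N).card : ℝ) * (9 * C1 * ((2 : ℝ) ^ N) ^ (5 - 8 * θ + ε / 2)) := by
          rw [Finset.sum_const, nsmul_eq_mul]
      _ ≤ (N : ℝ) * (9 * C1 * ((2 : ℝ) ^ N) ^ (5 - 8 * θ + ε / 2)) :=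
          mul_le_mul_of_nonneg_right hcard (by positivity)
      _ = 9 * C1 * ((N : ℝ) * ((2 : ℝ) ^ N) ^ (-(ε / 2))) * ((2 : ℝ) ^ N) ^ (5 - 8 * θ + ε) := by
          have h7 : ((2 : ℝ) ^ N) ^ (5 - 8 * θ + ε / 2) = ((2 : ℝ) ^ N) ^ (-(ε / 2)) * ((2 : ℝ) ^ N) ^ (5 - 8 * θ + ε) := by
            rw [← Real.rpow_add (by positivity)]
            congr 1
            ring
          rw [h7]
          ring
      _ ≤ 9 * C1 * (1 / (ε / 2 * Real.log 2)) * ((2 : ℝ) ^ N) ^ (5 - 8 * θ + ε) := by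
          apply mul_le_mul_of_nonneg_right _ (by positivity)
          exact mul_le_mul_of_nonneg_left (h34_N N (by linarith)) (by positivity)
  calc volume {R : ℝ | R ∈ Icc ((2 : ℝ) ^ N) (2 * 2 ^ N) ∧ ∃ c : ℝ × ℝ, R ^ θ < |cntc H c R - area H * R ^ 2|}
      ≤ volume (⋃ n ∈ h34_mid θ' e e2 N, ⋃ j ∈ S N n,
          Icc ((2 : ℝ) ^ N + (j : ℝ) / 2 ^ n) (2 ^ N + ((j : ℝ) + 1) / 2 ^ n)) := measure_mono hcover
    _ ≤ ∑ n ∈ h34_mid θ' e e2 N, volume (⋃ j ∈ S N n,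
          Icc ((2 : ℝ) ^ N + (j : ℝ) / 2 ^ n) (2 ^ N + ((j : ℝ) + 1) / 2 ^ n)) := measure_biUnion_finset_le _ _
    _ ≤ ∑ n ∈ h34_mid θ' e e2 N, ∑ j ∈ S N n,
          volume (Icc ((2 : ℝ) ^ N + (j : ℝ) / 2 ^ n) (2 ^ N + ((j : ℝ) + 1) / 2 ^ n)) :=
        Finset.sum_le_sum fun n _ => measure_biUnion_finset_le _ _
    _ = ∑ n ∈ h34_mid θ' e e2 N, ENNReal.ofReal (((S N n).card : ℝ) * (1 / 2 ^ n)) := by
        refine Finset.sum_congr rfl fun n _ => ?_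
        simp only [hvol]
        rw [Finset.sum_const, nsmul_eq_mul, ENNReal.ofReal_mul (Nat.cast_nonneg _), ENNReal.ofReal_natCast]
    _ = ENNReal.ofReal (∑ n ∈ h34_mid θ' e e2 N, ((S N n).card : ℝ) * (1 / 2 ^ n)) := by
        rw [ENNReal.ofReal_sum_of_nonneg]
        intro n _
        positivity
    _ ≤ ENNReal.ofReal (9 * C1 * (1 / (ε / 2 * Real.log 2)) * ((2 : ℝ) ^ N) ^ (5 - 8 * θ + ε)) :=
        ENNReal.ofReal_le_ofReal hreal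

private theorem pw_h34 {X t E : ℝ} (hX : 0 < X) (ht : 0 < t) (h1 : X ≤ 2 * t) (h2 : t ≤ 2 * X) :
    t ^ E ≤ 2 ^ |E| * X ^ E := by
  have h3 : t ^ E = (t / X) ^ E * X ^ E := by
    rw [← Real.mul_rpow (div_nonneg ht.le hX.le) hX.le, div_mul_cancel₀ _ hX.ne']
  rw [h3]
  refine mul_le_mul_of_nonneg_right ?_ (Real.rpow_nonneg hX.le _)
  have h4 : t / X ≤ 2 := by rwa [div_le_iff₀ hX]
  have h5 : 1 / 2 ≤ t / X := by
    rw [le_div_iff₀ hX]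
    linarith
  have h6 : 0 < t / X := div_pos ht hX
  rcases le_total 0 E with hE | hE
  · rw [abs_of_nonneg hE]
    exact Real.rpow_le_rpow h6.le h4 hE
  · rw [abs_of_nonpos hE]
    have h7 : (t / X) ^ E ≤ (1 / 2 : ℝ) ^ E := Real.rpow_le_rpow_of_nonpos (by norm_num) h5 hE
    have h8 : (1 / 2 : ℝ) ^ E = 2 ^ (-E) := by
      rw [one_div, Real.inv_rpow (by norm_num), Real.rpow_neg (by norm_num)]
    rwa [h8] at h7

theorem all_centres2 {H : ℝ → ℝ} (hH : IsSupp H) {θ ε : ℝ} (h1 : 1 / 2 < θ) (h2 : θ < 2 / 3)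
    (hε : 0 < ε) : ∃ C : ℝ, ∀ X : ℝ, 1 ≤ X →
      volume {R : ℝ | R ∈ Icc X (2 * X) ∧ ∃ c : ℝ × ℝ, R ^ θ < |cntc H c R - area H * R ^ 2|} ≤
        ENNReal.ofReal (C * X ^ (5 - 8 * θ + ε)) := by
  obtain ⟨C₁, N₀, hC₁, hblk⟩ := meas_block2 hH h1 h2 hε
  obtain ⟨E, hE⟩ : ∃ E : ℝ, E = 5 - 8 * θ + ε := ⟨_, rfl⟩
  rw [← hE] at hblk ⊢
  obtain ⟨A, hA⟩ : ∃ A : ℝ, A = (2 : ℝ) ^ N₀ := ⟨_, rfl⟩
  have hA0 : 0 < A := by rw [hA]; positivity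
  refine ⟨A * A ^ |E| + 2 * C₁ * 2 ^ |E|, fun X hX => ?_⟩
  have hX0 : 0 < X := by linarith
  have hXE : 0 < X ^ E := Real.rpow_pos_of_pos hX0 _
  rcases lt_or_ge X A with hXA | hXA
  · have e1 : volume {R : ℝ | R ∈ Icc X (2 * X) ∧ ∃ c : ℝ × ℝ,
        R ^ θ < |cntc H c R - area H * R ^ 2|} ≤ volume (Icc X (2 * X)) :=
      measure_mono fun R hR => hR.1
    refine e1.trans ?_
    rw [Real.volume_Icc]
    apply ENNReal.ofReal_le_ofReal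
    have e2 : A ^ (-|E|) ≤ X ^ E := by
      have e3 : X ^ (-|E|) ≤ X ^ E := Real.rpow_le_rpow_of_exponent_le hX (neg_abs_le E)
      refine le_trans ?_ e3
      exact Real.rpow_le_rpow_of_nonpos hX0 hXA.le (neg_nonpos.2 (abs_nonneg _))
    have e4 : A * A ^ |E| * A ^ (-|E|) = A := by
      rw [mul_assoc, ← Real.rpow_add hA0, add_neg_cancel, Real.rpow_zero, mul_one]
    have e5 : A * A ^ |E| * A ^ (-|E|) ≤ A * A ^ |E| * X ^ E :=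
      mul_le_mul_of_nonneg_left e2 (by positivity)
    have e6 : 0 ≤ 2 * C₁ * 2 ^ |E| * X ^ E := by positivity
    calc 2 * X - X = X := by ring
      _ ≤ A := hXA.le
      _ ≤ A * A ^ |E| * X ^ E := by rw [e4] at e5; exact e5
      _ ≤ (A * A ^ |E| + 2 * C₁ * 2 ^ |E|) * X ^ E := by rw [add_mul]; linarith
  · obtain ⟨N, hN1, hN2⟩ := exists_nat_pow_near hX (one_lt_two : (1 : ℝ) < 2)
    have hNN : N₀ ≤ N := by
      have h5 : (2 : ℝ) ^ N₀ < 2 ^ (N + 1) := by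
        rw [← hA]
        exact lt_of_le_of_lt hXA hN2
      have h6 := (pow_lt_pow_iff_right₀ (one_lt_two : (1 : ℝ) < 2)).1 h5
      omega
    have hsub : {R : ℝ | R ∈ Icc X (2 * X) ∧ ∃ c : ℝ × ℝ,
        R ^ θ < |cntc H c R - area H * R ^ 2|} ⊆
        {R : ℝ | R ∈ Icc ((2 : ℝ) ^ N) (2 * 2 ^ N) ∧ ∃ c : ℝ × ℝ,
          R ^ θ < |cntc H c R - area H * R ^ 2|} ∪
        {R : ℝ | R ∈ Icc ((2 : ℝ) ^ (N + 1)) (2 * 2 ^ (N + 1)) ∧ ∃ c : ℝ × ℝ,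
          R ^ θ < |cntc H c R - area H * R ^ 2|} := by
      rintro R ⟨⟨hR1, hR2⟩, hR3⟩
      rcases le_total R (2 * 2 ^ N) with h | h
      · left
        exact ⟨⟨hN1.trans hR1, h⟩, hR3⟩
      · right
        refine ⟨⟨?_, by linarith⟩, hR3⟩
        rw [pow_succ]
        linarith
    refine (measure_mono hsub).trans ((measure_union_le _ _).trans ?_)
    refine (add_le_add (hblk N hNN) (hblk (N + 1) (by omega))).trans ?_
    have g1 : 0 ≤ C₁ * ((2 : ℝ) ^ N) ^ E := by positivity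
    have g2 : 0 ≤ C₁ * ((2 : ℝ) ^ (N + 1)) ^ E := by positivity
    rw [← ENNReal.ofReal_add g1 g2]
    apply ENNReal.ofReal_le_ofReal
    have g3 : ((2 : ℝ) ^ N) ^ E ≤ 2 ^ |E| * X ^ E := by
      apply pw_h34 hX0 (by positivity)
      · rw [pow_succ] at hN2
        linarith
      · linarith
    have g4 : ((2 : ℝ) ^ (N + 1)) ^ E ≤ 2 ^ |E| * X ^ E := by
      apply pw_h34 hX0 (by positivity)
      · linarith
      · rw [pow_succ]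
        linarith
    have g5 := mul_le_mul_of_nonneg_left g3 hC₁
    have g6 := mul_le_mul_of_nonneg_left g4 hC₁
    have g7 : 0 ≤ A * A ^ |E| * X ^ E := by positivity
    calc C₁ * ((2 : ℝ) ^ N) ^ E + C₁ * ((2 : ℝ) ^ (N + 1)) ^ E
        ≤ C₁ * (2 ^ |E| * X ^ E) + C₁ * (2 ^ |E| * X ^ E) := add_le_add g5 g6
      _ ≤ A * A ^ |E| * X ^ E + (C₁ * (2 ^ |E| * X ^ E) + C₁ * (2 ^ |E| * X ^ E)) := by linarith
      _ = (A * A ^ |E| + 2 * C₁ * 2 ^ |E|) * X ^ E := by ring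

theorem finite_bad2 {H : ℝ → ℝ} (hH : IsSupp H) {θ : ℝ} (h1 : 5 / 8 < θ) (h2 : θ < 2 / 3) :
    volume {R : ℝ | 1 ≤ R ∧ ∃ c : ℝ × ℝ, R ^ θ < |cntc H c R - area H * R ^ 2|} < ⊤ := by
  obtain ⟨C₁, N₀, hC₁, hblk⟩ := meas_block2 hH (θ := θ) (ε := (8 * θ - 5) / 2) (by linarith) h2
    (by linarith)
  obtain ⟨E, hE⟩ : ∃ E : ℝ, E = 5 - 8 * θ + (8 * θ - 5) / 2 := ⟨_, rfl⟩
  rw [← hE] at hblk
  have hE0 : E < 0 := by rw [hE]; linarith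
  have hsub : {R : ℝ | 1 ≤ R ∧ ∃ c : ℝ × ℝ, R ^ θ < |cntc H c R - area H * R ^ 2|} ⊆
      Icc 1 ((2 : ℝ) ^ N₀) ∪ ⋃ k : ℕ, {R : ℝ | R ∈ Icc ((2 : ℝ) ^ (N₀ + k)) (2 * 2 ^ (N₀ + k)) ∧
        ∃ c : ℝ × ℝ, R ^ θ < |cntc H c R - area H * R ^ 2|} := by
    rintro R ⟨hR1, hR2⟩
    rcases le_total R ((2 : ℝ) ^ N₀) with h | h
    · left
      exact ⟨hR1, h⟩
    · right
      obtain ⟨N, hN1, hN2⟩ := exists_nat_pow_near hR1 (one_lt_two : (1 : ℝ) < 2)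
      have hNN : N₀ ≤ N := by
        have h6 := (pow_lt_pow_iff_right₀ (one_lt_two : (1 : ℝ) < 2)).1 (lt_of_le_of_lt h hN2)
        omega
      obtain ⟨k, rfl⟩ := Nat.exists_eq_add_of_le hNN
      rw [mem_iUnion]
      refine ⟨k, ⟨hN1, ?_⟩, hR2⟩
      rw [pow_succ] at hN2
      linarith
  refine lt_of_le_of_lt ((measure_mono hsub).trans (measure_union_le _ _)) ?_
  rw [ENNReal.add_lt_top]
  constructor
  · rw [Real.volume_Icc]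
    exact ENNReal.ofReal_lt_top
  · refine lt_of_le_of_lt (measure_iUnion_le _) ?_
    have g1 : ∀ k : ℕ, C₁ * ((2 : ℝ) ^ (N₀ + k)) ^ E = C₁ * ((2 : ℝ) ^ E) ^ N₀ * ((2 : ℝ) ^ E) ^ k := by
      intro k
      rw [← Real.rpow_pow_comm (by norm_num), pow_add]
      ring
    have hs : Summable fun k : ℕ => C₁ * ((2 : ℝ) ^ E) ^ N₀ * ((2 : ℝ) ^ E) ^ k :=
      (summable_geometric_of_lt_one (by positivity)
        (Real.rpow_lt_one_of_one_lt_of_neg one_lt_two hE0)).mul_left _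
    have g2 : ∑' k : ℕ, volume {R : ℝ | R ∈ Icc ((2 : ℝ) ^ (N₀ + k)) (2 * 2 ^ (N₀ + k)) ∧
        ∃ c : ℝ × ℝ, R ^ θ < |cntc H c R - area H * R ^ 2|} ≤
        ∑' k : ℕ, ENNReal.ofReal (C₁ * ((2 : ℝ) ^ E) ^ N₀ * ((2 : ℝ) ^ E) ^ k) := by
      refine ENNReal.tsum_le_tsum fun k => ?_
      rw [← g1]
      exact hblk (N₀ + k) (Nat.le_add_right _ _)
    refine lt_of_le_of_lt g2 ?_
    rw [← ENNReal.ofReal_tsum_of_nonneg (fun k => by positivity) hs]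
    exact ENNReal.ofReal_lt_top

end Pool.Agent.Helper22.SC
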