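import Pool.Agent.Helper22.AC.Defs
import Pool.Agent.Helper92.EO.OBase

/-!
# Exactness of 3/5 and 5 - 8 θ for C² ovals (project SC, MP_fb29e9_nt): definitions

Plan: /team-store/h22_SC_plan.md. Base notation: `Pool.Agent.Helper22.AE` (`ee`, `nk`, `tk`, `ft`, `fhat`, `gph`, `k0`, `rho`, `dom`, `area`, `IsSupp`,
`IsBump`), `Pool.Agent.Helper22.AC` (`cntc`, `Bd`, `VKc`, `ga`, `Fk`, `cs`, `Adm`), `Pool.Agent.Helper92.EO` (`IsKer`, `qw`, `kset`, `hk`, `tr`, `Lk`, `mk`).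
-/

open MeasureTheory Real Set Filter Topology

set_option autoImplicit false

namespace Pool.Agent.Helper22.SC

open Pool.Agent.Helper22.AE Pool.Agent.Helper22.AC Pool.Agent.Helper92.EO

/-- the character `e(-k·c)` -/
noncomputable def chc (c : ℝ × ℝ) (k : ℤ × ℤ) : ℂ := ee (-((k.1 : ℝ) * c.1 + (k.2 : ℝ) * c.2))

/-- the lattice error with centre `c` -/
noncomputable def erc (H : ℝ → ℝ) (c : ℝ × ℝ) (r : ℝ) : ℝ := cntc H c r - area H * r ^ 2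

/-- the average over the radius of the lattice error with centre `c` -/
noncomputable def Avc (w : ℝ → ℝ) (H : ℝ → ℝ) (c : ℝ × ℝ) (K R : ℝ) : ℝ :=
  ∫ r in (R / 2)..(3 * R / 2), qw w K R r * erc H c r

/-- the main term with centre `c` -/
noncomputable def mainc (W : ℝ → ℝ) (H : ℝ → ℝ) (c : ℝ × ℝ) (M K R : ℝ) : ℝ :=
  R ^ (1 / 2 : ℝ) / π * ∑ k ∈ kset M, nk k ^ (-(3 / 2) : ℝ) * sqrt (rho H (tk k)) * W (nk k * H (tk k) / K) *
    cos (2 * π * (R * (nk k * H (tk k)) + ((k.1 : ℝ) * c.1 + (k.2 : ℝ) * c.2)) - 3 * π / 4)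

/-- `H` is C² close to `1` -/
structure Near (δ : ℝ) (H : ℝ → ℝ) : Prop where
  smooth : ContDiff ℝ 2 H
  per : Function.Periodic H (2 * π)
  d0 : ∀ t, |H t - 1| ≤ δ
  d1 : ∀ t, |deriv H t| ≤ δ
  d2 : ∀ t, |deriv (deriv H) t| ≤ δ

/-- the period of stage `s` -/
noncomputable def TT (D : ℝ) (n : ℕ → ℕ) (s : ℕ) : ℝ := D * 2 ^ s * 8 ^ n s

/-- all phases are aligned at the multiples of the periods `TT D n s` (up to `1/48`), with the phase vectors `u s` -/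
def Aligned (D : ℝ) (n : ℕ → ℕ) (u : ℕ → ℝ × ℝ) (H : ℝ → ℝ) : Prop :=
  ∀ s : ℕ, ∀ j : ℕ, j ≤ 2 ^ ((s + 20) * n s) → ∀ k : ℤ × ℤ, k ≠ 0 → nk k ≤ 2 ^ n s →
    ∃ z : ℤ, |j * (TT D n s * (nk k * H (tk k)) + ((k.1 : ℝ) * (u s).1 + (k.2 : ℝ) * (u s).2)) - z| ≤ 1 / 48

/-- the generator of the cyclic subgroup of order `4^l` of the torus -/
noncomputable def gen (l : ℕ) : ℝ × ℝ := (1 / 2 ^ l, 1 / 4 ^ l)

/-- `c` is within `(1/2)^m` of one of the `4^l` points `j · gen l` modulo `ℤ²` (maximum norm) -/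
def Close (l m : ℕ) (c : ℝ × ℝ) : Prop :=
  ∃ j : ℕ, j < 4 ^ l ∧ ∃ v : ℤ × ℤ, |c.1 - j / 2 ^ l - v.1| ≤ (1 / 2) ^ m ∧ |c.2 - j / 4 ^ l - v.2| ≤ (1 / 2) ^ m

end Pool.Agent.Helper22.SC
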