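import Pool.Agent.Helper22.SC.DmA

/-!
# SC-DmB: digits

PROOF. `Q = [0,1/2) × [0,1)`, `P = (s, t)`. `S i = ⌊s 2^(pp i)⌋₊`, `U i = ⌊t 2^(pp i)⌋₊`; `S (i+1) = 2^q S i + β (i+1)` with `q = lam (i+1) - m i`, `β (i+1) < 2^q` (`⌊2^q x⌋ - 2^q ⌊x⌋ ∈ [0, 2^q)`), same for `U` and `α`.
Define `B P`, `A P` by recursion: `B P 0 = S 0`, `A P 0 = U 0`, `B P (i+1) = 2^(lam (i+1) - lam i) * B P i + β (i+1)`, `A P (i+1) = 2^(lam (i+1) - 2 lam i) * (A P i * 2^(lam i) + B P i) + α (i+1)`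
(`β (i+1) = S (i+1) - 2^q S i`). If the numerators of `P, P'` agree for all `l < i` then the digits `β l, α l`, `l < i`, agree, so `S l, U l` agree for `l < i`, and `S i - S' i = β i - β' i = B P i - B P' i` (in `ℤ`),
`U i - U' i = A P i - A P' i`. `|s - s'| ≤ (|S i - S' i| + 1)/2^(pp i)`.
-/

open MeasureTheory Real Set Filter Topology

set_option autoImplicit false

namespace Pool.Agent.Helper22.SC

/-- the number of binary digits used up to level `i` -/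
def pp (lam m : ℕ → ℕ) : ℕ → ℕ
  | 0 => lam 0
  | i + 1 => pp lam m i + (lam (i + 1) - m i)

/-- the floor of `x 2^(pp i)` -/
noncomputable def flo (lam m : ℕ → ℕ) (x : ℝ) (i : ℕ) : ℕ := ⌊x * 2 ^ pp lam m i⌋₊

/-- the digit block between the levels `i` and `i + 1` -/
noncomputable def dig (lam m : ℕ → ℕ) (x : ℝ) (i : ℕ) : ℕ :=
  flo lam m x (i + 1) - 2 ^ (lam (i + 1) - m i) * flo lam m x i

/-- the numerators -/
noncomputable def numer (lam m : ℕ → ℕ) (P : ℝ × ℝ) : ℕ → ℕ × ℕ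
  | 0 => (flo lam m P.2 0, flo lam m P.1 0)
  | i + 1 => (2 ^ (lam (i + 1) - 2 * lam i) * ((numer lam m P i).1 * 2 ^ lam i + (numer lam m P i).2) + dig lam m P.2 i,
      2 ^ (lam (i + 1) - lam i) * (numer lam m P i).2 + dig lam m P.1 i)

theorem flo_step (lam m : ℕ → ℕ) {x : ℝ} (hx : 0 ≤ x) (i : ℕ) :
    flo lam m x (i + 1) = 2 ^ (lam (i + 1) - m i) * flo lam m x i + dig lam m x i ∧
      dig lam m x i < 2 ^ (lam (i + 1) - m i) := by
  set q := lam (i + 1) - m i with hq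
  have hy : 0 ≤ x * 2 ^ pp lam m i := by positivity
  have h1 : (flo lam m x i : ℝ) ≤ x * 2 ^ pp lam m i := Nat.floor_le hy
  have h2 : x * 2 ^ pp lam m i < (flo lam m x i : ℝ) + 1 := Nat.lt_floor_add_one _
  have hpp : pp lam m (i + 1) = pp lam m i + q := rfl
  have he : x * 2 ^ pp lam m (i + 1) = 2 ^ q * (x * 2 ^ pp lam m i) := by
    rw [hpp, pow_add]; ring
  have h2q : (0 : ℝ) < 2 ^ q := by positivity
  have h3 : 2 ^ q * flo lam m x i ≤ flo lam m x (i + 1) := by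
    unfold flo
    apply Nat.le_floor
    rw [he]
    push_cast
    exact mul_le_mul_of_nonneg_left h1 h2q.le
  have h4 : flo lam m x (i + 1) < 2 ^ q * flo lam m x i + 2 ^ q := by
    have : flo lam m x (i + 1) = ⌊x * 2 ^ pp lam m (i + 1)⌋₊ := rfl
    rw [this, Nat.floor_lt (by positivity), he]
    push_cast
    nlinarith
  have h5 : dig lam m x i = flo lam m x (i + 1) - 2 ^ q * flo lam m x i := rfl
  constructor <;> omega

theorem flo_abs (lam m : ℕ → ℕ) {x y : ℝ} (hx : 0 ≤ x) (hy : 0 ≤ y) (i : ℕ) :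
    |x - y| ≤ (|(flo lam m x i : ℝ) - flo lam m y i| + 1) / 2 ^ pp lam m i := by
  have h2 : (0 : ℝ) < 2 ^ pp lam m i := by positivity
  rw [le_div_iff₀ h2]
  have a1 : (flo lam m x i : ℝ) ≤ x * 2 ^ pp lam m i := Nat.floor_le (by positivity)
  have a2 : x * 2 ^ pp lam m i < (flo lam m x i : ℝ) + 1 := Nat.lt_floor_add_one _
  have b1 : (flo lam m y i : ℝ) ≤ y * 2 ^ pp lam m i := Nat.floor_le (by positivity)
  have b2 : y * 2 ^ pp lam m i < (flo lam m y i : ℝ) + 1 := Nat.lt_floor_add_one _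
  have e : |x - y| * 2 ^ pp lam m i = |x * 2 ^ pp lam m i - y * 2 ^ pp lam m i| := by
    rw [← sub_mul, abs_mul, abs_of_pos h2]
  rw [e, abs_le]
  have c1 := neg_abs_le ((flo lam m x i : ℝ) - flo lam m y i)
  have c2 := le_abs_self ((flo lam m x i : ℝ) - flo lam m y i)
  constructor <;> linarith

theorem numer_flo (lam m : ℕ → ℕ) {P P' : ℝ × ℝ} (h1 : 0 ≤ P.1) (h2 : 0 ≤ P.2) (h1' : 0 ≤ P'.1) (h2' : 0 ≤ P'.2) :
    ∀ i, (∀ l < i, numer lam m P l = numer lam m P' l) →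
      ((flo lam m P.1 i : ℝ) - flo lam m P'.1 i = (numer lam m P i).2 - (numer lam m P' i).2) ∧
      ((flo lam m P.2 i : ℝ) - flo lam m P'.2 i = (numer lam m P i).1 - (numer lam m P' i).1) := by
  intro i
  induction i with
  | zero => intro _; exact ⟨rfl, rfl⟩
  | succ j ih =>
    intro h
    have hj := h j (Nat.lt_succ_self j)
    obtain ⟨e1, e2⟩ := ih (fun l hl => h l (by omega))
    rw [hj] at e1 e2
    have s1 := (flo_step lam m h1 j).1
    have s2 := (flo_step lam m h2 j).1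
    have s1' := (flo_step lam m h1' j).1
    have s2' := (flo_step lam m h2' j).1
    have t1 : (flo lam m P.1 j : ℝ) = flo lam m P'.1 j := by linarith
    have t2 : (flo lam m P.2 j : ℝ) = flo lam m P'.2 j := by linarith
    constructor
    · rw [s1, s1']
      simp only [numer, hj]
      push_cast
      rw [t1]
      ring
    · rw [s2, s2']
      simp only [numer, hj]
      push_cast
      rw [t2]
      ring

theorem digits (lam m : ℕ → ℕ) : ∃ A B : ℝ × ℝ → ℕ → ℕ,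
    (∀ P ∈ Ico (0 : ℝ) (1 / 2) ×ˢ Ico (0 : ℝ) 1, Num lam m (A P) (B P)) ∧
    ∀ P ∈ Ico (0 : ℝ) (1 / 2) ×ˢ Ico (0 : ℝ) 1, ∀ P' ∈ Ico (0 : ℝ) (1 / 2) ×ˢ Ico (0 : ℝ) 1, ∀ i,
      (∀ l < i, A P l = A P' l ∧ B P l = B P' l) →
        dist P P' ≤ (|(A P i : ℝ) - A P' i| + |(B P i : ℝ) - B P' i| + 1) / 2 ^ pp lam m i := by
  refine ⟨fun P i => (numer lam m P i).1, fun P i => (numer lam m P i).2, ?_, ?_⟩
  · rintro ⟨s, t⟩ ⟨⟨hs0, hs1⟩, ⟨ht0, ht1⟩⟩
    simp only at hs0 hs1 ht0 ht1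
    have h2 : (0 : ℝ) < 2 ^ lam 0 := by positivity
    refine ⟨?_, ?_, ?_, ?_⟩
    · have a1 : ((flo lam m s 0 : ℕ) : ℝ) ≤ s * 2 ^ lam 0 := Nat.floor_le (by positivity)
      have : (2 * (flo lam m s 0 : ℝ)) < 2 ^ lam 0 := by nlinarith
      show 2 * flo lam m s 0 < 2 ^ lam 0
      exact_mod_cast this
    · have a1 : ((flo lam m t 0 : ℕ) : ℝ) ≤ t * 2 ^ lam 0 := Nat.floor_le (by positivity)
      have : ((flo lam m t 0 : ℝ)) < 2 ^ lam 0 := by nlinarith
      show flo lam m t 0 < 2 ^ lam 0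
      exact_mod_cast this
    · intro i
      exact ⟨dig lam m s i, (flo_step lam m hs0 i).2, rfl⟩
    · intro i
      exact ⟨dig lam m t i, (flo_step lam m ht0 i).2, rfl⟩
  · rintro P ⟨⟨hs0, hs1⟩, ⟨ht0, ht1⟩⟩ P' ⟨⟨hs0', hs1'⟩, ⟨ht0', ht1'⟩⟩ i h
    obtain ⟨e1, e2⟩ := numer_flo lam m hs0 ht0 hs0' ht0' i (fun l hl => Prod.ext (h l hl).1 (h l hl).2)
    have f1 := flo_abs lam m hs0 hs0' i
    have f2 := flo_abs lam m ht0 ht0' i
    rw [e1] at f1
    rw [e2] at f2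
    have h2 : (0 : ℝ) < 2 ^ pp lam m i := by positivity
    rw [Prod.dist_eq, Real.dist_eq, Real.dist_eq]
    refine max_le (f1.trans ?_) (f2.trans ?_)
    · apply div_le_div_of_nonneg_right _ h2.le
      have := abs_nonneg (((numer lam m P i).1 : ℝ) - (numer lam m P' i).1)
      linarith
    · apply div_le_div_of_nonneg_right _ h2.le
      have := abs_nonneg (((numer lam m P i).2 : ℝ) - (numer lam m P' i).2)
      linarith

end Pool.Agent.Helper22.SC
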