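import Pool.Agent.Helper22.SC.DmA
import Pool.Agent.Helper22.SC.DmB

/-!
# SC-Dm: the Hausdorff dimension of a set of centres (a lower bound)

All norms are maximum norms. PROOF. `A, B` from `digits`, `g P` = a point with `Inn lam m (A P) (B P) (g P)` (`num_lim`), `Q = [0,1/2) × [0,1)`.
(1) `Close (lam i) (m i) (g P)`: `j = a 2^λ + b < 4^λ` (`a = A P i < 2^λ`, `b = B P i < 2^λ`), `j/2^λ = a + b/2^λ`, `v = (-a, 0)`, `j/4^λ = (a 2^λ + b)/4^λ`.
(2) By `h4`, `2 (lam (i+1) - m i) ≥ d m (i+1)` and `m i → ∞`, so `pp i → ∞` and `pp i ≥ d m i / 2` for `i ≥ 1`.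
(3) `dist P P' ≤ C dist (g P) (g P')^(d/2)` for `P, P' ∈ Q`: let `P ≠ P'`; the numerators are not all equal (`digits` with `i → ∞`); let `i` be minimal with a difference, `ρ = dist (g P) (g P')`. `num_sep` and `digits`:
`dist P P' ≤ (2 ρ 2^(lam i) + 3)/2^(pp i) ≤ 8 ρ 2^(lam i)/2^(pp i)`, and `ρ ≥ 2^(-lam i - 1)`. If `i = 0`: `dist P P' ≤ 1 ≤ C ρ^(d/2)`, `C ≥ (2^(lam 0 + 1))^(d/2)`. If `i = h + 1`: also `dist P P' ≤ 1/2^(pp h)`
(`digits` at `h`), `lam (h+1) - pp (h+1) = m h - pp h`, so `dist P P' ≤ 2^(-pp h) min (1, 8 ρ 2^(m h)) ≤ 2^(-pp h) (8 ρ 2^(m h))^(d/2)` (`0 < d/2 ≤ 1`), and `2^(d m h / 2 - pp h) ≤ 1` for `h ≥ 1`, a constant for `h = 0`.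
(`d < 2` follows from `h1`, `h4`.)
(4) The inverse of `g` is Hoelder with exponent `d/2` on `g '' Q`: `HolderOnWith.dimH_image_le` (with `Function.invFunOn g Q`), `dimH Q = 2` (`Real.dimH_of_nonempty_interior`, `finrank ℝ (ℝ × ℝ) = 2`), so
`dimH (g '' Q) ≥ d`; `dimH_mono`.
-/

open MeasureTheory Real Set Filter Topology

set_option autoImplicit false

namespace Pool.Agent.Helper22.SC

/-- the point lies in the set -/
private lemma close29 {lam m a b : ℕ → ℕ} {c : ℝ × ℝ} (hab : ∀ i, a i < 2 ^ lam i ∧ 2 * b i < 2 ^ lam i)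
    (h : Inn lam m a b c) (i : ℕ) : Close (lam i) (m i) c := by
  obtain ⟨e1, e2, e3, e4⟩ := h i
  obtain ⟨ha, hb⟩ := hab i
  refine ⟨a i * 2 ^ lam i + b i, ?_, (-(a i : ℤ), 0), ?_, ?_⟩
  · have h4 : (4 : ℕ) ^ lam i = 2 ^ lam i * 2 ^ lam i := by
      rw [← mul_pow]
      norm_num
    rw [h4]
    have h5 : (a i + 1) * 2 ^ lam i ≤ 2 ^ lam i * 2 ^ lam i := Nat.mul_le_mul_right _ ha
    have h6 : (a i + 1) * 2 ^ lam i = a i * 2 ^ lam i + 2 ^ lam i := by ring
    omega
  · have hp : (0 : ℝ) < 2 ^ lam i := by positivity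
    have h5 : c.1 - ((a i * 2 ^ lam i + b i : ℕ) : ℝ) / 2 ^ lam i - ((-(a i : ℤ) : ℤ) : ℝ) =
        c.1 - (b i : ℝ) / 2 ^ lam i := by
      push_cast
      field_simp
      ring
    rw [h5, abs_le]
    have h6 : (0 : ℝ) ≤ (1 / 2) ^ m i := by positivity
    constructor <;> linarith
  · have h5 : c.2 - ((a i * 2 ^ lam i + b i : ℕ) : ℝ) / 4 ^ lam i - ((0 : ℤ) : ℝ) =
        c.2 - ((a i : ℝ) * 2 ^ lam i + b i) / 4 ^ lam i := by
      push_cast
      ring
    rw [h5, abs_le]
    have h6 : (0 : ℝ) ≤ (1 / 2) ^ m i := by positivity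
    constructor <;> linarith

/-- `min (1, x) ≤ x ^ s` -/
private lemma min29 {x s y : ℝ} (hx : 0 < x) (hs : 0 < s) (hs1 : s ≤ 1) (h1 : y ≤ 1) (h2 : y ≤ x) : y ≤ x ^ s := by
  rcases le_total x 1 with h | h
  · calc y ≤ x := h2
      _ = x ^ (1 : ℝ) := (Real.rpow_one x).symm
      _ ≤ x ^ s := Real.rpow_le_rpow_of_exponent_ge hx h hs1
  · exact h1.trans (Real.one_le_rpow h hs.le)

theorem cantor_dim {d : ℝ} (hd : 0 < d) (lam m : ℕ → ℕ) (h1 : ∀ i, lam i + 1 ≤ m i) (h2 : ∀ i, m i ≤ lam (i + 1))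
    (h3 : ∀ i, 2 * lam i ≤ lam (i + 1)) (h4 : ∀ i, d * m (i + 1) + 2 * m i ≤ 2 * lam (i + 1)) :
    ENNReal.ofReal d ≤ dimH {c : ℝ × ℝ | ∀ i, Close (lam i) (m i) c} := by
  classical
  obtain ⟨A, B, hN, hD⟩ := digits lam m
  set Q : Set (ℝ × ℝ) := Ico (0 : ℝ) (1 / 2) ×ˢ Ico (0 : ℝ) 1 with hQ
  -- the exponent
  have hd2 : d < 2 := by
    have e1 := h4 0
    have e2 : (lam 1 : ℝ) + 1 ≤ m 1 := by exact_mod_cast h1 1
    have e3 : (0 : ℝ) ≤ lam 1 := by positivity
    have e4 : (0 : ℝ) ≤ m 0 := by positivity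
    by_contra hcon
    push Not at hcon
    have e5 : 2 * (m 1 : ℝ) ≤ d * m 1 := mul_le_mul_of_nonneg_right hcon (by linarith)
    have e6 : d * (m 1 : ℝ) + 2 * m 0 ≤ 2 * lam 1 := e1
    linarith
  -- the exponents `pp`
  have hm : ∀ i, i ≤ m i := by
    intro i
    induction i with
    | zero => exact Nat.zero_le _
    | succ i ih => have := h1 (i + 1); have := h2 i; omega
  have hpp : ∀ h, d * m (h + 1) / 2 ≤ (pp lam m (h + 1) : ℝ) := by
    intro h
    have e1 : (pp lam m (h + 1) : ℝ) = pp lam m h + ((lam (h + 1) : ℝ) - m h) := by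
      rw [pp, Nat.cast_add, Nat.cast_sub (h2 h)]
    rw [e1]
    have e2 := h4 h
    have e3 : (0 : ℝ) ≤ pp lam m h := by positivity
    linarith
  -- the points
  have hex : ∀ P : ℝ × ℝ, ∃ c : ℝ × ℝ, P ∈ Q → Inn lam m (A P) (B P) c := by
    intro P
    by_cases hP : P ∈ Q
    · obtain ⟨-, c, hc⟩ := num_lim h1 h2 h3 (hN P hP)
      exact ⟨c, fun _ => hc⟩
    · exact ⟨0, fun h => absurd h hP⟩
  choose g hg using hex
  have hab : ∀ P ∈ Q, ∀ i, A P i < 2 ^ lam i ∧ 2 * B P i < 2 ^ lam i :=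
    fun P hP => (num_lim h1 h2 h3 (hN P hP)).1
  -- the Hoelder inequality
  have hH : ∀ P ∈ Q, ∀ P' ∈ Q, dist P P' ≤ (8 * 2 ^ m 0) ^ (d / 2) * dist (g P) (g P') ^ (d / 2) := by
    intro P hP P' hP'
    rcases eq_or_ne P P' with rfl | hne
    · rw [dist_self]
      positivity
    have hpos : 0 < dist P P' := dist_pos.mpr hne
    -- a difference
    have hdiff : ∃ i, ¬(A P i = A P' i ∧ B P i = B P' i) := by
      by_contra hcon
      push Not at hcon
      have e1 : ∀ i, dist P P' ≤ 1 / 2 ^ pp lam m i := by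
        intro i
        have e2 := hD P hP P' hP' i (fun l _ => hcon l)
        rw [(hcon i).1, (hcon i).2, sub_self, sub_self, abs_zero, zero_add, zero_add] at e2
        exact e2
      have e2 : ∀ i : ℕ, dist P P' * (1 + d * i / 2) ≤ 1 := by
        intro i
        have e3 := e1 (i + 1)
        rw [le_div_iff₀ (by positivity)] at e3
        refine le_trans (mul_le_mul_of_nonneg_left ?_ dist_nonneg) e3
        have e4 : (1 : ℝ) + pp lam m (i + 1) ≤ 2 ^ pp lam m (i + 1) := by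
          have := Nat.lt_two_pow_self (n := pp lam m (i + 1))
          have e5 : pp lam m (i + 1) + 1 ≤ 2 ^ pp lam m (i + 1) := this
          have e6 : ((pp lam m (i + 1) + 1 : ℕ) : ℝ) ≤ ((2 ^ pp lam m (i + 1) : ℕ) : ℝ) := by
            exact_mod_cast e5
          push_cast at e6
          linarith
        refine le_trans ?_ e4
        have e5 := hpp i
        have e6 : (i : ℝ) ≤ m (i + 1) := by exact_mod_cast (Nat.le_succ i).trans (hm (i + 1))
        have e7 : d * (i : ℝ) / 2 ≤ d * m (i + 1) / 2 := by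
          have := mul_le_mul_of_nonneg_left e6 hd.le
          linarith
        linarith
      obtain ⟨i, hi⟩ := exists_nat_gt (2 / (d * dist P P'))
      have e3 := e2 i
      rw [div_lt_iff₀ (by positivity)] at hi
      have e4 : dist P P' * (1 + d * i / 2) = dist P P' + (i * (d * dist P P')) / 2 := by ring
      rw [e4] at e3
      linarith
    set i := Nat.find hdiff with hi
    have hi1 : ¬(A P i = A P' i ∧ B P i = B P' i) := Nat.find_spec hdiff
    have hi2 : ∀ l < i, A P l = A P' l ∧ B P l = B P' l := by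
      intro l hl
      by_contra hcon
      exact Nat.find_min hdiff hl hcon
    obtain ⟨s1, s2, s3⟩ := num_sep h1 (fun i => (hab P hP i).2) (fun i => (hab P' hP' i).2)
      (hg P hP) (hg P' hP') hi1
    set ρ := dist (g P) (g P') with hρ
    have hρ0 : 0 < ρ := by
      by_contra hcon
      have : ρ = 0 := le_antisymm (not_lt.mp hcon) dist_nonneg
      rw [this, zero_mul] at s1
      norm_num at s1
    have hs0 : 0 < d / 2 := by linarith
    have hs1 : d / 2 ≤ 1 := by linarith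
    have t1 : dist P P' ≤ 8 * ρ * 2 ^ lam i / 2 ^ pp lam m i := by
      refine (hD P hP P' hP' i hi2).trans ?_
      apply div_le_div_of_nonneg_right _ (by positivity)
      linarith
    clear_value i
    rcases i with - | h
    · -- the first level
      have t2 : dist P P' ≤ 1 := by
        rw [Prod.dist_eq, Real.dist_eq, Real.dist_eq]
        obtain ⟨⟨p1, p2⟩, p3, p4⟩ := hP
        obtain ⟨⟨q1, q2⟩, q3, q4⟩ := hP'
        apply max_le <;> rw [abs_le] <;> constructor <;> linarith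
      rw [← Real.mul_rpow (by positivity) hρ0.le]
      refine t2.trans (Real.one_le_rpow ?_ hs0.le)
      have t3 : (2 : ℝ) ^ lam 0 ≤ 2 ^ m 0 := pow_le_pow_right₀ (by norm_num) (by have := h1 0; omega)
      have t4 : ρ * 2 ^ lam 0 ≤ ρ * 2 ^ m 0 := mul_le_mul_of_nonneg_left t3 hρ0.le
      have t5 : 8 * 2 ^ m 0 * ρ = 8 * (ρ * 2 ^ m 0) := by ring
      rw [t5]
      linarith
    · have t2 : dist P P' ≤ 1 / 2 ^ pp lam m h := by
        have e2 := hD P hP P' hP' h (fun l hl => hi2 l (hl.trans (Nat.lt_succ_self h)))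
        obtain ⟨e3, e4⟩ := hi2 h (Nat.lt_succ_self h)
        rw [e3, e4, sub_self, sub_self, abs_zero, zero_add, zero_add] at e2
        exact e2
      have t3 : dist P P' * 2 ^ pp lam m h ≤ (8 * 2 ^ m h * ρ) ^ (d / 2) := by
        apply min29 (by positivity) hs0 hs1
        · rwa [le_div_iff₀ (by positivity)] at t2
        · rw [le_div_iff₀ (by positivity)] at t1
          have e1 : (2 : ℝ) ^ pp lam m (h + 1) * 2 ^ m h = 2 ^ pp lam m h * 2 ^ lam (h + 1) := by
            rw [← pow_add, ← pow_add, pp]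
            congr 1
            have := h2 h
            omega
          have e2 : dist P P' * 2 ^ pp lam m h * 2 ^ lam (h + 1) ≤ 8 * 2 ^ m h * ρ * 2 ^ lam (h + 1) := by
            calc dist P P' * 2 ^ pp lam m h * 2 ^ lam (h + 1)
                = dist P P' * (2 ^ pp lam m h * 2 ^ lam (h + 1)) := by ring
              _ = dist P P' * 2 ^ pp lam m (h + 1) * 2 ^ m h := by rw [← e1]; ring
              _ ≤ 8 * ρ * 2 ^ lam (h + 1) * 2 ^ m h := mul_le_mul_of_nonneg_right t1 (by positivity)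
              _ = 8 * 2 ^ m h * ρ * 2 ^ lam (h + 1) := by ring
          exact le_of_mul_le_mul_right e2 (by positivity)
      have t4 : (8 * 2 ^ m h * ρ : ℝ) ^ (d / 2) = 8 ^ (d / 2) * (2 ^ m h) ^ (d / 2) * ρ ^ (d / 2) := by
        rw [Real.mul_rpow (by positivity) hρ0.le, Real.mul_rpow (by norm_num) (by positivity)]
      have t4' : (8 * 2 ^ m 0 : ℝ) ^ (d / 2) = 8 ^ (d / 2) * (2 ^ m 0) ^ (d / 2) := by
        rw [Real.mul_rpow (by norm_num) (by positivity)]
      rw [t4] at t3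
      rw [t4']
      have t5 : ((2 : ℝ) ^ m h) ^ (d / 2) ≤ (2 ^ m 0) ^ (d / 2) * 2 ^ pp lam m h := by
        rcases h with - | h
        · have : (1 : ℝ) ≤ 2 ^ pp lam m 0 := one_le_pow₀ (by norm_num)
          have h0 : (0 : ℝ) ≤ (2 ^ m 0) ^ (d / 2) := by positivity
          nlinarith
        · have e1 : (1 : ℝ) ≤ (2 ^ m 0) ^ (d / 2) :=
            Real.one_le_rpow (one_le_pow₀ (by norm_num)) hs0.le
          have e2 : ((2 : ℝ) ^ m (h + 1)) ^ (d / 2) ≤ 2 ^ pp lam m (h + 1) := by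
            rw [← Real.rpow_natCast 2 (m (h + 1)), ← Real.rpow_natCast 2 (pp lam m (h + 1)),
              ← Real.rpow_mul (by norm_num)]
            apply Real.rpow_le_rpow_of_exponent_le (by norm_num)
            have := hpp h
            linarith
          have h0 : (0 : ℝ) ≤ 2 ^ pp lam m (h + 1) := by positivity
          nlinarith
      have hp : (0 : ℝ) < 2 ^ pp lam m h := by positivity
      have t6 : 8 ^ (d / 2) * (2 ^ m h : ℝ) ^ (d / 2) * ρ ^ (d / 2) ≤
          (8 ^ (d / 2) * (2 ^ m 0) ^ (d / 2) * ρ ^ (d / 2)) * 2 ^ pp lam m h := by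
        have e1 : (0 : ℝ) ≤ 8 ^ (d / 2) * ρ ^ (d / 2) := by positivity
        have e2 := mul_le_mul_of_nonneg_left t5 e1
        calc 8 ^ (d / 2) * (2 ^ m h : ℝ) ^ (d / 2) * ρ ^ (d / 2)
            = 8 ^ (d / 2) * ρ ^ (d / 2) * (2 ^ m h : ℝ) ^ (d / 2) := by ring
          _ ≤ 8 ^ (d / 2) * ρ ^ (d / 2) * ((2 ^ m 0) ^ (d / 2) * 2 ^ pp lam m h) := e2
          _ = _ := by ring
      exact le_of_mul_le_mul_right (t3.trans t6) hp
  -- injectivity
  have hinj : Set.InjOn g Q := by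
    intro P hP P' hP' he
    have e1 := hH P hP P' hP'
    rw [he, dist_self, Real.zero_rpow (by linarith), mul_zero] at e1
    exact dist_le_zero.mp e1
  -- the dimension
  set r : NNReal := ⟨d / 2, by linarith⟩ with hr
  set C : NNReal := ⟨(8 * 2 ^ m 0) ^ (d / 2), by positivity⟩ with hC
  have hr0 : 0 < r := by
    rw [← NNReal.coe_pos]
    change 0 < d / 2
    linarith
  have hHo : HolderOnWith C r (Function.invFunOn g Q) (g '' Q) := by
    rintro _ ⟨P, hP, rfl⟩ _ ⟨P', hP', rfl⟩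
    rw [hinj.leftInvOn_invFunOn hP, hinj.leftInvOn_invFunOn hP', edist_dist, edist_dist]
    rw [show ((C : NNReal) : ENNReal) = ENNReal.ofReal ((8 * 2 ^ m 0) ^ (d / 2)) from
      (ENNReal.ofReal_eq_coe_nnreal _).symm]
    rw [show ((r : NNReal) : ℝ) = d / 2 from rfl,
      ENNReal.ofReal_rpow_of_nonneg dist_nonneg (by linarith), ← ENNReal.ofReal_mul (by positivity)]
    exact ENNReal.ofReal_le_ofReal (hH P hP P' hP')
  have h5 := hHo.dimH_image_le hr0
  have h6 : Function.invFunOn g Q '' (g '' Q) = Q := hinj.leftInvOn_invFunOn.image_image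
  have h7 : dimH Q = 2 := by
    rw [Real.dimH_of_nonempty_interior]
    · norm_num [Module.finrank_prod]
    · refine ⟨(1 / 4, 1 / 2), ?_⟩
      rw [hQ, interior_prod_eq, interior_Ico, interior_Ico]
      constructor <;> constructor <;> norm_num
  rw [h6, h7] at h5
  have h8 : (2 : ENNReal) * r ≤ dimH (g '' Q) := by
    rwa [ENNReal.le_div_iff_mul_le (Or.inl (by exact_mod_cast hr0.ne')) (Or.inl ENNReal.coe_ne_top)] at h5
  have h9 : ENNReal.ofReal d = (2 : ENNReal) * r := by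
    rw [show ((r : NNReal) : ENNReal) = ENNReal.ofReal (d / 2) from
      (ENNReal.ofReal_eq_coe_nnreal _).symm]
    rw [show (2 : ENNReal) = ENNReal.ofReal 2 by simp, ← ENNReal.ofReal_mul (by norm_num)]
    congr 1
    ring
  rw [h9]
  refine h8.trans (dimH_mono ?_)
  rintro _ ⟨P, hP, rfl⟩ i
  exact close29 (hab P hP) (hg P hP) i

end Pool.Agent.Helper22.SC
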