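import Pool.Agent.Helper22.SC.Defs

/-!
# SC-DmA: nested squares around the points of sheared grids

`Num lam m a b`: `x i = b i / 2^(lam i)`, `y i = a i / 2^(lam i) + b i / 4^(lam i)` are the lower left corners of nested squares of side `2^(-m i)`.

PROOF of `num_lim`. `x (i+1) - x i = β/2^(lam (i+1)) ∈ [0, 2^(-m i) - 2^(-lam (i+1))]`. If `2 b i < 2^(lam i)` then `x i ≤ 1/2 - 2^(-lam i)` (or `lam i = 0`, `x i = 0`), so `x (i+1) < 1/2` (`m i ≥ lam i + 1`).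
`a (i+1)/2^(lam (i+1)) = y i + α/2^(lam (i+1)) < y i + 2^(-m i)`, `y i ≤ (2^(lam i) - 1)/2^(lam i) + x i/2^(lam i) < 1 - 2^(-lam i - 1)`, so `a (i+1) < 2^(lam (i+1))`.
`y (i+1) - y i = (α + x (i+1))/2^(lam (i+1)) ≤ 2^(-m i) - 2^(-lam (i+1) - 1)`. Since `2^(-m (i+1)) ≤ 2^(-lam (i+1) - 1)` the closed intervals `[x i, x i + 2^(-m i)]`, `[y i, y i + 2^(-m i)]` are nested; take the limits
(or suprema) of the increasing bounded sequences.
PROOF of `num_sep`. `ρ = dist c c'` (maximum norm). `|b i - b' i|/2^(lam i) ≤ ρ + 2^(-m i) ≤ ρ + 2^(-lam i - 1)`, so `|Δb| ≤ ρ 2^(lam i) + 1/2`. `|Δa/2^(lam i) + Δb/4^(lam i)| ≤ ρ + 2^(-m i)` and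
`|Δb|/2^(lam i) < 1/2`, so `|Δa| ≤ ρ 2^(lam i) + 1`. If `Δb ≠ 0`: `1 ≤ ρ 2^(lam i) + 1/2`. If `Δb = 0`, `Δa ≠ 0`: `1 ≤ |Δa| ≤ ρ 2^(lam i) + 1/2`.
-/

open MeasureTheory Real Set Filter Topology

set_option autoImplicit false

namespace Pool.Agent.Helper22.SC

/-- admissible numerators -/
structure Num (lam m : ℕ → ℕ) (a b : ℕ → ℕ) : Prop where
  b0 : 2 * b 0 < 2 ^ lam 0
  a0 : a 0 < 2 ^ lam 0
  bs : ∀ i, ∃ β, β < 2 ^ (lam (i + 1) - m i) ∧ b (i + 1) = 2 ^ (lam (i + 1) - lam i) * b i + β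
  as : ∀ i, ∃ α, α < 2 ^ (lam (i + 1) - m i) ∧ a (i + 1) = 2 ^ (lam (i + 1) - 2 * lam i) * (a i * 2 ^ lam i + b i) + α

/-- the point `c` lies in all squares -/
def Inn (lam m : ℕ → ℕ) (a b : ℕ → ℕ) (c : ℝ × ℝ) : Prop :=
  ∀ i, (b i : ℝ) / 2 ^ lam i ≤ c.1 ∧ c.1 ≤ (b i : ℝ) / 2 ^ lam i + (1 / 2) ^ m i ∧
    ((a i : ℝ) * 2 ^ lam i + b i) / 4 ^ lam i ≤ c.2 ∧ c.2 ≤ ((a i : ℝ) * 2 ^ lam i + b i) / 4 ^ lam i + (1 / 2) ^ m i

/-- the numerators are small -/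
private lemma num_small {lam m : ℕ → ℕ} (h1 : ∀ i, lam i + 1 ≤ m i) (h2 : ∀ i, m i ≤ lam (i + 1))
    (h3 : ∀ i, 2 * lam i ≤ lam (i + 1)) {a b : ℕ → ℕ} (h : Num lam m a b) :
    ∀ i, a i < 2 ^ lam i ∧ 2 * b i < 2 ^ lam i := by
  intro i
  induction i with
  | zero => exact ⟨h.a0, h.b0⟩
  | succ i ih =>
    obtain ⟨ha, hb⟩ := ih
    obtain ⟨β, hβ, hbs⟩ := h.bs i
    obtain ⟨α, hα, has⟩ := h.as i
    have e1 : lam (i + 1) - m i + 1 ≤ lam (i + 1) - lam i := by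
      have := h1 i
      have := h2 i
      omega
    have p1 : 2 * 2 ^ (lam (i + 1) - m i) ≤ 2 ^ (lam (i + 1) - lam i) := by
      rw [← pow_succ']
      exact Nat.pow_le_pow_right (by norm_num) e1
    have p2 : 2 ^ (lam (i + 1) - lam i) * 2 ^ lam i = 2 ^ lam (i + 1) := by
      rw [← pow_add]
      congr 1
      have := h1 i
      have := h2 i
      omega
    have p3 : 2 ^ (lam (i + 1) - 2 * lam i) * 2 ^ lam i = 2 ^ (lam (i + 1) - lam i) := by
      rw [← pow_add]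
      congr 1
      have := h3 i
      omega
    constructor
    · rw [has]
      set E := 2 ^ (lam (i + 1) - 2 * lam i) with hE
      set T := 2 ^ lam i with hT
      have hE0 : 0 < E := by positivity
      have q1 : 2 ^ lam (i + 1) = E * T * T := by rw [p3, p2]
      have q2 : 2 * α < E * T := by
        rw [p3]
        omega
      have q3 : 2 * (a i * T + b i) + T + 1 ≤ 2 * (T * T) := by
        have : (a i + 1) * T ≤ T * T := Nat.mul_le_mul_right T ha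
        nlinarith
      have q4 : E * (2 * (a i * T + b i) + T + 1) ≤ E * (2 * (T * T)) := Nat.mul_le_mul_left E q3
      rw [q1]
      nlinarith
    · rw [hbs]
      set D := 2 ^ (lam (i + 1) - lam i) with hD
      have q1 : D * (2 * b i + 1) ≤ D * 2 ^ lam i := Nat.mul_le_mul_left D hb
      rw [p2] at q1
      have q2 : D * (2 * b i + 1) = 2 * (D * b i) + D := by ring
      omega

theorem num_lim {lam m : ℕ → ℕ} (h1 : ∀ i, lam i + 1 ≤ m i) (h2 : ∀ i, m i ≤ lam (i + 1)) (h3 : ∀ i, 2 * lam i ≤ lam (i + 1))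
    {a b : ℕ → ℕ} (h : Num lam m a b) : (∀ i, a i < 2 ^ lam i ∧ 2 * b i < 2 ^ lam i) ∧ ∃ c : ℝ × ℝ, Inn lam m a b c := by
  have hs := num_small h1 h2 h3 h
  refine ⟨hs, ?_⟩
  -- bounds
  have hr : ∀ i, ((1 : ℝ) / 2) ^ m (i + 1) ≤ 1 / (2 * 2 ^ lam (i + 1)) := by
    intro i
    rw [one_div, inv_pow, one_div]
    apply inv_anti₀ (by positivity)
    rw [← pow_succ']
    exact pow_le_pow_right₀ (by norm_num) (h1 (i + 1))
  have hnum : ∀ i (β : ℕ), β < 2 ^ (lam (i + 1) - m i) →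
      (β : ℝ) / 2 ^ lam (i + 1) + 1 / 2 ^ lam (i + 1) ≤ (1 / 2) ^ m i := by
    intro i β hβ
    have e : ((2 : ℝ) ^ (lam (i + 1) - m i)) * 2 ^ m i = 2 ^ lam (i + 1) := by
      rw [← pow_add]
      congr 1
      have := h2 i
      omega
    have hβ' : (β : ℝ) + 1 ≤ 2 ^ (lam (i + 1) - m i) := by exact_mod_cast hβ
    rw [← add_div, div_le_iff₀ (by positivity), ← e, mul_comm ((2 : ℝ) ^ (lam (i + 1) - m i)),
      ← mul_assoc, ← mul_pow, one_div, inv_mul_cancel₀ (by norm_num), one_pow, one_mul]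
    exact hβ'
  -- first coordinate
  have hx : ∀ i, (b i : ℝ) / 2 ^ lam i ≤ (b (i + 1) : ℝ) / 2 ^ lam (i + 1) ∧
      (b (i + 1) : ℝ) / 2 ^ lam (i + 1) + (1 / 2) ^ m (i + 1) ≤
        (b i : ℝ) / 2 ^ lam i + (1 / 2) ^ m i := by
    intro i
    obtain ⟨β, hβ, hbs⟩ := h.bs i
    have e : ((2 : ℝ) ^ (lam (i + 1) - lam i)) * 2 ^ lam i = 2 ^ lam (i + 1) := by
      rw [← pow_add]
      congr 1
      have := h1 i
      have := h2 i
      omega
    have e2 : (b (i + 1) : ℝ) / 2 ^ lam (i + 1) = (b i : ℝ) / 2 ^ lam i + β / 2 ^ lam (i + 1) := by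
      rw [hbs]
      push_cast
      rw [add_div]
      congr 1
      rw [← e]
      field_simp
    have g1 := hr i
    have g2 := hnum i β hβ
    have g3 : (0 : ℝ) ≤ β / 2 ^ lam (i + 1) := by positivity
    have g4 : (0 : ℝ) < 1 / 2 ^ lam (i + 1) := by positivity
    have g5 : (1 : ℝ) / (2 * 2 ^ lam (i + 1)) = (1 / 2 ^ lam (i + 1)) / 2 := by
      field_simp
    rw [g5] at g1
    rw [e2]
    constructor <;> linarith
  have hy : ∀ i, ((a i : ℝ) * 2 ^ lam i + b i) / 4 ^ lam i ≤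
      ((a (i + 1) : ℝ) * 2 ^ lam (i + 1) + b (i + 1)) / 4 ^ lam (i + 1) ∧
      ((a (i + 1) : ℝ) * 2 ^ lam (i + 1) + b (i + 1)) / 4 ^ lam (i + 1) + (1 / 2) ^ m (i + 1) ≤
        ((a i : ℝ) * 2 ^ lam i + b i) / 4 ^ lam i + (1 / 2) ^ m i := by
    intro i
    obtain ⟨α, hα, has⟩ := h.as i
    have h4 : ∀ j, (4 : ℝ) ^ lam j = 2 ^ lam j * 2 ^ lam j := by
      intro j
      rw [← mul_pow]
      norm_num
    have e : ((2 : ℝ) ^ (lam (i + 1) - 2 * lam i)) * (2 ^ lam i * 2 ^ lam i) = 2 ^ lam (i + 1) := by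
      rw [← pow_add, ← pow_add]
      congr 1
      have := h3 i
      omega
    have e2 : ((a (i + 1) : ℝ) * 2 ^ lam (i + 1) + b (i + 1)) / 4 ^ lam (i + 1) =
        ((a i : ℝ) * 2 ^ lam i + b i) / 4 ^ lam i + α / 2 ^ lam (i + 1) +
          (b (i + 1) : ℝ) / 4 ^ lam (i + 1) := by
      rw [add_div]
      congr 1
      rw [h4 (i + 1), mul_div_mul_right _ _ (by positivity), has]
      push_cast
      rw [add_div]
      congr 1
      rw [h4 i, ← e]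
      field_simp
    have g1 := hr i
    have g2 := hnum i α hα
    have g3 : (0 : ℝ) ≤ α / 2 ^ lam (i + 1) := by positivity
    have g4 : (0 : ℝ) < 1 / 2 ^ lam (i + 1) := by positivity
    have g5 : (1 : ℝ) / (2 * 2 ^ lam (i + 1)) = (1 / 2 ^ lam (i + 1)) / 2 := by
      field_simp
    have g6 : (0 : ℝ) ≤ (b (i + 1) : ℝ) / 4 ^ lam (i + 1) := by positivity
    have g7 : (b (i + 1) : ℝ) / 4 ^ lam (i + 1) ≤ (1 / 2 ^ lam (i + 1)) / 2 := by
      have hb' : 2 * (b (i + 1) : ℝ) ≤ 2 ^ lam (i + 1) := by exact_mod_cast (hs (i + 1)).2.le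
      rw [h4 (i + 1), div_div, div_le_div_iff₀ (by positivity) (by positivity), one_mul]
      have hp : (0 : ℝ) < 2 ^ lam (i + 1) := by positivity
      nlinarith
    rw [g5] at g1
    rw [e2]
    constructor <;> linarith
  have key : ∀ (f g : ℕ → ℝ), (∀ i, f i ≤ f (i + 1)) → (∀ i, g (i + 1) ≤ g i) → (∀ i, f i ≤ g i) →
      ∃ c, ∀ i, f i ≤ c ∧ c ≤ g i := by
    intro f g hf hg hfg
    refine ⟨⨆ n, f n, fun i => ?_⟩
    have := Monotone.ciSup_mem_iInter_Icc_of_antitone (monotone_nat_of_le_succ hf)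
      (antitone_nat_of_succ_le hg) hfg
    rw [Set.mem_iInter] at this
    exact this i
  obtain ⟨c1, hc1⟩ := key (fun i => (b i : ℝ) / 2 ^ lam i)
    (fun i => (b i : ℝ) / 2 ^ lam i + (1 / 2) ^ m i) (fun i => (hx i).1) (fun i => (hx i).2)
    (fun i => le_add_of_nonneg_right (by positivity))
  obtain ⟨c2, hc2⟩ := key (fun i => ((a i : ℝ) * 2 ^ lam i + b i) / 4 ^ lam i)
    (fun i => ((a i : ℝ) * 2 ^ lam i + b i) / 4 ^ lam i + (1 / 2) ^ m i) (fun i => (hy i).1)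
    (fun i => (hy i).2) (fun i => le_add_of_nonneg_right (by positivity))
  exact ⟨(c1, c2), fun i => ⟨(hc1 i).1, (hc1 i).2, (hc2 i).1, (hc2 i).2⟩⟩

theorem num_sep {lam m : ℕ → ℕ} (h1 : ∀ i, lam i + 1 ≤ m i) {a b a' b' : ℕ → ℕ} (hb : ∀ i, 2 * b i < 2 ^ lam i)
    (hb' : ∀ i, 2 * b' i < 2 ^ lam i) {c c' : ℝ × ℝ} (hc : Inn lam m a b c) (hc' : Inn lam m a' b' c') {i : ℕ}
    (hne : ¬(a i = a' i ∧ b i = b' i)) :
    1 / 2 ≤ dist c c' * 2 ^ lam i ∧ |(b i : ℝ) - b' i| ≤ dist c c' * 2 ^ lam i + 1 ∧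
      |(a i : ℝ) - a' i| ≤ dist c c' * 2 ^ lam i + 1 := by
  set ρ := dist c c' with hρ
  have hd1 : |c.1 - c'.1| ≤ ρ := by
    rw [← Real.dist_eq, hρ, Prod.dist_eq]
    exact le_max_left _ _
  have hd2 : |c.2 - c'.2| ≤ ρ := by
    rw [← Real.dist_eq, hρ, Prod.dist_eq]
    exact le_max_right _ _
  obtain ⟨u1, u2, u3, u4⟩ := hc i
  obtain ⟨v1, v2, v3, v4⟩ := hc' i
  rw [abs_le] at hd1 hd2
  set T : ℝ := 2 ^ lam i with hT
  have hT0 : 0 < T := by positivity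
  have h4 : (4 : ℝ) ^ lam i = T * T := by
    rw [hT, ← mul_pow]
    norm_num
  have hrT : ((1 : ℝ) / 2) ^ m i * T ≤ 1 / 2 := by
    have g : ((1 : ℝ) / 2) ^ m i ≤ (1 / 2) ^ (lam i + 1) :=
      pow_le_pow_of_le_one (by norm_num) (by norm_num) (h1 i)
    have g2 : ((1 : ℝ) / 2) ^ (lam i + 1) * T = 1 / 2 := by
      rw [hT, pow_succ, mul_right_comm, ← mul_pow]
      norm_num
    calc ((1 : ℝ) / 2) ^ m i * T ≤ (1 / 2) ^ (lam i + 1) * T :=
          mul_le_mul_of_nonneg_right g hT0.le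
      _ = 1 / 2 := g2
  rw [h4] at u3 u4 v3 v4
  have w1 : (b i : ℝ) ≤ c.1 * T := (div_le_iff₀ hT0).1 u1
  have w1' : (b' i : ℝ) ≤ c'.1 * T := (div_le_iff₀ hT0).1 v1
  have w2 : c.1 * T ≤ b i + 1 / 2 := by
    have := mul_le_mul_of_nonneg_right u2 hT0.le
    rw [add_mul, div_mul_cancel₀ _ hT0.ne'] at this
    linarith
  have w2' : c'.1 * T ≤ b' i + 1 / 2 := by
    have := mul_le_mul_of_nonneg_right v2 hT0.le
    rw [add_mul, div_mul_cancel₀ _ hT0.ne'] at this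
    linarith
  have e3 : ∀ x y : ℝ, (x * T + y) / (T * T) * T = x + y / T := by
    intro x y
    field_simp
  have w3 : (a i : ℝ) + b i / T ≤ c.2 * T := by
    have := mul_le_mul_of_nonneg_right u3 hT0.le
    rwa [e3] at this
  have w3' : (a' i : ℝ) + b' i / T ≤ c'.2 * T := by
    have := mul_le_mul_of_nonneg_right v3 hT0.le
    rwa [e3] at this
  have w4 : c.2 * T ≤ (a i : ℝ) + b i / T + 1 / 2 := by
    have := mul_le_mul_of_nonneg_right u4 hT0.le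
    rw [add_mul, e3] at this
    linarith
  have w4' : c'.2 * T ≤ (a' i : ℝ) + b' i / T + 1 / 2 := by
    have := mul_le_mul_of_nonneg_right v4 hT0.le
    rw [add_mul, e3] at this
    linarith
  have d1 : c.1 * T - c'.1 * T ≤ ρ * T := by
    rw [← sub_mul]
    exact mul_le_mul_of_nonneg_right hd1.2 hT0.le
  have d1' : c'.1 * T - c.1 * T ≤ ρ * T := by
    rw [← sub_mul]
    exact mul_le_mul_of_nonneg_right (by linarith) hT0.le
  have d2 : c.2 * T - c'.2 * T ≤ ρ * T := by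
    rw [← sub_mul]
    exact mul_le_mul_of_nonneg_right hd2.2 hT0.le
  have d2' : c'.2 * T - c.2 * T ≤ ρ * T := by
    rw [← sub_mul]
    exact mul_le_mul_of_nonneg_right (by linarith) hT0.le
  have hB : |(b i : ℝ) - b' i| ≤ ρ * T + 1 / 2 := by
    rw [abs_le]
    constructor <;> linarith
  have hbT : (b i : ℝ) / T ≤ 1 / 2 := by
    rw [div_le_iff₀ hT0]
    have : 2 * (b i : ℝ) ≤ T := by
      rw [hT]
      exact_mod_cast (hb i).le
    linarith
  have hbT' : (b' i : ℝ) / T ≤ 1 / 2 := by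
    rw [div_le_iff₀ hT0]
    have : 2 * (b' i : ℝ) ≤ T := by
      rw [hT]
      exact_mod_cast (hb' i).le
    linarith
  have hb0 : 0 ≤ (b i : ℝ) / T := by positivity
  have hb0' : 0 ≤ (b' i : ℝ) / T := by positivity
  have hA : |(a i : ℝ) - a' i| ≤ ρ * T + 1 := by
    rw [abs_le]
    constructor <;> linarith
  refine ⟨?_, by linarith, hA⟩
  have hint : ∀ x y : ℕ, x ≠ y → (1 : ℝ) ≤ |(x : ℝ) - y| := by
    intro x y hxy
    have h5 : (x : ℤ) - y ≠ 0 := by omega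
    have h6 := Int.one_le_abs h5
    have h7 : ((1 : ℤ) : ℝ) ≤ ((|(x : ℤ) - y| : ℤ) : ℝ) := by exact_mod_cast h6
    rw [Int.cast_abs] at h7
    push_cast at h7
    exact h7
  by_cases hbb : b i = b' i
  · have haa : a i ≠ a' i := fun h => hne ⟨h, hbb⟩
    have h8 := hint _ _ haa
    have h9 : |(a i : ℝ) - a' i| ≤ ρ * T + 1 / 2 := by
      rw [hbb] at w3 w4
      rw [abs_le]
      constructor <;> linarith
    linarith
  · have h8 := hint _ _ hbb
    linarith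

end Pool.Agent.Helper22.SC
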