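import Pool.Agent.Helper22.SC.Defs
import Pool.Agent.Helper92.EO.Lat
import Pool.Agent.Helper92.EO.Low

/-!
# SC-L6: the main term when all phases are near integers

PROOF: as in `low` (Helper92/EO/Low.lean). If `|x - z| ≤ 1/24`, `z` an integer, then `cos (2π x - 3π/4) ≤ -1/2` (the argument is within `π/12` of `-3π/4` modulo `2π`, `cos (2π/3) = -1/2`).
All factors are `≥ 0` (`W ≥ 0`), and for `nk k ≤ K/(2B)`, `B ≥ 1` an upper bound of `H`, `W (nk k H / K) ≥ c₀` (`hw.lower`), `sqrt (rho H) ≥ sqrt r₀`; so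
`mainc ≤ -(1/2) (R^(1/2)/π) sqrt r₀ c₀ ∑_{k ∈ kset (K/(2B))} nk k^(-3/2) ≤ -c R^(1/2) K^(1/2)` (`lat_lower`, `K/(2B) ≥ 2`, `kset (K/(2B)) ⊆ kset (A K)`).
-/

open MeasureTheory Real Set Filter Topology

set_option autoImplicit false

namespace Pool.Agent.Helper22.SC

open Pool.Agent.Helper22.AE Pool.Agent.Helper22.AC Pool.Agent.Helper92.EO

private lemma l6_min {f : ℝ → ℝ} (hf : Continuous f) (hp : Function.Periodic f (2 * π)) :
    ∃ t0 : ℝ, ∀ θ, f t0 ≤ f θ := by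
  obtain ⟨t0, -, h0⟩ := isCompact_Icc.exists_isMinOn (s := Icc (0 : ℝ) (2 * π))
    (nonempty_Icc.2 (by positivity)) hf.continuousOn
  refine ⟨t0, fun θ => ?_⟩
  obtain ⟨y, hy, hy'⟩ := hp.exists_mem_Ico₀ (by positivity) θ
  rw [hy']
  exact h0 ⟨hy.1, hy.2.le⟩

private lemma l6_max {f : ℝ → ℝ} (hf : Continuous f) (hp : Function.Periodic f (2 * π)) :
    ∃ t0 : ℝ, ∀ θ, f θ ≤ f t0 := by
  obtain ⟨t0, h⟩ := l6_min (f := fun θ => -f θ) hf.neg (fun θ => by simp [hp θ])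
  exact ⟨t0, fun θ => by have := h θ; linarith⟩

private lemma l6_per_deriv {f : ℝ → ℝ} {c : ℝ} (hp : Function.Periodic f c) : Function.Periodic (deriv f) c := by
  intro x
  have h : (fun y => f (y + c)) = f := funext hp
  have h2 : deriv (fun y => f (y + c)) x = deriv f (x + c) := deriv_comp_add_const f c x
  rw [← h2, h]

private lemma l6_rho {H : ℝ → ℝ} (hH : IsSupp H) : ∃ r : ℝ, 0 < r ∧ ∀ θ, r ≤ rho H θ := by
  have hc2 : Continuous (deriv (deriv H)) := by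
    have h1 : ContDiff ℝ 1 (deriv H) := by
      have h : ContDiff ℝ (1 + 1) H := by
        have e : (1 + 1 : WithTop ℕ∞) = 2 := by norm_num
        rw [e]
        exact hH.smooth
      exact (contDiff_succ_iff_deriv.1 h).2.2
    exact h1.continuous_deriv le_rfl
  have hc : Continuous (rho H) := by
    unfold rho
    exact hH.smooth.continuous.add hc2
  have hp : Function.Periodic (rho H) (2 * π) := by
    intro x
    unfold rho
    rw [hH.per x, l6_per_deriv (l6_per_deriv hH.per) x]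
  obtain ⟨t, ht⟩ := l6_min hc hp
  exact ⟨rho H t, hH.rho_pos t, ht⟩

private lemma l6_cos {x : ℝ} {z : ℤ} (h : |x - z| ≤ 1 / 24) : cos (2 * π * x - 3 * π / 4) ≤ -(1 / 2) := by
  rw [abs_le] at h
  have hπ := pi_pos
  have e : cos (2 * π * x - 3 * π / 4) = cos (3 * π / 4 - 2 * π * (x - z)) := by
    rw [← cos_neg]
    have : -(2 * π * x - 3 * π / 4) = (3 * π / 4 - 2 * π * (x - z)) - z * (2 * π) := by ring
    rw [this, cos_sub_int_mul_two_pi]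
  rw [e]
  have e2 : cos (π - π / 3) = -(1 / 2) := by rw [cos_pi_sub, cos_pi_div_three]
  rw [← e2]
  apply cos_le_cos_of_nonneg_of_le_pi
  · nlinarith
  · nlinarith
  · nlinarith

theorem low2 {w W : ℝ → ℝ} (hw : IsKer w W) {H : ℝ → ℝ} (hH : IsSupp H) {A : ℝ} (hA : 1 ≤ A) :
    ∃ c₀ K₀ : ℝ, 0 < c₀ ∧ 1 ≤ K₀ ∧ ∀ R K : ℝ, 1 ≤ R → K₀ ≤ K → ∀ c : ℝ × ℝ,
      (∀ k ∈ kset (A * K), ∃ z : ℤ, |R * (nk k * H (tk k)) + ((k.1 : ℝ) * c.1 + (k.2 : ℝ) * c.2) - z| ≤ 1 / 24) →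
        mainc W H c (A * K) K R ≤ -(c₀ * R ^ (1 / 2 : ℝ) * K ^ (1 / 2 : ℝ)) := by
  obtain ⟨c₀, hc₀, hW⟩ := hw.lower
  obtain ⟨r₀, hr₀, hρ⟩ := l6_rho hH
  obtain ⟨tB, htB⟩ := l6_max hH.smooth.continuous hH.per
  obtain ⟨cl, hcl, hlat⟩ := lat_lower
  set B : ℝ := max 1 (H tB) with hBdef
  have hB1 : 1 ≤ B := le_max_left _ _
  have hB0 : 0 < B := by linarith
  have hHB : ∀ θ, H θ ≤ B := fun θ => (htB θ).trans (le_max_right _ _)
  have hπ := pi_pos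
  have hA0 : 0 < A := by linarith
  refine ⟨sqrt r₀ * c₀ * cl * (1 / (2 * B)) ^ (1 / 2 : ℝ) / (2 * π), 4 * B, by positivity, by linarith, ?_⟩
  intro R K hR1 hK4 c hR3
  have hR0 : 0 < R := by linarith
  have hK1 : 1 ≤ K := by linarith
  have hK0 : 0 < K := by linarith
  set t : ℤ × ℤ → ℝ := fun k => nk k ^ (-(3 / 2) : ℝ) * sqrt (rho H (tk k)) * W (nk k * H (tk k) / K) with ht
  have hnk0 : ∀ k : ℤ × ℤ, 0 ≤ nk k := fun k => norm_nonneg _
  have ht0 : ∀ k, 0 ≤ t k := fun k =>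
    mul_nonneg (mul_nonneg (rpow_nonneg (hnk0 k) _) (sqrt_nonneg _)) (hw.Wnn _)
  have h1 : ∑ k ∈ kset (A * K), nk k ^ (-(3 / 2) : ℝ) * sqrt (rho H (tk k)) * W (nk k * H (tk k) / K) *
      cos (2 * π * (R * (nk k * H (tk k)) + ((k.1 : ℝ) * c.1 + (k.2 : ℝ) * c.2)) - 3 * π / 4) ≤
        ∑ k ∈ kset (A * K), -(1 / 2) * t k := by
    apply Finset.sum_le_sum
    intro k hk
    obtain ⟨z, hz⟩ := hR3 k hk
    have hcos := l6_cos hz
    have := mul_le_mul_of_nonneg_left hcos (ht0 k)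
    simp only [ht] at this ⊢
    linarith
  have hsub : kset (K / (2 * B)) ⊆ kset (A * K) := by
    intro k hk
    rw [mem_kset] at hk ⊢
    refine ⟨hk.1, hk.2.trans ?_⟩
    have h5 : K / (2 * B) ≤ K := div_le_self hK0.le (by linarith)
    nlinarith
  have h2 : ∑ k ∈ kset (K / (2 * B)), sqrt r₀ * c₀ * nk k ^ (-(3 / 2) : ℝ) ≤ ∑ k ∈ kset (A * K), t k := by
    refine le_trans ?_ (Finset.sum_le_sum_of_subset_of_nonneg hsub (fun k _ _ => ht0 k))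
    apply Finset.sum_le_sum
    intro k hk
    rw [mem_kset] at hk
    have hx0 : 0 ≤ nk k * H (tk k) / K := div_nonneg (mul_nonneg (hnk0 k) (hH.pos _).le) hK0.le
    have hx1 : nk k * H (tk k) / K ≤ 1 / 2 := by
      rw [div_le_iff₀ hK0]
      have h6 : nk k * H (tk k) ≤ (K / (2 * B)) * B :=
        mul_le_mul hk.2 (hHB _) (hH.pos _).le (by positivity)
      have h7 : (K / (2 * B)) * B = 1 / 2 * K := by field_simp
      linarith
    have hw1 := hW (nk k * H (tk k) / K) (by rw [abs_of_nonneg hx0]; exact hx1)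
    have hs : sqrt r₀ ≤ sqrt (rho H (tk k)) := sqrt_le_sqrt (hρ _)
    have hn : 0 ≤ nk k ^ (-(3 / 2) : ℝ) := rpow_nonneg (hnk0 k) _
    simp only [ht]
    calc sqrt r₀ * c₀ * nk k ^ (-(3 / 2) : ℝ) = nk k ^ (-(3 / 2) : ℝ) * sqrt r₀ * c₀ := by ring
      _ ≤ nk k ^ (-(3 / 2) : ℝ) * sqrt (rho H (tk k)) * W (nk k * H (tk k) / K) := by
        apply mul_le_mul _ hw1 hc₀.le (by positivity)
        exact mul_le_mul_of_nonneg_left hs hn
  have h3 : cl * (K / (2 * B)) ^ (1 / 2 : ℝ) ≤ ∑ k ∈ kset (K / (2 * B)), nk k ^ (-(3 / 2) : ℝ) := by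
    apply hlat
    rw [le_div_iff₀ (by positivity)]
    linarith
  have h4 : sqrt r₀ * c₀ * (cl * (K / (2 * B)) ^ (1 / 2 : ℝ)) ≤ ∑ k ∈ kset (A * K), t k := by
    refine le_trans ?_ h2
    rw [← Finset.mul_sum]
    exact mul_le_mul_of_nonneg_left h3 (by positivity)
  have hKB : (K / (2 * B)) ^ (1 / 2 : ℝ) = (1 / (2 * B)) ^ (1 / 2 : ℝ) * K ^ (1 / 2 : ℝ) := by
    rw [← mul_rpow (by positivity) hK0.le]
    congr 1
    ring
  have hR12 : 0 ≤ R ^ (1 / 2 : ℝ) / π := by positivity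
  unfold mainc
  calc R ^ (1 / 2 : ℝ) / π * ∑ k ∈ kset (A * K), nk k ^ (-(3 / 2) : ℝ) * sqrt (rho H (tk k)) *
        W (nk k * H (tk k) / K) *
          cos (2 * π * (R * (nk k * H (tk k)) + ((k.1 : ℝ) * c.1 + (k.2 : ℝ) * c.2)) - 3 * π / 4)
      ≤ R ^ (1 / 2 : ℝ) / π * ∑ k ∈ kset (A * K), -(1 / 2) * t k := mul_le_mul_of_nonneg_left h1 hR12
    _ = -(R ^ (1 / 2 : ℝ) / (2 * π) * ∑ k ∈ kset (A * K), t k) := by
        rw [← Finset.mul_sum]
        field_simp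
    _ ≤ -(R ^ (1 / 2 : ℝ) / (2 * π) * (sqrt r₀ * c₀ * (cl * (K / (2 * B)) ^ (1 / 2 : ℝ)))) := by
        apply neg_le_neg
        exact mul_le_mul_of_nonneg_left h4 (by positivity)
    _ = -(sqrt r₀ * c₀ * cl * (1 / (2 * B)) ^ (1 / 2 : ℝ) / (2 * π) * R ^ (1 / 2 : ℝ) * K ^ (1 / 2 : ℝ)) := by
        rw [hKB]
        field_simp

end Pool.Agent.Helper22.SC
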