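import Pool.Agent.Helper22.SC.L5
import Pool.Agent.Helper22.SC.L6
import Pool.Agent.Helper92.EO.Ker
import Pool.Agent.Helper22.AC.D8b

/-!
# SC-L7: if all phases up to `N` are near integers then the averaged error is very negative

PROOF. `A ≥ 1` with `A H ≥ 2` (`H` is continuous, periodic and positive), `K = N/A`, so `A K = N`. For `c ∈ [0,1]²`: `main_asymp_c` with `η = c₀/4` and `low2` give
`Avc ≤ -(c₀ - c₀/4) R^(1/2) K^(1/2) + C R^(1/2) ≤ -(c₀/2) R^(1/2) K^(1/2)` for `K ≥ K₁`. For general `c`: `cntc H (c + m) R = cntc H c R` for `m ∈ ℤ²` (private lemma `cntc_add53` in AC/D8b.lean,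
copy it) and the hypothesis is invariant as well; use `Int.fract` of the coordinates.
`bad_of_avg`: if `-E ≤ erc` on `[R/2, 3R/2]` then `-(2E) ≤ Avc` (`Avc_ge`), so `c₀ R^(1/2) N^(1/2) ≤ 2 E`; with `E = C (3R/2)^θ`, `(3/2)^θ ≤ 3/2`.
-/

open MeasureTheory Real Set Filter Topology

set_option autoImplicit false

namespace Pool.Agent.Helper22.SC

open Pool.Agent.Helper22.AE Pool.Agent.Helper22.AC Pool.Agent.Helper92.EO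

private lemma min67 {H : ℝ → ℝ} (hH : IsSupp H) : ∃ h₀ : ℝ, 0 < h₀ ∧ ∀ θ, h₀ ≤ H θ := by
  obtain ⟨t0, -, h0⟩ := isCompact_Icc.exists_isMinOn (s := Icc (0 : ℝ) (2 * π))
    (nonempty_Icc.2 (by positivity)) hH.smooth.continuous.continuousOn
  refine ⟨H t0, hH.pos t0, fun θ => ?_⟩
  obtain ⟨y, hy, hy'⟩ := hH.per.exists_mem_Ico₀ (by positivity) θ
  rw [hy']
  exact h0 ⟨hy.1, hy.2.le⟩

private lemma cntc_add67 (H : ℝ → ℝ) (c : ℝ × ℝ) (m : ℤ × ℤ) (R : ℝ) :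
    cntc H (c + ((m.1 : ℝ), (m.2 : ℝ))) R = cntc H c R := by
  unfold cntc
  congr 1
  refine Nat.card_congr ((Equiv.subRight m).subtypeEquiv fun k => ?_)
  have h1 : (((Equiv.subRight m) k).1 : ℝ) - c.1 = (k.1 : ℝ) - (c + ((m.1 : ℝ), (m.2 : ℝ))).1 := by
    simp only [Equiv.subRight_apply, Prod.fst_sub, Prod.fst_add]
    push_cast
    ring
  have h2 : (((Equiv.subRight m) k).2 : ℝ) - c.2 = (k.2 : ℝ) - (c + ((m.1 : ℝ), (m.2 : ℝ))).2 := by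
    simp only [Equiv.subRight_apply, Prod.snd_sub, Prod.snd_add]
    push_cast
    ring
  rw [h1, h2]

private lemma fract67 (w : ℝ → ℝ) (H : ℝ → ℝ) (c : ℝ × ℝ) (K R : ℝ) :
    Avc w H c K R = Avc w H (c.1 - ⌊c.1⌋, c.2 - ⌊c.2⌋) K R := by
  unfold Avc erc
  have h1 : ∀ r : ℝ, cntc H c r = cntc H (c.1 - ⌊c.1⌋, c.2 - ⌊c.2⌋) r := by
    intro r
    rw [← cntc_add67 H (c.1 - ⌊c.1⌋, c.2 - ⌊c.2⌋) (⌊c.1⌋, ⌊c.2⌋) r]
    congr 1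
    ext
    · simp
    · simp
  simp only [h1]

theorem neg_avg {w W : ℝ → ℝ} (hw : IsKer w W) {H : ℝ → ℝ} (hH : IsSupp H) :
    ∃ A c₀ N₀ R₁ : ℝ, 1 ≤ A ∧ 0 < c₀ ∧ A ≤ N₀ ∧ 2 ≤ R₁ ∧ ∀ N R : ℝ, N₀ ≤ N → R₁ ≤ R → N ≤ R ^ (2 / 5 : ℝ) → ∀ c : ℝ × ℝ,
      (∀ k : ℤ × ℤ, k ≠ 0 → nk k ≤ N →
        ∃ z : ℤ, |R * (nk k * H (tk k)) + ((k.1 : ℝ) * c.1 + (k.2 : ℝ) * c.2) - z| ≤ 1 / 24) →
        Avc w H c (N / A) R ≤ -(c₀ * R ^ (1 / 2 : ℝ) * N ^ (1 / 2 : ℝ)) := by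
  obtain ⟨h₀, hh0, hmin⟩ := min67 hH
  set A : ℝ := max 1 (2 / h₀) with hAdef
  have hA : 1 ≤ A := le_max_left _ _
  have hA0 : 0 < A := by linarith
  have hA2 : ∀ θ, 2 ≤ A * H θ := by
    intro θ
    have h1 : 2 / h₀ * h₀ ≤ A * H θ :=
      mul_le_mul (le_max_right _ _) (hmin θ) hh0.le hA0.le
    rwa [div_mul_cancel₀ _ hh0.ne'] at h1
  obtain ⟨C, hC, hmain⟩ := main_asymp_c hw hH hA hA2
  obtain ⟨c₀, K₀, hc0, hK0, hlow⟩ := low2 hw hH hA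
  obtain ⟨R₁, hR1, hmain⟩ := hmain (c₀ / 4) (by positivity)
  set K₁ : ℝ := max K₀ ((4 * C / c₀) ^ 2) with hK1
  have hK1K0 : K₀ ≤ K₁ := le_max_left _ _
  refine ⟨A, c₀ / (2 * A ^ (1 / 2 : ℝ)), A * K₁, R₁, hA, by positivity, ?_, hR1, ?_⟩
  · nlinarith
  intro N R hN hR hNR c hk
  have hR0 : 0 < R := by linarith
  set K : ℝ := N / A with hKdef
  have hAK : A * K = N := by rw [hKdef]; field_simp
  have hKK1 : K₁ ≤ K := by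
    rw [hKdef, le_div_iff₀ hA0]
    linarith
  have hK1' : 1 ≤ K := hK0.trans (hK1K0.trans hKK1)
  have hKpos : 0 < K := by linarith
  -- the representative in the unit square
  set c' : ℝ × ℝ := (c.1 - ⌊c.1⌋, c.2 - ⌊c.2⌋) with hc'
  have hc'1 : c' ∈ Icc (0 : ℝ) 1 ×ˢ Icc (0 : ℝ) 1 := by
    refine ⟨⟨sub_nonneg.2 (Int.floor_le _), ?_⟩, ⟨sub_nonneg.2 (Int.floor_le _), ?_⟩⟩
    · show c.1 - ⌊c.1⌋ ≤ 1
      linarith [Int.lt_floor_add_one c.1]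
    · show c.2 - ⌊c.2⌋ ≤ 1
      linarith [Int.lt_floor_add_one c.2]
  have hk' : ∀ k ∈ kset (A * K), ∃ z : ℤ,
      |R * (nk k * H (tk k)) + ((k.1 : ℝ) * c'.1 + (k.2 : ℝ) * c'.2) - z| ≤ 1 / 24 := by
    intro k hkm
    rw [mem_kset, hAK] at hkm
    obtain ⟨z, hz⟩ := hk k hkm.1 hkm.2
    refine ⟨z - k.1 * ⌊c.1⌋ - k.2 * ⌊c.2⌋, ?_⟩
    have e : R * (nk k * H (tk k)) + ((k.1 : ℝ) * c'.1 + (k.2 : ℝ) * c'.2) -
        ((z - k.1 * ⌊c.1⌋ - k.2 * ⌊c.2⌋ : ℤ) : ℝ) =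
        R * (nk k * H (tk k)) + ((k.1 : ℝ) * c.1 + (k.2 : ℝ) * c.2) - z := by
      rw [hc']
      push_cast
      ring
    rw [e]
    exact hz
  have h1 := hmain R K hR hK1' (by rw [hAK]; exact hNR) c' hc'1
  have h2 := hlow R K (by linarith) (hK1K0.trans hKK1) c' hk'
  have h3 := (abs_le.1 h1).2
  have hKh : 4 * C / c₀ ≤ K ^ (1 / 2 : ℝ) := by
    have h4 : (4 * C / c₀) ^ 2 ≤ K := (le_max_right _ _).trans hKK1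
    have h5 : (4 * C / c₀) = ((4 * C / c₀) ^ 2) ^ (1 / 2 : ℝ) := by
      rw [← Real.sqrt_eq_rpow, Real.sqrt_sq (by positivity)]
    rw [h5]
    exact Real.rpow_le_rpow (by positivity) h4 (by norm_num)
  have hC4 : C ≤ c₀ / 4 * K ^ (1 / 2 : ℝ) := by
    rw [div_le_iff₀ hc0] at hKh
    linarith
  have hRh : 0 ≤ R ^ (1 / 2 : ℝ) := Real.rpow_nonneg hR0.le _
  have h6 : (c₀ / 4 * K ^ (1 / 2 : ℝ) + C) * R ^ (1 / 2 : ℝ) ≤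
      (c₀ / 2 * K ^ (1 / 2 : ℝ)) * R ^ (1 / 2 : ℝ) :=
    mul_le_mul_of_nonneg_right (by linarith) hRh
  have h7 : Avc w H c K R ≤ -(c₀ / 2 * R ^ (1 / 2 : ℝ) * K ^ (1 / 2 : ℝ)) := by
    rw [fract67]
    linarith
  refine h7.trans (le_of_eq ?_)
  have h8 : N ^ (1 / 2 : ℝ) = A ^ (1 / 2 : ℝ) * K ^ (1 / 2 : ℝ) := by
    rw [← Real.mul_rpow hA0.le hKpos.le, hAK]
  rw [h8]
  have hAh : 0 < A ^ (1 / 2 : ℝ) := Real.rpow_pos_of_pos hA0 _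
  field_simp

theorem bad_of_avg {H : ℝ → ℝ} (hH : IsSupp H) :
    ∃ c₀ N₀ R₁ : ℝ, 0 < c₀ ∧ 1 ≤ N₀ ∧ 2 ≤ R₁ ∧ ∀ N R : ℝ, N₀ ≤ N → R₁ ≤ R → N ≤ R ^ (2 / 5 : ℝ) → ∀ c : ℝ × ℝ,
      (∀ k : ℤ × ℤ, k ≠ 0 → nk k ≤ N →
        ∃ z : ℤ, |R * (nk k * H (tk k)) + ((k.1 : ℝ) * c.1 + (k.2 : ℝ) * c.2) - z| ≤ 1 / 24) →
        ∀ θ C : ℝ, 0 ≤ θ → θ ≤ 1 → (∀ r : ℝ, 1 ≤ r → |erc H c r| ≤ C * r ^ θ) →
          c₀ * R ^ (1 / 2 : ℝ) * N ^ (1 / 2 : ℝ) ≤ C * R ^ θ := by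
  obtain ⟨w, W, hw⟩ := exists_ker
  obtain ⟨A, c₀, N₀, R₁, hA, hc0, hAN, hR1, h⟩ := neg_avg hw hH
  refine ⟨c₀ / 3, N₀, R₁, by positivity, hA.trans hAN, hR1, ?_⟩
  intro N R hN hR hNR c hk θ C hθ hθ1 hE
  have hR0 : 0 < R := by linarith
  have hA0 : 0 < A := by linarith
  have hN0 : 0 < N := by linarith
  have hC : 0 ≤ C := by
    have h1 := (abs_nonneg _).trans (hE 1 le_rfl)
    rwa [Real.one_rpow, mul_one] at h1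
  have h1 := h N R hN hR hNR c hk
  have h32 : 0 ≤ (3 * R / 2) ^ θ := Real.rpow_nonneg (by positivity) _
  have h2 : -(2 * (C * (3 * R / 2) ^ θ)) ≤ Avc w H c (N / A) R := by
    refine Avc_ge hw hH c (by positivity) hR0 (by positivity) fun r hr => ?_
    have hr1 : 1 ≤ r := by
      have := hr.1
      linarith
    have h3 := (abs_le.1 (hE r hr1)).1
    have h4 : r ^ θ ≤ (3 * R / 2) ^ θ := Real.rpow_le_rpow (by linarith) hr.2 hθ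
    have h5 := mul_le_mul_of_nonneg_left h4 hC
    linarith
  have h6 : (3 * R / 2) ^ θ ≤ 3 / 2 * R ^ θ := by
    have e : 3 * R / 2 = 3 / 2 * R := by ring
    rw [e, Real.mul_rpow (by norm_num) hR0.le]
    refine mul_le_mul_of_nonneg_right ?_ (Real.rpow_nonneg hR0.le _)
    calc (3 / 2 : ℝ) ^ θ ≤ (3 / 2 : ℝ) ^ (1 : ℝ) :=
          Real.rpow_le_rpow_of_exponent_le (by norm_num) hθ1
      _ = 3 / 2 := Real.rpow_one _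
  have h7 := mul_le_mul_of_nonneg_left h6 hC
  have h8 : c₀ * R ^ (1 / 2 : ℝ) * N ^ (1 / 2 : ℝ) ≤ 3 * (C * R ^ θ) := by linarith
  have h9 : c₀ / 3 * R ^ (1 / 2 : ℝ) * N ^ (1 / 2 : ℝ) = c₀ * R ^ (1 / 2 : ℝ) * N ^ (1 / 2 : ℝ) / 3 := by ring
  rw [h9]
  linarith

end Pool.Agent.Helper22.SC
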