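import Pool.Agent.Helper22.SC.G5
import Pool.Agent.Helper22.SC.L7

/-!
# SC-F1: centres near the orbit of the phase vector are bad

PROOF. `c₀`, `N₀`, `R₁` from `bad_of_avg` (`isSupp_of_near`). Let `s` be large (`n s → ∞`), `N = 2^(n s)`, `T = TT D n s`, `l = l s`, `c` close to `j · gen l` modulo `v`, `j' = j + 4^l`, `R = j' T`, so
`4^l T ≤ R ≤ 2 · 4^l T`, `j' ≤ 2 · 4^(n s + 7) = 2^(2 n s + 15) ≤ 2^((s+20) n s)`, `N ≤ R^(2/5)` since `R ≥ T ≥ 8^(n s) = N³`. For `nk k ≤ N`: `c - j' gen l = (v.1 - 2^l + e₁, v.2 - 1 + e₂)` with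
`|e₁|, |e₂| ≤ 2^(-(n s) - 7)`, so `R nk k H (tk k) + k·c = j' (T nk k H (tk k) + k·gen l) + integer + (k.1 e₁ + k.2 e₂)`, within `1/48 + 1/64 ≤ 1/24` of an integer.
`bad_of_avg`: `c₀ R^(1/2) N^(1/2) ≤ C R^θ`, i.e. `c₀ N^(1/2) ≤ C R^(θ-1/2) ≤ C (2 · 4^l T)^(θ-1/2)` (`C ≥ 0`, take `r = 1`).
PROOF of `close_self`: `b = ⌊fract c.1 · 2^l⌋`, `a = ⌊fract (c.2 - b/4^l) · 2^l⌋`, `j = a 2^l + b`: `j/2^l = a + b/2^l`, `j/4^l = a/2^l + b/4^l`.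
-/

open MeasureTheory Real Set Filter Topology

set_option autoImplicit false

namespace Pool.Agent.Helper22.SC

open Pool.Agent.Helper22.AE Pool.Agent.Helper22.AC

private lemma f1_abs (k : ℤ × ℤ) : |(k.1 : ℝ)| ≤ nk k ∧ |(k.2 : ℝ)| ≤ nk k := by
  have h1 := Complex.abs_re_le_norm (cz k)
  have h2 := Complex.abs_im_le_norm (cz k)
  constructor
  · simpa [nk, cz] using h1
  · simpa [nk, cz] using h2

private lemma f1_shift {T R hh Jr jr : ℝ} {l n : ℕ} {c : ℝ × ℝ} {v k : ℤ × ℤ} (hJr : Jr = jr + 4 ^ l)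
    (hR : R = Jr * T) (hkN : nk k ≤ 2 ^ n)
    (hv1 : |c.1 - jr / 2 ^ l - v.1| ≤ (1 / 2) ^ (n + 7)) (hv2 : |c.2 - jr / 4 ^ l - v.2| ≤ (1 / 2) ^ (n + 7))
    (hz : ∃ z : ℤ, |Jr * (T * (nk k * hh) + ((k.1 : ℝ) * (gen l).1 + (k.2 : ℝ) * (gen l).2)) - z| ≤ 1 / 48) :
    ∃ z : ℤ, |R * (nk k * hh) + ((k.1 : ℝ) * c.1 + (k.2 : ℝ) * c.2) - z| ≤ 1 / 24 := by
  obtain ⟨z, hz⟩ := hz
  have hp2 : (2 : ℝ) ^ l ≠ 0 := by positivity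
  have hp4 : (4 : ℝ) ^ l ≠ 0 := by positivity
  have g1 : Jr * (1 / 2 ^ l) = jr / 2 ^ l + 2 ^ l := by
    rw [hJr, show (4 : ℝ) = 2 * 2 by norm_num, mul_pow]
    field_simp
  have g2 : Jr * (1 / 4 ^ l) = jr / 4 ^ l + 1 := by
    rw [hJr]
    field_simp
  have hx : Jr * (T * (nk k * hh) + ((k.1 : ℝ) * (gen l).1 + (k.2 : ℝ) * (gen l).2)) =
      R * (nk k * hh) + ((k.1 : ℝ) * (jr / 2 ^ l + 2 ^ l) + (k.2 : ℝ) * (jr / 4 ^ l + 1)) := by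
    rw [← g1, ← g2, hR]
    simp only [gen]
    ring
  rw [hx] at hz
  obtain ⟨a1, a2⟩ := f1_abs k
  have hpw : (2 : ℝ) ^ n * (1 / 2) ^ (n + 7) = 1 / 128 := by
    rw [pow_add, ← mul_assoc, ← mul_pow]; norm_num
  have b1 : |(k.1 : ℝ) * (c.1 - jr / 2 ^ l - v.1)| ≤ 1 / 128 := by
    rw [abs_mul, ← hpw]
    exact mul_le_mul (a1.trans hkN) hv1 (abs_nonneg _) (by positivity)
  have b2 : |(k.2 : ℝ) * (c.2 - jr / 4 ^ l - v.2)| ≤ 1 / 128 := by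
    rw [abs_mul, ← hpw]
    exact mul_le_mul (a2.trans hkN) hv2 (abs_nonneg _) (by positivity)
  refine ⟨z + (k.1 * (v.1 - 2 ^ l) + k.2 * (v.2 - 1)), ?_⟩
  have hph : R * (nk k * hh) + ((k.1 : ℝ) * c.1 + (k.2 : ℝ) * c.2) -
      ((z + (k.1 * (v.1 - 2 ^ l) + k.2 * (v.2 - 1)) : ℤ) : ℝ) =
      (R * (nk k * hh) + ((k.1 : ℝ) * (jr / 2 ^ l + 2 ^ l) + (k.2 : ℝ) * (jr / 4 ^ l + 1)) - z) +
      ((k.1 : ℝ) * (c.1 - jr / 2 ^ l - v.1) + (k.2 : ℝ) * (c.2 - jr / 4 ^ l - v.2)) := by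
    push_cast
    ring
  rw [hph]
  have t1 := abs_add_le (R * (nk k * hh) + ((k.1 : ℝ) * (jr / 2 ^ l + 2 ^ l) + (k.2 : ℝ) * (jr / 4 ^ l + 1)) - z)
      ((k.1 : ℝ) * (c.1 - jr / 2 ^ l - v.1) + (k.2 : ℝ) * (c.2 - jr / 4 ^ l - v.2))
  have t2 := abs_add_le ((k.1 : ℝ) * (c.1 - jr / 2 ^ l - v.1)) ((k.2 : ℝ) * (c.2 - jr / 4 ^ l - v.2))
  linarith

private lemma f1_J {s n l j : ℕ} (hn : 1 ≤ n) (hl : l ≤ n + 7) (hj : j < 4 ^ l) :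
    j + 4 ^ l ≤ 2 ^ ((s + 20) * n) := by
  have h1 : (4 : ℕ) ^ l ≤ 4 ^ (n + 7) := Nat.pow_le_pow_right (by norm_num) hl
  have h2 : j + 4 ^ l ≤ 2 * 4 ^ (n + 7) := by linarith
  have h3 : 2 * 4 ^ (n + 7) = 2 ^ (2 * n + 15) := by
    have h4 : (4 : ℕ) ^ (n + 7) = 2 ^ (2 * (n + 7)) := by rw [pow_mul]; norm_num
    have h5 : 2 * n + 15 = 2 * (n + 7) + 1 := by ring
    rw [h4, ← pow_succ', h5]
  rw [h3] at h2
  refine h2.trans (Nat.pow_le_pow_right (by norm_num) ?_)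
  nlinarith

private lemma f1_N {R : ℝ} {n : ℕ} (hR : (8 : ℝ) ^ n ≤ R) : (2 : ℝ) ^ n ≤ R ^ (2 / 5 : ℝ) := by
  have h8 : (0 : ℝ) < 8 ^ n := by positivity
  have h1 : ((8 : ℝ) ^ n) ^ (2 / 5 : ℝ) ≤ R ^ (2 / 5 : ℝ) :=
    Real.rpow_le_rpow h8.le hR (by norm_num)
  refine le_trans ?_ h1
  have h2 : (8 : ℝ) ^ n = ((2 : ℝ) ^ n) ^ (3 : ℕ) := by
    rw [show (8 : ℝ) = 2 ^ 3 by norm_num, ← pow_mul, ← pow_mul, mul_comm]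
  rw [h2, ← Real.rpow_natCast ((2 : ℝ) ^ n) 3, ← Real.rpow_mul (by positivity)]
  have h3 : (1 : ℝ) ≤ 2 ^ n := one_le_pow₀ one_le_two
  calc (2 : ℝ) ^ n = ((2 : ℝ) ^ n) ^ (1 : ℝ) := (Real.rpow_one _).symm
    _ ≤ ((2 : ℝ) ^ n) ^ (((3 : ℕ) : ℝ) * (2 / 5)) := Real.rpow_le_rpow_of_exponent_le h3 (by norm_num)

private lemma f1_concl {R B N C c₀ θ : ℝ} (hR : 0 < R) (hRB : R ≤ B) (hC : 0 ≤ C) (hθ : 1 / 2 ≤ θ)
    (h : c₀ * R ^ (1 / 2 : ℝ) * N ^ (1 / 2 : ℝ) ≤ C * R ^ θ) : c₀ * N ^ (1 / 2 : ℝ) ≤ C * B ^ (θ - 1 / 2) := by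
  have hsplit : R ^ θ = R ^ (1 / 2 : ℝ) * R ^ (θ - 1 / 2) := by
    rw [← Real.rpow_add hR]; congr 1; ring
  rw [hsplit] at h
  have hRh : 0 < R ^ (1 / 2 : ℝ) := Real.rpow_pos_of_pos hR _
  have key2 : c₀ * N ^ (1 / 2 : ℝ) ≤ C * R ^ (θ - 1 / 2) := by
    have : R ^ (1 / 2 : ℝ) * (c₀ * N ^ (1 / 2 : ℝ)) ≤ R ^ (1 / 2 : ℝ) * (C * R ^ (θ - 1 / 2)) := by
      linarith
    exact le_of_mul_le_mul_left this hRh
  exact key2.trans (mul_le_mul_of_nonneg_left (Real.rpow_le_rpow hR.le hRB (by linarith)) hC)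

theorem near_bad {D δ : ℝ} (hD : 1 ≤ D) (hδ : δ ≤ 1 / 4) {H : ℝ → ℝ} (hH : Near δ H) {n l : ℕ → ℕ} (hn : ∀ s, 1 ≤ n s)
    (hg : ∀ s, (s + 20) * n s ≤ n (s + 1)) (hl : ∀ s, l s ≤ n s + 7) (hA : Aligned D n (fun s => gen (l s)) H) :
    ∃ (c₀ : ℝ) (s₀ : ℕ), 0 < c₀ ∧ ∀ s, s₀ ≤ s → ∀ c : ℝ × ℝ, Close (l s) (n s + 7) c → ∀ θ C : ℝ, 1 / 2 ≤ θ → θ ≤ 1 →
      (∀ r : ℝ, 1 ≤ r → |erc H c r| ≤ C * r ^ θ) →
        c₀ * ((2 : ℝ) ^ n s) ^ (1 / 2 : ℝ) ≤ C * (2 * D * 2 ^ s * 8 ^ n s * 4 ^ l s) ^ (θ - 1 / 2) := by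
  obtain ⟨c₀, N₀, R₁, hc₀, hN₀, hR₁, hbad⟩ := bad_of_avg (isSupp_of_near hδ hH)
  have hns : ∀ s, s ≤ n s := by
    intro s
    induction s with
    | zero => exact Nat.zero_le _
    | succ s ih =>
      have h1 := hg s
      have h2 := hn s
      nlinarith
  obtain ⟨s₀, hs₀⟩ := pow_unbounded_of_one_lt (max N₀ R₁) (one_lt_two : (1 : ℝ) < 2)
  refine ⟨c₀, s₀, hc₀, ?_⟩
  intro s hs c hc θ C hθ1 hθ2 hE
  obtain ⟨j, hj, v, hv1, hv2⟩ := hc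
  have h2s : (2 : ℝ) ^ s₀ ≤ 2 ^ n s := pow_le_pow_right₀ one_le_two (hs.trans (hns s))
  have hN : N₀ ≤ (2 : ℝ) ^ n s := (le_max_left _ _).trans (hs₀.le.trans h2s)
  have hR : R₁ ≤ (2 : ℝ) ^ n s := (le_max_right _ _).trans (hs₀.le.trans h2s)
  have hT8 : (8 : ℝ) ^ n s ≤ TT D n s := by
    unfold TT
    have h1 : (1 : ℝ) ≤ 2 ^ s := one_le_pow₀ one_le_two
    have h2 : (0 : ℝ) < 8 ^ n s := by positivity
    have h3 : (1 : ℝ) ≤ D * 2 ^ s := by nlinarith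
    nlinarith
  have h28 : (2 : ℝ) ^ n s ≤ 8 ^ n s := pow_le_pow_left₀ (by norm_num) (by norm_num) _
  have h8 : (0 : ℝ) < 8 ^ n s := by positivity
  have hTpos : 0 < TT D n s := h8.trans_le hT8
  have h4 : (1 : ℝ) ≤ 4 ^ l s := one_le_pow₀ (by norm_num)
  obtain ⟨J, hJ⟩ : ∃ J : ℕ, J = j + 4 ^ l s := ⟨_, rfl⟩
  have hJr : (J : ℝ) = j + 4 ^ l s := by rw [hJ]; push_cast; rfl
  have hj0 : (0 : ℝ) ≤ j := Nat.cast_nonneg j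
  have hj' : (j : ℝ) < 4 ^ l s := by exact_mod_cast hj
  have hJ1 : (4 : ℝ) ^ l s ≤ J := by rw [hJr]; linarith
  have hJ2 : (J : ℝ) ≤ 2 * 4 ^ l s := by rw [hJr]; linarith
  obtain ⟨R, hRdef⟩ : ∃ R : ℝ, R = J * TT D n s := ⟨_, rfl⟩
  have hRT : TT D n s ≤ R := by
    have : (1 : ℝ) ≤ J := h4.trans hJ1
    rw [hRdef]; nlinarith
  have hRpos : 0 < R := hTpos.trans_le hRT
  have hR8 : (8 : ℝ) ^ n s ≤ R := hT8.trans hRT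
  have hRR : R₁ ≤ R := hR.trans (h28.trans hR8)
  have hJle : J ≤ 2 ^ ((s + 20) * n s) := hJ ▸ f1_J (hn s) (hl s) hj
  have key := hbad ((2 : ℝ) ^ n s) R hN hRR (f1_N hR8) c
    (fun k hk hkN => f1_shift hJr hRdef hkN hv1 hv2 (hA s J hJle k hk hkN)) θ C (by linarith) hθ2 hE
  have hC : 0 ≤ C := by
    have := hE 1 le_rfl
    rw [Real.one_rpow, mul_one] at this
    exact (abs_nonneg _).trans this
  refine f1_concl hRpos ?_ hC hθ1 key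
  have : R ≤ 2 * 4 ^ l s * TT D n s := by
    rw [hRdef]; exact mul_le_mul_of_nonneg_right hJ2 hTpos.le
  refine this.trans (le_of_eq ?_)
  simp only [TT]
  ring

theorem close_self (l : ℕ) (c : ℝ × ℝ) : Close l l c := by
  have h2 : (0 : ℝ) < 2 ^ l := by positivity
  have h4 : (0 : ℝ) < 4 ^ l := by positivity
  have h24 : (4 : ℝ) ^ l = 2 ^ l * 2 ^ l := by rw [← mul_pow]; norm_num
  set b : ℕ := ⌊Int.fract c.1 * 2 ^ l⌋₊ with hb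
  set w : ℝ := c.2 - b / 4 ^ l with hw
  set a : ℕ := ⌊Int.fract w * 2 ^ l⌋₊ with ha
  have hb1 : (b : ℝ) ≤ Int.fract c.1 * 2 ^ l := Nat.floor_le (mul_nonneg (Int.fract_nonneg _) h2.le)
  have hb2 : Int.fract c.1 * 2 ^ l < b + 1 := Nat.lt_floor_add_one _
  have ha1 : (a : ℝ) ≤ Int.fract w * 2 ^ l := Nat.floor_le (mul_nonneg (Int.fract_nonneg _) h2.le)
  have ha2 : Int.fract w * 2 ^ l < a + 1 := Nat.lt_floor_add_one _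
  have hb3 : (b : ℝ) < 2 ^ l := by nlinarith [Int.fract_lt_one c.1]
  have ha3 : (a : ℝ) < 2 ^ l := by nlinarith [Int.fract_lt_one w]
  have hbn : b < 2 ^ l := by exact_mod_cast hb3
  have han : a < 2 ^ l := by exact_mod_cast ha3
  refine ⟨a * 2 ^ l + b, ?_, (⌊c.1⌋ - a, ⌊w⌋), ?_, ?_⟩
  · have : (4 : ℕ) ^ l = 2 ^ l * 2 ^ l := by rw [← mul_pow]; norm_num
    rw [this]
    nlinarith
  · have e : c.1 - ((a * 2 ^ l + b : ℕ) : ℝ) / 2 ^ l - ((⌊c.1⌋ - (a : ℤ) : ℤ) : ℝ) = (Int.fract c.1 * 2 ^ l - b) / 2 ^ l := by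
      push_cast
      have := Int.self_sub_floor c.1
      rw [← this]
      field_simp
      ring
    show |c.1 - ((a * 2 ^ l + b : ℕ) : ℝ) / 2 ^ l - ((⌊c.1⌋ - (a : ℤ) : ℤ) : ℝ)| ≤ (1 / 2) ^ l
    rw [e, abs_of_nonneg (div_nonneg (by linarith) h2.le), one_div, inv_pow, div_le_iff₀ h2, inv_mul_cancel₀ h2.ne']
    linarith
  · have e : c.2 - ((a * 2 ^ l + b : ℕ) : ℝ) / 4 ^ l - ((⌊w⌋ : ℤ) : ℝ) = (Int.fract w * 2 ^ l - a) / 2 ^ l := by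
      have := Int.self_sub_floor w
      rw [← this, hw, h24]
      push_cast
      field_simp
      ring
    show |c.2 - ((a * 2 ^ l + b : ℕ) : ℝ) / 4 ^ l - ((⌊w⌋ : ℤ) : ℝ)| ≤ (1 / 2) ^ l
    rw [e, abs_of_nonneg (div_nonneg (by linarith) h2.le), one_div, inv_pow, div_le_iff₀ h2, inv_mul_cancel₀ h2.ne']
    linarith

end Pool.Agent.Helper22.SC
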