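import Pool.Agent.Helper22.SC.Defs

/-!
# SC-F2: growth

PROOF of `grow`. `n s ≥ 20^s` (or `n s ≥ s!`), so `s / n s → 0`. Suppose `c₀ 2^(n s/2) ≤ C (2 D 2^s 8^(n s) 4^(l s))^(θ-1/2)` for infinitely many `s` with `4^(l s) ≤ E (2^(n s))^e`. Taking `log₂`:
`n s/2 ≤ A + (θ - 1/2)(s + (3 + e) n s)` with a constant `A`; since `(θ - 1/2)(3 + e) < 1/2` this fails for large `s`.
-/

open MeasureTheory Real Set Filter Topology

set_option autoImplicit false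

namespace Pool.Agent.Helper22.SC

private lemma f2_sq {n : ℕ → ℕ} (hn : ∀ s, 1 ≤ n s) (hg : ∀ s, (s + 20) * n s ≤ n (s + 1)) : ∀ s, s * s ≤ n s := by
  intro s
  induction s with
  | zero => simp
  | succ s ih =>
    refine le_trans ?_ (hg s)
    rcases Nat.eq_zero_or_pos s with h0 | h0
    · subst h0
      have := hn 0
      omega
    · have h1 : (s + 20) * (s * s) ≤ (s + 20) * n s := Nat.mul_le_mul_left _ ih
      refine le_trans ?_ h1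
      nlinarith [Nat.mul_le_mul h0 h0, Nat.zero_le s]

theorem grow {D c₀ C E θ e : ℝ} (hD : 1 ≤ D) (hc : 0 < c₀) (hE : 0 < E) (hθ : 1 / 2 ≤ θ) (he : 0 ≤ e)
    (hθe : (2 * θ - 1) * (3 + e) < 1) {n : ℕ → ℕ} (hn : ∀ s, 1 ≤ n s) (hg : ∀ s, (s + 20) * n s ≤ n (s + 1)) :
    ∃ s₁ : ℕ, ∀ s, s₁ ≤ s → ∀ l : ℕ, (4 : ℝ) ^ l ≤ E * ((2 : ℝ) ^ n s) ^ e →
      C * (2 * D * 2 ^ s * 8 ^ n s * 4 ^ l) ^ (θ - 1 / 2) < c₀ * ((2 : ℝ) ^ n s) ^ (1 / 2 : ℝ) := by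
  set κ : ℝ := θ - 1 / 2 with hκ
  have hκ0 : 0 ≤ κ := by linarith
  set η : ℝ := 1 / 2 - (3 + e) * κ with hη
  have hη0 : 0 < η := by
    have : (2 * θ - 1) * (3 + e) = 2 * ((3 + e) * κ) := by rw [hκ]; ring
    rw [this] at hθe
    linarith
  have hsq := f2_sq hn hg
  set C' : ℝ := |C| with hC'
  have hC0 : 0 ≤ C' := abs_nonneg _
  set B : ℝ := 2 * D * E with hB
  have hB0 : 0 < B := by positivity
  have h1 : Tendsto (fun s : ℕ => (s : ℝ) * ((s : ℝ) * η - κ)) atTop atTop := by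
    apply Tendsto.atTop_mul_atTop₀ tendsto_natCast_atTop_atTop
    exact tendsto_atTop_add_const_right _ _ (tendsto_natCast_atTop_atTop.atTop_mul_const hη0)
  have h2 : Tendsto (fun s : ℕ => (n s : ℝ) * η - s * κ) atTop atTop := by
    refine tendsto_atTop_mono (fun s => ?_) h1
    have : ((s * s : ℕ) : ℝ) ≤ (n s : ℝ) := by exact_mod_cast hsq s
    push_cast at this
    nlinarith [mul_le_mul_of_nonneg_right this hη0.le]
  have h3 : Tendsto (fun s : ℕ => (2 : ℝ) ^ ((n s : ℝ) * η - s * κ)) atTop atTop :=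
    (tendsto_rpow_atTop_of_base_gt_one 2 (by norm_num)).comp h2
  obtain ⟨s₁, hs₁⟩ := (h3.eventually (eventually_gt_atTop (C' * B ^ κ / c₀))).exists_forall_of_atTop
  refine ⟨s₁, fun s hs l hl => ?_⟩
  have h4 := hs₁ s hs
  rw [div_lt_iff₀ hc] at h4
  have e1 : (2 : ℝ) ^ n s = (2 : ℝ) ^ ((n s : ℕ) : ℝ) := (Real.rpow_natCast 2 (n s)).symm
  have e2 : (8 : ℝ) ^ n s = (2 : ℝ) ^ (3 * ((n s : ℕ) : ℝ)) := by
    rw [mul_comm, Real.rpow_mul (by norm_num), ← e1]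
    have : (8 : ℝ) = 2 ^ (3 : ℕ) := by norm_num
    rw [this, ← pow_mul, mul_comm, pow_mul]
    norm_cast
  have e3 : (2 : ℝ) ^ s = (2 : ℝ) ^ ((s : ℕ) : ℝ) := (Real.rpow_natCast 2 s).symm
  have hX : 2 * D * 2 ^ s * 8 ^ n s * 4 ^ l ≤ B * (2 : ℝ) ^ ((s : ℝ) + (3 + e) * (n s : ℝ)) := by
    have : B * (2 : ℝ) ^ ((s : ℝ) + (3 + e) * (n s : ℝ)) = 2 * D * 2 ^ s * 8 ^ n s * (E * ((2 : ℝ) ^ n s) ^ e) := by
      rw [e1, e2, e3, ← Real.rpow_mul (by norm_num), hB]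
      have : (s : ℝ) + (3 + e) * (n s : ℝ) = s + 3 * (n s : ℝ) + (n s : ℝ) * e := by ring
      rw [this, Real.rpow_add (by norm_num), Real.rpow_add (by norm_num)]
      ring
    rw [this]
    exact mul_le_mul_of_nonneg_left hl (by positivity)
  have hX0 : 0 ≤ 2 * D * 2 ^ s * 8 ^ n s * 4 ^ l := by positivity
  have h5 : C * (2 * D * 2 ^ s * 8 ^ n s * 4 ^ l) ^ κ ≤ C' * (B * (2 : ℝ) ^ ((s : ℝ) + (3 + e) * (n s : ℝ))) ^ κ :=
    calc C * (2 * D * 2 ^ s * 8 ^ n s * 4 ^ l) ^ κ ≤ C' * (2 * D * 2 ^ s * 8 ^ n s * 4 ^ l) ^ κ :=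
          mul_le_mul_of_nonneg_right (le_abs_self C) (Real.rpow_nonneg hX0 _)
      _ ≤ _ := mul_le_mul_of_nonneg_left (Real.rpow_le_rpow hX0 hX hκ0) hC0
  refine lt_of_le_of_lt h5 ?_
  rw [Real.mul_rpow hB0.le (by positivity), ← Real.rpow_mul (by norm_num), e1, ← Real.rpow_mul (by norm_num)]
  have h6 : (n s : ℝ) * (1 / 2) = ((n s : ℝ) * η - s * κ) + ((s : ℝ) + (3 + e) * (n s : ℝ)) * κ := by
    rw [hη]; ring
  rw [h6, Real.rpow_add (by norm_num)]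
  have h7 : (0 : ℝ) < 2 ^ (((s : ℝ) + (3 + e) * (n s : ℝ)) * κ) := by positivity
  calc C' * (B ^ κ * 2 ^ (((s : ℝ) + (3 + e) * (n s : ℝ)) * κ)) = (C' * B ^ κ) * 2 ^ (((s : ℝ) + (3 + e) * (n s : ℝ)) * κ) := by ring
    _ < ((2 : ℝ) ^ ((n s : ℝ) * η - s * κ) * c₀) * 2 ^ (((s : ℝ) + (3 + e) * (n s : ℝ)) * κ) := mul_lt_mul_of_pos_right h4 h7
    _ = _ := by ring

end Pool.Agent.Helper22.SC
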