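import Pool.Agent.Helper22.SC.F1
import Pool.Agent.Helper22.SC.F2
import Pool.Agent.Helper22.SC.Dm

/-!
# SC-F3: bad centres: all of them below 3/5, and the dimension above 3/5

`Bd H c θ` (AC/Defs) is `∃ C, ∀ R ≥ 1, |erc H c R| ≤ C R^θ`.

PROOF of `all_bad`. Let `Bd H c θ`, `θ < 3/5`; the same holds for `max θ (1/2)` (with `|C|`). For infinitely many `s`: `l s = n s + 7`, `Close (l s) (n s + 7) c` by `close_self`; `near_bad` and `grow` with `e = 2`,
`E = 4^7`: `(2θ-1) · 5 < 1`. PROOF of `dim_low`. Let `0 < d < e`. For large `i₀` the sequences `lam i = l (σ (i + i₀))`, `m i = n (σ (i + i₀)) + 7` satisfy the hypotheses of `cantor_dim`: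
`lam + 1 ≤ m` (`e < 2`), and with `n' = n (σ (i+1)) ≥ (σ i + 20) n (σ i)` (σ strictly increasing, `n` increasing) and `2 ⌊e n'/2⌋ ≥ e n' - 2`: `d (n' + 7) + 2 (n + 7) ≤ e n' - 2` for large `n'/n`, etc.
Each `c` with `Close (lam i) (m i) c` for all `i` has `¬ Bd H c θ` (`near_bad`, `grow` with `E = 1`: `4^(⌊e n/2⌋) ≤ (2^n)^e`). Let `d → e` (`ENNReal.ofReal` is continuous; `le_of_tendsto'` or `le_of_forall_lt`).
-/

open MeasureTheory Real Set Filter Topology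

set_option autoImplicit false

namespace Pool.Agent.Helper22.SC

open Pool.Agent.Helper22.AE Pool.Agent.Helper22.AC

private lemma f3_mono {n : ℕ → ℕ} (hn : ∀ s, 1 ≤ n s) (hg : ∀ s, (s + 20) * n s ≤ n (s + 1)) : Monotone n := by
  refine monotone_nat_of_le_succ fun s => le_trans ?_ (hg s)
  have := hn s
  nlinarith

theorem all_bad {D δ : ℝ} (hD : 1 ≤ D) (hδ : δ ≤ 1 / 4) {H : ℝ → ℝ} (hH : Near δ H) {n l : ℕ → ℕ} (hn : ∀ s, 1 ≤ n s)
    (hg : ∀ s, (s + 20) * n s ≤ n (s + 1)) (hl : ∀ s, l s ≤ n s + 7) (hA : Aligned D n (fun s => gen (l s)) H)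
    (hinf : ∀ s₀, ∃ s, s₀ ≤ s ∧ l s = n s + 7) : ∀ c : ℝ × ℝ, ∀ θ : ℝ, θ < 3 / 5 → ¬ Bd H c θ := by
  rintro c θ hθ ⟨C, hC⟩
  set θ' : ℝ := max θ (1 / 2) with hθ'
  have h1 : 1 / 2 ≤ θ' := le_max_right _ _
  have h2 : θ' < 3 / 5 := max_lt hθ (by norm_num)
  obtain ⟨c₀, s₀, hc₀, hnear⟩ := near_bad hD hδ hH hn hg hl hA
  obtain ⟨s₁, hs₁⟩ := grow (D := D) (c₀ := c₀) (C := |C|) (E := 4 ^ 7) (θ := θ') (e := 2) hD hc₀ (by norm_num) h1
    (by norm_num) (by linarith) hn hg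
  obtain ⟨s, hs, hls⟩ := hinf (max s₀ s₁)
  have hcl : Close (l s) (n s + 7) c := by
    rw [hls]
    exact close_self _ c
  have hb : ∀ r : ℝ, 1 ≤ r → |erc H c r| ≤ |C| * r ^ θ' := by
    intro r hr
    have hr0 : 0 ≤ r := by linarith
    calc |erc H c r| ≤ C * r ^ θ := hC r hr
      _ ≤ |C| * r ^ θ := mul_le_mul_of_nonneg_right (le_abs_self C) (Real.rpow_nonneg hr0 _)
      _ ≤ |C| * r ^ θ' := mul_le_mul_of_nonneg_left (Real.rpow_le_rpow_of_exponent_le hr (le_max_left _ _)) (abs_nonneg _)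
  have h3 := hnear s (le_trans (le_max_left _ _) hs) c hcl θ' |C| h1 (by linarith) hb
  have h4 := hs₁ s (le_trans (le_max_right _ _) hs) (l s) (by
    rw [hls, pow_add, mul_comm]
    apply le_of_eq
    congr 1
    rw [← Real.rpow_natCast 2 (n s), ← Real.rpow_mul (by norm_num), mul_comm, Real.rpow_mul (by norm_num),
      Real.rpow_natCast]
    norm_num)
  exact absurd h3 (not_le.2 h4)

theorem dim_low {D δ : ℝ} (hD : 1 ≤ D) (hδ : δ ≤ 1 / 4) {H : ℝ → ℝ} (hH : Near δ H) {n l : ℕ → ℕ} (hn : ∀ s, 1 ≤ n s)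
    (hg : ∀ s, (s + 20) * n s ≤ n (s + 1)) (hl : ∀ s, l s ≤ n s + 7) (hA : Aligned D n (fun s => gen (l s)) H)
    {e : ℝ} (he : 0 < e) (he2 : e < 2) {σ : ℕ → ℕ} (hσ : StrictMono σ) (hle : ∀ i, l (σ i) = ⌊e * n (σ i) / 2⌋₊)
    {θ : ℝ} (h1 : 1 / 2 ≤ θ) (h2 : θ ≤ 1) (h3 : (2 * θ - 1) * (3 + e) < 1) :
    ENNReal.ofReal e ≤ dimH {c : ℝ × ℝ | ¬ Bd H c θ} := by
  obtain ⟨c₀, s₀, hc₀, hnear⟩ := near_bad hD hδ hH hn hg hl hA
  have hmono := f3_mono hn hg
  -- the bound for `d < e`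
  have key : ∀ d : ℝ, 0 < d → d < e → ENNReal.ofReal d ≤ dimH {c : ℝ × ℝ | ¬ Bd H c θ} := by
    intro d hd hde
    obtain ⟨S, hS⟩ := exists_nat_ge (max (18 / e) (32 / (e - d)))
    have hed : 0 < e - d := by linarith
    have hS1 : 18 ≤ e * S := by
      have := (le_max_left _ _).trans hS
      rw [div_le_iff₀ he] at this
      linarith
    have hS2 : 32 ≤ (e - d) * S := by
      have := (le_max_right _ _).trans hS
      rw [div_le_iff₀ hed] at this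
      linarith
    set i₀ : ℕ := max S s₀ with hi₀
    have hSi : ∀ i, (S : ℝ) ≤ (σ (i + i₀) : ℕ) := by
      intro i
      have : S ≤ σ (i + i₀) := by
        have h4 : i + i₀ ≤ σ (i + i₀) := hσ.id_le (i + i₀)
        have h5 : S ≤ i₀ := le_max_left _ _
        omega
      exact_mod_cast this
    have hsi : ∀ i, s₀ ≤ σ (i + i₀) := by
      intro i
      have h4 : i + i₀ ≤ σ (i + i₀) := hσ.id_le (i + i₀)
      have h5 : s₀ ≤ i₀ := le_max_right _ _
      omega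
    -- lower bound for the next `n`
    have hnext : ∀ i, (S : ℝ) * (n (σ (i + i₀)) : ℝ) ≤ (n (σ (i + 1 + i₀)) : ℝ) := by
      intro i
      have h4 : σ (i + i₀) + 1 ≤ σ (i + 1 + i₀) := hσ (by omega)
      have h5 : (σ (i + i₀) + 20) * n (σ (i + i₀)) ≤ n (σ (i + 1 + i₀)) := (hg _).trans (hmono h4)
      have h6 : ((σ (i + i₀) : ℝ) + 20) * (n (σ (i + i₀)) : ℝ) ≤ (n (σ (i + 1 + i₀)) : ℝ) := by exact_mod_cast h5
      have h7 : (0 : ℝ) ≤ (n (σ (i + i₀)) : ℝ) := Nat.cast_nonneg _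
      nlinarith [hSi i]
    have hn1 : ∀ i, (1 : ℝ) ≤ (n (σ i) : ℝ) := fun i => by exact_mod_cast hn (σ i)
    have hfl : ∀ i, (l (σ i) : ℝ) ≤ e * n (σ i) / 2 ∧ e * n (σ i) / 2 - 1 < (l (σ i) : ℝ) := by
      intro i
      rw [hle i]
      have h4 : 0 ≤ e * (n (σ i) : ℝ) / 2 := by positivity
      exact ⟨Nat.floor_le h4, by linarith [Nat.lt_floor_add_one (e * (n (σ i) : ℝ) / 2)]⟩
    have hcd := cantor_dim hd (fun i => l (σ (i + i₀))) (fun i => n (σ (i + i₀)) + 7) (fun i => by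
        have h4 := (hfl (i + i₀)).1
        have h5 := hn1 (i + i₀)
        have h6 : (l (σ (i + i₀)) : ℝ) ≤ (n (σ (i + i₀)) : ℝ) := by nlinarith
        have h7 : l (σ (i + i₀)) ≤ n (σ (i + i₀)) := by exact_mod_cast h6
        show l (σ (i + i₀)) + 1 ≤ n (σ (i + i₀)) + 7
        omega) (fun i => by
        have h4 := (hfl (i + 1 + i₀)).2
        have h5 := hn1 (i + i₀)
        have h6 := hnext i
        have h7 : ((n (σ (i + i₀)) + 7 : ℕ) : ℝ) < (l (σ (i + 1 + i₀)) : ℝ) := by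
          push_cast
          nlinarith
        exact_mod_cast h7.le) (fun i => by
        have h4 := (hfl (i + 1 + i₀)).2
        have h5 := hn1 (i + i₀)
        have h6 := hnext i
        have h8 := (hfl (i + i₀)).1
        have h7 : ((2 * l (σ (i + i₀)) : ℕ) : ℝ) < (l (σ (i + 1 + i₀)) : ℝ) := by
          push_cast
          nlinarith
        exact_mod_cast h7.le) (fun i => by
        have h4 := (hfl (i + 1 + i₀)).2
        have h5 := hn1 (i + i₀)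
        have h6 := hnext i
        show d * ((n (σ (i + 1 + i₀)) + 7 : ℕ) : ℝ) + 2 * ((n (σ (i + i₀)) + 7 : ℕ) : ℝ) ≤ 2 * (l (σ (i + 1 + i₀)) : ℝ)
        push_cast
        have h7 : 32 * (n (σ (i + i₀)) : ℝ) ≤ (e - d) * (n (σ (i + 1 + i₀)) : ℝ) := by
          calc 32 * (n (σ (i + i₀)) : ℝ) ≤ (e - d) * S * (n (σ (i + i₀)) : ℝ) :=
                mul_le_mul_of_nonneg_right hS2 (by linarith)
            _ = (e - d) * (S * (n (σ (i + i₀)) : ℝ)) := by ring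
            _ ≤ _ := mul_le_mul_of_nonneg_left h6 hed.le
        nlinarith)
    refine hcd.trans (dimH_mono ?_)
    rintro c hc ⟨C, hC⟩
    obtain ⟨s₁, hs₁⟩ := grow (D := D) (c₀ := c₀) (C := C) (E := 1) (θ := θ) (e := e) hD hc₀ (by norm_num) h1
      he.le h3 hn hg
    have h4 : s₁ ≤ σ (s₁ + i₀) := by
      have h5 : s₁ + i₀ ≤ σ (s₁ + i₀) := hσ.id_le (s₁ + i₀)
      omega
    have h5 := hnear (σ (s₁ + i₀)) (hsi s₁) c (hc s₁) θ C h1 h2 hC
    have h6 := hs₁ (σ (s₁ + i₀)) h4 (l (σ (s₁ + i₀))) (by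
      rw [one_mul, ← Real.rpow_natCast 2 (n (σ (s₁ + i₀))), ← Real.rpow_mul (by norm_num),
        ← Real.rpow_natCast 4 (l (σ (s₁ + i₀)))]
      have h7 : (4 : ℝ) = 2 ^ (2 : ℝ) := by norm_num
      rw [h7, ← Real.rpow_mul (by norm_num)]
      apply Real.rpow_le_rpow_of_exponent_le (by norm_num)
      have := (hfl (s₁ + i₀)).1
      linarith)
    exact absurd h5 (not_le.2 h6)
  by_contra hcon
  rw [not_le] at hcon
  have hfin : dimH {c : ℝ × ℝ | ¬ Bd H c θ} ≠ ⊤ := ne_top_of_lt hcon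
  set δ' : ℝ := (dimH {c : ℝ × ℝ | ¬ Bd H c θ}).toReal with hδ'
  have h4 : δ' < e := by
    rw [hδ']
    have := (ENNReal.toReal_lt_toReal hfin ENNReal.ofReal_ne_top).2 hcon
    rwa [ENNReal.toReal_ofReal he.le] at this
  have h5 : 0 ≤ δ' := ENNReal.toReal_nonneg
  have h6 := key ((δ' + e) / 2) (by linarith) (by linarith)
  rw [← ENNReal.ofReal_toReal hfin, ← hδ', ENNReal.ofReal_le_ofReal_iff h5] at h6
  linarith

end Pool.Agent.Helper22.SC
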