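import Pool.Agent.Helper22.SC.F3

/-!
# SC-F4: the oval

PROOF. Replace `δ` by `min δ (1/4)`. `n s = (s + 20)!` (`n (s+1) = (s + 21) n s`). Let `q : ℕ → ℝ` be a dense sequence (`TopologicalSpace.denseSeq ℝ`). For `s` let `τ = (Nat.unpair s).1`; if `τ = t + 1` and
`0 < q t < 2` put `l s = ⌊q t · n s / 2⌋₊ ≤ n s`, otherwise `l s = n s + 7`. `oval_seq` with `u s = gen (l s)`, `D = max 1 (C₁/δ)` gives `H`. `all_bad`: `s = Nat.pair 0 i ≥ i` has `l s = n s + 7`.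
Dimension: `(4 - 6θ)/(2θ - 1) ∈ (0, 2)` for `3/5 < θ < 2/3`, and `(2θ-1)(3+e) < 1` iff `e < (4-6θ)/(2θ-1)`. For every `d` below it choose `t` with `d < q t < (4-6θ)/(2θ-1)`, `0 < q t`;
`σ i = Nat.pair (t+1) i` is strictly increasing (`Nat.pair_lt_pair_right`), `dim_low` with `e = q t`.
-/

open MeasureTheory Real Set Filter Topology

set_option autoImplicit false

namespace Pool.Agent.Helper22.SC

open Pool.Agent.Helper22.AE Pool.Agent.Helper22.AC

/-- The sequence of the exponents. -/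
private noncomputable def nF4 (s : ℕ) : ℕ := (s + 20).factorial

open Classical in
/-- The sequence of the orders. -/
private noncomputable def lF4 (s : ℕ) : ℕ :=
  if (Nat.unpair s).1 ≠ 0 ∧ 0 < TopologicalSpace.denseSeq ℝ ((Nat.unpair s).1 - 1) ∧
      TopologicalSpace.denseSeq ℝ ((Nat.unpair s).1 - 1) < 2 then
    ⌊TopologicalSpace.denseSeq ℝ ((Nat.unpair s).1 - 1) * nF4 s / 2⌋₊
  else nF4 s + 7

private theorem nF4_pos (s : ℕ) : 1 ≤ nF4 s := Nat.succ_le_of_lt (Nat.factorial_pos _)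

private theorem nF4_growth (s : ℕ) : (s + 20) * nF4 s ≤ nF4 (s + 1) := by
  unfold nF4
  have h1 : s + 1 + 20 = (s + 20) + 1 := by ring
  rw [h1, Nat.factorial_succ]
  exact Nat.mul_le_mul_right _ (Nat.le_succ _)

private theorem lF4_le (s : ℕ) : lF4 s ≤ nF4 s + 7 := by
  unfold lF4
  split_ifs with h
  · refine le_trans ?_ (Nat.le_add_right _ _)
    refine Nat.floor_le_of_le ?_
    have h1 : (0 : ℝ) ≤ nF4 s := Nat.cast_nonneg _
    nlinarith [h.2.2]
  · exact le_rfl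

theorem exact_centres {δ : ℝ} (hδ : 0 < δ) : ∃ H : ℝ → ℝ, Near δ H ∧ IsSupp H ∧ (∀ c : ℝ × ℝ, ∀ θ : ℝ, θ < 3 / 5 → ¬ Bd H c θ) ∧
    ∀ θ : ℝ, 3 / 5 < θ → θ < 2 / 3 → ENNReal.ofReal ((4 - 6 * θ) / (2 * θ - 1)) ≤ dimH {c : ℝ × ℝ | ¬ Bd H c θ} := by
  obtain ⟨C₁, hC₁, hoval⟩ := oval_seq
  have hδ' : 0 < min δ (1 / 4) := lt_min hδ (by norm_num)
  set D := max 1 (C₁ / min δ (1 / 4)) with hD
  have hD1 : 1 ≤ D := le_max_left _ _
  obtain ⟨H, hH, hA⟩ := hoval (min δ (1 / 4)) D hδ' (le_max_right _ _) hD1 (fun s => gen (lF4 s)) nF4 nF4_pos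
    nF4_growth
  have hd4 : min δ (1 / 4) ≤ 1 / 4 := min_le_right _ _
  have hdl : min δ (1 / 4) ≤ δ := min_le_left _ _
  refine ⟨H, ⟨hH.smooth, hH.per, fun t => (hH.d0 t).trans hdl, fun t => (hH.d1 t).trans hdl,
    fun t => (hH.d2 t).trans hdl⟩, isSupp_of_near hd4 hH, ?_, ?_⟩
  · refine all_bad hD1 hd4 hH nF4_pos nF4_growth lF4_le hA fun s₀ => ⟨Nat.pair 0 s₀, Nat.right_le_pair _ _, ?_⟩
    unfold lF4
    rw [if_neg]
    rw [Nat.unpair_pair]
    simp
  · intro θ h1 h2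
    have h3 : 0 < 2 * θ - 1 := by linarith
    refine le_of_forall_lt_imp_le_of_dense fun x hx => ?_
    have hxt : x ≠ ⊤ := ne_top_of_lt hx
    have hx0 : 0 ≤ x.toReal := ENNReal.toReal_nonneg
    have hx1 : x.toReal < (4 - 6 * θ) / (2 * θ - 1) := by
      rwa [← ENNReal.ofReal_toReal hxt, ENNReal.ofReal_lt_ofReal_iff_of_nonneg hx0] at hx
    obtain ⟨t, ht⟩ := (TopologicalSpace.denseRange_denseSeq ℝ).exists_mem_open
      (isOpen_Ioo (a := x.toReal) (b := (4 - 6 * θ) / (2 * θ - 1))) (nonempty_Ioo.2 hx1)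
    set e := TopologicalSpace.denseSeq ℝ t with he
    have he0 : 0 < e := lt_of_le_of_lt hx0 ht.1
    have he1 : e * (2 * θ - 1) < 4 - 6 * θ := (lt_div_iff₀ h3).1 ht.2
    have he2 : e < 2 := by
      by_contra hcon
      nlinarith [not_lt.1 hcon]
    have hσ : StrictMono fun i => Nat.pair (t + 1) i := fun i j hij => Nat.pair_lt_pair_right (t + 1) hij
    have hle : ∀ i, lF4 (Nat.pair (t + 1) i) = ⌊e * nF4 (Nat.pair (t + 1) i) / 2⌋₊ := by
      intro i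
      unfold lF4
      rw [Nat.unpair_pair]
      simp only [Nat.add_sub_cancel]
      rw [if_pos ⟨Nat.succ_ne_zero t, he0, he2⟩]
    have h4 := dim_low hD1 hd4 hH nF4_pos nF4_growth lF4_le hA he0 he2 hσ hle (θ := θ) (by linarith)
      (by linarith) (by nlinarith)
    refine le_trans ?_ h4
    rw [← ENNReal.ofReal_toReal hxt]
    exact ENNReal.ofReal_le_ofReal ht.1.le

end Pool.Agent.Helper22.SC
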