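import Pool.Agent.Helper22.SC.Defs

/-!
# SC-G1: a periodic bump

PROOF. `B x = Real.smoothTransition (2 - 4 x)`: `C^∞`, values in `[0, 1]`, `B x = 1` for `x ≤ 1/4`, `B x = 0` for `x ≥ 1/2`; `|B'|, |B''| ≤ M` on `[0, 1/2]` (compactness), and both vanish for `x ≤ 0`
and for `x ≥ 1/2`. Put `b t = B ((1 - cos (t - t₀)) / w²)`. `b' = B'(x) sin (t - t₀) / w²`, `b'' = B''(x) sin² (t - t₀) / w⁴ + B'(x) cos (t - t₀) / w²`; where `B' ≠ 0` or `B'' ≠ 0` one has
`1 - cos ≤ w²/2`, `sin² ≤ 2 (1 - cos) ≤ w²`, so `|b''| ≤ 2M/w²`, `|b'| ≤ M/w²`. (`c ↦ 1 - cos c`, `0 < w ≤ 1`.)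
-/

open MeasureTheory Real Set Filter Topology

set_option autoImplicit false

namespace Pool.Agent.Helper22.SC

/-- The model bump. -/
private noncomputable def BB (x : ℝ) : ℝ := Real.smoothTransition (2 - 4 * x)

private theorem BB_cd (n : ℕ∞) : ContDiff ℝ n BB := by
  unfold BB
  exact Real.smoothTransition.contDiff.comp (contDiff_const.sub (contDiff_const.mul contDiff_id))

private theorem BB_zero {x : ℝ} (h : 1 / 2 < x) : BB x = 0 :=
  Real.smoothTransition.zero_of_nonpos (by linarith)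

private theorem BB_one : BB 0 = 1 :=
  Real.smoothTransition.one_of_one_le (by norm_num)

private theorem BB_d1 (x : ℝ) : HasDerivAt BB (deriv BB x) x :=
  (((BB_cd 1).differentiable (by norm_num)) x).hasDerivAt

private theorem BB_cd1 : ContDiff ℝ 1 (deriv BB) := by
  have h : ContDiff ℝ (1 + 1) BB := BB_cd 2
  exact (contDiff_succ_iff_deriv.1 h).2.2

private theorem BB_d2 (x : ℝ) : HasDerivAt (deriv BB) (deriv (deriv BB) x) x :=
  ((BB_cd1.differentiable (by norm_num)) x).hasDerivAt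

private theorem BB_d1_zero {x : ℝ} (h : 1 / 2 < x) : deriv BB x = 0 := by
  have h1 : BB =ᶠ[𝓝 x] fun _ => 0 := by
    filter_upwards [Ioi_mem_nhds h] with y hy
    exact BB_zero hy
  rw [h1.deriv_eq, deriv_const]

private theorem BB_d2_zero {x : ℝ} (h : 1 / 2 < x) : deriv (deriv BB) x = 0 := by
  have h1 : deriv BB =ᶠ[𝓝 x] fun _ => 0 := by
    filter_upwards [Ioi_mem_nhds h] with y hy
    exact BB_d1_zero hy
  rw [h1.deriv_eq, deriv_const]

private theorem BB_bound : ∃ M : ℝ, 0 ≤ M ∧ ∀ x : ℝ, 0 ≤ x → |deriv BB x| ≤ M ∧ |deriv (deriv BB) x| ≤ M := by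
  have c1 : Continuous (deriv BB) := BB_cd1.continuous
  have c2 : Continuous (deriv (deriv BB)) := BB_cd1.continuous_deriv (by norm_num)
  obtain ⟨M1, hM1⟩ := (isCompact_Icc (a := (0 : ℝ)) (b := 1 / 2)).exists_bound_of_continuousOn c1.continuousOn
  obtain ⟨M2, hM2⟩ := (isCompact_Icc (a := (0 : ℝ)) (b := 1 / 2)).exists_bound_of_continuousOn c2.continuousOn
  refine ⟨max 0 (max M1 M2), le_max_left _ _, fun x hx => ?_⟩
  by_cases h : x ≤ 1 / 2
  · have h1 := hM1 x ⟨hx, h⟩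
    have h2 := hM2 x ⟨hx, h⟩
    rw [Real.norm_eq_abs] at h1 h2
    exact ⟨h1.trans ((le_max_left _ _).trans (le_max_right _ _)), h2.trans ((le_max_right _ _).trans (le_max_right _ _))⟩
  · push Not at h
    rw [BB_d1_zero h, BB_d2_zero h, abs_zero]
    exact ⟨le_max_left _ _, le_max_left _ _⟩

theorem bump_exists : ∃ C : ℝ, 1 ≤ C ∧ ∀ w : ℝ, 0 < w → w ≤ 1 → ∀ t₀ : ℝ, ∃ b : ℝ → ℝ, ContDiff ℝ 2 b ∧
    Function.Periodic b (2 * π) ∧ b t₀ = 1 ∧ (∀ t, 0 ≤ b t ∧ b t ≤ 1) ∧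
    (∀ t, |deriv b t| ≤ C / w ^ 2 ∧ |deriv (deriv b) t| ≤ C / w ^ 2) ∧
    ∀ t, w ^ 2 / 2 < 1 - cos (t - t₀) → b t = 0 ∧ deriv b t = 0 ∧ deriv (deriv b) t = 0 := by
  obtain ⟨M, hM0, hM⟩ := BB_bound
  refine ⟨2 * M + 1, by linarith, fun w hw hw1 t₀ => ?_⟩
  have hw2 : 0 < w ^ 2 := by positivity
  have hx0 : ∀ t, 0 ≤ (1 - cos (t - t₀)) / w ^ 2 := fun t =>
    div_nonneg (sub_nonneg.2 (Real.cos_le_one _)) hw2.le
  have hxd : ∀ t, HasDerivAt (fun t => (1 - cos (t - t₀)) / w ^ 2) (sin (t - t₀) / w ^ 2) t := by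
    intro t
    have h1 : HasDerivAt (fun t => t - t₀) 1 t := (hasDerivAt_id t).sub_const t₀
    have h2 := ((h1.cos).const_sub 1).div_const (w ^ 2)
    have h3 : -(-sin (t - t₀) * 1) / w ^ 2 = sin (t - t₀) / w ^ 2 := by ring
    rwa [h3] at h2
  have hb1 : ∀ t, HasDerivAt (fun t => BB ((1 - cos (t - t₀)) / w ^ 2))
      (deriv BB ((1 - cos (t - t₀)) / w ^ 2) * (sin (t - t₀) / w ^ 2)) t := fun t =>
    HasDerivAt.comp (h₂ := BB) t (BB_d1 _) (hxd t)
  have hd1 : deriv (fun t => BB ((1 - cos (t - t₀)) / w ^ 2)) =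
      fun t => deriv BB ((1 - cos (t - t₀)) / w ^ 2) * (sin (t - t₀) / w ^ 2) :=
    funext fun t => (hb1 t).deriv
  have hb2 : ∀ t, HasDerivAt (fun t => deriv BB ((1 - cos (t - t₀)) / w ^ 2) * (sin (t - t₀) / w ^ 2))
      (deriv (deriv BB) ((1 - cos (t - t₀)) / w ^ 2) * (sin (t - t₀) / w ^ 2) * (sin (t - t₀) / w ^ 2) +
        deriv BB ((1 - cos (t - t₀)) / w ^ 2) * (cos (t - t₀) / w ^ 2)) t := by
    intro t
    have h1 : HasDerivAt (fun t => t - t₀) 1 t := (hasDerivAt_id t).sub_const t₀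
    have h2 : HasDerivAt (fun t => sin (t - t₀) / w ^ 2) (cos (t - t₀) / w ^ 2) t := by
      have h3 := h1.sin.div_const (w ^ 2)
      rwa [mul_one] at h3
    exact (HasDerivAt.comp (h₂ := deriv BB) t (BB_d2 _) (hxd t)).mul h2
  have hd2 : ∀ t, deriv (deriv fun t => BB ((1 - cos (t - t₀)) / w ^ 2)) t =
      deriv (deriv BB) ((1 - cos (t - t₀)) / w ^ 2) * (sin (t - t₀) / w ^ 2) * (sin (t - t₀) / w ^ 2) +
        deriv BB ((1 - cos (t - t₀)) / w ^ 2) * (cos (t - t₀) / w ^ 2) := by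
    intro t
    rw [hd1]
    exact (hb2 t).deriv
  have hbig : ∀ t, w ^ 2 / 2 < 1 - cos (t - t₀) → 1 / 2 < (1 - cos (t - t₀)) / w ^ 2 := by
    intro t ht
    rw [lt_div_iff₀ hw2]
    linarith
  have hzero : ∀ t, w ^ 2 / 2 < 1 - cos (t - t₀) → BB ((1 - cos (t - t₀)) / w ^ 2) = 0 ∧
      deriv (fun t => BB ((1 - cos (t - t₀)) / w ^ 2)) t = 0 ∧
      deriv (deriv fun t => BB ((1 - cos (t - t₀)) / w ^ 2)) t = 0 := by
    intro t ht
    have h1 := hbig t ht
    refine ⟨BB_zero h1, ?_, ?_⟩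
    · rw [(hb1 t).deriv, BB_d1_zero h1, zero_mul]
    · rw [hd2, BB_d1_zero h1, BB_d2_zero h1]
      ring
  refine ⟨fun t => BB ((1 - cos (t - t₀)) / w ^ 2), ?_, ?_, ?_, ?_, ?_, hzero⟩
  · have h1 : ContDiff ℝ 2 fun t : ℝ => (1 - cos (t - t₀)) / w ^ 2 :=
      (contDiff_const.sub (Real.contDiff_cos.comp (contDiff_id.sub contDiff_const))).div_const _
    exact (BB_cd 2).comp h1
  · intro t
    have h1 : t + 2 * π - t₀ = t - t₀ + 2 * π := by ring
    simp only [h1, Real.cos_add_two_pi]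
  · simp only [sub_self, Real.cos_zero, zero_div]
    exact BB_one
  · exact fun t => ⟨Real.smoothTransition.nonneg _, Real.smoothTransition.le_one _⟩
  · intro t
    have hC : 0 ≤ (2 * M + 1) / w ^ 2 := by positivity
    by_cases ht : w ^ 2 / 2 < 1 - cos (t - t₀)
    · obtain ⟨-, h2, h3⟩ := hzero t ht
      rw [h2, h3, abs_zero]
      exact ⟨hC, hC⟩
    · push Not at ht
      obtain ⟨m1, m2⟩ := hM _ (hx0 t)
      have hs : sin (t - t₀) ^ 2 ≤ w ^ 2 := by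
        nlinarith [Real.sin_sq_add_cos_sq (t - t₀), Real.cos_le_one (t - t₀), Real.neg_one_le_cos (t - t₀)]
      have hs1 : |sin (t - t₀)| ≤ 1 := Real.abs_sin_le_one _
      have hc1 : |cos (t - t₀)| ≤ 1 := Real.abs_cos_le_one _
      constructor
      · rw [(hb1 t).deriv, abs_mul, abs_div, abs_of_pos hw2, ← mul_div_assoc]
        refine div_le_div_of_nonneg_right ?_ hw2.le
        nlinarith [abs_nonneg (sin (t - t₀)), abs_nonneg (deriv BB ((1 - cos (t - t₀)) / w ^ 2))]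
      · rw [hd2]
        refine (abs_add_le _ _).trans ?_
        have e1 : |deriv (deriv BB) ((1 - cos (t - t₀)) / w ^ 2) * (sin (t - t₀) / w ^ 2) * (sin (t - t₀) / w ^ 2)| ≤
            M / w ^ 2 := by
          have e2 : deriv (deriv BB) ((1 - cos (t - t₀)) / w ^ 2) * (sin (t - t₀) / w ^ 2) * (sin (t - t₀) / w ^ 2) =
              deriv (deriv BB) ((1 - cos (t - t₀)) / w ^ 2) * (sin (t - t₀) ^ 2 / w ^ 2) / w ^ 2 := by
            field_simp
          have e3 : 0 ≤ sin (t - t₀) ^ 2 / w ^ 2 := by positivity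
          have e4 : sin (t - t₀) ^ 2 / w ^ 2 ≤ 1 := (div_le_one hw2).2 hs
          rw [e2, abs_div, abs_of_pos hw2, abs_mul, abs_of_nonneg e3]
          refine div_le_div_of_nonneg_right ?_ hw2.le
          nlinarith [abs_nonneg (deriv (deriv BB) ((1 - cos (t - t₀)) / w ^ 2))]
        have e5 : |deriv BB ((1 - cos (t - t₀)) / w ^ 2) * (cos (t - t₀) / w ^ 2)| ≤ M / w ^ 2 := by
          rw [abs_mul, abs_div, abs_of_pos hw2, ← mul_div_assoc]
          refine div_le_div_of_nonneg_right ?_ hw2.le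
          nlinarith [abs_nonneg (cos (t - t₀)), abs_nonneg (deriv BB ((1 - cos (t - t₀)) / w ^ 2))]
        have e6 : (2 * M + 1) / w ^ 2 = M / w ^ 2 + M / w ^ 2 + 1 / w ^ 2 := by ring
        have e7 : 0 ≤ 1 / w ^ 2 := by positivity
        linarith

end Pool.Agent.Helper22.SC
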