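import Pool.Agent.Helper22.SC.Defs

/-!
# SC-G2: directions of lattice vectors are separated

PROOF of `dir_sep`. `det = k.1 l.2 - k.2 l.1 = nk k nk l sin (tk l - tk k)`. If `det ≠ 0` then `|det| ≥ 1`, so `|sin (tk l - tk k)| ≥ 1/(nk k nk l)`, and `|sin (2y)| ≤ 2 |sin y|` gives
`|sin ((tk l - tk k)/2)| ≥ 1/(2 nk k nk l)`. `1 - cos x = 2 sin² (x/2)`, so both inequalities give `|sin ((t - tk k)/2)| ≤ w/2`, `|sin ((t - tk l)/2)| ≤ w'/2` with `w = 1/(4 nk k N)`,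
`w' = 1/(4 nk l N)`, hence `|sin ((tk l - tk k)/2)| ≤ (w + w')/2 = (nk k + nk l)/(8 N nk k nk l) ≤ 1/(4 nk k nk l)`, a contradiction. If `det = 0` and the vectors point to opposite directions:
`cos (tk l - tk k) = -1`, `|sin ((tk l - tk k)/2)| = 1 > (w + w')/2`.
So `det = 0` and `cos (tk l - tk k) = 1`; both vectors are primitive (`Int.gcd = 1`), so they are equal.
PROOF of `prim`: divide by the gcd; `tk` is unchanged by a positive factor.
-/

open MeasureTheory Real Set Filter Topology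

set_option autoImplicit false

namespace Pool.Agent.Helper22.SC

open Pool.Agent.Helper22.AE

private theorem nk1_86 {k : ℤ × ℤ} (hk0 : k ≠ 0) : 1 ≤ nk k := by
  by_cases h1 : k.1 = 0
  · have h2 : k.2 ≠ 0 := by
      intro h2
      exact hk0 (Prod.ext h1 h2)
    have h3 : (1 : ℤ) ≤ |k.2| := Int.one_le_abs h2
    have h4 : (1 : ℝ) ≤ |(k.2 : ℝ)| := by exact_mod_cast h3
    exact h4.trans (Complex.abs_im_le_norm (cz k))
  · have h3 : (1 : ℤ) ≤ |k.1| := Int.one_le_abs h1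
    have h4 : (1 : ℝ) ≤ |(k.1 : ℝ)| := by exact_mod_cast h3
    exact h4.trans (Complex.abs_re_le_norm (cz k))

private theorem c1_86 (k : ℤ × ℤ) : nk k * cos (tk k) = k.1 := Complex.norm_mul_cos_arg (cz k)

private theorem c2_86 (k : ℤ × ℤ) : nk k * sin (tk k) = k.2 := Complex.norm_mul_sin_arg (cz k)

private theorem ne0_86 {k : ℤ × ℤ} (hk : Int.gcd k.1 k.2 = 1) : k ≠ 0 := by
  rintro rfl
  simp at hk

private theorem half_86 {y w : ℝ} (hw : 0 ≤ w) (h : 1 - cos y ≤ w ^ 2 / 2) :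
    |sin (y / 2)| ≤ w / 2 := by
  have h1 : cos y = 1 - 2 * sin (y / 2) ^ 2 := by
    have h2 := Real.cos_sq' (y / 2)
    have h3 := Real.cos_two_mul (y / 2)
    rw [mul_div_cancel₀ y two_ne_zero] at h3
    rw [h3, h2]
    ring
  rw [h1] at h
  apply abs_le_of_sq_le_sq _ (by linarith)
  nlinarith

private theorem eq_of_86 {k l : ℤ × ℤ} (hk : Int.gcd k.1 k.2 = 1) (hl : Int.gcd l.1 l.2 = 1)
    (hd : k.1 * l.2 = k.2 * l.1) (hp : 0 < k.1 * l.1 + k.2 * l.2) : k = l := by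
  have ck : IsCoprime k.1 k.2 := Int.isCoprime_iff_gcd_eq_one.2 hk
  have cl : IsCoprime l.1 l.2 := Int.isCoprime_iff_gcd_eq_one.2 hl
  have a1 : k.1 ∣ l.1 := ck.dvd_of_dvd_mul_left (Dvd.intro _ hd)
  have a2 : l.1 ∣ k.1 := cl.dvd_of_dvd_mul_right (by rw [hd]; exact Dvd.intro_left _ rfl)
  have b1 : k.2 ∣ l.2 := ck.symm.dvd_of_dvd_mul_left (Dvd.intro _ hd.symm)
  have b2 : l.2 ∣ k.2 := cl.symm.dvd_of_dvd_mul_right (by rw [← hd]; exact Dvd.intro_left _ rfl)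
  have e1 : k.1 = l.1 ∨ k.1 = -l.1 := Int.natAbs_eq_natAbs_iff.1 (Int.natAbs_eq_of_dvd_dvd a1 a2)
  have e2 : k.2 = l.2 ∨ k.2 = -l.2 := Int.natAbs_eq_natAbs_iff.1 (Int.natAbs_eq_of_dvd_dvd b1 b2)
  rcases e1 with e1 | e1 <;> rcases e2 with e2 | e2
  · exact Prod.ext e1 e2
  · rw [e1, e2] at hd hp
    have h3 : l.1 * l.2 = 0 := by linarith
    rcases mul_eq_zero.1 h3 with h4 | h4
    · rw [h4] at hp
      nlinarith [sq_nonneg l.2]
    · rw [h4, neg_zero] at e2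
      exact Prod.ext e1 (by rw [e2, h4])
  · rw [e1, e2] at hd hp
    have h3 : l.1 * l.2 = 0 := by linarith
    rcases mul_eq_zero.1 h3 with h4 | h4
    · rw [h4, neg_zero] at e1
      exact Prod.ext (by rw [e1, h4]) e2
    · rw [h4] at hp
      nlinarith [sq_nonneg l.1]
  · rw [e1, e2] at hp
    nlinarith [sq_nonneg l.1, sq_nonneg l.2]

theorem dir_sep {N : ℝ} (hN : 1 ≤ N) {k l : ℤ × ℤ} (hk : Int.gcd k.1 k.2 = 1) (hl : Int.gcd l.1 l.2 = 1) (hkN : nk k ≤ N)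
    (hlN : nk l ≤ N) {t : ℝ} (h1 : 1 - cos (t - tk k) ≤ (1 / (4 * nk k * N)) ^ 2 / 2)
    (h2 : 1 - cos (t - tk l) ≤ (1 / (4 * nk l * N)) ^ 2 / 2) : k = l := by
  have hk0 := ne0_86 hk
  have hl0 := ne0_86 hl
  have ha1 := nk1_86 hk0
  have hb1 := nk1_86 hl0
  have ha0 : 0 < nk k := by linarith
  have hb0 : 0 < nk l := by linarith
  have hN0 : 0 < N := by linarith
  have hs1 := half_86 (by positivity : 0 ≤ 1 / (4 * nk k * N)) h1
  have hs2 := half_86 (by positivity : 0 ≤ 1 / (4 * nk l * N)) h2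
  set A := (t - tk k) / 2 with hA
  set B := (t - tk l) / 2 with hB
  have hy : (tk l - tk k) / 2 = A - B := by rw [hA, hB]; ring
  have hs : |sin ((tk l - tk k) / 2)| ≤ 1 / (4 * nk k * nk l) := by
    rw [hy, Real.sin_sub]
    have h3 : |sin A * cos B - cos A * sin B| ≤ |sin A| + |sin B| := by
      refine (abs_sub _ _).trans ?_
      rw [abs_mul, abs_mul]
      have h4 : |sin A| * |cos B| ≤ |sin A| :=
        mul_le_of_le_one_right (abs_nonneg _) (Real.abs_cos_le_one B)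
      have h5 : |cos A| * |sin B| ≤ |sin B| :=
        mul_le_of_le_one_left (abs_nonneg _) (Real.abs_cos_le_one A)
      linarith
    have h6 : 1 / (4 * nk k * N) ≤ 1 / (4 * nk k * nk l) := by
      apply one_div_le_one_div_of_le (by positivity)
      exact mul_le_mul_of_nonneg_left hlN (by positivity)
    have h7 : 1 / (4 * nk l * N) ≤ 1 / (4 * nk k * nk l) := by
      apply one_div_le_one_div_of_le (by positivity)
      have := mul_le_mul_of_nonneg_left hkN (by positivity : 0 ≤ 4 * nk l)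
      linarith
    linarith
  have hab : 1 ≤ nk k * nk l := one_le_mul_of_one_le_of_one_le ha1 hb1
  have hq : 1 / (4 * nk k * nk l) ≤ 1 / 4 := by
    apply one_div_le_one_div_of_le (by norm_num)
    nlinarith
  have e1 : sin (tk l - tk k) = 2 * sin ((tk l - tk k) / 2) * cos ((tk l - tk k) / 2) := by
    rw [← Real.sin_two_mul, mul_div_cancel₀ _ two_ne_zero]
  have e2 : cos (tk l - tk k) = 1 - 2 * sin ((tk l - tk k) / 2) ^ 2 := by
    have h3 := Real.cos_two_mul (B - A)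
    have h4 := Real.cos_sq' ((tk l - tk k) / 2)
    have h5 := Real.cos_two_mul ((tk l - tk k) / 2)
    rw [mul_div_cancel₀ _ two_ne_zero] at h5
    rw [h5, h4]
    ring
  have hdet : ((k.1 * l.2 - k.2 * l.1 : ℤ) : ℝ) = nk k * nk l * sin (tk l - tk k) := by
    push_cast
    rw [← c1_86 k, ← c2_86 k, ← c1_86 l, ← c2_86 l, Real.sin_sub]
    ring
  have hinn : ((k.1 * l.1 + k.2 * l.2 : ℤ) : ℝ) = nk k * nk l * cos (tk l - tk k) := by
    push_cast
    rw [← c1_86 k, ← c2_86 k, ← c1_86 l, ← c2_86 l, Real.cos_sub]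
    ring
  have hd0 : k.1 * l.2 - k.2 * l.1 = 0 := by
    have h3 : |((k.1 * l.2 - k.2 * l.1 : ℤ) : ℝ)| ≤ 1 / 2 := by
      rw [hdet, e1, abs_mul, abs_of_pos (by positivity : 0 < nk k * nk l), abs_mul, abs_mul, abs_two]
      have h4 : 2 * |sin ((tk l - tk k) / 2)| * |cos ((tk l - tk k) / 2)| ≤
          2 * (1 / (4 * nk k * nk l)) := by
        have h5 := mul_le_of_le_one_right (abs_nonneg (sin ((tk l - tk k) / 2)))
          (Real.abs_cos_le_one ((tk l - tk k) / 2))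
        linarith
      have h6 := mul_le_mul_of_nonneg_left h4 (by positivity : 0 ≤ nk k * nk l)
      have h7 : nk k * nk l * (2 * (1 / (4 * nk k * nk l))) = 1 / 2 := by
        field_simp
        norm_num
      linarith
    by_contra hne
    have h8 : (1 : ℤ) ≤ |k.1 * l.2 - k.2 * l.1| := Int.one_le_abs hne
    have h9 : (1 : ℝ) ≤ |((k.1 * l.2 - k.2 * l.1 : ℤ) : ℝ)| := by exact_mod_cast h8
    linarith
  have hp : 0 < k.1 * l.1 + k.2 * l.2 := by
    have h3 : 0 < ((k.1 * l.1 + k.2 * l.2 : ℤ) : ℝ) := by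
      rw [hinn, e2]
      apply mul_pos (by positivity)
      have h4 : sin ((tk l - tk k) / 2) ^ 2 ≤ (1 / 4) ^ 2 := by
        rw [← sq_abs]
        exact pow_le_pow_left₀ (abs_nonneg _) (hs.trans hq) 2
      linarith
    exact_mod_cast h3
  exact eq_of_86 hk hl (by linarith) hp

theorem prim {k : ℤ × ℤ} (hk : k ≠ 0) : ∃ (m : ℕ) (l : ℤ × ℤ), 1 ≤ m ∧ Int.gcd l.1 l.2 = 1 ∧ k = (m * l.1, m * l.2) ∧
    nk k = m * nk l ∧ tk k = tk l ∧ 1 ≤ nk l := by
  have h0 : k.1 ≠ 0 ∨ k.2 ≠ 0 := by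
    by_contra h
    push Not at h
    exact hk (Prod.ext h.1 h.2)
  have hg : 0 < Int.gcd k.1 k.2 := by
    rw [Nat.pos_iff_ne_zero]
    intro h
    rw [Int.gcd_eq_zero_iff] at h
    rcases h0 with h1 | h1
    · exact h1 h.1
    · exact h1 h.2
  set m := Int.gcd k.1 k.2 with hm
  have e1 : (m : ℤ) * (k.1 / m) = k.1 := Int.mul_ediv_cancel' (Int.gcd_dvd_left ..)
  have e2 : (m : ℤ) * (k.2 / m) = k.2 := Int.mul_ediv_cancel' (Int.gcd_dvd_right ..)
  have hm0 : (0 : ℝ) < m := by exact_mod_cast hg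
  have hcz : cz k = (m : ℝ) * cz (k.1 / m, k.2 / m) := by
    have f1 : ((m : ℤ) : ℝ) * ((k.1 / m : ℤ) : ℝ) = (k.1 : ℝ) := by exact_mod_cast e1
    have f2 : ((m : ℤ) : ℝ) * ((k.2 / m : ℤ) : ℝ) = (k.2 : ℝ) := by exact_mod_cast e2
    have f3 : ((m : ℤ) : ℝ) = (m : ℝ) := by norm_cast
    rw [f3] at f1 f2
    apply Complex.ext
    · rw [Complex.re_ofReal_mul]
      exact f1.symm
    · rw [Complex.im_ofReal_mul]
      exact f2.symm
  have hl0 : ((k.1 / m, k.2 / m) : ℤ × ℤ) ≠ 0 := by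
    intro h
    have g1 : k.1 / (m : ℤ) = 0 := congrArg Prod.fst h
    have g2 : k.2 / (m : ℤ) = 0 := congrArg Prod.snd h
    rw [g1, mul_zero] at e1
    rw [g2, mul_zero] at e2
    exact hk (Prod.ext e1.symm e2.symm)
  refine ⟨m, (k.1 / m, k.2 / m), hg, ?_, Prod.ext e1.symm e2.symm, ?_, ?_, nk1_86 hl0⟩
  · exact Int.gcd_ediv_gcd_ediv_gcd hg
  · unfold nk
    rw [hcz, norm_mul, Complex.norm_real, Real.norm_of_nonneg hm0.le]
  · unfold tk
    rw [hcz]
    exact Complex.arg_real_mul _ hm0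

end Pool.Agent.Helper22.SC
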