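import Pool.Agent.Helper22.SC.G1
import Pool.Agent.Helper22.SC.G2

/-!
# SC-G3: one stage

PROOF. `P` = the finite set of the primitive `k` (`Int.gcd k.1 k.2 = 1`) with `nk k ≤ N`. For `k ∈ P` let `b_k` be the bump of `bump_exists` at `t₀ = tk k` with `w_k = 1/(4 nk k N) ≤ 1`,
`y_k = T nk k H₀ (tk k) + k·u` and `a_k = (⌈y_k⌉ - y_k) / (T nk k) ∈ [0, 1/(T nk k))`. `g = ∑_{k ∈ P} a_k b_k`. At every `t` at most one `k ∈ P` has `1 - cos (t - tk k) ≤ w_k²/2` (`dir_sep`), so at most one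
term of `g`, `g'`, `g''` is nonzero at `t`: `0 ≤ g ≤ 1/T`, `|g'|, |g''| ≤ a_k C/w_k² ≤ (1/(T nk k)) C 16 nk k² N² ≤ 16 C N³/T`. `g (tk k) = a_k` for `k ∈ P`, so `T (nk k (H₀ + g)(tk k)) + k·u = ⌈y_k⌉`;
for a multiple `m l`, `l ∈ P` (`prim`): `m` times the value for `l`.
-/

open MeasureTheory Real Set Filter Topology

set_option autoImplicit false

namespace Pool.Agent.Helper22.SC

open Pool.Agent.Helper22.AE Pool.Agent.Helper92.EO

private lemma g3_abs (k : ℤ × ℤ) : |(k.1 : ℝ)| ≤ nk k ∧ |(k.2 : ℝ)| ≤ nk k :=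
  ⟨Complex.abs_re_le_norm (cz k), Complex.abs_im_le_norm (cz k)⟩

private lemma g3_mem {N : ℝ} {k : ℤ × ℤ} : k ∈ kset N ↔ k ≠ 0 ∧ nk k ≤ N := by
  classical
  unfold kset box
  rw [Finset.mem_filter, Finset.mem_product, Finset.mem_Icc, Finset.mem_Icc]
  refine ⟨fun h => h.2, fun h => ⟨?_, h⟩⟩
  have h1 : |(k.1 : ℝ)| ≤ (⌈N⌉₊ : ℝ) := ((g3_abs k).1.trans h.2).trans (Nat.le_ceil N)
  have h2 : |(k.2 : ℝ)| ≤ (⌈N⌉₊ : ℝ) := ((g3_abs k).2.trans h.2).trans (Nat.le_ceil N)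
  have h1' : |k.1| ≤ (⌈N⌉₊ : ℤ) := by exact_mod_cast h1
  have h2' : |k.2| ≤ (⌈N⌉₊ : ℤ) := by exact_mod_cast h2
  exact ⟨abs_le.1 h1', abs_le.1 h2'⟩

private noncomputable def g3w (N : ℝ) (k : ℤ × ℤ) : ℝ := 1 / (4 * nk k * N)

open Classical in
private noncomputable def g3P (N : ℝ) : Finset (ℤ × ℤ) := (kset N).filter (fun k => Int.gcd k.1 k.2 = 1)

private lemma g3_memP {N : ℝ} {k : ℤ × ℤ} : k ∈ g3P N ↔ (k ≠ 0 ∧ nk k ≤ N) ∧ Int.gcd k.1 k.2 = 1 := by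
  classical
  unfold g3P
  rw [Finset.mem_filter, g3_mem]

private lemma g3_one {k : ℤ × ℤ} (hk : k ≠ 0) : 1 ≤ nk k := by
  obtain ⟨m, l, hm, -, -, h1, -, h2⟩ := prim hk
  rw [h1]
  have : (1 : ℝ) ≤ m := by exact_mod_cast hm
  nlinarith

/-- at most one term of the sum is nonzero -/
private lemma g3_term {N : ℝ} (hN : 1 ≤ N) (t : ℝ) (f : ℤ × ℤ → ℝ)
    (h0 : ∀ k ∈ g3P N, g3w N k ^ 2 / 2 < 1 - cos (t - tk k) → f k = 0) :
    (∑ k ∈ g3P N, f k) = 0 ∨ ∃ k ∈ g3P N, (∑ l ∈ g3P N, f l) = f k := by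
  classical
  by_cases h : ∃ k ∈ g3P N, 1 - cos (t - tk k) ≤ g3w N k ^ 2 / 2
  · obtain ⟨k, hk, hk1⟩ := h
    refine Or.inr ⟨k, hk, Finset.sum_eq_single_of_mem k hk fun l hl hlk => ?_⟩
    refine h0 l hl ?_
    by_contra hcon
    rw [not_lt] at hcon
    obtain ⟨⟨-, hkN⟩, hkg⟩ := g3_memP.1 hk
    obtain ⟨⟨-, hlN⟩, hlg⟩ := g3_memP.1 hl
    exact hlk (dir_sep hN hkg hlg hkN hlN hk1 hcon).symm
  · left
    refine Finset.sum_eq_zero fun k hk => h0 k hk ?_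
    by_contra hcon
    exact h ⟨k, hk, not_lt.1 hcon⟩

theorem stage : ∃ C : ℝ, 1 ≤ C ∧ ∀ (H₀ : ℝ → ℝ) (N T : ℝ) (u : ℝ × ℝ), 1 ≤ N → 0 < T → ∃ g : ℝ → ℝ, ContDiff ℝ 2 g ∧
    Function.Periodic g (2 * π) ∧ (∀ t, 0 ≤ g t ∧ g t ≤ 1 / T) ∧
    (∀ t, |deriv g t| ≤ C * (N ^ 3 / T) ∧ |deriv (deriv g) t| ≤ C * (N ^ 3 / T)) ∧
    ∀ k : ℤ × ℤ, k ≠ 0 → nk k ≤ N →
      ∃ z : ℤ, T * (nk k * (H₀ (tk k) + g (tk k))) + ((k.1 : ℝ) * u.1 + (k.2 : ℝ) * u.2) = z := by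
  classical
  obtain ⟨C, hC1, hb⟩ := bump_exists
  refine ⟨16 * C, by linarith, fun H₀ N T u hN hT => ?_⟩
  have hC0 : 0 ≤ C := by linarith
  -- facts on `P`
  have hP1 : ∀ k ∈ g3P N, 1 ≤ nk k := fun k hk => g3_one (g3_memP.1 hk).1.1
  have hP2 : ∀ k ∈ g3P N, nk k ≤ N := fun k hk => (g3_memP.1 hk).1.2
  have hw0 : ∀ k ∈ g3P N, 0 < g3w N k := fun k hk => by
    have := hP1 k hk
    unfold g3w
    positivity
  have hw1 : ∀ k ∈ g3P N, g3w N k ≤ 1 := fun k hk => by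
    have := hP1 k hk
    unfold g3w
    rw [div_le_one (by positivity)]
    nlinarith
  have hbk : ∀ k : ℤ × ℤ, ∃ b : ℝ → ℝ, k ∈ g3P N → (ContDiff ℝ 2 b ∧
      Function.Periodic b (2 * π) ∧ b (tk k) = 1 ∧ (∀ t, 0 ≤ b t ∧ b t ≤ 1) ∧
      (∀ t, |deriv b t| ≤ C / g3w N k ^ 2 ∧ |deriv (deriv b) t| ≤ C / g3w N k ^ 2) ∧
      ∀ t, g3w N k ^ 2 / 2 < 1 - cos (t - tk k) → b t = 0 ∧ deriv b t = 0 ∧ deriv (deriv b) t = 0) := by
    intro k
    by_cases hk : k ∈ g3P N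
    · obtain ⟨b, hb'⟩ := hb (g3w N k) (hw0 k hk) (hw1 k hk) (tk k)
      exact ⟨b, fun _ => hb'⟩
    · exact ⟨0, fun h => absurd h hk⟩
  choose b hb' using hbk
  set y : ℤ × ℤ → ℝ := fun k => T * (nk k * H₀ (tk k)) + ((k.1 : ℝ) * u.1 + (k.2 : ℝ) * u.2) with hy
  set a : ℤ × ℤ → ℝ := fun k => ((⌈y k⌉ : ℝ) - y k) / (T * nk k) with ha
  have ha0 : ∀ k ∈ g3P N, 0 ≤ a k := fun k hk => by
    have := hP1 k hk
    have h1 := Int.le_ceil (y k)
    exact div_nonneg (by linarith) (by positivity)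
  have ha1 : ∀ k ∈ g3P N, a k ≤ 1 / (T * nk k) := fun k hk => by
    have := hP1 k hk
    have h1 := Int.ceil_lt_add_one (y k)
    exact div_le_div_of_nonneg_right (by linarith) (by positivity)
  have ha2 : ∀ k ∈ g3P N, 1 / (T * nk k) ≤ 1 / T := fun k hk => by
    have := hP1 k hk
    apply one_div_le_one_div_of_le hT
    nlinarith
  -- the function
  have hd : ∀ k ∈ g3P N, Differentiable ℝ (b k) := fun k hk => (hb' k hk).1.differentiable (by norm_num)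
  have hd' : ∀ k ∈ g3P N, Differentiable ℝ (deriv (b k)) := fun k hk =>
    ((contDiff_succ_iff_deriv (n := 1)).1 (by exact_mod_cast (hb' k hk).1)).2.2.differentiable (by norm_num)
  have hg1 : deriv (fun t => ∑ k ∈ g3P N, a k * b k t) = fun t => ∑ k ∈ g3P N, a k * deriv (b k) t := by
    funext t
    rw [deriv_fun_sum fun k hk => ((hd k hk).differentiableAt).const_mul _]
    exact Finset.sum_congr rfl fun k hk => deriv_const_mul _ (hd k hk).differentiableAt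
  have hg2 : deriv (deriv (fun t => ∑ k ∈ g3P N, a k * b k t)) = fun t => ∑ k ∈ g3P N, a k * deriv (deriv (b k)) t := by
    rw [hg1]
    funext t
    rw [deriv_fun_sum fun k hk => ((hd' k hk).differentiableAt).const_mul _]
    exact Finset.sum_congr rfl fun k hk => deriv_const_mul _ (hd' k hk).differentiableAt
  have hval : ∀ k ∈ g3P N, (∑ l ∈ g3P N, a l * b l (tk k)) = a k := by
    intro k hk
    rw [Finset.sum_eq_single_of_mem k hk]
    · rw [(hb' k hk).2.2.1, mul_one]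
    · intro l hl hlk
      have : b l (tk k) = 0 := by
        refine ((hb' l hl).2.2.2.2.2 (tk k) ?_).1
        by_contra hcon
        rw [not_lt] at hcon
        obtain ⟨⟨-, hkN⟩, hkg⟩ := g3_memP.1 hk
        obtain ⟨⟨-, hlN⟩, hlg⟩ := g3_memP.1 hl
        refine hlk (dir_sep hN hkg hlg hkN hlN (t := tk k) ?_ hcon).symm
        rw [sub_self, cos_zero, sub_self]
        positivity
      rw [this, mul_zero]
  have hterm : ∀ k ∈ g3P N, a k * (C / g3w N k ^ 2) ≤ 16 * C * (N ^ 3 / T) := by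
    intro k hk
    have h1 := hP1 k hk
    have h2 := hP2 k hk
    have h3 : C / g3w N k ^ 2 = C * (16 * nk k ^ 2 * N ^ 2) := by
      unfold g3w
      field_simp
      ring
    rw [h3]
    calc a k * (C * (16 * nk k ^ 2 * N ^ 2)) ≤ 1 / (T * nk k) * (C * (16 * nk k ^ 2 * N ^ 2)) :=
          mul_le_mul_of_nonneg_right (ha1 k hk) (by positivity)
      _ = 16 * C * (nk k * N ^ 2 / T) := by
          field_simp
      _ ≤ 16 * C * (N ^ 3 / T) := by
          apply mul_le_mul_of_nonneg_left _ (by positivity)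
          apply div_le_div_of_nonneg_right _ hT.le
          nlinarith [mul_le_mul_of_nonneg_right h2 (sq_nonneg N)]
  have hNT : 0 ≤ 16 * C * (N ^ 3 / T) := by positivity
  refine ⟨fun t => ∑ k ∈ g3P N, a k * b k t, ?_, ?_, ?_, ?_, ?_⟩
  · exact ContDiff.sum fun k hk => contDiff_const.mul (hb' k hk).1
  · intro t
    exact Finset.sum_congr rfl fun k hk => by rw [(hb' k hk).2.1 t]
  · intro t
    rcases g3_term hN t (fun k => a k * b k t) (fun k hk h => by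
      show a k * b k t = 0
      rw [((hb' k hk).2.2.2.2.2 t h).1, mul_zero]) with h | ⟨k, hk, h⟩
    · simp only [h]
      exact ⟨le_rfl, by positivity⟩
    · simp only [h]
      have h1 := (hb' k hk).2.2.2.1 t
      refine ⟨mul_nonneg (ha0 k hk) h1.1, ?_⟩
      calc a k * b k t ≤ a k * 1 := mul_le_mul_of_nonneg_left h1.2 (ha0 k hk)
        _ = a k := mul_one _
        _ ≤ _ := (ha1 k hk).trans (ha2 k hk)
  · intro t
    rw [hg2, hg1]
    constructor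
    · rcases g3_term hN t (fun k => a k * deriv (b k) t) (fun k hk h => by
        show a k * deriv (b k) t = 0
        rw [((hb' k hk).2.2.2.2.2 t h).2.1, mul_zero]) with h | ⟨k, hk, h⟩
      · simp only [h, abs_zero]
        exact hNT
      · simp only [h]
        rw [abs_mul, abs_of_nonneg (ha0 k hk)]
        exact (mul_le_mul_of_nonneg_left ((hb' k hk).2.2.2.2.1 t).1 (ha0 k hk)).trans (hterm k hk)
    · rcases g3_term hN t (fun k => a k * deriv (deriv (b k)) t) (fun k hk h => by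
        show a k * deriv (deriv (b k)) t = 0
        rw [((hb' k hk).2.2.2.2.2 t h).2.2, mul_zero]) with h | ⟨k, hk, h⟩
      · simp only [h, abs_zero]
        exact hNT
      · simp only [h]
        rw [abs_mul, abs_of_nonneg (ha0 k hk)]
        exact (mul_le_mul_of_nonneg_left ((hb' k hk).2.2.2.2.1 t).2 (ha0 k hk)).trans (hterm k hk)
  · intro k hk hkN
    obtain ⟨m, l, hm, hg, hkl, h1, h2, h3⟩ := prim hk
    have hm' : (1 : ℝ) ≤ m := by exact_mod_cast hm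
    have hlP : l ∈ g3P N := by
      refine g3_memP.2 ⟨⟨?_, ?_⟩, hg⟩
      · rintro rfl
        simp at hg
      · nlinarith
    refine ⟨m * ⌈y l⌉, ?_⟩
    have hv := hval l hlP
    rw [h2]
    show T * (nk k * (H₀ (tk l) + ∑ l' ∈ g3P N, a l' * b l' (tk l))) + ((k.1 : ℝ) * u.1 + (k.2 : ℝ) * u.2) = _
    rw [hv, h1]
    have hk1 : (k.1 : ℝ) = m * l.1 := by rw [hkl]; push_cast; ring
    have hk2 : (k.2 : ℝ) = m * l.2 := by rw [hkl]; push_cast; ring
    rw [hk1, hk2]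
    have hal : T * (nk l * a l) = ⌈y l⌉ - y l := by
      show T * (nk l * (((⌈y l⌉ : ℝ) - y l) / (T * nk l))) = _
      have : nk l ≠ 0 := by positivity
      field_simp
    have hyl : y l = T * (nk l * H₀ (tk l)) + ((l.1 : ℝ) * u.1 + (l.2 : ℝ) * u.2) := rfl
    push_cast
    linear_combination (m : ℝ) * hal + (m : ℝ) * hyl
end Pool.Agent.Helper22.SC
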