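import Pool.Agent.Helper22.SC.G3

/-!
# SC-G4: the infinite construction

PROOF. By recursion `H_0 = 1`, `H_{s+1} = H_s + g_s`, `g_s` from `stage` with `H₀ = H_s`, `N s`, `T s`, `u s` (e.g. define the pair by `Nat.rec` and `Classical.choose`; or define
`g : ℕ → ℝ → ℝ` by strong recursion, `H_s = 1 + ∑_{i < s} g_i`). `H = 1 + ∑' g_s`: `|g_s| ≤ 1/T s ≤ N s^3/T s`, `|g_s'|, |g_s''| ≤ C N s^3/T s`, summable, so `H` is `C²` with the term by term derivatives
(`contDiff_tsum`; `norm_iteratedFDeriv_eq_norm_iteratedDeriv`; compare `sum_smooth` in Helper92/CS/Final.lean; or `hasDerivAt_tsum` twice) and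
`|H - 1|, |H'|, |H''| ≤ C ∑' N s^3/T s`. At `tk k`: `H - (H_s + g_s) = ∑_{i} g_{s+1+i} ∈ [0, ∑' 1/T (s+1+i)]`, times `T s nk k ≤ T s N s`.
-/

open MeasureTheory Real Set Filter Topology

set_option autoImplicit false

namespace Pool.Agent.Helper22.SC

open Pool.Agent.Helper22.AE

/-- Term by term differentiation: a series of `C²` functions with bounds `v i` for the functions and the first two
derivatives. -/
private lemma tsum_C2_68 {g : ℕ → ℝ → ℝ} {v : ℕ → ℝ} (hv : Summable v) (hg : ∀ i, ContDiff ℝ 2 (g i))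
    (h0 : ∀ i t, |g i t| ≤ v i) (h1 : ∀ i t, |deriv (g i) t| ≤ v i)
    (h2 : ∀ i t, |deriv (deriv (g i)) t| ≤ v i) :
    ContDiff ℝ 2 (fun t => ∑' i, g i t) ∧ (deriv fun t => ∑' i, g i t) = (fun t => ∑' i, deriv (g i) t) ∧
      (deriv fun t => ∑' i, deriv (g i) t) = (fun t => ∑' i, deriv (deriv (g i)) t) := by
  have hd0 : ∀ i, Differentiable ℝ (g i) := fun i => (hg i).differentiable (by norm_num)
  have hd1 : ∀ i, Differentiable ℝ (deriv (g i)) := fun i => by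
    have h : ContDiff ℝ 1 (deriv (g i)) := by
      have h3 : ContDiff ℝ (1 + 1) (g i) := by
        have : (1 + 1 : WithTop ℕ∞) = 2 := by norm_num
        rw [this]
        exact hg i
      exact (contDiff_succ_iff_deriv.1 h3).2.2
    exact h.differentiable (by norm_num)
  refine ⟨?_, ?_, ?_⟩
  · refine contDiff_tsum (𝕜 := ℝ) (v := fun _ => v) (N := 2) hg (fun k _ => hv) ?_
    intro k i x hk
    rw [norm_iteratedFDeriv_eq_norm_iteratedDeriv]
    have hk' : k ≤ 2 := by exact_mod_cast hk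
    interval_cases k
    · rw [iteratedDeriv_zero]
      exact h0 i x
    · rw [iteratedDeriv_one]
      exact h1 i x
    · rw [iteratedDeriv_succ, iteratedDeriv_one]
      exact h2 i x
  · refine deriv_tsum hv hd0 h1 (y₀ := 0) ?_
    exact Summable.of_norm_bounded hv (fun i => h0 i 0)
  · refine deriv_tsum hv hd1 h2 (y₀ := 0) ?_
    exact Summable.of_norm_bounded hv (fun i => h1 i 0)

theorem construct : ∃ C₀ : ℝ, 1 ≤ C₀ ∧ ∀ (N T : ℕ → ℝ) (u : ℕ → ℝ × ℝ), (∀ s, 1 ≤ N s) → (∀ s, 0 < T s) →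
    Summable (fun s => N s ^ 3 / T s) → ∀ δ : ℝ, C₀ * ∑' s, N s ^ 3 / T s ≤ δ → ∃ H : ℝ → ℝ, Near δ H ∧
      ∀ s : ℕ, ∀ k : ℤ × ℤ, k ≠ 0 → nk k ≤ N s →
        ∃ z : ℤ, |T s * (nk k * H (tk k)) + ((k.1 : ℝ) * (u s).1 + (k.2 : ℝ) * (u s).2) - z| ≤
          T s * N s * ∑' i : ℕ, 1 / T (s + 1 + i) := by
  obtain ⟨C, hC1, hC⟩ := stage
  refine ⟨C, hC1, ?_⟩
  intro N T u hN hT hsum δ hδ
  choose G hG1 hG2 hG3 hG4 hG5 using fun (H₀ : ℝ → ℝ) (s : ℕ) => hC H₀ (N s) (T s) (u s) (hN s) (hT s)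
  let Hs : ℕ → ℝ → ℝ := fun s => Nat.rec (fun _ => (1 : ℝ)) (fun s H₀ t => H₀ t + G H₀ s t) s
  have hHs0 : ∀ t, Hs 0 t = 1 := fun t => rfl
  have hHss : ∀ s t, Hs (s + 1) t = Hs s t + G (Hs s) s t := fun s t => rfl
  obtain ⟨g, hg⟩ : ∃ g : ℕ → ℝ → ℝ, ∀ s, g s = G (Hs s) s := ⟨fun s => G (Hs s) s, fun s => rfl⟩
  have g1 : ∀ s, ContDiff ℝ 2 (g s) := fun s => by rw [hg]; exact hG1 _ _
  have g2 : ∀ s, Function.Periodic (g s) (2 * π) := fun s => by rw [hg]; exact hG2 _ _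
  have g3 : ∀ s t, 0 ≤ g s t ∧ g s t ≤ 1 / T s := fun s t => by rw [hg]; exact hG3 _ _ t
  have g4 : ∀ s t, |deriv (g s) t| ≤ C * (N s ^ 3 / T s) ∧ |deriv (deriv (g s)) t| ≤ C * (N s ^ 3 / T s) :=
    fun s t => by rw [hg]; exact hG4 _ _ t
  have g5 : ∀ s, ∀ k : ℤ × ℤ, k ≠ 0 → nk k ≤ N s →
      ∃ z : ℤ, T s * (nk k * (Hs s (tk k) + g s (tk k))) + ((k.1 : ℝ) * (u s).1 + (k.2 : ℝ) * (u s).2) = z :=
    fun s k hk hkN => by rw [hg]; exact hG5 _ _ k hk hkN
  have hHsum : ∀ s t, Hs s t = 1 + ∑ i ∈ Finset.range s, g i t := by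
    intro s t
    induction s with
    | zero => rw [hHs0, Finset.range_zero, Finset.sum_empty, add_zero]
    | succ s ih => rw [hHss, Finset.sum_range_succ, ih, hg s]; ring
  have hT1 : ∀ s, 1 / T s ≤ N s ^ 3 / T s := fun s =>
    div_le_div_of_nonneg_right (one_le_pow₀ (hN s)) (hT s).le
  have hT0 : ∀ s, 0 ≤ 1 / T s := fun s => (one_div_pos.2 (hT s)).le
  have hNT0 : ∀ s, 0 ≤ N s ^ 3 / T s := fun s => (hT0 s).trans (hT1 s)
  have hsT : Summable fun s => 1 / T s := Summable.of_nonneg_of_le hT0 hT1 hsum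
  have hv : Summable fun s => C * (N s ^ 3 / T s) := hsum.mul_left C
  have hgv : ∀ s t, |g s t| ≤ C * (N s ^ 3 / T s) := by
    intro s t
    rw [abs_of_nonneg (g3 s t).1]
    refine ((g3 s t).2.trans (hT1 s)).trans ?_
    exact le_mul_of_one_le_left (hNT0 s) hC1
  obtain ⟨c1, c2, c3⟩ := tsum_C2_68 hv g1 hgv (fun s t => (g4 s t).1) (fun s t => (g4 s t).2)
  have hgs : ∀ t, Summable fun s => g s t := fun t => Summable.of_norm_bounded hv (fun s => hgv s t)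
  have hCsum : ∑' s, C * (N s ^ 3 / T s) ≤ δ := by
    rw [tsum_mul_left]
    exact hδ
  have htb : ∀ f : ℕ → ℝ, (∀ s, |f s| ≤ C * (N s ^ 3 / T s)) → |∑' s, f s| ≤ δ := by
    intro f hf
    refine (?_ : |∑' s, f s| ≤ ∑' s, C * (N s ^ 3 / T s)).trans hCsum
    have h1 := tsum_of_norm_bounded (f := f) hv.hasSum (fun s => by rw [Real.norm_eq_abs]; exact hf s)
    rwa [Real.norm_eq_abs] at h1
  have hderiv : deriv (fun t => 1 + ∑' s, g s t) = fun t => ∑' s, deriv (g s) t := by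
    rw [← c2]
    funext t
    exact deriv_const_add _
  refine ⟨fun t => 1 + ∑' s, g s t, ⟨contDiff_const.add c1, ?_, ?_, ?_, ?_⟩, ?_⟩
  · intro t
    change 1 + ∑' s, g s (t + 2 * π) = 1 + ∑' s, g s t
    congr 2
    funext s
    exact g2 s t
  · intro t

    rw [add_sub_cancel_left]
    exact htb _ fun s => hgv s t
  · intro t
    rw [hderiv]
    exact htb _ fun s => (g4 s t).1
  · intro t
    rw [hderiv, c3]
    exact htb _ fun s => (g4 s t).2
  · intro s k hk hkN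
    obtain ⟨z, hz⟩ := g5 s k hk hkN
    refine ⟨z, ?_⟩
    have hsplit := (hgs (tk k)).sum_add_tsum_nat_add (s + 1)
    have hH : 1 + ∑' i, g i (tk k) = Hs s (tk k) + g s (tk k) + ∑' i, g (i + (s + 1)) (tk k) := by
      rw [hHsum, ← hsplit, Finset.sum_range_succ]
      ring
    have hnk : 0 ≤ nk k := norm_nonneg _
    have htail0 : 0 ≤ ∑' i, g (i + (s + 1)) (tk k) := tsum_nonneg fun i => (g3 _ _).1
    have htail1 : ∑' i, g (i + (s + 1)) (tk k) ≤ ∑' i, 1 / T (s + 1 + i) := by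
      have h1 : ∀ i, s + 1 + i = i + (s + 1) := fun i => add_comm _ _
      simp only [h1]
      exact Summable.tsum_le_tsum (fun i => (g3 _ _).2)
        ((summable_nat_add_iff (s + 1)).2 (hgs (tk k))) ((summable_nat_add_iff (s + 1)).2 hsT)
    have heq : T s * (nk k * (1 + ∑' i, g i (tk k))) + ((k.1 : ℝ) * (u s).1 + (k.2 : ℝ) * (u s).2) - z =
        T s * nk k * ∑' i, g (i + (s + 1)) (tk k) := by
      rw [hH, ← hz]
      ring
    change |T s * (nk k * (1 + ∑' i, g i (tk k))) + ((k.1 : ℝ) * (u s).1 + (k.2 : ℝ) * (u s).2) - z| ≤ _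
    rw [heq, abs_of_nonneg (mul_nonneg (mul_nonneg (hT s).le hnk) htail0)]
    exact mul_le_mul (mul_le_mul_of_nonneg_left hkN (hT s).le) htail1 htail0
      (mul_nonneg (hT s).le (hnk.trans hkN))

end Pool.Agent.Helper22.SC
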