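import Pool.Agent.Helper22.SC.G4

/-!
# SC-G5: ovals with aligned phases

PROOF. `construct` with `N s = 2^(n s)`, `T s = TT D n s = D 2^s 8^(n s)`, `D ≥ 2 C₀/δ`: `N s^3/T s = 1/(D 2^s)`, sum `2/D ≤ δ/C₀`. `∑' 1/T (s+1+i) ≤ 2/T (s+1)` (`n` is increasing: `n (s+1) ≥ (s+20) n s`).
Times `j`: the distance to the integer `j z` is at most `j T s N s · 2/T (s+1) ≤ 2^((s+20) n s) · 16^(n s) / 8^(n (s+1)) ≤ 2^((s+24) n s - 3 (s+20) n s) ≤ 2^(-36) ≤ 1/48`.
`isSupp_of_near`: `H ≥ 3/4`, `H + H'' ≥ 1/2`.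
-/

open MeasureTheory Real Set Filter Topology

set_option autoImplicit false

namespace Pool.Agent.Helper22.SC

open Pool.Agent.Helper22.AE

theorem isSupp_of_near {δ : ℝ} (hδ : δ ≤ 1 / 4) {H : ℝ → ℝ} (h : Near δ H) : IsSupp H := by
  have h0 : ∀ t, 3 / 4 ≤ H t := fun t => by
    have h1 := abs_le.1 (h.d0 t)
    linarith [h1.1]
  refine ⟨h.smooth, h.per, fun t => ?_, fun t => ?_⟩
  · linarith [h0 t]
  · have h1 := abs_le.1 (h.d2 t)
    linarith [h0 t, h1.1]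

private lemma g5_tail {D : ℝ} (hD : 1 ≤ D) {n : ℕ → ℕ} (hn : ∀ s, (s + 20) * n s ≤ n (s + 1)) (s : ℕ) :
    ∑' i : ℕ, 1 / TT D n (s + 1 + i) ≤ 2 / TT D n (s + 1) := by
  have hmono : Monotone n := monotone_nat_of_le_succ fun s => by
    have h1 := hn s
    nlinarith [Nat.zero_le (n s), Nat.zero_le (s * n s)]
  have hpos : ∀ i, 0 < TT D n i := fun i => by
    unfold TT
    positivity
  have hle : ∀ i, 1 / TT D n (s + 1 + i) ≤ 1 / TT D n (s + 1) * (1 / 2) ^ i := fun i => by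
    have h1 : TT D n (s + 1) * 2 ^ i ≤ TT D n (s + 1 + i) := by
      unfold TT
      have h2 : (8 : ℝ) ^ n (s + 1) ≤ 8 ^ n (s + 1 + i) :=
        pow_le_pow_right₀ (by norm_num) (hmono (Nat.le_add_right _ _))
      have h3 : D * 2 ^ (s + 1) * 8 ^ n (s + 1) * 2 ^ i = D * 2 ^ (s + 1 + i) * 8 ^ n (s + 1) := by
        rw [pow_add 2 (s + 1) i]
        ring
      rw [h3]
      exact mul_le_mul_of_nonneg_left h2 (by positivity)
    have h4 : 1 / TT D n (s + 1) * (1 / 2) ^ i = 1 / (TT D n (s + 1) * 2 ^ i) := by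
      rw [one_div_pow]
      have := hpos (s + 1)
      field_simp
    rw [h4]
    exact one_div_le_one_div_of_le (mul_pos (hpos _) (by positivity)) h1
  have hs : Summable (fun i : ℕ => 1 / TT D n (s + 1) * (1 / 2 : ℝ) ^ i) :=
    (summable_geometric_of_lt_one (by norm_num) (by norm_num)).mul_left _
  have hs' : Summable (fun i : ℕ => 1 / TT D n (s + 1 + i)) :=
    Summable.of_nonneg_of_le (fun i => by
      have := hpos (s + 1 + i)
      positivity) hle hs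
  calc ∑' i : ℕ, 1 / TT D n (s + 1 + i) ≤ ∑' i : ℕ, 1 / TT D n (s + 1) * (1 / 2 : ℝ) ^ i :=
        hs'.tsum_le_tsum hle hs
    _ = 2 / TT D n (s + 1) := by
        rw [tsum_mul_left, tsum_geometric_of_lt_one (by norm_num) (by norm_num)]
        ring

private lemma g5_fin {D : ℝ} (hD : 1 ≤ D) {n : ℕ → ℕ} (h1 : ∀ s, 1 ≤ n s) (hn : ∀ s, (s + 20) * n s ≤ n (s + 1))
    (s j : ℕ) (hj : j ≤ 2 ^ ((s + 20) * n s)) :
    (j : ℝ) * (TT D n s * 2 ^ n s * (2 / TT D n (s + 1))) ≤ 1 / 48 := by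
  set X : ℝ := 2 ^ ((s + 20) * n s) with hX
  have hjX : (j : ℝ) ≤ X := by
    rw [hX]
    exact_mod_cast hj
  have hX0 : 0 < X := by positivity
  have hX48 : 48 ≤ X := by
    have h2 : (2 : ℝ) ^ 20 ≤ X := by
      rw [hX]
      apply pow_le_pow_right₀ (by norm_num)
      have := h1 s
      nlinarith [Nat.zero_le (s * n s)]
    have h3 : (48 : ℝ) ≤ 2 ^ 20 := by norm_num
    linarith
  have h16 : (16 : ℝ) ^ n s ≤ X := by
    have h2 : (16 : ℝ) ^ n s = 2 ^ (4 * n s) := by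
      rw [pow_mul]
      norm_num
    rw [h2, hX]
    apply pow_le_pow_right₀ (by norm_num)
    nlinarith [Nat.zero_le (s * n s)]
  have h8 : X ^ 3 ≤ (8 : ℝ) ^ n (s + 1) := by
    have h2 : X ^ 3 = 8 ^ ((s + 20) * n s) := by
      rw [hX, ← pow_mul, mul_comm _ 3, pow_mul]
      norm_num
    rw [h2]
    exact pow_le_pow_right₀ (by norm_num) (hn s)
  have hD0 : 0 < D := by linarith
  have e : TT D n s * 2 ^ n s * (2 / TT D n (s + 1)) = 16 ^ n s / 8 ^ n (s + 1) := by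
    unfold TT
    have h2 : (16 : ℝ) ^ n s = 8 ^ n s * 2 ^ n s := by
      rw [← mul_pow]
      norm_num
    rw [h2, pow_succ]
    field_simp
  rw [e]
  have h5 : (16 : ℝ) ^ n s / 8 ^ n (s + 1) ≤ X / X ^ 3 := by
    apply div_le_div₀ hX0.le h16 (by positivity) h8
  have h6 : (j : ℝ) * (16 ^ n s / 8 ^ n (s + 1)) ≤ X * (X / X ^ 3) :=
    mul_le_mul hjX h5 (by positivity) hX0.le
  have h7 : X * (X / X ^ 3) = 1 / X := by
    field_simp
  rw [h7] at h6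
  refine h6.trans ?_
  exact one_div_le_one_div_of_le (by norm_num) hX48

theorem oval_seq : ∃ C₁ : ℝ, 1 ≤ C₁ ∧ ∀ δ D : ℝ, 0 < δ → C₁ / δ ≤ D → 1 ≤ D → ∀ (u : ℕ → ℝ × ℝ) (n : ℕ → ℕ), (∀ s, 1 ≤ n s) →
    (∀ s, (s + 20) * n s ≤ n (s + 1)) → ∃ H : ℝ → ℝ, Near δ H ∧ Aligned D n u H := by
  obtain ⟨C₀, hC₀, hcon⟩ := construct
  refine ⟨2 * C₀, by linarith, fun δ D hδ hD hD1 u n hn1 hn => ?_⟩
  have hD0 : 0 < D := by linarith
  have hT : ∀ s, 0 < TT D n s := fun s => by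
    unfold TT
    positivity
  have hq : ∀ s : ℕ, ((2 : ℝ) ^ n s) ^ 3 / TT D n s = 1 / D * (1 / 2) ^ s := fun s => by
    have h2 : ((2 : ℝ) ^ n s) ^ 3 = 8 ^ n s := by
      rw [← pow_mul, mul_comm, pow_mul]
      norm_num
    unfold TT
    rw [h2, one_div_pow]
    field_simp
  have hsum : Summable (fun s : ℕ => ((2 : ℝ) ^ n s) ^ 3 / TT D n s) := by
    simp only [hq]
    exact (summable_geometric_of_lt_one (by norm_num) (by norm_num)).mul_left _
  have htot : C₀ * ∑' s, ((2 : ℝ) ^ n s) ^ 3 / TT D n s ≤ δ := by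
    simp only [hq]
    rw [tsum_mul_left, tsum_geometric_of_lt_one (by norm_num) (by norm_num)]
    rw [div_le_iff₀ hδ] at hD
    have h3 : C₀ * (1 / D * (1 - 1 / 2)⁻¹) = 2 * C₀ / D := by
      norm_num
      ring
    rw [h3, div_le_iff₀ hD0]
    linarith
  obtain ⟨H, hH, hz⟩ := hcon (fun s => 2 ^ n s) (TT D n) u (fun s => one_le_pow₀ (by norm_num)) hT hsum δ htot
  refine ⟨H, hH, fun s j hj k hk hkn => ?_⟩
  obtain ⟨z, hz1⟩ := hz s k hk hkn
  refine ⟨j * z, ?_⟩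
  have e : (j : ℝ) * (TT D n s * (nk k * H (tk k)) + ((k.1 : ℝ) * (u s).1 + (k.2 : ℝ) * (u s).2)) - ((j * z : ℤ) : ℝ) =
      j * (TT D n s * (nk k * H (tk k)) + ((k.1 : ℝ) * (u s).1 + (k.2 : ℝ) * (u s).2) - z) := by
    push_cast
    ring
  rw [e, abs_mul, Nat.abs_cast]
  have h4 : TT D n s * 2 ^ n s * ∑' i : ℕ, 1 / TT D n (s + 1 + i) ≤ TT D n s * 2 ^ n s * (2 / TT D n (s + 1)) :=
    mul_le_mul_of_nonneg_left (g5_tail hD1 hn s) (by
      have := hT s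
      positivity)
  exact (mul_le_mul_of_nonneg_left (hz1.trans h4) (Nat.cast_nonneg j)).trans (g5_fin hD1 hn1 hn s j hj)

end Pool.Agent.Helper22.SC
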