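import Pool.Agent.Helper22.SC.L1
import Pool.Agent.Helper22.SC.L2

/-!
# SC-L3: the averaged error between two sums

PROOF: as `Av_bounds`, `Av_ge` (Helper92/EO/Av.lean), with `one_sided_c`, `avg_sum_c` (`u = chc c`, `ee_norm`) and `erc_int`.
-/

open MeasureTheory Real Set Filter Topology

set_option autoImplicit false

namespace Pool.Agent.Helper22.SC

open Pool.Agent.Helper22.AE Pool.Agent.Helper22.AC Pool.Agent.Helper92.EO

private lemma sl_cont {w W : ℝ → ℝ} (hw : IsKer w W) {K R : ℝ} (hK : 0 < K) (hR : 0 < R) :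
    ContinuousOn (qw w K R) (uIcc (R / 2) (3 * R / 2)) := by
  rw [uIcc_of_le (by linarith)]
  exact qw_cont hw hK hR

private lemma sl_int {w W : ℝ → ℝ} (hw : IsKer w W) {H : ℝ → ℝ} (hH : IsSupp H) (c : ℝ × ℝ) {K R : ℝ} (hK : 0 < K)
    (hR : 0 < R) : IntervalIntegrable (fun r => qw w K R r * erc H c r) volume
      (R / 2) (3 * R / 2) :=
  (erc_int hH c (by linarith) (by linarith)).continuousOn_mul (sl_cont hw hK hR)

private lemma sl_qw {w W : ℝ → ℝ} (hw : IsKer w W) {K R : ℝ} (hK : 0 < K) (hR : 0 < R) (E : ℝ) :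
    IntervalIntegrable (fun r => qw w K R r * E) volume (R / 2) (3 * R / 2) ∧
      (0 ≤ E → ∫ r in (R / 2)..(3 * R / 2), qw w K R r * E ≤ 2 * E) := by
  refine ⟨((sl_cont hw hK hR).mul continuousOn_const).intervalIntegrable, fun hE => ?_⟩
  rw [intervalIntegral.integral_mul_const]
  exact mul_le_mul_of_nonneg_right (qw_int hw hK hR) hE

private lemma sl_upper {w W : ℝ → ℝ} (hw : IsKer w W) {H : ℝ → ℝ} (hH : IsSupp H) (c : ℝ × ℝ) {K R E : ℝ} (hK : 0 < K)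
    (hR : 0 < R) (hE : 0 ≤ E) {S : ℝ → ℝ}
    (hS : IntervalIntegrable (fun r => qw w K R r * S r) volume (R / 2) (3 * R / 2))
    (h : ∀ r ∈ Icc (R / 2) (3 * R / 2), erc H c r ≤ E + S r) :
    Avc w H c K R ≤ 2 * E + ∫ r in (R / 2)..(3 * R / 2), qw w K R r * S r := by
  obtain ⟨h1, h2⟩ := sl_qw hw hK hR E
  have h3 : Avc w H c K R ≤ ∫ r in (R / 2)..(3 * R / 2), (qw w K R r * E + qw w K R r * S r) := by
    refine intervalIntegral.integral_mono_on (by linarith) (sl_int hw hH c hK hR) (h1.add hS) ?_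
    intro r hr
    rw [← mul_add]
    exact mul_le_mul_of_nonneg_left (h r hr) (qw_nonneg hw hK hR hr)
  rw [intervalIntegral.integral_add h1 hS] at h3
  linarith [h2 hE]

private lemma sl_lower {w W : ℝ → ℝ} (hw : IsKer w W) {H : ℝ → ℝ} (hH : IsSupp H) (c : ℝ × ℝ) {K R E : ℝ} (hK : 0 < K)
    (hR : 0 < R) (hE : 0 ≤ E) {S : ℝ → ℝ}
    (hS : IntervalIntegrable (fun r => qw w K R r * S r) volume (R / 2) (3 * R / 2))
    (h : ∀ r ∈ Icc (R / 2) (3 * R / 2), -E + S r ≤ erc H c r) :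
    -(2 * E) + ∫ r in (R / 2)..(3 * R / 2), qw w K R r * S r ≤ Avc w H c K R := by
  obtain ⟨h1, h2⟩ := sl_qw hw hK hR E
  have h3 : (∫ r in (R / 2)..(3 * R / 2), (qw w K R r * S r - qw w K R r * E)) ≤ Avc w H c K R := by
    refine intervalIntegral.integral_mono_on (by linarith) (hS.sub h1) (sl_int hw hH c hK hR) ?_
    intro r hr
    rw [← mul_sub]
    refine mul_le_mul_of_nonneg_left ?_ (qw_nonneg hw hK hR hr)
    linarith [h r hr]
  rw [intervalIntegral.integral_sub hS h1] at h3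
  linarith [h2 hE]

theorem Avc_bounds {w W : ℝ → ℝ} (hw : IsKer w W) {H : ℝ → ℝ} (hH : IsSupp H) {φ : ℝ × ℝ → ℝ} (hφ : IsBump φ) :
    ∃ C R₁ : ℝ, 0 ≤ C ∧ 1 ≤ R₁ ∧ ∀ R K : ℝ, R₁ ≤ R → 1 ≤ K → ∀ c ∈ Icc (0 : ℝ) 1 ×ˢ Icc (0 : ℝ) 1,
      Avc w H c K R ≤ C * R ^ (1 / 2 : ℝ) +
        ∑' k : ℤ × ℤ, tr φ (R ^ (-(1 / 2) : ℝ)) k (chc c k * Lk W H K R (R ^ (-(1 / 2) : ℝ)) k) ∧
      -(C * R ^ (1 / 2 : ℝ)) +
        ∑' k : ℤ × ℤ, tr φ (R ^ (-(1 / 2) : ℝ)) k (chc c k * Lk W H K R (-R ^ (-(1 / 2) : ℝ)) k) ≤ Avc w H c K R := by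
  obtain ⟨C0, R₁, hC0, hR₁, hone⟩ := one_sided_c hH hφ
  obtain ⟨C1, hC1, hsum⟩ := avg_sum_c hw hH hφ
  refine ⟨2 * C0 + 2 * C1, R₁, by positivity, hR₁, fun R K hR hK c hc => ?_⟩
  have hu : ∀ k, ‖chc c k‖ ≤ 1 := fun k => by
    unfold chc
    exact le_of_eq (ee_norm _)
  have hR1 : 1 ≤ R := hR₁.trans hR
  have hR0 : 0 < R := by linarith
  have hK0 : 0 < K := by linarith
  set δ : ℝ := R ^ (-(1 / 2) : ℝ) with hδdef
  have hδ : 0 < δ := Real.rpow_pos_of_pos hR0 _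
  have hδ1 : δ ≤ 1 := Real.rpow_le_one_of_one_le_of_nonpos hR1 (by norm_num)
  have hs1 : |δ| ≤ 1 := by rw [abs_of_pos hδ]; exact hδ1
  have hs2 : |-δ| ≤ 1 := by rw [abs_neg]; exact hs1
  obtain ⟨i1, j1⟩ := hsum (chc c) hu R K δ δ hR1 hK hs1 hδ hδ1
  obtain ⟨i2, j2⟩ := hsum (chc c) hu R K (-δ) δ hR1 hK hs2 hδ hδ1
  have hE : 0 ≤ C0 * R ^ (1 / 2 : ℝ) := mul_nonneg hC0 (Real.rpow_nonneg hR0.le _)
  have hup := sl_upper hw hH c hK0 hR0 hE i1 (fun r hr => (hone R hR c hc r hr).1)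
  have hlo := sl_lower hw hH c hK0 hR0 hE i2 (fun r hr => (hone R hR c hc r hr).2)
  have hrt : 1 ≤ R ^ (1 / 2 : ℝ) := Real.one_le_rpow hR1 (by norm_num)
  have hpow : R ^ (-2 : ℝ) ≤ δ := Real.rpow_le_rpow_of_exponent_le hR1 (by norm_num)
  have herr : ∀ s : ℝ, |s| = δ → C1 * (|s| + R ^ (-2 : ℝ)) / δ ≤ 2 * C1 * R ^ (1 / 2 : ℝ) := by
    intro s hs
    rw [hs, div_le_iff₀ hδ]
    have h1 : C1 * (δ + R ^ (-2 : ℝ)) ≤ C1 * (2 * δ) := mul_le_mul_of_nonneg_left (by linarith) hC1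
    have h2 : 2 * C1 * δ ≤ 2 * C1 * R ^ (1 / 2 : ℝ) * δ := by
      refine mul_le_mul_of_nonneg_right ?_ hδ.le
      exact le_mul_of_one_le_right (by positivity) hrt
    linarith
  have e1 := herr δ (abs_of_pos hδ)
  have e2 := herr (-δ) (by rw [abs_neg, abs_of_pos hδ])
  have k1 := (abs_le.1 (j1.trans e1)).2
  have k2 := (abs_le.1 (j2.trans e2)).1
  constructor
  · linarith
  · linarith

theorem Avc_ge {w W : ℝ → ℝ} (hw : IsKer w W) {H : ℝ → ℝ} (hH : IsSupp H) (c : ℝ × ℝ) {K R E : ℝ} (hK : 0 < K) (hR : 0 < R)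
    (hE : 0 ≤ E) (h : ∀ r ∈ Icc (R / 2) (3 * R / 2), -E ≤ erc H c r) : -(2 * E) ≤ Avc w H c K R := by
  have h1 := sl_lower hw hH c hK hR hE (S := fun _ => 0) (by
    simp only [mul_zero]
    exact intervalIntegrable_const) (fun r hr => by rw [add_zero]; exact h r hr)
  simpa using h1

end Pool.Agent.Helper22.SC
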