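import Pool.Agent.Helper22.SC.G5
import Pool.Agent.Helper22.SC.L7

/-!
# SC-M1: the first moment over the aligned radii (centre 0)

PROOF. `w, W` from `exists_ker`; `A, c₀, N₀, R₁` from `neg_avg`. `N = 2^(n s)`, `T = TT D n s`, `X = J T`, `K = N/A`, `R_j = j T`, `I_j = [R_j, R_j + 1/(96 N)]` for `J ≤ j < 2J`; these intervals are disjoint
(`T ≥ 1`) and lie in `[X, 2X]` (`2X - R_j ≥ T`). For `R ∈ I_j`, `nk k ≤ N`: `|R nk k H - z| ≤ 1/48 + (1/(96N)) N (5/4) ≤ 1/24` (`Aligned`, `u = 0`, `|H| ≤ 5/4`), and `N ≤ N^(6/5) ≤ R^(2/5)`; so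
`Avc w H 0 K R ≤ -c₀ (X N)^(1/2)`. Let `V = c₁ (X N)^(1/2)`, `c₁ = c₀/800`, `B` the set of the claim. `-erc ≤ V + |erc| 1_B` on `[X/2, 3X]`, so
`c₀ (X N)^(1/2) ≤ -Avc ≤ 2 V + ∫_{r ∈ B, R/2 ≤ r ≤ 3R/2} qw w K R r |erc r| dr` (`qw_int`). Integrate over `R ∈ ⋃ I_j` (measure `J/(96N)`) and exchange the integrals (`integral_prod`, everything is bounded and
measurable; `erc` is a difference of a monotone and a continuous function on `[0, ∞)`): for fixed `r`: `∫_{r ≥ R/2} K w(K(r-R)) (R/r) dR ≤ 2 ∫ w = 2`. So `(c₀ - 2c₁)(X N)^(1/2) J/(96N) ≤ 2 ∫_B |erc|`.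
-/

open MeasureTheory Real Set Filter Topology

set_option autoImplicit false

namespace Pool.Agent.Helper22.SC

open Pool.Agent.Helper22.AE Pool.Agent.Helper22.AC Pool.Agent.Helper92.EO

private lemma kbi6 {w W : ℝ → ℝ} (hw : IsKer w W) {K : ℝ} (hK : 0 < K) (R : ℝ) :
    Integrable fun r : ℝ => K * w (K * (r - R)) := by
  have h1 : Integrable fun r : ℝ => w (K * r) := (w_int hw).comp_mul_left' hK.ne'
  exact (h1.comp_sub_right R).const_mul K

private lemma kbo6 {w W : ℝ → ℝ} (hw : IsKer w W) {K : ℝ} (hK : 0 < K) :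
    ∫ r : ℝ, K * w (K * r) = 1 := by
  rw [integral_const_mul, Measure.integral_comp_mul_left, abs_of_pos (inv_pos.2 hK), smul_eq_mul,
    hw.int_one, mul_one, mul_inv_cancel₀ hK.ne']

/-- the convolution with the kernel -/
private lemma conv6 {w W : ℝ → ℝ} (hw : IsKer w W) {K : ℝ} (hK : 0 < K) {f : ℝ → ℝ} (hf : Integrable f) :
    Integrable (fun R : ℝ => ∫ t, f t * (K * w (K * (t - R)))) ∧
      ∫ R : ℝ, ∫ t, f t * (K * w (K * (t - R))) = ∫ t, f t := by
  obtain ⟨g, hg⟩ : ∃ g : ℝ → ℝ, g = fun u => K * w (K * (-u)) := ⟨_, rfl⟩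
  have hgi : Integrable g := by
    have h1 := (kbi6 hw hK 0).comp_neg
    rw [hg]
    simpa using h1
  have hg1 : ∫ u, g u = 1 := by
    rw [hg, ← kbo6 hw hK]
    exact integral_neg_eq_self (fun u => K * w (K * u)) volume
  have h1 := hf.integrable_convolution (ContinuousLinearMap.mul ℝ ℝ) hgi
  have h2 := integral_convolution (L := ContinuousLinearMap.mul ℝ ℝ) hf hgi
  have e : (fun R : ℝ => ∫ t, f t * (K * w (K * (t - R)))) =
      convolution f g (ContinuousLinearMap.mul ℝ ℝ) volume := by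
    funext R
    rw [convolution_def]
    refine integral_congr_ae (Filter.Eventually.of_forall fun t => ?_)
    rw [hg]
    simp only [ContinuousLinearMap.mul_apply', neg_sub]
  rw [e]
  refine ⟨h1, ?_⟩
  rw [h2, hg1]
  simp

private lemma w_bdd6 {w W : ℝ → ℝ} (hw : IsKer w W) : ∃ C : ℝ, ∀ u, |w u| ≤ C := by
  obtain ⟨C, hC⟩ := hw.decay
  refine ⟨C, fun u => ?_⟩
  rw [abs_of_nonneg (hw.nonneg u)]
  refine le_trans ?_ (hC u)
  have h1 : 1 ≤ (1 + u ^ 2) ^ 2 := by nlinarith [sq_nonneg u, sq_nonneg (u ^ 2)]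
  nlinarith [hw.nonneg u]

/-- the average at one radius -/
private lemma point6 {w W : ℝ → ℝ} (hw : IsKer w W) {K R V : ℝ} (hK : 0 < K) (hR : 0 < R) {E f : ℝ → ℝ}
    (hE : IntervalIntegrable E volume (R / 2) (3 * R / 2)) (hf : Integrable f) (hf0 : ∀ r, 0 ≤ f r) (hV : 0 ≤ V)
    (h : ∀ r ∈ Icc (R / 2) (3 * R / 2), -E r ≤ V + f r) :
    -(∫ r in (R / 2)..(3 * R / 2), qw w K R r * E r) ≤
      2 * V + 2 * ∫ t, f t * (K * w (K * (t - R))) := by
  have hab : R / 2 ≤ 3 * R / 2 := by linarith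
  have hqc : ContinuousOn (qw w K R) (uIcc (R / 2) (3 * R / 2)) := by
    rw [uIcc_of_le hab]
    exact qw_cont hw hK hR
  have hi1 : IntervalIntegrable (fun r => qw w K R r * E r) volume (R / 2) (3 * R / 2) :=
    hE.continuousOn_mul hqc
  have hi2 : IntervalIntegrable (fun r => qw w K R r * f r) volume (R / 2) (3 * R / 2) :=
    hf.intervalIntegrable.continuousOn_mul hqc
  have hi3 : IntervalIntegrable (fun r => qw w K R r) volume (R / 2) (3 * R / 2) :=
    hqc.intervalIntegrable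
  have h1 : -(∫ r in (R / 2)..(3 * R / 2), qw w K R r * E r) ≤
      ∫ r in (R / 2)..(3 * R / 2), (V * qw w K R r + qw w K R r * f r) := by
    rw [← intervalIntegral.integral_neg]
    refine intervalIntegral.integral_mono_on hab hi1.neg ((hi3.const_mul V).add hi2) fun r hr => ?_
    have h2 := h r hr
    have h3 := qw_nonneg hw hK hR hr
    nlinarith
  obtain ⟨C, hC⟩ := w_bdd6 hw
  have hi4 : Integrable fun t => f t * (K * w (K * (t - R))) := by
    refine hf.mul_bdd (c := K * C) ?_ ?_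
    · exact (continuous_const.mul (hw.cont.comp (by fun_prop))).aestronglyMeasurable
    · refine Filter.Eventually.of_forall fun t => ?_
      rw [Real.norm_eq_abs, abs_mul, abs_of_pos hK]
      exact mul_le_mul_of_nonneg_left (hC _) hK.le
  have h4 : ∫ r in (R / 2)..(3 * R / 2), qw w K R r * f r ≤ 2 * ∫ t, f t * (K * w (K * (t - R))) := by
    have h5 : ∫ r in (R / 2)..(3 * R / 2), qw w K R r * f r ≤
        ∫ r in (R / 2)..(3 * R / 2), 2 * (f r * (K * w (K * (r - R)))) := by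
      refine intervalIntegral.integral_mono_on hab hi2 (hi4.const_mul 2).intervalIntegrable fun r hr => ?_
      have h2 : 0 < r := by linarith [hr.1]
      have h3 : R / r ≤ 2 := by
        rw [div_le_iff₀ h2]
        linarith [hr.1]
      have h6 : 0 ≤ K * w (K * (r - R)) := mul_nonneg hK.le (hw.nonneg _)
      have h7 := hf0 r
      unfold qw
      have h8 : K * w (K * (r - R)) * (R / r) ≤ K * w (K * (r - R)) * 2 :=
        mul_le_mul_of_nonneg_left h3 h6
      nlinarith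
    refine h5.trans ?_
    rw [intervalIntegral.integral_of_le hab, integral_const_mul]
    refine mul_le_mul_of_nonneg_left ?_ (by norm_num)
    refine setIntegral_le_integral hi4 (Filter.Eventually.of_forall fun t => ?_)
    exact mul_nonneg (hf0 t) (mul_nonneg hK.le (hw.nonneg _))
  rw [intervalIntegral.integral_add (hi3.const_mul V) hi2, intervalIntegral.integral_const_mul] at h1
  have h9 := qw_int hw (K := K) hK hR
  nlinarith

private lemma n_ge6 {n : ℕ → ℕ} (hn : ∀ s, 1 ≤ n s) (hg : ∀ s, (s + 20) * n s ≤ n (s + 1)) (s : ℕ) : s ≤ n s := by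
  induction s with
  | zero => exact Nat.zero_le _
  | succ s ih =>
    have h1 := hg s
    have h2 := hn s
    nlinarith

theorem first_moment {D δ : ℝ} (hD : 1 ≤ D) (hδ : δ ≤ 1 / 4) {H : ℝ → ℝ} (hH : Near δ H) {n : ℕ → ℕ} (hn : ∀ s, 1 ≤ n s)
    (hg : ∀ s, (s + 20) * n s ≤ n (s + 1)) (hA : Aligned D n (fun _ => (0, 0)) H) :
    ∃ (c₁ : ℝ) (s₀ : ℕ), 0 < c₁ ∧ ∀ s, s₀ ≤ s → ∀ J : ℕ, 1 ≤ J → 2 * J ≤ 2 ^ ((s + 20) * n s) → ∀ X : ℝ, X = J * TT D n s →
      c₁ * (X * 2 ^ n s) ^ (1 / 2 : ℝ) * (J / 2 ^ n s) ≤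
        ∫ r in {r : ℝ | r ∈ Icc (X / 2) (4 * X) ∧ erc H (0, 0) r < -(c₁ * (X * 2 ^ n s) ^ (1 / 2 : ℝ))}, |erc H (0, 0) r| := by
  obtain ⟨w, W, hw⟩ := exists_ker
  have hS : IsSupp H := isSupp_of_near hδ hH
  obtain ⟨A, c₀, N₀, R₁, hA1, hc₀, hN₀, hR₁, hneg⟩ := neg_avg hw hS
  obtain ⟨s₀, hs₀⟩ := pow_unbounded_of_one_lt (max N₀ R₁) (one_lt_two : (1 : ℝ) < 2)
  refine ⟨c₀ / 800, s₀, by positivity, ?_⟩
  intro s hs J hJ hJ2 X hX
  obtain ⟨N, hN⟩ : ∃ N : ℝ, N = 2 ^ n s := ⟨_, rfl⟩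
  obtain ⟨T, hT⟩ : ∃ T : ℝ, T = TT D n s := ⟨_, rfl⟩
  rw [← hT] at hX
  have hNbig : max N₀ R₁ < N := by
    refine hs₀.trans_le ?_
    rw [hN]
    exact pow_le_pow_right₀ one_le_two (hs.trans (n_ge6 hn hg s))
  have hNN0 : N₀ ≤ N := (le_max_left _ _).trans hNbig.le
  have hNR1 : R₁ ≤ N := (le_max_right _ _).trans hNbig.le
  have hN1 : 1 ≤ N := by rw [hN]; exact one_le_pow₀ one_le_two
  have hN0 : 0 < N := by linarith
  have hTN : N ^ 3 ≤ T := by
    have h1 : T = D * 2 ^ s * N ^ 3 := by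
      rw [hT, hN]
      unfold TT
      rw [show (8 : ℝ) = 2 ^ 3 by norm_num, ← pow_mul, ← pow_mul, mul_comm 3 (n s)]
    have h2 : 1 ≤ D * 2 ^ s := one_le_mul_of_one_le_of_one_le hD (one_le_pow₀ one_le_two)
    rw [h1]
    exact le_mul_of_one_le_left (by positivity) h2
  have hNN3 : N ≤ N ^ 3 := le_self_pow₀ hN1 (by norm_num)
  have hT1 : 1 ≤ T := hN1.trans (hNN3.trans hTN)
  have hJ1 : (1 : ℝ) ≤ J := by exact_mod_cast hJ
  have hXT : T ≤ X := by
    rw [hX]
    exact le_mul_of_one_le_left (by linarith) hJ1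
  have hX0 : 0 < X := by linarith
  have hK : 0 < N / A := by positivity
  obtain ⟨Q, hQ⟩ : ∃ Q : ℝ, Q = (X * N) ^ (1 / 2 : ℝ) := ⟨_, rfl⟩
  have hQ0 : 0 < Q := by rw [hQ]; positivity
  obtain ⟨V, hV⟩ : ∃ V : ℝ, V = c₀ / 800 * Q := ⟨_, rfl⟩
  have hV0 : 0 < V := by rw [hV]; positivity
  obtain ⟨E, hE⟩ : ∃ E : ℝ → ℝ, E = erc H (0, 0) := ⟨_, rfl⟩
  have hEint : ∀ a b : ℝ, 0 ≤ a → a ≤ b → IntervalIntegrable E volume a b := by
    intro a b ha hab
    rw [hE]
    exact erc_int hS (0, 0) ha hab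
  obtain ⟨B, hB⟩ : ∃ B : Set ℝ, B = {r : ℝ | r ∈ Icc (X / 2) (4 * X) ∧ E r < -V} := ⟨_, rfl⟩
  -- measurability
  have hEI : IntegrableOn E (Icc (X / 2) (4 * X)) := by
    rw [integrableOn_Icc_iff_integrableOn_Ioc,
      ← intervalIntegrable_iff_integrableOn_Ioc_of_le (by linarith)]
    exact hEint _ _ (by linarith) (by linarith)
  have hE'i : Integrable ((Icc (X / 2) (4 * X)).indicator E) :=
    (integrable_indicator_iff measurableSet_Icc).mpr hEI
  have hBeq : B = {r : ℝ | (Icc (X / 2) (4 * X)).indicator E r < -V} := by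
    rw [hB]
    ext r
    simp only [Set.mem_ofPred_eq]
    by_cases hr : r ∈ Icc (X / 2) (4 * X)
    · rw [indicator_of_mem hr]
      exact ⟨fun h => h.2, fun h => ⟨hr, h⟩⟩
    · rw [indicator_of_notMem hr]
      exact ⟨fun h => absurd h.1 hr, fun h => absurd h (by linarith)⟩
  have hBm : NullMeasurableSet B := by
    rw [hBeq]
    exact nullMeasurableSet_lt hE'i.aestronglyMeasurable.aemeasurable aemeasurable_const
  obtain ⟨f, hf⟩ : ∃ f : ℝ → ℝ, f = B.indicator fun r => |E r| := ⟨_, rfl⟩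
  have hfi : Integrable f := by
    have h1 : f = B.indicator fun r => |(Icc (X / 2) (4 * X)).indicator E r| := by
      rw [hf]
      refine indicator_congr fun r hr => ?_
      rw [hB] at hr
      rw [indicator_of_mem hr.1]
    rw [h1]
    exact hE'i.abs.indicator₀ hBm
  have hf0 : ∀ r, 0 ≤ f r := by
    intro r
    rw [hf]
    exact indicator_nonneg (fun _ _ => abs_nonneg _) r
  have hfint : ∫ r, f r = ∫ r in B, |E r| := by
    rw [hf]
    exact integral_indicator₀ hBm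
  have hdom : ∀ r ∈ Icc (X / 2) (4 * X), -E r ≤ V + f r := by
    intro r hr
    by_cases hrB : r ∈ B
    · have h1 : f r = |E r| := by rw [hf, indicator_of_mem hrB]
      rw [h1]
      have := neg_abs_le (E r)
      linarith
    · have h1 : -V ≤ E r := by
        by_contra hcon
        push Not at hcon
        apply hrB
        rw [hB]
        exact ⟨hr, hcon⟩
      have := hf0 r
      linarith
  -- the intervals
  obtain ⟨I, hI⟩ : ∃ I : ℕ → Set ℝ, I = fun j : ℕ => Icc ((j : ℝ) * T) ((j : ℝ) * T + 1 / (96 * N)) := ⟨_, rfl⟩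
  obtain ⟨G, hG⟩ : ∃ G : ℝ → ℝ, G = fun R => ∫ t, f t * (N / A * w (N / A * (t - R))) := ⟨_, rfl⟩
  obtain ⟨hGi, hGint⟩ := conv6 hw hK hfi
  rw [← hG] at hGi
  have hGint' : ∫ R, G R = ∫ t, f t := by
    rw [hG]
    exact hGint
  have hG0 : ∀ R, 0 ≤ G R := by
    intro R
    rw [hG]
    exact integral_nonneg fun t => mul_nonneg (hf0 t) (mul_nonneg hK.le (hw.nonneg _))
  have h96 : 1 / (96 * N) ≤ 1 / 96 := by
    rw [div_le_div_iff₀ (by positivity) (by norm_num)]
    linarith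
  have h96' : 0 < 1 / (96 * N) := by positivity
  have hpt : ∀ j ∈ Finset.Ico J (2 * J), ∀ R ∈ I j, (c₀ - c₀ / 400) / 2 * Q ≤ G R := by
    intro j hj R hR
    rw [Finset.mem_Ico] at hj
    rw [hI] at hR
    have hjJ : (J : ℝ) ≤ j := by exact_mod_cast hj.1
    have hj2 : (j : ℝ) + 1 ≤ 2 * J := by exact_mod_cast hj.2
    have hRX : X ≤ R := by
      have h1 : X ≤ j * T := by
        rw [hX]
        exact mul_le_mul_of_nonneg_right hjJ (by linarith)
      exact h1.trans hR.1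
    have hR2X : R ≤ 2 * X := by
      have h1 := hR.2
      have h2 : (j + 1) * T ≤ 2 * X := by
        rw [hX, ← mul_assoc]
        exact mul_le_mul_of_nonneg_right hj2 (by linarith)
      nlinarith
    have hR0 : 0 < R := by linarith
    have hRN : N ^ 3 ≤ R := hTN.trans (hXT.trans hRX)
    have hR1 : R₁ ≤ R := hNR1.trans (hNN3.trans hRN)
    have hNR : N ≤ R ^ (2 / 5 : ℝ) := by
      have h1 : N = (N ^ (5 / 2 : ℝ)) ^ (2 / 5 : ℝ) := by
        rw [← Real.rpow_mul hN0.le]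
        norm_num
      have h2 : N ^ (5 / 2 : ℝ) ≤ R := by
        refine le_trans ?_ hRN
        rw [← Real.rpow_natCast N 3]
        refine Real.rpow_le_rpow_of_exponent_le hN1 ?_
        norm_num
      rw [h1]
      exact Real.rpow_le_rpow (by positivity) h2 (by norm_num)
    have hal := hneg N R hNN0 hR1 hNR (0, 0) (by
      intro k hk hkN
      have hj' : j ≤ 2 ^ ((s + 20) * n s) := by omega
      obtain ⟨z, hz⟩ := hA s j hj' k hk (by rw [← hN]; exact hkN)
      refine ⟨z, ?_⟩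
      rw [← hT] at hz
      have hH1 := hH.d0 (tk k)
      have hHle : H (tk k) ≤ 5 / 4 := by
        have := (abs_le.mp hH1).2
        linarith
      have hHge : 0 ≤ H (tk k) := (hS.pos _).le
      have hnk0 : 0 ≤ nk k := norm_nonneg _
      have h1 : R * (nk k * H (tk k)) + ((k.1 : ℝ) * ((0 : ℝ), (0 : ℝ)).1 + (k.2 : ℝ) * ((0 : ℝ), (0 : ℝ)).2) - z =
          (j * (T * (nk k * H (tk k)) + ((k.1 : ℝ) * ((0 : ℝ), (0 : ℝ)).1 + (k.2 : ℝ) * ((0 : ℝ), (0 : ℝ)).2)) - z) +
            (R - j * T) * (nk k * H (tk k)) := by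
        simp only [mul_zero, add_zero]
        ring
      have h2 : |(R - j * T) * (nk k * H (tk k))| ≤ 1 / (96 * N) * (N * (5 / 4)) := by
        rw [abs_of_nonneg (mul_nonneg (by linarith [hR.1]) (mul_nonneg hnk0 hHge))]
        refine mul_le_mul (by linarith [hR.2]) ?_ (mul_nonneg hnk0 hHge) h96'.le
        exact mul_le_mul hkN hHle hHge hN0.le
      have h3 : 1 / (96 * N) * (N * (5 / 4)) = 5 / 384 := by
        field_simp
        norm_num
      rw [h1]
      refine (abs_add_le _ _).trans ?_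
      rw [h3] at h2
      linarith)
    have hQle : Q ≤ R ^ (1 / 2 : ℝ) * N ^ (1 / 2 : ℝ) := by
      rw [hQ, Real.mul_rpow hX0.le hN0.le]
      exact mul_le_mul_of_nonneg_right (Real.rpow_le_rpow hX0.le hRX (by norm_num)) (by positivity)
    have hsub : ∀ r ∈ Icc (R / 2) (3 * R / 2), -E r ≤ V + f r := by
      intro r hr
      exact hdom r ⟨by linarith [hr.1], by linarith [hr.2]⟩
    have hp := point6 hw hK hR0 (hEint (R / 2) (3 * R / 2) (by linarith) (by linarith)) hfi hf0 hV0.le hsub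
    have hav : Avc w H (0, 0) (N / A) R = ∫ r in (R / 2)..(3 * R / 2), qw w (N / A) R r * E r := by
      rw [hE]
      rfl
    rw [← hav] at hp
    have hGR : G R = ∫ t, f t * (N / A * w (N / A * (t - R))) := by rw [hG]
    rw [← hGR] at hp
    have h5 : c₀ * Q ≤ c₀ * R ^ (1 / 2 : ℝ) * N ^ (1 / 2 : ℝ) := by
      rw [mul_assoc]
      exact mul_le_mul_of_nonneg_left hQle hc₀.le
    rw [hV] at hp
    linarith
  have hdisj : ∀ i j : ℕ, i < j → Disjoint (I i) (I j) := by
    intro i j hij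
    rw [Set.disjoint_left]
    intro r hr hr'
    rw [hI] at hr hr'
    have h1 : ((i : ℝ) + 1) ≤ j := by exact_mod_cast hij
    have h2 : ((i : ℝ) + 1) * T ≤ j * T := mul_le_mul_of_nonneg_right h1 (by linarith)
    have h3 := hr.2
    have h4 := hr'.1
    nlinarith
  have hpd : (↑(Finset.Ico J (2 * J)) : Set ℕ).Pairwise (Function.onFun Disjoint I) := by
    intro i _ j _ hij
    rcases lt_or_gt_of_ne hij with h | h
    · exact hdisj i j h
    · exact (hdisj j i h).symm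
  have hIm : ∀ j, MeasurableSet (I j) := fun j => by rw [hI]; exact measurableSet_Icc
  have hUn := integral_biUnion_finset (μ := volume) (f := G) (Finset.Ico J (2 * J))
    (fun j _ => hIm j) hpd (fun j _ => hGi.integrableOn)
  have hle : ∫ R in ⋃ j ∈ Finset.Ico J (2 * J), I j, G R ≤ ∫ R, G R :=
    setIntegral_le_integral hGi (Filter.Eventually.of_forall hG0)
  have hvol : ∀ j, volume (I j) = ENNReal.ofReal (1 / (96 * N)) := by
    intro j
    rw [hI]
    change volume (Icc ((j : ℝ) * T) (j * T + 1 / (96 * N))) = _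
    rw [Real.volume_Icc]
    congr 1
    ring
  have hterm : ∀ j ∈ Finset.Ico J (2 * J), (c₀ - c₀ / 400) / 2 * Q * (1 / (96 * N)) ≤ ∫ R in I j, G R := by
    intro j hj
    have h1 := setIntegral_mono_on (μ := volume) (s := I j) (f := fun _ => (c₀ - c₀ / 400) / 2 * Q) (g := G)
      (integrableOn_const (by rw [hvol]; exact ENNReal.ofReal_ne_top)) hGi.integrableOn (hIm j) (hpt j hj)
    rw [setIntegral_const, smul_eq_mul, Measure.real, hvol, ENNReal.toReal_ofReal h96'.le] at h1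
    linarith
  have hsum := Finset.sum_le_sum hterm
  rw [← hUn, Finset.sum_const, Nat.card_Ico, nsmul_eq_mul] at hsum
  have hJJ : ((2 * J - J : ℕ) : ℝ) = J := by
    congr 1
    omega
  rw [hJJ] at hsum
  have hfin := hsum.trans (hle.trans (hGint'.trans hfint).le)
  rw [← hN, ← hQ, ← hV, ← hE, ← hB]
  refine le_trans ?_ hfin
  have h10 : 0 ≤ Q * (J / N) * c₀ := by positivity
  have h11 : (J : ℝ) * ((c₀ - c₀ / 400) / 2 * Q * (1 / (96 * N))) = (399 / 76800) * (Q * (J / N) * c₀) := by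
    field_simp
    ring
  have h12 : V * (J / N) = (1 / 800) * (Q * (J / N) * c₀) := by
    rw [hV]
    ring
  rw [h11, h12]
  nlinarith

end Pool.Agent.Helper22.SC
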