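import Pool.Agent.Helper22.SC.U7

/-!
# SC-T1: bad boxes

As `bad_radii2` (SC-U7), for the boxes (square `p`, interval `j`) themselves.
-/

open MeasureTheory Real Set Filter Topology

set_option autoImplicit false

namespace Pool.Agent.Helper22.SC

open Pool.Agent.Helper22.AE Pool.Agent.Helper22.AC

private lemma t1_k0_cont {β : ℝ} (hβ : 0 < β) : Continuous (fun α : ℝ => k0 β α) := by
  unfold k0
  refine continuous_const.div (by fun_prop) ?_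
  intro α
  positivity

private lemma t1_k0_nonneg {β : ℝ} (hβ : 0 < β) (α : ℝ) : 0 ≤ k0 β α := by
  unfold k0
  positivity

private lemma t1_k0_pos {β : ℝ} (hβ : 0 < β) (α : ℝ) : 0 < k0 β α := by
  unfold k0
  have : 0 ≤ sin α ^ 2 := sq_nonneg _
  positivity

private lemma t1_meas (n : ℕ) (s₀ : ℝ) : MeasurableSet (Icc (-π) π ∩ {α : ℝ | (2 : ℝ) ^ n * sin α ^ 2 ≤ s₀}) := by
  refine measurableSet_Icc.inter ?_
  exact measurableSet_le (by fun_prop) measurable_const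

private lemma t1_k0_int {β : ℝ} (hβ : 0 < β) (n : ℕ) (s₀ : ℝ) :
    ∫ α in Icc (-π) π ∩ {α : ℝ | 2 ^ n * sin α ^ 2 ≤ s₀}, k0 β α ≤ 20 := by
  have h1 : ∫ α in Icc (-π) π ∩ {α : ℝ | 2 ^ n * sin α ^ 2 ≤ s₀}, k0 β α ≤ ∫ α in Icc (-π) π, k0 β α := by
    apply setIntegral_mono_set
    · exact (t1_k0_cont hβ).continuousOn.integrableOn_compact isCompact_Icc
    · exact ae_of_all _ (fun α => t1_k0_nonneg hβ α)
    · exact inter_subset_left.eventuallyLE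
  have h3 : ∫ y in Icc (-π) π, k0 β y = ∫ y in (-π)..π, k0 β y := by
    rw [intervalIntegral.integral_of_le (by linarith [pi_pos]), integral_Icc_eq_integral_Ioc]
  rw [h3] at h1
  exact h1.trans (k0_int hβ)

private lemma t1_bxs_compact (n : ℕ) (p : ℕ × ℕ) (R₀ : ℝ) (j : ℕ) : IsCompact (bxs n p R₀ j) := by
  unfold bxs AC.sq
  exact (isCompact_Icc.prod isCompact_Icc).prod isCompact_Icc

/-- the sum over all boxes for one pair `(i, e)` -/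
private lemma t1_one {β : ℝ} (hβ : 0 < β) {s₀ : ℝ} {n m : ℕ} {R₀ D : ℝ} (hD : 0 ≤ D) {f : ℝ × ((ℝ × ℝ) × ℝ) → ℝ}
    (hf : Continuous f) (h0 : ∀ q, 0 ≤ f q)
    (hb : ∀ α : ℝ, 2 ^ n * sin α ^ 2 ≤ s₀ →
      ∫ q in (Icc (0 : ℝ) 1 ×ˢ Icc (0 : ℝ) 1) ×ˢ Icc R₀ (R₀ + m / 2 ^ n), f (α, q) ≤ D / (β * k0 β α)) :
    ∑ p ∈ Finset.range (2 ^ n) ×ˢ Finset.range (2 ^ n), ∑ j ∈ Finset.range m,
      ∫ α in Icc (-π) π ∩ {α : ℝ | 2 ^ n * sin α ^ 2 ≤ s₀}, (β * k0 β α ^ 2) * ∫ q in bxs n p R₀ j, f (α, q) ≤ 20 * D := by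
  set A : Set ℝ := Icc (-π) π ∩ {α : ℝ | 2 ^ n * sin α ^ 2 ≤ s₀} with hA
  have hcont : ∀ p j, Continuous (fun α : ℝ => (β * k0 β α ^ 2) * ∫ q in bxs n p R₀ j, f (α, q)) := by
    intro p j
    apply (continuous_const.mul ((t1_k0_cont hβ).pow 2)).mul
    exact continuous_parametric_integral_of_continuous (f := fun α q => f (α, q)) hf (t1_bxs_compact n p R₀ j)
  have hint : ∀ p j, IntegrableOn (fun α : ℝ => (β * k0 β α ^ 2) * ∫ q in bxs n p R₀ j, f (α, q)) A := by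
    intro p j
    exact ((hcont p j).continuousOn.integrableOn_compact isCompact_Icc).mono_set inter_subset_left
  have h1 : ∑ p ∈ Finset.range (2 ^ n) ×ˢ Finset.range (2 ^ n), ∑ j ∈ Finset.range m,
      ∫ α in A, (β * k0 β α ^ 2) * ∫ q in bxs n p R₀ j, f (α, q) =
      ∫ α in A, ∑ p ∈ Finset.range (2 ^ n) ×ˢ Finset.range (2 ^ n), ∑ j ∈ Finset.range m,
        (β * k0 β α ^ 2) * ∫ q in bxs n p R₀ j, f (α, q) := by
    rw [integral_finsetSum]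
    · apply Finset.sum_congr rfl
      intro p _
      rw [integral_finsetSum]
      intro j _
      exact hint p j
    · intro p _
      exact integrable_finsetSum _ (fun j _ => hint p j)
  rw [h1]
  have h2 : ∫ α in A, ∑ p ∈ Finset.range (2 ^ n) ×ˢ Finset.range (2 ^ n), ∑ j ∈ Finset.range m,
        (β * k0 β α ^ 2) * ∫ q in bxs n p R₀ j, f (α, q) ≤ ∫ α in A, k0 β α * D := by
    apply setIntegral_mono_on
    · exact integrable_finsetSum _ (fun p _ => integrable_finsetSum _ (fun j _ => hint p j))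
    · exact (((t1_k0_cont hβ).mul continuous_const).continuousOn.integrableOn_compact isCompact_Icc).mono_set
        inter_subset_left
    · exact t1_meas n s₀
    · intro α hα
      have h3 : ∑ p ∈ Finset.range (2 ^ n) ×ˢ Finset.range (2 ^ n), ∑ j ∈ Finset.range m,
          (β * k0 β α ^ 2) * ∫ q in bxs n p R₀ j, f (α, q) =
          (β * k0 β α ^ 2) * ∑ p ∈ Finset.range (2 ^ n) ×ˢ Finset.range (2 ^ n), ∑ j ∈ Finset.range m,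
            ∫ q in bxs n p R₀ j, f (α, q) := by
        rw [Finset.mul_sum]
        apply Finset.sum_congr rfl
        intro p _
        rw [Finset.mul_sum]
      rw [h3]
      have hk : 0 < k0 β α := t1_k0_pos hβ α
      have h4 : k0 β α * D = (β * k0 β α ^ 2) * (D / (β * k0 β α)) := by
        field_simp
      rw [h4]
      apply mul_le_mul_of_nonneg_left _ (by positivity)
      have hfα : Continuous (fun q : (ℝ × ℝ) × ℝ => f (α, q)) := hf.comp (by fun_prop)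
      exact (sum_boxes hfα (fun q => h0 _) n m R₀).trans (hb α hα.2)
  refine h2.trans ?_
  rw [integral_mul_const]
  exact mul_le_mul_of_nonneg_right (t1_k0_int hβ n s₀) hD

private lemma t1_Yb2_nonneg (H : ℝ → ℝ) (Λ s₀ : ℝ) {β : ℝ} (hβ : 0 < β) (n : ℕ) (b : Fin 3 → ℝ → ℤ × ℤ → ℂ) (p : ℕ × ℕ)
    (R₀ : ℝ) (j : ℕ) : 0 ≤ Yb2 H Λ s₀ β n b p R₀ j := by
  unfold Yb2
  refine Finset.sum_nonneg (fun i _ => Finset.sum_nonneg (fun e _ => ?_))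
  refine setIntegral_nonneg (t1_meas n s₀) (fun α _ => ?_)
  have hk := t1_k0_nonneg hβ α
  exact mul_nonneg (by positivity) (integral_nonneg (fun q => by positivity))

private lemma t1_comm {ι : Type*} (s : Finset ι) (m : ℕ) (T : Fin 3 → Bool × Bool × Bool → ι → ℕ → ℝ) {E : ℝ}
    (hT : ∀ i e, ∑ p ∈ s, ∑ j ∈ Finset.range m, T i e p j ≤ E) :
    ∑ p ∈ s, ∑ j ∈ Finset.range m, ∑ i : Fin 3, ∑ e : Bool × Bool × Bool, T i e p j ≤ 24 * E := by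
  have h2 : ∑ p ∈ s, ∑ j ∈ Finset.range m, ∑ i : Fin 3, ∑ e : Bool × Bool × Bool, T i e p j =
      ∑ i : Fin 3, ∑ e : Bool × Bool × Bool, ∑ p ∈ s, ∑ j ∈ Finset.range m, T i e p j := by
    have h3 : ∀ p ∈ s, ∑ j ∈ Finset.range m, ∑ i : Fin 3, ∑ e : Bool × Bool × Bool, T i e p j =
        ∑ i : Fin 3, ∑ e : Bool × Bool × Bool, ∑ j ∈ Finset.range m, T i e p j := by
      intro p _
      rw [Finset.sum_comm]
      apply Finset.sum_congr rfl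
      intro i _
      rw [Finset.sum_comm]
    rw [Finset.sum_congr rfl h3, Finset.sum_comm]
    apply Finset.sum_congr rfl
    intro i _
    rw [Finset.sum_comm]
  rw [h2]
  calc ∑ i : Fin 3, ∑ e : Bool × Bool × Bool, ∑ p ∈ s, ∑ j ∈ Finset.range m, T i e p j
      ≤ ∑ i : Fin 3, ∑ e : Bool × Bool × Bool, E :=
        Finset.sum_le_sum (fun i _ => Finset.sum_le_sum (fun e _ => hT i e))
    _ = 24 * E := by
        simp only [Finset.sum_const, Finset.card_univ, Fintype.card_prod, Fintype.card_bool, Fintype.card_fin,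
          nsmul_eq_mul]
        push_cast
        ring

/-- one pair `(i, e)` -/
private lemma t1_pair {H : ℝ → ℝ} (hH : IsSupp H) {Λ s₀ : ℝ} (hΛ : 1 ≤ Λ) (hΛ' : ∀ α t : ℝ, |ga H α t| ≤ Λ)
    {β : ℝ} (hβ : 0 < β) {n m : ℕ} {R₀ D : ℝ} (hD : 0 ≤ D)
    (hb : ∀ α : ℝ, 2 ^ n * sin α ^ 2 ≤ s₀ → ∀ a : ℤ × ℤ → ℂ, (∀ k, ‖a k‖ ≤ 1) →
      ∫ q in (Icc (0 : ℝ) 1 ×ˢ Icc (0 : ℝ) 1) ×ˢ Icc R₀ (R₀ + m / 2 ^ n), ‖cs (blk n) a (ga H α) q‖ ^ 6 ≤ D / (β * k0 β α))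
    {b : ℝ → ℤ × ℤ → ℂ} (hc : ∀ k, Continuous fun α => b α k) (h1 : ∀ α k, ‖b α k‖ ≤ 1) (e : Bool × Bool × Bool) :
    ∑ p ∈ Finset.range (2 ^ n) ×ˢ Finset.range (2 ^ n), ∑ j ∈ Finset.range m,
        ∫ α in Icc (-π) π ∩ {α : ℝ | 2 ^ n * sin α ^ 2 ≤ s₀}, (β * k0 β α ^ 2) *
          ∫ q in bxs n p R₀ j, ‖cs (blk n) (sw (ga H α) Λ n (b α) e) (ga H α) q‖ ^ 6 ≤ 20 * D := by
  obtain ⟨f, hf⟩ : ∃ f : ℝ × ((ℝ × ℝ) × ℝ) → ℝ, f = fun x : ℝ × ((ℝ × ℝ) × ℝ) =>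
      ‖cs (blk n) (sw (ga H x.1) Λ n (b x.1) e) (ga H x.1) x.2‖ ^ 6 := ⟨_, rfl⟩
  have hcont : Continuous f := by
    rw [hf]
    apply Continuous.pow
    apply Continuous.norm
    exact cs_cont' (blk n) (a := fun α => sw (ga H α) Λ n (b α) e) (γ := fun α => ga H α)
      (fun k => sw_cont Λ n (fun k => hc k) (fun t => ga_cont hH t) e k) (fun t => ga_cont hH t)
  have h0 : ∀ q, 0 ≤ f q := by
    intro q
    rw [hf]
    positivity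
  have hfe : ∀ α q, f (α, q) = ‖cs (blk n) (sw (ga H α) Λ n (b α) e) (ga H α) q‖ ^ 6 := by
    intro α q
    rw [hf]
  have hbd : ∀ α : ℝ, 2 ^ n * sin α ^ 2 ≤ s₀ →
      ∫ q in (Icc (0 : ℝ) 1 ×ˢ Icc (0 : ℝ) 1) ×ˢ Icc R₀ (R₀ + m / 2 ^ n), f (α, q) ≤ D / (β * k0 β α) := by
    intro α hα
    simp_rw [hfe]
    exact hb α hα _ (fun k => sw_le hΛ (hΛ' α) n (h1 α) e k)
  have h4 := t1_one (β := β) hβ (s₀ := s₀) (n := n) (m := m) (R₀ := R₀) (D := D) hD hcont h0 hbd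
  simp_rw [hfe] at h4
  exact h4

/-- the sum of all `Yb` -/
private lemma t1_sum {H : ℝ → ℝ} (hH : IsSupp H) {Λ s₀ : ℝ} (hΛ : 1 ≤ Λ) (hΛ' : ∀ α t : ℝ, |ga H α t| ≤ Λ)
    {β : ℝ} (hβ : 0 < β) {n m : ℕ} {R₀ D : ℝ} (hD : 0 ≤ D)
    (hb : ∀ α : ℝ, 2 ^ n * sin α ^ 2 ≤ s₀ → ∀ a : ℤ × ℤ → ℂ, (∀ k, ‖a k‖ ≤ 1) →
      ∫ q in (Icc (0 : ℝ) 1 ×ˢ Icc (0 : ℝ) 1) ×ˢ Icc R₀ (R₀ + m / 2 ^ n), ‖cs (blk n) a (ga H α) q‖ ^ 6 ≤ D / (β * k0 β α))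
    {b : Fin 3 → ℝ → ℤ × ℤ → ℂ} (hc : ∀ i k, Continuous fun α => b i α k) (h1 : ∀ i α k, ‖b i α k‖ ≤ 1) :
    ∑ p ∈ Finset.range (2 ^ n) ×ˢ Finset.range (2 ^ n), ∑ j ∈ Finset.range m, Yb2 H Λ s₀ β n b p R₀ j ≤ 480 * D := by
  have h3 := t1_comm (Finset.range (2 ^ n) ×ˢ Finset.range (2 ^ n)) m
    (fun i e p j => ∫ α in Icc (-π) π ∩ {α : ℝ | 2 ^ n * sin α ^ 2 ≤ s₀}, (β * k0 β α ^ 2) *
          ∫ q in bxs n p R₀ j, ‖cs (blk n) (sw (ga H α) Λ n (b i α) e) (ga H α) q‖ ^ 6) (E := 20 * D)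
    (fun i e => t1_pair hH hΛ hΛ' hβ hD hb (hc i) (h1 i) e)
  have h4 : (24 : ℝ) * (20 * D) = 480 * D := by ring
  rw [h4] at h3
  exact h3

private lemma t1_cell (n : ℕ) {x : ℝ} (hx : x ∈ Icc (0 : ℝ) 1) :
    ∃ i : ℕ, i < 2 ^ n ∧ x ∈ Icc ((i : ℝ) / 2 ^ n) (((i : ℝ) + 1) / 2 ^ n) := by
  have h2n : (0 : ℝ) < 2 ^ n := by positivity
  have hpos : 0 ≤ x * 2 ^ n := mul_nonneg hx.1 h2n.le
  by_cases hlt : x * 2 ^ n < 2 ^ n
  · refine ⟨⌊x * 2 ^ n⌋₊, ?_, ?_, ?_⟩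
    · rw [Nat.floor_lt hpos]
      push_cast
      exact hlt
    · have h1 := Nat.floor_le hpos
      rwa [div_le_iff₀ h2n]
    · have h1 := (Nat.lt_floor_add_one (x * 2 ^ n)).le
      rwa [le_div_iff₀ h2n]
  · push Not at hlt
    have hx1 : x = 1 := by
      apply le_antisymm hx.2
      by_contra hcon
      push Not at hcon
      nlinarith
    have h1 : 1 ≤ 2 ^ n := Nat.one_le_two_pow
    refine ⟨2 ^ n - 1, by omega, ?_, ?_⟩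
    · rw [hx1, div_le_iff₀ h2n, Nat.cast_sub h1]
      push_cast
      linarith
    · rw [hx1, le_div_iff₀ h2n, Nat.cast_sub h1]
      push_cast
      linarith

theorem bad_boxes2 {H : ℝ → ℝ} (hH : IsSupp H) {φ : ℝ × ℝ → ℝ} (hφ : IsBump φ) {ε : ℝ} (hε : 0 < ε) :
    ∃ C : ℝ, 0 < C ∧ ∀ R₀ : ℝ, 1 ≤ R₀ → ∀ n : ℕ, ∀ δ ∈ Icc (0 : ℝ) 1, ∀ lam : ℝ, 0 < lam →
      ∃ S : Finset ((ℕ × ℕ) × ℕ), (S.card : ℝ) ≤ C * lam ^ (-(6 : ℝ)) * ((2 : ℝ) ^ n) ^ (9 + ε) * (R₀ + 8 ^ n) ∧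
        ∀ c ∈ Icc (0 : ℝ) 1 ×ˢ Icc (0 : ℝ) 1, ∀ R ∈ Icc R₀ (2 * R₀), (∀ x ∈ S, (c, R) ∉ bxs n x.1 R₀ x.2) →
          ∀ σ : ℝ, (σ = 1 ∨ σ = -1) → IsSupp (fun θ => R * H θ + σ * δ) →
            ‖VKc φ (fun θ => R * H θ + σ * δ) δ n c‖ ≤
              C * (R₀ ^ (1 / 2 : ℝ) * (2 : ℝ) ^ (-(3 / 2 : ℝ) * n) * lam + 2 ^ n) := by
  classical
  obtain ⟨Λ, hΛ, hΛ'⟩ := ga_bdd hH
  obtain ⟨s₀, C₀, hs0, hC₀, hsix⟩ := sixth_ga2 hH hε
  obtain ⟨C₁, hC₁, hbox⟩ := VKc_box2 hH hφ hΛ hΛ' hs0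
  refine ⟨max C₁ (3840 * C₀), lt_max_of_lt_left hC₁, ?_⟩
  intro R₀ hR₀ n δ hδ lam hlam
  have hR0 : 0 < R₀ := by linarith
  have h2n : (0 : ℝ) < 2 ^ n := by positivity
  have h2n1 : (1 : ℝ) ≤ 2 ^ n := one_le_pow₀ (by norm_num)
  set m : ℕ := ⌈R₀ * 2 ^ n⌉₊ with hm
  have hm1 : R₀ * 2 ^ n ≤ m := Nat.le_ceil _
  have hm2 : (m : ℝ) < R₀ * 2 ^ n + 1 := Nat.ceil_lt_add_one (by positivity)
  have hX1 : R₀ ≤ m / 2 ^ n := by rwa [le_div_iff₀ h2n]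
  have hX2 : (m : ℝ) / 2 ^ n ≤ 2 * R₀ := by
    rw [div_le_iff₀ h2n]
    nlinarith
  have hX0 : (0 : ℝ) < m / 2 ^ n := by linarith
  set β : ℝ := (R₀ * 2 ^ n) ^ (-(1 / 2 : ℝ)) with hβdef
  have hβ : 0 < β := Real.rpow_pos_of_pos (by positivity) _
  obtain ⟨bp, hbp1, hbp2, hbp3⟩ := hbox R₀ hR₀ n δ hδ 1 (Or.inl rfl)
  obtain ⟨bm, hbm1, hbm2, hbm3⟩ := hbox R₀ hR₀ n δ hδ (-1) (Or.inr rfl)
  have hββ : β ^ 2 = 1 / (R₀ * 2 ^ n) := by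
    have e : (-(1 / 2 : ℝ)) * ((2 : ℕ) : ℝ) = -1 := by norm_num
    rw [hβdef, ← Real.rpow_natCast, ← Real.rpow_mul (by positivity), e, Real.rpow_neg_one, one_div]
  set D : ℝ := 2 * C₀ * (m / 2 ^ n) * ((2 : ℝ) ^ n) ^ (6 + ε) * (1 + 8 ^ n / (m / 2 ^ n)) with hD
  have hD0 : 0 ≤ D := by
    rw [hD]
    positivity
  have hb : ∀ α : ℝ, 2 ^ n * sin α ^ 2 ≤ s₀ → ∀ a : ℤ × ℤ → ℂ, (∀ k, ‖a k‖ ≤ 1) →
      ∫ q in (Icc (0 : ℝ) 1 ×ˢ Icc (0 : ℝ) 1) ×ˢ Icc R₀ (R₀ + m / 2 ^ n), ‖cs (blk n) a (ga H α) q‖ ^ 6 ≤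
        D / (β * k0 β α) := by
    intro α hα a ha
    refine (hsix n _ R₀ α (by linarith) hα a ha).trans ?_
    have hs2 : 0 ≤ sin α ^ 2 := sq_nonneg _
    have hk : 1 / (β * k0 β α) = 1 + R₀ * 2 ^ n * sin α ^ 2 := by
      have e1 : β * k0 β α = β ^ 2 / (sin α ^ 2 + β ^ 2) := by
        unfold k0
        ring
      rw [e1, hββ, one_div_div]
      field_simp
      ring
    have h1 : 1 + (m : ℝ) / 2 ^ n * 2 ^ n * sin α ^ 2 ≤ 2 * (1 / (β * k0 β α)) := by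
      rw [hk]
      have h2 : (m : ℝ) / 2 ^ n * (2 ^ n * sin α ^ 2) ≤ 2 * R₀ * (2 ^ n * sin α ^ 2) :=
        mul_le_mul_of_nonneg_right hX2 (by positivity)
      nlinarith
    calc C₀ * (m / 2 ^ n) * ((2 : ℝ) ^ n) ^ (6 + ε) * (1 + 8 ^ n / (m / 2 ^ n)) * (1 + (m : ℝ) / 2 ^ n * 2 ^ n * sin α ^ 2)
        ≤ C₀ * (m / 2 ^ n) * ((2 : ℝ) ^ n) ^ (6 + ε) * (1 + 8 ^ n / (m / 2 ^ n)) * (2 * (1 / (β * k0 β α))) := by
          apply mul_le_mul_of_nonneg_left h1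
          positivity
      _ = D / (β * k0 β α) := by
          rw [hD]
          ring
  have hsp := t1_sum hH hΛ hΛ' hβ hD0 hb hbp1 hbp2
  have hsm := t1_sum hH hΛ hΛ' hβ hD0 hb hbm1 hbm2
  set G : Finset (ℕ × ℕ) := Finset.range (2 ^ n) ×ˢ Finset.range (2 ^ n) with hG
  set Y : ℕ × ℕ → ℕ → ℝ := fun p j => Yb2 H Λ s₀ β n bp p R₀ j + Yb2 H Λ s₀ β n bm p R₀ j with hY
  have hY0 : ∀ p j, 0 ≤ Y p j := fun p j =>
    add_nonneg (t1_Yb2_nonneg H Λ s₀ hβ n bp p R₀ j) (t1_Yb2_nonneg H Λ s₀ hβ n bm p R₀ j)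
  set S : Finset ((ℕ × ℕ) × ℕ) := (G ×ˢ Finset.range m).filter (fun x => lam ^ 6 < 2 ^ (3 * n) * Y x.1 x.2) with hS
  refine ⟨S, ?_, ?_⟩
  · -- counting
    have h1 : (S.card : ℝ) * lam ^ 6 ≤ 2 ^ (3 * n) * (960 * D) := by
      have h2 : ∀ x ∈ S, lam ^ 6 ≤ 2 ^ (3 * n) * Y x.1 x.2 := fun x hx => (Finset.mem_filter.1 hx).2.le
      calc (S.card : ℝ) * lam ^ 6 = ∑ x ∈ S, lam ^ 6 := by rw [Finset.sum_const, nsmul_eq_mul]
        _ ≤ ∑ x ∈ S, 2 ^ (3 * n) * Y x.1 x.2 := Finset.sum_le_sum h2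
        _ ≤ ∑ x ∈ G ×ˢ Finset.range m, 2 ^ (3 * n) * Y x.1 x.2 := by
            apply Finset.sum_le_sum_of_subset_of_nonneg (Finset.filter_subset _ _)
            intro x _ _
            exact mul_nonneg (by positivity) (hY0 x.1 x.2)
        _ = ∑ p ∈ G, ∑ j ∈ Finset.range m, 2 ^ (3 * n) * Y p j := Finset.sum_product _ _ _
        _ = 2 ^ (3 * n) * (∑ p ∈ G, ∑ j ∈ Finset.range m, Yb2 H Λ s₀ β n bp p R₀ j +
              ∑ p ∈ G, ∑ j ∈ Finset.range m, Yb2 H Λ s₀ β n bm p R₀ j) := by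
            rw [← Finset.sum_add_distrib, Finset.mul_sum]
            apply Finset.sum_congr rfl
            intro p _
            rw [← Finset.sum_add_distrib, Finset.mul_sum]
        _ ≤ 2 ^ (3 * n) * (960 * D) := by
            apply mul_le_mul_of_nonneg_left _ (by positivity)
            linarith
    have h4 : (2 : ℝ) ^ (3 * n) = 8 ^ n := by
      rw [pow_mul]
      norm_num
    have h5 : ((2 : ℝ) ^ n) ^ (9 + ε) = 8 ^ n * ((2 : ℝ) ^ n) ^ (6 + ε) := by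
      have h6 : (8 : ℝ) ^ n = ((2 : ℝ) ^ n) ^ (3 : ℝ) := by
        rw [← h4, show (3 : ℝ) = ((3 : ℕ) : ℝ) by norm_num, Real.rpow_natCast, ← pow_mul, mul_comm]
      rw [h6, ← Real.rpow_add h2n]
      congr 1
      ring
    have h7 : D ≤ C₀ * ((2 : ℝ) ^ n) ^ (6 + ε) * (4 * (R₀ + 8 ^ n)) := by
      have h8 : D = C₀ * ((2 : ℝ) ^ n) ^ (6 + ε) * (2 * (m / 2 ^ n + 8 ^ n)) := by
        rw [hD]
        have h9 : (m : ℝ) / 2 ^ n * (1 + 8 ^ n / (m / 2 ^ n)) = m / 2 ^ n + 8 ^ n := by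
          rw [mul_add, mul_one, mul_div_cancel₀ _ hX0.ne']
        calc 2 * C₀ * (m / 2 ^ n) * ((2 : ℝ) ^ n) ^ (6 + ε) * (1 + 8 ^ n / (m / 2 ^ n))
            = C₀ * ((2 : ℝ) ^ n) ^ (6 + ε) * (2 * (m / 2 ^ n * (1 + 8 ^ n / (m / 2 ^ n)))) := by ring
          _ = _ := by rw [h9]
      rw [h8]
      apply mul_le_mul_of_nonneg_left _ (by positivity)
      have : (0 : ℝ) ≤ 8 ^ n := by positivity
      linarith
    have h10 : (S.card : ℝ) * lam ^ 6 ≤ 3840 * C₀ * ((2 : ℝ) ^ n) ^ (9 + ε) * (R₀ + 8 ^ n) := by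
      refine h1.trans ?_
      rw [h4, h5]
      calc (8 : ℝ) ^ n * (960 * D) ≤ 8 ^ n * (960 * (C₀ * ((2 : ℝ) ^ n) ^ (6 + ε) * (4 * (R₀ + 8 ^ n)))) := by
            apply mul_le_mul_of_nonneg_left _ (by positivity)
            linarith
        _ = _ := by ring
    have h11 : lam ^ (-(6 : ℝ)) = (lam ^ 6)⁻¹ := by
      rw [Real.rpow_neg hlam.le, show (6 : ℝ) = ((6 : ℕ) : ℝ) by norm_num, Real.rpow_natCast]
    have h12 : 0 < lam ^ 6 := by positivity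
    rw [h11]
    have h13 : (S.card : ℝ) ≤ 3840 * C₀ * ((2 : ℝ) ^ n) ^ (9 + ε) * (R₀ + 8 ^ n) * (lam ^ 6)⁻¹ := by
      rw [← div_eq_mul_inv, le_div_iff₀ h12]
      exact h10
    refine h13.trans ?_
    calc 3840 * C₀ * ((2 : ℝ) ^ n) ^ (9 + ε) * (R₀ + 8 ^ n) * (lam ^ 6)⁻¹
        = 3840 * C₀ * ((lam ^ 6)⁻¹ * ((2 : ℝ) ^ n) ^ (9 + ε) * (R₀ + 8 ^ n)) := by ring
      _ ≤ max C₁ (3840 * C₀) * ((lam ^ 6)⁻¹ * ((2 : ℝ) ^ n) ^ (9 + ε) * (R₀ + 8 ^ n)) := by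
          apply mul_le_mul_of_nonneg_right (le_max_right _ _)
          positivity
      _ = _ := by ring
  · intro c hc01 R hR hRS σ hσ hsup
    obtain ⟨p1, hp1, hc1⟩ := t1_cell n (show c.1 ∈ Icc (0 : ℝ) 1 from hc01.1)
    obtain ⟨p2, hp2, hc2⟩ := t1_cell n (show c.2 ∈ Icc (0 : ℝ) 1 from hc01.2)
    obtain ⟨p, hpdef⟩ : ∃ p : ℕ × ℕ, p = (p1, p2) := ⟨_, rfl⟩
    have hp : p ∈ G := by
      rw [hG, Finset.mem_product, hpdef]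
      exact ⟨Finset.mem_range.2 hp1, Finset.mem_range.2 hp2⟩
    have hc : c ∈ sq n p := by
      rw [hpdef]
      exact ⟨hc1, hc2⟩
    -- the number of the interval
    obtain ⟨j, hj, hRj⟩ : ∃ j ∈ Finset.range m, R ∈ Icc (R₀ + (j : ℝ) / 2 ^ n) (R₀ + ((j : ℝ) + 1) / 2 ^ n) := by
      have hRR : 0 ≤ R - R₀ := by linarith [hR.1]
      have hpos : 0 ≤ (R - R₀) * 2 ^ n := by positivity
      have hmpos : 1 ≤ m := by
        have : (0 : ℝ) < m := by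
          have : (0 : ℝ) < R₀ * 2 ^ n := by positivity
          linarith
        exact_mod_cast this
      by_cases hlt : (R - R₀) * 2 ^ n < m
      · refine ⟨⌊(R - R₀) * 2 ^ n⌋₊, Finset.mem_range.2 ((Nat.floor_lt hpos).2 hlt), ?_, ?_⟩
        · have h1 := Nat.floor_le hpos
          have h2 : (⌊(R - R₀) * 2 ^ n⌋₊ : ℝ) / 2 ^ n ≤ R - R₀ := by rwa [div_le_iff₀ h2n]
          linarith
        · have h1 := (Nat.lt_floor_add_one ((R - R₀) * 2 ^ n)).le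
          have h2 : R - R₀ ≤ ((⌊(R - R₀) * 2 ^ n⌋₊ : ℝ) + 1) / 2 ^ n := by rwa [le_div_iff₀ h2n]
          linarith
      · push Not at hlt
        have h1 : R - R₀ ≤ m / 2 ^ n := by linarith [hR.2]
        have h2 : (m : ℝ) / 2 ^ n ≤ R - R₀ := by rwa [div_le_iff₀ h2n]
        refine ⟨m - 1, Finset.mem_range.2 (by omega), ?_, ?_⟩
        · have h3 : ((m - 1 : ℕ) : ℝ) ≤ m := by exact_mod_cast Nat.sub_le m 1
          have h4 : ((m - 1 : ℕ) : ℝ) / 2 ^ n ≤ m / 2 ^ n := div_le_div_of_nonneg_right h3 h2n.le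
          linarith
        · have h3 : (((m - 1 : ℕ) : ℝ) + 1) = m := by
            rw [Nat.cast_sub hmpos]
            push_cast
            ring
          rw [h3]
          linarith
    have hYle : 2 ^ (3 * n) * Y p j ≤ lam ^ 6 := by
      by_contra hcon
      push Not at hcon
      exact hRS (p, j) (Finset.mem_filter.2 ⟨Finset.mem_product.2 ⟨hp, hj⟩, hcon⟩) ⟨hc, hRj⟩
    have key : ∀ b : Fin 3 → ℝ → ℤ × ℤ → ℂ, Yb2 H Λ s₀ β n b p R₀ j ≤ Y p j →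
        ‖VKc φ (fun θ => R * H θ + σ * δ) δ n c‖ ≤ C₁ * (R₀ ^ (1 / 2 : ℝ) * (2 : ℝ) ^ (-(3 / 2 : ℝ) * n) *
              (2 ^ (3 * n) * Yb2 H Λ s₀ β n b p R₀ j) ^ (1 / 6 : ℝ) + 2 ^ n) →
        ‖VKc φ (fun θ => R * H θ + σ * δ) δ n c‖ ≤
          max C₁ (3840 * C₀) * (R₀ ^ (1 / 2 : ℝ) * (2 : ℝ) ^ (-(3 / 2 : ℝ) * n) * lam + 2 ^ n) := by
      intro b hbY hle
      have h1 : (2 ^ (3 * n) * Yb2 H Λ s₀ β n b p R₀ j) ^ (1 / 6 : ℝ) ≤ lam := by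
        have h2 : 2 ^ (3 * n) * Yb2 H Λ s₀ β n b p R₀ j ≤ lam ^ 6 :=
          (mul_le_mul_of_nonneg_left hbY (by positivity)).trans hYle
        have h3 : 0 ≤ 2 ^ (3 * n) * Yb2 H Λ s₀ β n b p R₀ j := mul_nonneg (by positivity) (t1_Yb2_nonneg H Λ s₀ hβ n b p R₀ j)
        calc (2 ^ (3 * n) * Yb2 H Λ s₀ β n b p R₀ j) ^ (1 / 6 : ℝ) ≤ (lam ^ 6) ^ (1 / 6 : ℝ) :=
              Real.rpow_le_rpow h3 h2 (by norm_num)
          _ = lam := by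
              rw [← Real.rpow_natCast lam 6, ← Real.rpow_mul hlam.le]
              norm_num
      refine hle.trans ?_
      have h4 : R₀ ^ (1 / 2 : ℝ) * (2 : ℝ) ^ (-(3 / 2 : ℝ) * n) *
              (2 ^ (3 * n) * Yb2 H Λ s₀ β n b p R₀ j) ^ (1 / 6 : ℝ) + 2 ^ n ≤
              R₀ ^ (1 / 2 : ℝ) * (2 : ℝ) ^ (-(3 / 2 : ℝ) * n) * lam + 2 ^ n := by
        have : R₀ ^ (1 / 2 : ℝ) * (2 : ℝ) ^ (-(3 / 2 : ℝ) * n) *
              (2 ^ (3 * n) * Yb2 H Λ s₀ β n b p R₀ j) ^ (1 / 6 : ℝ) ≤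
              R₀ ^ (1 / 2 : ℝ) * (2 : ℝ) ^ (-(3 / 2 : ℝ) * n) * lam :=
          mul_le_mul_of_nonneg_left h1 (by positivity)
        linarith
      refine (mul_le_mul_of_nonneg_left h4 hC₁.le).trans ?_
      apply mul_le_mul_of_nonneg_right (le_max_left _ _)
      positivity
    rcases hσ with rfl | rfl
    · exact key bp (le_add_of_nonneg_right (t1_Yb2_nonneg H Λ s₀ hβ n bm p R₀ j)) (hbp3 p c hc j R hR hRj hsup)
    · exact key bm (le_add_of_nonneg_left (t1_Yb2_nonneg H Λ s₀ hβ n bp p R₀ j)) (hbm3 p c hc j R hR hRj hsup)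


end Pool.Agent.Helper22.SC
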