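import Pool.Agent.Helper22.SC.T1
import Pool.Agent.Helper22.SC.U9

/-!
# SC-T2: the measure of the pairs (centre, radius) with a large error

PROOF: copy of `meas_block2` (SC-U9) with `bad_boxes2` in place of `bad_radii2`. `B` = union over the middle blocks `n` (the same range of `n` as in U9, `2^n ≥ R₀^(2θ'-1)` up to small exponents) and
over `x ∈ S n` of the boxes `bxs n x.1 (2^N) x.2`, a finite union of closed boxes of volume `8^(-n)`. With `lam = (2^N)^(θ' - e - 1/2) · 2^(3n/2)`: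
`volume B ≤ ∑_n C lam^(-6) (2^n)^(9+ε') (2^N + 8^n) · 8^(-n) = ∑_n C (2^N)^(3 - 6θ' + 6e) (2^n)^(-3+ε') (2^N + 8^n)`,
and `2^n ≥ (2^N)^(2θ' - 1 - 2e)`, `n ≤ N`: `≤ C' N (2^N)^(4 - 6θ' + 6e - (3 - ε')(2θ' - 1 - 2e)) + C' N (2^N)^(3 - 6θ' + 6e + ε') ≤ C (2^N)^(7 - 12θ + ε)`
(`7 - 12θ ≥ 3 - 6θ` since `θ < 2/3`; choose `θ'` slightly below `θ`, `e`, `ε'` small, as `exps3` in U9: the exponent here is `(5 - 8θ') + (2 - 4θ')`, that is U9's exponent plus `-(2)(2θ'-1)`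
because the measure of a box is `8^(-n)` in place of `2^(-n)`; so the proof of U9 can be reused with the extra factor `4^(-n) ≤ (2^N)^(-2(2θ'-1-2e))`).
-/

open MeasureTheory Real Set Filter Topology

set_option autoImplicit false

namespace Pool.Agent.Helper22.SC

open Pool.Agent.Helper22.AE Pool.Agent.Helper22.AC

private theorem exps4 {θ ε : ℝ} (h1 : 1 / 2 < θ) (h2 : θ < 2 / 3) (hε : 0 < ε) : ∃ θ' e e2 ε' : ℝ, 0 < e ∧ 0 < e2 ∧ 0 < ε' ∧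
    ε' ≤ 1 ∧ 1 / 2 < θ' ∧ θ' < θ ∧ 2 * e < 2 * θ' - 1 ∧ 1 - θ' + e2 < 1 ∧ e + e2 ≤ 2 * θ' - 1 ∧
    4 - 6 * θ' + 6 * e - (3 - ε') * (2 * θ' - 1 - 2 * e) ≤ 7 - 12 * θ + ε / 2 ∧
    3 - 6 * θ' + 6 * e + ε' ≤ 7 - 12 * θ + ε / 2 := by
  obtain ⟨t, ht0, ht1, ht2, ht3⟩ : ∃ t : ℝ, 0 < t ∧ t ≤ ε / 50 ∧ t ≤ (2 * θ - 1) / 10 ∧ t ≤ 1 / 10 :=
    ⟨min (ε / 50) (min ((2 * θ - 1) / 10) (1 / 10)),
      lt_min (by linarith) (lt_min (by linarith) (by norm_num)), min_le_left _ _,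
      (min_le_right _ _).trans (min_le_left _ _), (min_le_right _ _).trans (min_le_right _ _)⟩
  refine ⟨θ - t, t, t, t, ht0, ht0, ht0, by linarith, by linarith, by linarith, by linarith,
    by linarith, by linarith, ?_, by linarith⟩
  have h3 : t * (2 * θ - 1 - 4 * t) ≤ t * 1 := mul_le_mul_of_nonneg_left (by linarith) ht0.le
  have h4 : 4 - 6 * (θ - t) + 6 * t - (3 - t) * (2 * (θ - t) - 1 - 2 * t) =
      7 - 12 * θ + 24 * t + t * (2 * θ - 1 - 4 * t) := by ring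
  rw [h4]
  linarith

private lemma t2a_pow (N : ℕ) (x : ℝ) : ((2 : ℝ) ^ N) ^ x = (2 : ℝ) ^ ((N : ℝ) * x) := by
  rw [← Real.rpow_natCast 2 N, ← Real.rpow_mul (by norm_num)]

private lemma t2a_card (N n : ℕ) {θ e ε : ℝ} :
    (((2 : ℝ) ^ N) ^ (θ - e - 1 / 2) * (2 : ℝ) ^ ((3 / 2 : ℝ) * n)) ^ (-(6 : ℝ)) * ((2 : ℝ) ^ n) ^ (9 + ε) *
      ((2 : ℝ) ^ N + 8 ^ n) =
    ((2 : ℝ) ^ n) ^ ε * (((2 : ℝ) ^ N) ^ (4 - 6 * θ + 6 * e) + 8 ^ n * ((2 : ℝ) ^ N) ^ (3 - 6 * θ + 6 * e)) := by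
  have h2 : (0 : ℝ) < 2 := by norm_num
  have e1 : (((2 : ℝ) ^ N) ^ (θ - e - 1 / 2) * (2 : ℝ) ^ ((3 / 2 : ℝ) * n)) ^ (-(6 : ℝ)) * ((2 : ℝ) ^ n) ^ (9 + ε) =
      ((2 : ℝ) ^ n) ^ ε * ((2 : ℝ) ^ N) ^ (3 - 6 * θ + 6 * e) := by
    rw [t2a_pow, t2a_pow, t2a_pow, t2a_pow, ← Real.rpow_add h2, ← Real.rpow_mul h2.le, ← Real.rpow_add h2, ← Real.rpow_add h2]
    congr 1
    ring
  have e2 : ((2 : ℝ) ^ N) ^ (4 - 6 * θ + 6 * e) = ((2 : ℝ) ^ N) ^ (3 - 6 * θ + 6 * e) * (2 : ℝ) ^ N := by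
    have h3 : (4 - 6 * θ + 6 * e) = (3 - 6 * θ + 6 * e) + 1 := by ring
    rw [h3, Real.rpow_add (by positivity), Real.rpow_one]
  rw [e1, e2]
  ring

private lemma t2a_N (N : ℕ) {e : ℝ} (he : 0 < e) : (N : ℝ) * ((2 : ℝ) ^ N) ^ (-e) ≤ 1 / (e * Real.log 2) := by
  have hl : 0 < Real.log 2 := Real.log_pos (by norm_num)
  have h1 : (N : ℝ) * (e * Real.log 2) ≤ ((2 : ℝ) ^ N) ^ e := by
    rw [t2a_pow, Real.rpow_def_of_pos (by norm_num)]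
    have := Real.add_one_le_exp (Real.log 2 * ((N : ℝ) * e))
    linarith
  have h2 : 0 < ((2 : ℝ) ^ N) ^ e := by positivity
  rw [Real.rpow_neg (by positivity), le_div_iff₀ (by positivity), mul_right_comm, ← div_eq_mul_inv, div_le_one h2]
  exact h1

/-- the levels -/
private noncomputable def t2a_mid (θ e e2 : ℝ) (N : ℕ) : Finset ℕ :=
  (Finset.range N).filter fun n => ((2 : ℝ) ^ N) ^ (2 * θ - 1 - 2 * e) ≤ 2 ^ n ∧ (2 : ℝ) ^ n ≤ 2 * ((2 : ℝ) ^ N) ^ (1 - θ + e2)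

private theorem t2a_term {θ' e ε' E : ℝ} (hε : 0 < ε') (hε1 : ε' ≤ 1)
    (hE1 : 4 - 6 * θ' + 6 * e - (3 - ε') * (2 * θ' - 1 - 2 * e) ≤ E)
    (hE2 : 3 - 6 * θ' + 6 * e + ε' ≤ E) {N n : ℕ} (hn : n ≤ N)
    (h1 : ((2 : ℝ) ^ N) ^ (2 * θ' - 1 - 2 * e) ≤ 2 ^ n) :
    ((2 : ℝ) ^ n) ^ ε' * (((2 : ℝ) ^ N) ^ (4 - 6 * θ' + 6 * e) + 8 ^ n * ((2 : ℝ) ^ N) ^ (3 - 6 * θ' + 6 * e)) / 8 ^ n ≤
      2 * ((2 : ℝ) ^ N) ^ E := by
  have hx : (1 : ℝ) ≤ 2 ^ N := one_le_pow₀ (by norm_num)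
  have hx0 : (0 : ℝ) < 2 ^ N := by positivity
  have h8 : (8 : ℝ) ^ n = ((2 : ℝ) ^ n) ^ (3 : ℝ) := by
    rw [show (3 : ℝ) = ((3 : ℕ) : ℝ) by norm_num, Real.rpow_natCast, ← pow_mul, mul_comm, pow_mul]
    norm_num
  have h80 : (0 : ℝ) < 8 ^ n := by positivity
  have e1 : ((2 : ℝ) ^ n) ^ ε' * (((2 : ℝ) ^ N) ^ (4 - 6 * θ' + 6 * e) + 8 ^ n * ((2 : ℝ) ^ N) ^ (3 - 6 * θ' + 6 * e)) / 8 ^ n =
      ((2 : ℝ) ^ n) ^ (-(3 - ε')) * ((2 : ℝ) ^ N) ^ (4 - 6 * θ' + 6 * e) +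
        ((2 : ℝ) ^ n) ^ ε' * ((2 : ℝ) ^ N) ^ (3 - 6 * θ' + 6 * e) := by
    have e2 : ((2 : ℝ) ^ n) ^ (-(3 - ε')) = ((2 : ℝ) ^ n) ^ ε' / 8 ^ n := by
      rw [h8, ← Real.rpow_sub (by positivity)]
      congr 1
      ring
    rw [e2]
    field_simp
  rw [e1]
  have f1 : ((2 : ℝ) ^ n) ^ (-(3 - ε')) ≤ ((2 : ℝ) ^ N) ^ (-(3 - ε') * (2 * θ' - 1 - 2 * e)) := by
    rw [mul_comm, Real.rpow_mul hx0.le]
    exact Real.rpow_le_rpow_of_nonpos (by positivity) h1 (by linarith)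
  have f2 : ((2 : ℝ) ^ n) ^ ε' ≤ ((2 : ℝ) ^ N) ^ ε' :=
    Real.rpow_le_rpow (by positivity) (pow_le_pow_right₀ (by norm_num) hn) hε.le
  have g1 : ((2 : ℝ) ^ n) ^ (-(3 - ε')) * ((2 : ℝ) ^ N) ^ (4 - 6 * θ' + 6 * e) ≤ ((2 : ℝ) ^ N) ^ E := by
    calc ((2 : ℝ) ^ n) ^ (-(3 - ε')) * ((2 : ℝ) ^ N) ^ (4 - 6 * θ' + 6 * e)
        ≤ ((2 : ℝ) ^ N) ^ (-(3 - ε') * (2 * θ' - 1 - 2 * e)) * ((2 : ℝ) ^ N) ^ (4 - 6 * θ' + 6 * e) :=
          mul_le_mul_of_nonneg_right f1 (by positivity)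
      _ = ((2 : ℝ) ^ N) ^ (4 - 6 * θ' + 6 * e - (3 - ε') * (2 * θ' - 1 - 2 * e)) := by
          rw [← Real.rpow_add hx0]
          congr 1
          ring
      _ ≤ ((2 : ℝ) ^ N) ^ E := Real.rpow_le_rpow_of_exponent_le hx hE1
  have g2 : ((2 : ℝ) ^ n) ^ ε' * ((2 : ℝ) ^ N) ^ (3 - 6 * θ' + 6 * e) ≤ ((2 : ℝ) ^ N) ^ E := by
    calc ((2 : ℝ) ^ n) ^ ε' * ((2 : ℝ) ^ N) ^ (3 - 6 * θ' + 6 * e)
        ≤ ((2 : ℝ) ^ N) ^ ε' * ((2 : ℝ) ^ N) ^ (3 - 6 * θ' + 6 * e) :=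
          mul_le_mul_of_nonneg_right f2 (by positivity)
      _ = ((2 : ℝ) ^ N) ^ (3 - 6 * θ' + 6 * e + ε') := by
          rw [← Real.rpow_add hx0]
          congr 1
          ring
      _ ≤ ((2 : ℝ) ^ N) ^ E := Real.rpow_le_rpow_of_exponent_le hx hE2
  linarith

private theorem t2a_vol (n : ℕ) (p : ℕ × ℕ) (R₀ : ℝ) (j : ℕ) :
    volume (bxs n p R₀ j) = ENNReal.ofReal (1 / 8 ^ n) := by
  have h0 : (0 : ℝ) ≤ 1 / 2 ^ n := by positivity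
  unfold bxs Pool.Agent.Helper22.AC.sq
  rw [Measure.volume_eq_prod, Measure.prod_prod, Measure.volume_eq_prod, Measure.prod_prod,
    Real.volume_Icc, Real.volume_Icc, Real.volume_Icc]
  have e1 : ((p.1 : ℝ) + 1) / 2 ^ n - (p.1 : ℝ) / 2 ^ n = 1 / 2 ^ n := by ring
  have e2 : ((p.2 : ℝ) + 1) / 2 ^ n - (p.2 : ℝ) / 2 ^ n = 1 / 2 ^ n := by ring
  have e3 : R₀ + ((j : ℝ) + 1) / 2 ^ n - (R₀ + (j : ℝ) / 2 ^ n) = 1 / 2 ^ n := by ring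
  rw [e1, e2, e3, ← ENNReal.ofReal_mul h0, ← ENNReal.ofReal_mul (by positivity)]
  congr 1
  rw [show (8 : ℝ) = 2 * 2 * 2 by norm_num, mul_pow, mul_pow]
  field_simp

private theorem t2a_meas (n : ℕ) (p : ℕ × ℕ) (R₀ : ℝ) (j : ℕ) : MeasurableSet (bxs n p R₀ j) :=
  ((measurableSet_Icc.prod measurableSet_Icc).prod measurableSet_Icc)

theorem joint_block {H : ℝ → ℝ} (hH : IsSupp H) {θ ε : ℝ} (h1 : 1 / 2 < θ) (h2 : θ < 2 / 3) (hε : 0 < ε) :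
    ∃ (C : ℝ) (N₀ : ℕ), 0 ≤ C ∧ ∀ N : ℕ, N₀ ≤ N → ∃ B : Set ((ℝ × ℝ) × ℝ), MeasurableSet B ∧
      volume B ≤ ENNReal.ofReal (C * ((2 : ℝ) ^ N) ^ (7 - 12 * θ + ε)) ∧
      ∀ c ∈ Icc (0 : ℝ) 1 ×ˢ Icc (0 : ℝ) 1, ∀ R ∈ Icc ((2 : ℝ) ^ N) (2 * 2 ^ N), R ^ θ < |erc H c R| → (c, R) ∈ B := by
  classical
  obtain ⟨θ', e, e2, ε', he, he2, hε', hε1, hθ1, hθ2, h2e, hτ1, hee, hE1, hE2⟩ := exps4 h1 h2 hε
  obtain ⟨φ, hφ⟩ := exists_bump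
  obtain ⟨C1, hC1, HB⟩ := bad_boxes2 hH hφ hε'
  obtain ⟨C2, hC2, HT⟩ := VKc_trivial hH hφ
  obtain ⟨C3, R1, hR1, HD⟩ := errc_le_blocks hH hφ (τ := 1 - θ') (e2 := e2) (by linarith) (by linarith) he2
  have hR : ∀ N : ℕ, (1 : ℝ) ≤ 2 ^ N := fun N => one_le_pow₀ (by norm_num)
  have hδ : ∀ N : ℕ, ((2 : ℝ) ^ N) ^ (-(1 - θ')) ∈ Icc (0 : ℝ) 1 := fun N =>
    ⟨by positivity, Real.rpow_le_one_of_one_le_of_nonpos (hR N) (by linarith)⟩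
  have hlam : ∀ N n : ℕ, 0 < ((2 : ℝ) ^ N) ^ (θ' - e - 1 / 2) * (2 : ℝ) ^ ((3 / 2 : ℝ) * n) := fun N n => by positivity
  choose S hS2 hS3 using fun (N n : ℕ) => HB ((2 : ℝ) ^ N) (hR N) n _ (hδ N) _ (hlam N n)
  obtain ⟨N2, hN2⟩ := pow_unbounded_of_one_lt R1 (by norm_num : (1 : ℝ) < 2)
  have hlog : 0 < Real.log 2 := Real.log_pos (by norm_num)
  obtain ⟨K, hK⟩ : ∃ K : ℝ, K = |C3| + (C2 + 2 * C1) * (1 / (e * Real.log 2)) := ⟨_, rfl⟩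
  have hK0 : 0 ≤ K := by rw [hK]; positivity
  -- the second threshold
  obtain ⟨N3, hN3⟩ : ∃ N3 : ℕ, ∀ N, N3 ≤ N → K ≤ ((2 : ℝ) ^ N) ^ (θ - θ') := by
    have ht : 0 < θ - θ' := by linarith
    have h2' : (1 : ℝ) < 2 ^ (θ - θ') := Real.one_lt_rpow (by norm_num) ht
    obtain ⟨N3, hN3⟩ := pow_unbounded_of_one_lt K h2'
    refine ⟨N3, fun N hN => ?_⟩
    have h5 : ((2 : ℝ) ^ N) ^ (θ - θ') = ((2 : ℝ) ^ (θ - θ')) ^ N := by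
      rw [← Real.rpow_natCast, ← Real.rpow_natCast, ← Real.rpow_mul (by norm_num), ← Real.rpow_mul (by norm_num), mul_comm]
    rw [h5]
    exact hN3.le.trans (pow_le_pow_right₀ h2'.le hN)
  -- one dyadic range
  have main : ∀ N, max N2 N3 ≤ N → ∀ R ∈ Icc ((2 : ℝ) ^ N) (2 * 2 ^ N),
      ∀ c ∈ Icc (0 : ℝ) 1 ×ˢ Icc (0 : ℝ) 1,
      (∀ n ∈ t2a_mid θ' e e2 N, ∀ x ∈ S N n, (c, R) ∉ bxs n x.1 ((2 : ℝ) ^ N) x.2) →
        |cntc H c R - area H * R ^ 2| ≤ R ^ θ := by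
    intro N hN R hRm c hc hgood
    have hR1N : R1 ≤ (2 : ℝ) ^ N := by
      have : (2 : ℝ) ^ N2 ≤ 2 ^ N := pow_le_pow_right₀ (by norm_num) ((le_max_left _ _).trans hN)
      linarith
    have hex : ∃ n1 : ℕ, ((2 : ℝ) ^ N) ^ (1 - θ' + e2) ≤ 2 ^ n1 := by
      refine ⟨N, ?_⟩
      calc ((2 : ℝ) ^ N) ^ (1 - θ' + e2) ≤ ((2 : ℝ) ^ N) ^ (1 : ℝ) := Real.rpow_le_rpow_of_exponent_le (hR N) hτ1.le
        _ = 2 ^ N := Real.rpow_one _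
    obtain ⟨n1, hn1d⟩ : ∃ n1, n1 = Nat.find hex := ⟨_, rfl⟩
    have hn1 : ((2 : ℝ) ^ N) ^ (1 - θ' + e2) ≤ 2 ^ n1 := by rw [hn1d]; exact Nat.find_spec hex
    have hn1N : n1 ≤ N := by
      rw [hn1d]
      apply Nat.find_min' hex
      calc ((2 : ℝ) ^ N) ^ (1 - θ' + e2) ≤ ((2 : ℝ) ^ N) ^ (1 : ℝ) := Real.rpow_le_rpow_of_exponent_le (hR N) hτ1.le
        _ = 2 ^ N := Real.rpow_one _
    have hmin : ∀ n < n1, (2 : ℝ) ^ n < ((2 : ℝ) ^ N) ^ (1 - θ' + e2) := by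
      intro n hn
      rw [hn1d] at hn
      exact not_le.1 (Nat.find_min hex hn)
    obtain ⟨σ, hσ, hsupp, hle⟩ := HD ((2 : ℝ) ^ N) hR1N R hRm c n1 hn1
    have h11 : 1 - (1 - θ') = θ' := by ring
    rw [h11] at hle
    have hblock : ∀ n ∈ Finset.range n1, ‖VKc φ (fun t => R * H t + σ * ((2 : ℝ) ^ N) ^ (-(1 - θ'))) (((2 : ℝ) ^ N) ^ (-(1 - θ'))) n c‖ ≤
        (C2 + 2 * C1) * ((2 : ℝ) ^ N) ^ (θ' - e) := by
      intro n hn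
      rw [Finset.mem_range] at hn
      have hone : 1 ≤ ((2 : ℝ) ^ N) ^ (θ' - e) := Real.one_le_rpow (hR N) (by linarith)
      by_cases hcase : (2 : ℝ) ^ n < ((2 : ℝ) ^ N) ^ (2 * θ' - 1 - 2 * e)
      · have h5 := HT ((2 : ℝ) ^ N) (hR N) n _ (hδ N) σ hσ R hRm hsupp c
        refine h5.trans ?_
        have h6 : (2 : ℝ) ^ ((n : ℝ) / 2) ≤ ((2 : ℝ) ^ N) ^ (θ' - 1 / 2 - e) := by
          have e3 : (2 : ℝ) ^ ((n : ℝ) / 2) = ((2 : ℝ) ^ n) ^ (1 / 2 : ℝ) := by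
            rw [t2a_pow]
            congr 1
            ring
          have e4 : ((2 : ℝ) ^ N) ^ (θ' - 1 / 2 - e) = (((2 : ℝ) ^ N) ^ (2 * θ' - 1 - 2 * e)) ^ (1 / 2 : ℝ) := by
            rw [← Real.rpow_mul (by positivity)]
            congr 1
            ring
          rw [e3, e4]
          exact Real.rpow_le_rpow (by positivity) hcase.le (by norm_num)
        calc C2 * ((2 : ℝ) ^ N) ^ (1 / 2 : ℝ) * (2 : ℝ) ^ ((n : ℝ) / 2) ≤ C2 * ((2 : ℝ) ^ N) ^ (1 / 2 : ℝ) * ((2 : ℝ) ^ N) ^ (θ' - 1 / 2 - e) :=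
              mul_le_mul_of_nonneg_left h6 (by positivity)
          _ = C2 * ((2 : ℝ) ^ N) ^ (θ' - e) := by
              rw [mul_assoc, ← Real.rpow_add (by positivity)]
              congr 2
              ring
          _ ≤ (C2 + 2 * C1) * ((2 : ℝ) ^ N) ^ (θ' - e) := mul_le_mul_of_nonneg_right (by linarith) (by positivity)
      · have hmid : n ∈ t2a_mid θ' e e2 N := by
          unfold t2a_mid
          rw [Finset.mem_filter, Finset.mem_range]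
          refine ⟨by omega, not_lt.1 hcase, ?_⟩
          have h7 := (hmin n hn).le
          have h8 : 0 ≤ ((2 : ℝ) ^ N) ^ (1 - θ' + e2) := by positivity
          linarith
        have h9 := hS3 N n c hc R hRm (hgood n hmid) σ hσ hsupp
        refine h9.trans ?_
        have e5 : ((2 : ℝ) ^ N) ^ (1 / 2 : ℝ) * (2 : ℝ) ^ (-(3 / 2 : ℝ) * n) *
            (((2 : ℝ) ^ N) ^ (θ' - e - 1 / 2) * (2 : ℝ) ^ ((3 / 2 : ℝ) * n)) = ((2 : ℝ) ^ N) ^ (θ' - e) := by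
          have h20 : (0 : ℝ) < 2 := by norm_num
          rw [t2a_pow, t2a_pow, t2a_pow, ← Real.rpow_add h20, ← Real.rpow_add h20, ← Real.rpow_add h20]
          congr 1
          ring
        rw [e5]
        have h7' : (2 : ℝ) ^ n ≤ ((2 : ℝ) ^ N) ^ (θ' - e) :=
          (hmin n hn).le.trans (Real.rpow_le_rpow_of_exponent_le (hR N) (by linarith))
        calc C1 * (((2 : ℝ) ^ N) ^ (θ' - e) + 2 ^ n) ≤ C1 * (((2 : ℝ) ^ N) ^ (θ' - e) + ((2 : ℝ) ^ N) ^ (θ' - e)) :=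
              mul_le_mul_of_nonneg_left (by linarith) hC1.le
          _ = 2 * C1 * ((2 : ℝ) ^ N) ^ (θ' - e) := by ring
          _ ≤ (C2 + 2 * C1) * ((2 : ℝ) ^ N) ^ (θ' - e) := mul_le_mul_of_nonneg_right (by linarith) (by positivity)
    have hsum2 := Finset.sum_le_sum hblock
    rw [Finset.sum_const, Finset.card_range, nsmul_eq_mul] at hsum2
    have hfin : (n1 : ℝ) * ((C2 + 2 * C1) * ((2 : ℝ) ^ N) ^ (θ' - e)) ≤ (C2 + 2 * C1) * (1 / (e * Real.log 2)) * ((2 : ℝ) ^ N) ^ θ' := by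
      have h10 : ((2 : ℝ) ^ N) ^ (θ' - e) = ((2 : ℝ) ^ N) ^ (-e) * ((2 : ℝ) ^ N) ^ θ' := by
        rw [← Real.rpow_add (by positivity)]
        congr 1
        ring
      have h12 := t2a_N N he
      have h13 : (n1 : ℝ) ≤ N := by exact_mod_cast hn1N
      calc (n1 : ℝ) * ((C2 + 2 * C1) * ((2 : ℝ) ^ N) ^ (θ' - e)) ≤ (N : ℝ) * ((C2 + 2 * C1) * ((2 : ℝ) ^ N) ^ (θ' - e)) :=
            mul_le_mul_of_nonneg_right h13 (by positivity)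
        _ = (C2 + 2 * C1) * ((N : ℝ) * ((2 : ℝ) ^ N) ^ (-e)) * ((2 : ℝ) ^ N) ^ θ' := by rw [h10]; ring
        _ ≤ (C2 + 2 * C1) * (1 / (e * Real.log 2)) * ((2 : ℝ) ^ N) ^ θ' := by
            apply mul_le_mul_of_nonneg_right _ (by positivity)
            exact mul_le_mul_of_nonneg_left h12 (by positivity)
    have h14 : C3 * ((2 : ℝ) ^ N) ^ θ' ≤ |C3| * ((2 : ℝ) ^ N) ^ θ' := mul_le_mul_of_nonneg_right (le_abs_self _) (by positivity)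
    have h15 : |cntc H c R - area H * R ^ 2| ≤ K * ((2 : ℝ) ^ N) ^ θ' := by
      rw [hK, add_mul]
      linarith
    have h16 := hN3 N ((le_max_right _ _).trans hN)
    calc |cntc H c R - area H * R ^ 2| ≤ K * ((2 : ℝ) ^ N) ^ θ' := h15
      _ ≤ ((2 : ℝ) ^ N) ^ (θ - θ') * ((2 : ℝ) ^ N) ^ θ' := mul_le_mul_of_nonneg_right h16 (by positivity)
      _ = ((2 : ℝ) ^ N) ^ θ := by
          rw [← Real.rpow_add (by positivity)]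
          congr 1
          ring
      _ ≤ R ^ θ := Real.rpow_le_rpow (by positivity) hRm.1 (by linarith)
  refine ⟨2 * C1 * (1 / (ε / 2 * Real.log 2)), max N2 N3, by positivity, fun N hN => ?_⟩
  refine ⟨⋃ n ∈ t2a_mid θ' e e2 N, ⋃ x ∈ S N n, bxs n x.1 ((2 : ℝ) ^ N) x.2, ?_, ?_, ?_⟩
  · exact Finset.measurableSet_biUnion _ fun n _ => Finset.measurableSet_biUnion _ fun x _ => t2a_meas _ _ _ _
  · have hterm : ∀ n ∈ t2a_mid θ' e e2 N, ((S N n).card : ℝ) * (1 / 8 ^ n) ≤ 2 * C1 * ((2 : ℝ) ^ N) ^ (7 - 12 * θ + ε / 2) := by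
      intro n hn
      unfold t2a_mid at hn
      rw [Finset.mem_filter, Finset.mem_range] at hn
      have h4 := hS2 N n
      rw [mul_assoc, mul_assoc, ← mul_assoc (_ ^ (-(6:ℝ))), t2a_card] at h4
      have h5 := t2a_term hε' hε1 hE1 hE2 hn.1.le hn.2.1
      have h6 : (0 : ℝ) < 1 / 8 ^ n := by positivity
      calc ((S N n).card : ℝ) * (1 / 8 ^ n) ≤ (C1 * (((2 : ℝ) ^ n) ^ ε' * (((2 : ℝ) ^ N) ^ (4 - 6 * θ' + 6 * e) +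
            8 ^ n * ((2 : ℝ) ^ N) ^ (3 - 6 * θ' + 6 * e)))) * (1 / 8 ^ n) := mul_le_mul_of_nonneg_right h4 h6.le
        _ = C1 * (((2 : ℝ) ^ n) ^ ε' * (((2 : ℝ) ^ N) ^ (4 - 6 * θ' + 6 * e) +
            8 ^ n * ((2 : ℝ) ^ N) ^ (3 - 6 * θ' + 6 * e)) / 8 ^ n) := by ring
        _ ≤ C1 * (2 * ((2 : ℝ) ^ N) ^ (7 - 12 * θ + ε / 2)) := mul_le_mul_of_nonneg_left h5 hC1.le
        _ = 2 * C1 * ((2 : ℝ) ^ N) ^ (7 - 12 * θ + ε / 2) := by ring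
    have hreal : ∑ n ∈ t2a_mid θ' e e2 N, ((S N n).card : ℝ) * (1 / 8 ^ n) ≤
        2 * C1 * (1 / (ε / 2 * Real.log 2)) * ((2 : ℝ) ^ N) ^ (7 - 12 * θ + ε) := by
      have hcard : ((t2a_mid θ' e e2 N).card : ℝ) ≤ N := by
        have : (t2a_mid θ' e e2 N).card ≤ N := by
          unfold t2a_mid
          exact (Finset.card_filter_le _ _).trans (by rw [Finset.card_range])
        exact_mod_cast this
      calc ∑ n ∈ t2a_mid θ' e e2 N, ((S N n).card : ℝ) * (1 / 8 ^ n)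
          ≤ ∑ n ∈ t2a_mid θ' e e2 N, 2 * C1 * ((2 : ℝ) ^ N) ^ (7 - 12 * θ + ε / 2) := Finset.sum_le_sum hterm
        _ = ((t2a_mid θ' e e2 N).card : ℝ) * (2 * C1 * ((2 : ℝ) ^ N) ^ (7 - 12 * θ + ε / 2)) := by
            rw [Finset.sum_const, nsmul_eq_mul]
        _ ≤ (N : ℝ) * (2 * C1 * ((2 : ℝ) ^ N) ^ (7 - 12 * θ + ε / 2)) :=
            mul_le_mul_of_nonneg_right hcard (by positivity)
        _ = 2 * C1 * ((N : ℝ) * ((2 : ℝ) ^ N) ^ (-(ε / 2))) * ((2 : ℝ) ^ N) ^ (7 - 12 * θ + ε) := by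
            have h7 : ((2 : ℝ) ^ N) ^ (7 - 12 * θ + ε / 2) = ((2 : ℝ) ^ N) ^ (-(ε / 2)) * ((2 : ℝ) ^ N) ^ (7 - 12 * θ + ε) := by
              rw [← Real.rpow_add (by positivity)]
              congr 1
              ring
            rw [h7]
            ring
        _ ≤ 2 * C1 * (1 / (ε / 2 * Real.log 2)) * ((2 : ℝ) ^ N) ^ (7 - 12 * θ + ε) := by
            apply mul_le_mul_of_nonneg_right _ (by positivity)
            exact mul_le_mul_of_nonneg_left (t2a_N N (by linarith)) (by positivity)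
    calc volume (⋃ n ∈ t2a_mid θ' e e2 N, ⋃ x ∈ S N n, bxs n x.1 ((2 : ℝ) ^ N) x.2)
        ≤ ∑ n ∈ t2a_mid θ' e e2 N, volume (⋃ x ∈ S N n, bxs n x.1 ((2 : ℝ) ^ N) x.2) := measure_biUnion_finset_le _ _
      _ ≤ ∑ n ∈ t2a_mid θ' e e2 N, ∑ x ∈ S N n, volume (bxs n x.1 ((2 : ℝ) ^ N) x.2) :=
          Finset.sum_le_sum fun n _ => measure_biUnion_finset_le _ _
      _ = ∑ n ∈ t2a_mid θ' e e2 N, ENNReal.ofReal (((S N n).card : ℝ) * (1 / 8 ^ n)) := by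
          refine Finset.sum_congr rfl fun n _ => ?_
          simp only [t2a_vol]
          rw [Finset.sum_const, nsmul_eq_mul, ENNReal.ofReal_mul (Nat.cast_nonneg _), ENNReal.ofReal_natCast]
      _ = ENNReal.ofReal (∑ n ∈ t2a_mid θ' e e2 N, ((S N n).card : ℝ) * (1 / 8 ^ n)) := by
          rw [ENNReal.ofReal_sum_of_nonneg]
          intro n _
          positivity
      _ ≤ ENNReal.ofReal (2 * C1 * (1 / (ε / 2 * Real.log 2)) * ((2 : ℝ) ^ N) ^ (7 - 12 * θ + ε)) :=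
          ENNReal.ofReal_le_ofReal hreal
  · intro c hc R hRm hbig
    by_contra hcon
    have hgood : ∀ n ∈ t2a_mid θ' e e2 N, ∀ x ∈ S N n, (c, R) ∉ bxs n x.1 ((2 : ℝ) ^ N) x.2 := by
      intro n hn x hx hmem
      apply hcon
      simp only [mem_iUnion]
      exact ⟨n, hn, x, hx, hmem⟩
    exact absurd (main N hN R hRm c hc hgood) (not_le.2 hbig)

end Pool.Agent.Helper22.SC
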