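import Pool.Agent.Helper22.SC.T2

/-!
# SC-T3: almost every centre, measure of the bad radii of a dyadic interval

PROOF of `ae_block`: `joint_block` with `ε/2`, sets `B N`. `volume (B N) = ∫⁻ c, volume (Prod.mk c ⁻¹' B N)` (`Measure.volume_eq_prod`, `Measure.prod_apply`). With `a N = ENNReal.ofReal ((2^N)^(7-12θ+ε))`
the set `E N = {c | a N ≤ volume (Prod.mk c ⁻¹' B N)}` has `a N * volume (E N) ≤ volume (B N)` (`mul_meas_ge_le_lintegral`), so `volume (E N) ≤ ofReal (C (2^N)^(-ε/2))`, summable. Borel-Cantelli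
(`ae_eventually_notMem`): almost every `c` is in `E N` for finitely many `N` only. For `c` in the unit square the set of the statement is contained in `Prod.mk c ⁻¹' B N`. For all `c`: `erc H c R`
is `ℤ²`-periodic in `c` (`cntc_add67` in SC-L7 is private, copy it; or see AC), so the exceptional set is contained in the union of the integer translates (`v : ℤ × ℤ`, countable) of the null set
`Z ∩ unit square`; translates of null sets are null (`measure_preimage_add_right` or `(measurePreserving_add_right _ _)`).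

PROOF of `pointwise_c`: copy of `pointwise` (SC-M2) with `c` in place of `(0, 0)`.

PROOF of `erc_meas`: `r ↦ cntc H c r` is monotone on `r ≥ 0` (`H > 0`: the condition `≤ r H t` is monotone in `r`; the sets of lattice points are finite), so measurable there (`MonotoneOn`,
`measurable_of_monotone` applied to `r ↦ cntc H c (max r 0)`), and it is locally bounded.
-/

open MeasureTheory Real Set Filter Topology

set_option autoImplicit false

namespace Pool.Agent.Helper22.SC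

open Pool.Agent.Helper22.AE Pool.Agent.Helper22.AC

private lemma cntc_add64 (H : ℝ → ℝ) (c : ℝ × ℝ) (m : ℤ × ℤ) (R : ℝ) :
    cntc H (c + ((m.1 : ℝ), (m.2 : ℝ))) R = cntc H c R := by
  unfold cntc
  congr 1
  refine Nat.card_congr ((Equiv.subRight m).subtypeEquiv fun k => ?_)
  have h1 : (((Equiv.subRight m) k).1 : ℝ) - c.1 = (k.1 : ℝ) - (c + ((m.1 : ℝ), (m.2 : ℝ))).1 := by
    simp only [Equiv.subRight_apply, Prod.fst_sub, Prod.fst_add]
    push_cast
    ring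
  have h2 : (((Equiv.subRight m) k).2 : ℝ) - c.2 = (k.2 : ℝ) - (c + ((m.1 : ℝ), (m.2 : ℝ))).2 := by
    simp only [Equiv.subRight_apply, Prod.snd_sub, Prod.snd_add]
    push_cast
    ring
  rw [h1, h2]

private lemma erc_fract64 (H : ℝ → ℝ) (c : ℝ × ℝ) (R : ℝ) :
    erc H (c - ((⌊c.1⌋ : ℝ), (⌊c.2⌋ : ℝ))) R = erc H c R := by
  unfold erc
  have h1 := cntc_add64 H (c - ((⌊c.1⌋ : ℝ), (⌊c.2⌋ : ℝ))) (⌊c.1⌋, ⌊c.2⌋) R
  simp only [sub_add_cancel] at h1
  rw [← h1]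

/-- The ae statement on a set of representatives. -/
private lemma ae_periodic64 {P : ℝ × ℝ → Prop} (hP : ∀ c : ℝ × ℝ, P (c - ((⌊c.1⌋ : ℝ), (⌊c.2⌋ : ℝ))) → P c)
    (h : ∀ᵐ c : ℝ × ℝ, c ∈ Icc (0 : ℝ) 1 ×ˢ Icc (0 : ℝ) 1 → P c) : ∀ᵐ c : ℝ × ℝ, P c := by
  have h1 : ∀ m : ℤ × ℤ, ∀ᵐ c : ℝ × ℝ, c - ((m.1 : ℝ), (m.2 : ℝ)) ∈ Icc (0 : ℝ) 1 ×ˢ Icc (0 : ℝ) 1 →
      P (c - ((m.1 : ℝ), (m.2 : ℝ))) := by
    intro m
    exact (measurePreserving_sub_right (volume : Measure (ℝ × ℝ)) ((m.1 : ℝ), (m.2 : ℝ))).quasiMeasurePreserving.ae h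
  have h2 := ae_all_iff.mpr h1
  filter_upwards [h2] with c hc
  apply hP
  refine hc (⌊c.1⌋, ⌊c.2⌋) ?_
  refine ⟨⟨?_, ?_⟩, ⟨?_, ?_⟩⟩
  · simp only [Prod.fst_sub]
    linarith [Int.floor_le c.1]
  · simp only [Prod.fst_sub]
    linarith [Int.lt_floor_add_one c.1]
  · simp only [Prod.snd_sub]
    linarith [Int.floor_le c.2]
  · simp only [Prod.snd_sub]
    linarith [Int.lt_floor_add_one c.2]

theorem ae_block {H : ℝ → ℝ} (hH : IsSupp H) {θ ε : ℝ} (h1 : 1 / 2 < θ) (h2 : θ < 2 / 3) (hε : 0 < ε) :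
    ∀ᵐ c : ℝ × ℝ, ∃ N₁ : ℕ, ∀ N : ℕ, N₁ ≤ N →
      volume {R : ℝ | R ∈ Icc ((2 : ℝ) ^ N) (2 * 2 ^ N) ∧ R ^ θ < |erc H c R|} ≤
        ENNReal.ofReal (((2 : ℝ) ^ N) ^ (7 - 12 * θ + ε)) := by
  obtain ⟨C, N₀, hC, hB⟩ := joint_block hH h1 h2 (half_pos hε)
  choose! B hBm hBv hBc using hB
  set s : ℝ := 7 - 12 * θ with hs
  have h2N : ∀ N : ℕ, (0 : ℝ) < (2 : ℝ) ^ N := fun N => by positivity
  set E : ℕ → Set (ℝ × ℝ) := fun N =>
    {c | ENNReal.ofReal (((2 : ℝ) ^ N) ^ (s + ε)) ≤ volume (Prod.mk c ⁻¹' B N)} with hE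
  have hEv : ∀ N, N₀ ≤ N → volume (E N) ≤ ENNReal.ofReal (C * ((2 : ℝ) ^ N) ^ (-(ε / 2))) := by
    intro N hN
    have h3 := mul_meas_ge_le_lintegral (μ := (volume : Measure (ℝ × ℝ)))
      (measurable_measure_prodMk_left (ν := (volume : Measure ℝ)) (hBm N hN)) (ENNReal.ofReal (((2 : ℝ) ^ N) ^ (s + ε)))
    rw [← Measure.prod_apply (hBm N hN)] at h3
    have h4 := h3.trans (hBv N hN)
    have hpos : 0 < ((2 : ℝ) ^ N) ^ (s + ε) := rpow_pos_of_pos (h2N N) _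
    rw [mul_comm] at h4
    have h5 := ENNReal.le_div_iff_mul_le (Or.inl (ENNReal.ofReal_pos.mpr hpos).ne') (Or.inl ENNReal.ofReal_ne_top) |>.mpr h4
    refine h5.trans ?_
    rw [← ENNReal.ofReal_div_of_pos hpos]
    apply ENNReal.ofReal_le_ofReal
    rw [mul_div_assoc, ← rpow_sub (h2N N)]
    apply le_of_eq
    congr 2
    ring
  have hsum : ∑' N, volume (E (N + N₀)) ≠ ⊤ := by
    have hr0 : (0 : ℝ) < 2 ^ (-(ε / 2)) := by positivity
    have hr1 : (2 : ℝ) ^ (-(ε / 2)) < 1 := rpow_lt_one_of_one_lt_of_neg (by norm_num) (by linarith)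
    have hform : ∀ N : ℕ, C * ((2 : ℝ) ^ (N + N₀)) ^ (-(ε / 2)) = (C * (2 ^ (-(ε / 2))) ^ N₀) * (2 ^ (-(ε / 2))) ^ N := by
      intro N
      rw [← rpow_natCast (2 : ℝ) (N + N₀), ← rpow_mul (by norm_num), mul_comm ((N + N₀ : ℕ) : ℝ), rpow_mul (by norm_num),
        rpow_natCast, pow_add]
      ring
    have hsm : Summable fun N : ℕ => C * ((2 : ℝ) ^ (N + N₀)) ^ (-(ε / 2)) := by
      simp only [hform]
      exact (summable_geometric_of_lt_one hr0.le hr1).mul_left _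
    refine ne_top_of_le_ne_top hsm.tsum_ofReal_ne_top (ENNReal.tsum_le_tsum fun N => hEv _ (by omega))
  have hae := ae_eventually_notMem hsum
  refine ae_periodic64 ?_ ?_
  · rintro c ⟨N₁, hN₁⟩
    refine ⟨N₁, fun N hN => ?_⟩
    have h3 := hN₁ N hN
    simp only [erc_fract64] at h3
    exact h3
  · filter_upwards [hae] with c hc hcI
    obtain ⟨M, hM⟩ := eventually_atTop.mp hc
    refine ⟨M + N₀, fun N hN => ?_⟩
    have h3 := hM (N - N₀) (by omega)
    rw [Nat.sub_add_cancel (by omega)] at h3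
    have h4 : volume (Prod.mk c ⁻¹' B N) < ENNReal.ofReal (((2 : ℝ) ^ N) ^ (s + ε)) := by
      by_contra h5
      exact h3 (not_lt.mp h5)
    refine le_trans (measure_mono ?_) h4.le
    rintro R ⟨hR1, hR2⟩
    exact hBc N (by omega) c hcI R hR1 hR2

end Pool.Agent.Helper22.SC
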