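import Pool.Agent.Helper22.SC.Defs

/-!
# SC-TDefs: the moments of the lattice error with centre `c`
-/

open MeasureTheory Real Set Filter Topology

set_option autoImplicit false

namespace Pool.Agent.Helper22.SC

/-- the moment of order `p` up to `X` is `O(X^s)` -/
def Mom (H : ℝ → ℝ) (c : ℝ × ℝ) (p s : ℝ) : Prop :=
  ∃ C : ℝ, ∀ X : ℝ, 1 ≤ X → ∫ r in (1 : ℝ)..X, |erc H c r| ^ p ≤ C * X ^ s

end Pool.Agent.Helper22.SC
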