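import Pool.Agent.Helper22.SC.M2
import Pool.Agent.Helper22.SC.TDefs

/-!
# SC-T3b: the trivial bound for every centre, and measurability

PROOF of `pointwise_c`: copy of `pointwise` (SC-M2) with `c` in place of `(0, 0)`.

PROOF of `erc_int`: `r ↦ cntc H c r` is monotone on `r ≥ 0` (`H > 0`: the condition `≤ r H t` is monotone in `r`; the sets of lattice points are finite), so measurable there (for instance
`Monotone.measurable` applied to `r ↦ cntc H c (max r 0)`), and bounded on bounded intervals (`cntc_bdd`). See also the integrability lemmas in SC-L3 / SC-L1 / SC-M1.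
-/

open MeasureTheory Real Set Filter Topology

set_option autoImplicit false

namespace Pool.Agent.Helper22.SC

open Pool.Agent.Helper22.AE Pool.Agent.Helper22.AC

private lemma geo_h72 (m : ℕ) : ∑ n ∈ Finset.range m, (2 : ℝ) ^ ((n : ℝ) / 2) ≤ 4 * (2 : ℝ) ^ ((m : ℝ) / 2) := by
  induction m with
  | zero => simp
  | succ m ih =>
    rw [Finset.sum_range_succ]
    have e : (2 : ℝ) ^ (((m + 1 : ℕ) : ℝ) / 2) = (2 : ℝ) ^ (1 / 2 : ℝ) * (2 : ℝ) ^ ((m : ℝ) / 2) := by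
      rw [← Real.rpow_add (by norm_num)]
      congr 1
      push_cast
      ring
    have h1 : (5 / 4 : ℝ) ≤ (2 : ℝ) ^ (1 / 2 : ℝ) := by
      rw [← Real.sqrt_eq_rpow]
      apply Real.le_sqrt_of_sq_le
      norm_num
    have h2 : (0 : ℝ) < (2 : ℝ) ^ ((m : ℝ) / 2) := by positivity
    rw [e]
    nlinarith

private lemma l172_finite (G : ℝ → ℝ) (c : ℝ × ℝ) :
    {k : ℤ × ℤ | ∀ θ : ℝ, ((k.1 : ℝ) - c.1) * cos θ + ((k.2 : ℝ) - c.2) * sin θ ≤ G θ}.Finite := by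
  apply Set.Finite.subset (Set.Finite.prod (Set.finite_Icc (-⌈G π - c.1⌉) ⌈G 0 + c.1⌉)
    (Set.finite_Icc (-⌈G (-(π / 2)) - c.2⌉) ⌈G (π / 2) + c.2⌉))
  intro k hk
  have hk' : ∀ θ : ℝ, ((k.1 : ℝ) - c.1) * cos θ + ((k.2 : ℝ) - c.2) * sin θ ≤ G θ := hk
  have h1 := hk' 0
  have h2 := hk' π
  have h3 := hk' (π / 2)
  have h4 := hk' (-(π / 2))
  simp only [cos_zero, sin_zero, cos_pi, sin_pi, cos_pi_div_two, sin_pi_div_two, cos_neg, sin_neg, mul_one,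
    mul_zero, add_zero, zero_add, mul_neg] at h1 h2 h3 h4
  rw [Set.mem_prod, Set.mem_Icc, Set.mem_Icc]
  refine ⟨⟨?_, ?_⟩, ?_, ?_⟩
  · have : (-(⌈G π - c.1⌉ : ℝ)) ≤ k.1 := by linarith [Int.le_ceil (G π - c.1)]
    exact_mod_cast this
  · have : (k.1 : ℝ) ≤ ⌈G 0 + c.1⌉ := by linarith [Int.le_ceil (G 0 + c.1)]
    exact_mod_cast this
  · have : (-(⌈G (-(π / 2)) - c.2⌉ : ℝ)) ≤ k.2 := by linarith [Int.le_ceil (G (-(π / 2)) - c.2)]
    exact_mod_cast this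
  · have : (k.2 : ℝ) ≤ ⌈G (π / 2) + c.2⌉ := by linarith [Int.le_ceil (G (π / 2) + c.2)]
    exact_mod_cast this

private lemma l172_mono {H : ℝ → ℝ} (hH : IsSupp H) (c : ℝ × ℝ) : Monotone (cntc H c) := by
  intro R R' h
  unfold cntc
  have hf := l172_finite (fun θ => R' * H θ) c
  have h1 : Nat.card {k : ℤ × ℤ | ∀ θ : ℝ, ((k.1 : ℝ) - c.1) * cos θ + ((k.2 : ℝ) - c.2) * sin θ ≤ R * H θ} ≤
      Nat.card {k : ℤ × ℤ | ∀ θ : ℝ, ((k.1 : ℝ) - c.1) * cos θ + ((k.2 : ℝ) - c.2) * sin θ ≤ R' * H θ} := by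
    apply Nat.card_mono hf
    intro k hk θ
    exact (hk θ).trans (mul_le_mul_of_nonneg_right h (hH.pos θ).le)
  exact_mod_cast h1

theorem pointwise_c {H : ℝ → ℝ} (hH : IsSupp H) (c : ℝ × ℝ) {κ : ℝ} (hκ : 0 < κ) : ∃ C : ℝ, 0 ≤ C ∧ ∀ r : ℝ, 1 ≤ r →
    |erc H c r| ≤ C * r ^ (2 / 3 + κ) := by
  classical
  obtain ⟨φ, hφ⟩ := exists_bump
  obtain ⟨C2, hC2, HT⟩ := VKc_trivial hH hφ
  obtain ⟨C3, R1, hR1, HD⟩ := errc_le_blocks hH hφ (τ := 1 / 3) (e2 := κ) (by norm_num) (by norm_num) hκ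
  obtain ⟨C0, hC0⟩ := cntc_bdd hH c R1
  refine ⟨|C0| + |C3| + 8 * C2, by positivity, fun r hr => ?_⟩
  have hr0 : 0 < r := by linarith
  have hone : 1 ≤ r ^ (2 / 3 + κ) := Real.one_le_rpow hr (by linarith)
  rcases le_total r R1 with hcase | hcase
  · have h1 := hC0 r hr hcase
    have h2 : |C0| ≤ (|C0| + |C3| + 8 * C2) * r ^ (2 / 3 + κ) := by
      have h3 : |C0| ≤ |C0| + |C3| + 8 * C2 := by
        have := abs_nonneg C3
        linarith
      have h4 : 0 ≤ |C0| + |C3| + 8 * C2 := by positivity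
      nlinarith
    exact (h1.trans (le_abs_self _)).trans h2
  · have hex : ∃ n1 : ℕ, r ^ (1 / 3 + κ) ≤ 2 ^ n1 := by
      obtain ⟨n, hn⟩ := pow_unbounded_of_one_lt (r ^ (1 / 3 + κ)) (one_lt_two : (1 : ℝ) < 2)
      exact ⟨n, hn.le⟩
    obtain ⟨n1, hn1d⟩ : ∃ n1, n1 = Nat.find hex := ⟨_, rfl⟩
    have hn1 : r ^ (1 / 3 + κ) ≤ 2 ^ n1 := by rw [hn1d]; exact Nat.find_spec hex
    have hmin : (2 : ℝ) ^ n1 ≤ 2 * r ^ (1 / 3 + κ) := by
      have hone' : 1 ≤ r ^ (1 / 3 + κ) := Real.one_le_rpow hr (by linarith)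
      rcases Nat.eq_zero_or_pos n1 with h0 | h0
      · rw [h0, pow_zero]
        linarith
      · have h5 : ¬ r ^ (1 / 3 + κ) ≤ 2 ^ (n1 - 1) := by
          apply Nat.find_min hex
          rw [← hn1d]
          omega
        have h6 : (2 : ℝ) ^ n1 = 2 * 2 ^ (n1 - 1) := by
          rw [← pow_succ']
          congr 1
          omega
        rw [h6]
        linarith [not_le.1 h5]
    obtain ⟨σ, hσ, hsupp, hle⟩ := HD r hcase r ⟨le_rfl, by linarith⟩ c n1 hn1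
    have hδ : r ^ (-(1 / 3) : ℝ) ∈ Icc (0 : ℝ) 1 :=
      ⟨by positivity, Real.rpow_le_one_of_one_le_of_nonpos hr (by norm_num)⟩
    have hblock : ∀ n ∈ Finset.range n1, ‖VKc φ (fun t => r * H t + σ * r ^ (-(1 / 3) : ℝ)) (r ^ (-(1 / 3) : ℝ)) n c‖ ≤
        C2 * r ^ (1 / 2 : ℝ) * (2 : ℝ) ^ ((n : ℝ) / 2) := fun n _ =>
      HT r hr n _ hδ σ hσ r ⟨le_rfl, by linarith⟩ hsupp c
    have hsum := Finset.sum_le_sum hblock
    rw [← Finset.mul_sum] at hsum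
    have h7 : (2 : ℝ) ^ ((n1 : ℝ) / 2) ≤ 2 * r ^ ((1 / 3 + κ) / 2) := by
      have e1 : (2 : ℝ) ^ ((n1 : ℝ) / 2) = ((2 : ℝ) ^ n1) ^ (1 / 2 : ℝ) := by
        rw [← Real.rpow_natCast, ← Real.rpow_mul (by norm_num)]
        congr 1
        ring
      have e2 : r ^ ((1 / 3 + κ) / 2) = (r ^ (1 / 3 + κ)) ^ (1 / 2 : ℝ) := by
        rw [← Real.rpow_mul hr0.le]
        congr 1
        ring
      rw [e1, e2]
      have e3 : ((2 : ℝ) ^ n1) ^ (1 / 2 : ℝ) ≤ (2 * r ^ (1 / 3 + κ)) ^ (1 / 2 : ℝ) :=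
        Real.rpow_le_rpow (by positivity) hmin (by norm_num)
      rw [Real.mul_rpow (by norm_num) (by positivity)] at e3
      have e4 : (2 : ℝ) ^ (1 / 2 : ℝ) ≤ 2 := by
        calc (2 : ℝ) ^ (1 / 2 : ℝ) ≤ (2 : ℝ) ^ (1 : ℝ) := Real.rpow_le_rpow_of_exponent_le (by norm_num) (by norm_num)
          _ = 2 := Real.rpow_one _
      exact e3.trans (mul_le_mul_of_nonneg_right e4 (by positivity))
    have h8 : C2 * r ^ (1 / 2 : ℝ) * ∑ n ∈ Finset.range n1, (2 : ℝ) ^ ((n : ℝ) / 2) ≤ 8 * C2 * r ^ (2 / 3 + κ) := by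
      have h9 : ∑ n ∈ Finset.range n1, (2 : ℝ) ^ ((n : ℝ) / 2) ≤ 8 * r ^ ((1 / 3 + κ) / 2) := by
        have := geo_h72 n1
        linarith
      calc C2 * r ^ (1 / 2 : ℝ) * ∑ n ∈ Finset.range n1, (2 : ℝ) ^ ((n : ℝ) / 2)
          ≤ C2 * r ^ (1 / 2 : ℝ) * (8 * r ^ ((1 / 3 + κ) / 2)) := mul_le_mul_of_nonneg_left h9 (by positivity)
        _ = 8 * C2 * (r ^ (1 / 2 : ℝ) * r ^ ((1 / 3 + κ) / 2)) := by ring
        _ = 8 * C2 * r ^ (1 / 2 + (1 / 3 + κ) / 2) := by rw [← Real.rpow_add hr0]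
        _ ≤ 8 * C2 * r ^ (2 / 3 + κ) := by
            apply mul_le_mul_of_nonneg_left _ (by positivity)
            apply Real.rpow_le_rpow_of_exponent_le hr
            linarith
    have h10 : C3 * r ^ (1 - 1 / 3 : ℝ) ≤ |C3| * r ^ (2 / 3 + κ) := by
      have h11 : r ^ (1 - 1 / 3 : ℝ) ≤ r ^ (2 / 3 + κ) := by
        apply Real.rpow_le_rpow_of_exponent_le hr
        linarith
      exact mul_le_mul (le_abs_self _) h11 (by positivity) (abs_nonneg _)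
    have h12 : 0 ≤ |C0| * r ^ (2 / 3 + κ) := by positivity
    have h13 : |erc H c r| ≤ C3 * r ^ (1 - 1 / 3 : ℝ) +
        ∑ n ∈ Finset.range n1, ‖VKc φ (fun t => r * H t + σ * r ^ (-(1 / 3) : ℝ)) (r ^ (-(1 / 3) : ℝ)) n c‖ := hle
    calc |erc H c r| ≤ |C3| * r ^ (2 / 3 + κ) + 8 * C2 * r ^ (2 / 3 + κ) := by linarith
      _ ≤ (|C0| + |C3| + 8 * C2) * r ^ (2 / 3 + κ) := by
          rw [add_mul, add_mul]
          linarith


theorem erc_meas {H : ℝ → ℝ} (hH : IsSupp H) (c : ℝ × ℝ) {p : ℝ} (hp : 0 ≤ p) {a b : ℝ} (ha : 1 ≤ a) :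
    IntegrableOn (fun r => |erc H c r| ^ p) (Icc a b) := by
  obtain ⟨C, hC⟩ := cntc_bdd hH c b
  have hmeas : Measurable (fun r => erc H c r) := by
    unfold erc
    exact (l172_mono hH c).measurable.sub (by fun_prop)
  have hm2 : Measurable (fun r => |erc H c r| ^ p) := by
    have h1 : Measurable (fun r => |erc H c r|) := hmeas.norm
    exact h1.pow_const p
  refine Measure.integrableOn_of_bounded (M := (|C|) ^ p) (by simp) hm2.aestronglyMeasurable ?_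
  rw [ae_restrict_iff' measurableSet_Icc]
  refine Filter.Eventually.of_forall fun r hr => ?_
  have h1 : |erc H c r| ≤ C := hC r (ha.trans hr.1) hr.2
  rw [Real.norm_of_nonneg (Real.rpow_nonneg (abs_nonneg _) _)]
  exact Real.rpow_le_rpow (abs_nonneg _) (h1.trans (le_abs_self _)) hp

end Pool.Agent.Helper22.SC
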