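import Pool.Agent.Helper22.SC.T3
import Pool.Agent.Helper22.SC.T3b

/-!
# SC-T4: the twelfth moment for almost every centre

PROOF. By `ae_all_iff` it is enough to fix `ε = 1/(j+1)` (monotone in `ε`). Let `η = ε/60` and take `m : ℕ` with `(2/3 - 1/2)/η < m`; grid `θ_i = 1/2 + (i+1) η` as long as `θ_i < 2/3` (use only the
indices with `θ_i < 2/3`, say `i < m'`, where `θ_(m'-1) < 2/3 ≤ θ_m'`; if `θ_0 ≥ 2/3`, shrink `η`: assume `ε ≤ 1`, so `θ_0 < 2/3`). Almost surely `ae_block` holds for all `θ_i`, `i < m'`, with `ε/4`. Fix such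
`c`; `pointwise_c` with `κ = η`. For `N ≥ N₁` and `R` in `[2^N, 2·2^N]` one of the following holds:
(a) `|E| ≤ R^θ_0`; (b) `R^θ_i < |E| ≤ R^θ_(i+1)` for some `i` with `i + 1 < m'`; (c) `R^θ_(m'-1) < |E| ≤ C R^(2/3+η) ≤ C R^(θ_(m'-1) + 2η)`.
So `|E|^12 ≤ (2·2^N)^(12 θ_0) + ∑_(i<m') 1_{R^θ_i < |E|} (1 + C^12) (2·2^N)^(12 (θ_i + 2η))`, and
`∫_[2^N, 2·2^N] |E|^12 ≤ C' ((2^N)^(1 + 6 + 12η) + m' (2^N)^(7 + 24 η + ε/4)) ≤ C'' (2^N)^(7 + ε)` (the measure of the level set is at most `(2^N)^(7 - 12 θ_i + ε/4)`).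
Sum over `N₁ ≤ N`, `2^N ≤ X` (geometric), and `[1, 2^N₁]` contributes a constant (`erc_meas`). For a cleaner proof one may use `lintegral` of `ENNReal.ofReal (|E|^12)`.
-/

open MeasureTheory Real Set Filter Topology

set_option autoImplicit false

namespace Pool.Agent.Helper22.SC

open Pool.Agent.Helper22.AE Pool.Agent.Helper22.AC

private noncomputable def th81 (η : ℝ) (i : ℕ) : ℝ := 1 / 2 + ((i : ℝ) + 1) * η

private theorem dom81 {f r A C η : ℝ} {m : ℕ} (hf : 0 ≤ f) (hA : 1 ≤ A) (hr : r ∈ Icc A (2 * A))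
    (hη : 0 < η) (hm : 1 ≤ m) (hm2 : 2 / 3 ≤ th81 η m) (hC : 0 ≤ C)
    (hfC : f ≤ C * r ^ (2 / 3 + η)) :
    f ^ (12 : ℝ) ≤ (2 * A) ^ (12 * th81 η 0) + ∑ i ∈ Finset.range m,
      (if r ^ (th81 η i) < f then (1 + C ^ (12 : ℝ)) * (2 * A) ^ (12 * (th81 η i + 2 * η)) else 0) := by
  have hr1 : 1 ≤ r := hA.trans hr.1
  have hr0 : 0 ≤ r := by linarith
  have hC12 : 0 ≤ C ^ (12 : ℝ) := Real.rpow_nonneg hC _
  have hterm : ∀ i, 0 ≤ (if r ^ (th81 η i) < f then
      (1 + C ^ (12 : ℝ)) * (2 * A) ^ (12 * (th81 η i + 2 * η)) else 0) := by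
    intro i
    split_ifs
    · positivity
    · exact le_rfl
  by_cases h0 : f ≤ r ^ (th81 η 0)
  · have h1 : f ^ (12 : ℝ) ≤ (2 * A) ^ (12 * th81 η 0) := by
      calc f ^ (12 : ℝ) ≤ (r ^ (th81 η 0)) ^ (12 : ℝ) := Real.rpow_le_rpow hf h0 (by norm_num)
        _ = r ^ (12 * th81 η 0) := by rw [← Real.rpow_mul hr0, mul_comm]
        _ ≤ (2 * A) ^ (12 * th81 η 0) := by
          apply Real.rpow_le_rpow hr0 hr.2
          unfold th81
          positivity
    exact h1.trans (le_add_of_nonneg_right (Finset.sum_nonneg fun i _ => hterm i))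
  · rw [not_le] at h0
    have hne : ((Finset.range m).filter fun i => r ^ (th81 η i) < f).Nonempty :=
      ⟨0, Finset.mem_filter.2 ⟨Finset.mem_range.2 (by omega), h0⟩⟩
    obtain ⟨i, hi, hmax⟩ := Finset.exists_max_image _ (fun i => i) hne
    rw [Finset.mem_filter, Finset.mem_range] at hi
    have hle : f ≤ (1 + C ^ (12 : ℝ)) ^ ((12 : ℝ)⁻¹) * r ^ (th81 η i + 2 * η) := by
      by_cases hi1 : i + 1 < m
      · have h2 : f ≤ r ^ (th81 η (i + 1)) := by
          by_contra h3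
          rw [not_le] at h3
          have := hmax (i + 1) (Finset.mem_filter.2 ⟨Finset.mem_range.2 hi1, h3⟩)
          omega
        have h3 : r ^ (th81 η (i + 1)) ≤ r ^ (th81 η i + 2 * η) := by
          apply Real.rpow_le_rpow_of_exponent_le hr1
          unfold th81
          push_cast
          nlinarith
        have h4 : 1 ≤ (1 + C ^ (12 : ℝ)) ^ ((12 : ℝ)⁻¹) :=
          Real.one_le_rpow (by linarith) (by norm_num)
        calc f ≤ r ^ (th81 η i + 2 * η) := h2.trans h3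
          _ ≤ _ := le_mul_of_one_le_left (Real.rpow_nonneg hr0 _) h4
      · have hi2 : m = i + 1 := by omega
        have h3 : r ^ (2 / 3 + η) ≤ r ^ (th81 η i + 2 * η) := by
          apply Real.rpow_le_rpow_of_exponent_le hr1
          rw [hi2] at hm2
          unfold th81 at hm2 ⊢
          push_cast at hm2
          nlinarith
        have h4 : C ≤ (1 + C ^ (12 : ℝ)) ^ ((12 : ℝ)⁻¹) := by
          calc C = (C ^ (12 : ℝ)) ^ ((12 : ℝ)⁻¹) := by
                rw [← Real.rpow_mul hC, mul_inv_cancel₀ (by norm_num), Real.rpow_one]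
            _ ≤ _ := Real.rpow_le_rpow hC12 (by linarith) (by norm_num)
        calc f ≤ C * r ^ (2 / 3 + η) := hfC
          _ ≤ _ := mul_le_mul h4 h3 (Real.rpow_nonneg hr0 _) (by positivity)
    have h5 : f ^ (12 : ℝ) ≤ (1 + C ^ (12 : ℝ)) * (2 * A) ^ (12 * (th81 η i + 2 * η)) := by
      calc f ^ (12 : ℝ) ≤ ((1 + C ^ (12 : ℝ)) ^ ((12 : ℝ)⁻¹) * r ^ (th81 η i + 2 * η)) ^ (12 : ℝ) :=
            Real.rpow_le_rpow hf hle (by norm_num)
        _ = (1 + C ^ (12 : ℝ)) * r ^ (12 * (th81 η i + 2 * η)) := by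
            rw [Real.mul_rpow (by positivity) (Real.rpow_nonneg hr0 _),
              ← Real.rpow_mul (by positivity), ← Real.rpow_mul hr0,
              inv_mul_cancel₀ (by norm_num), Real.rpow_one, mul_comm (th81 η i + 2 * η)]
        _ ≤ _ := by
            apply mul_le_mul_of_nonneg_left _ (by linarith)
            apply Real.rpow_le_rpow hr0 hr.2
            unfold th81
            positivity
    have h6 := Finset.single_le_sum (f := fun i => (if r ^ (th81 η i) < f then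
      (1 + C ^ (12 : ℝ)) * (2 * A) ^ (12 * (th81 η i + 2 * η)) else 0))
      (fun j _ => hterm j) (Finset.mem_range.2 hi.1)
    simp only [if_pos hi.2] at h6
    have h7 : 0 ≤ (2 * A) ^ (12 * th81 η 0) := by positivity
    linarith

private theorem block81 {f : ℝ → ℝ} {A C η ε : ℝ} {m : ℕ} (hf : ∀ r, 0 ≤ f r) (hA : 1 ≤ A)
    (hη : 0 < η) (hm : 1 ≤ m) (hm1 : (m : ℝ) * η < 1 / 6) (hm2 : 2 / 3 ≤ th81 η m) (hC : 0 ≤ C)
    (hε : ε = 60 * η) (hη1 : η ≤ 1 / 60)
    (hfC : ∀ r, 1 ≤ r → f r ≤ C * r ^ (2 / 3 + η))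
    (hint : IntegrableOn (fun r => f r ^ (12 : ℝ)) (Icc A (2 * A)))
    (hlev : ∀ i < m, volume {R : ℝ | R ∈ Icc A (2 * A) ∧ R ^ (th81 η i) < f R} ≤
      ENNReal.ofReal (A ^ (7 - 12 * th81 η i + ε / 4))) :
    ∫ r in Icc A (2 * A), f r ^ (12 : ℝ) ≤
      (2 ^ 7 + m * (1 + C ^ (12 : ℝ)) * 2 ^ 9) * A ^ (7 + ε) := by
  have hA0 : 0 < A := by linarith
  have hC12 : 0 ≤ C ^ (12 : ℝ) := Real.rpow_nonneg hC _
  let S : ℕ → Set ℝ := fun i => {R : ℝ | R ∈ Icc A (2 * A) ∧ R ^ (th81 η i) < f R}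
  let T : ℕ → Set ℝ := fun i => toMeasurable volume (S i)
  let b : ℕ → ℝ := fun i => (1 + C ^ (12 : ℝ)) * (2 * A) ^ (12 * (th81 η i + 2 * η))
  let a : ℝ := (2 * A) ^ (12 * th81 η 0)
  have hb : ∀ i, 0 ≤ b i := fun i => by positivity
  have ha : 0 ≤ a := by positivity
  have hdom : ∀ r ∈ Icc A (2 * A), ENNReal.ofReal (f r ^ (12 : ℝ)) ≤
      ENNReal.ofReal a + ∑ i ∈ Finset.range m,
        (T i).indicator (fun _ => ENNReal.ofReal (b i)) r := by
    intro r hr
    have h1 := dom81 (hf r) hA hr hη hm hm2 hC (hfC r (hA.trans hr.1))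
    have h2 : ∑ i ∈ Finset.range m, (if r ^ (th81 η i) < f r then b i else 0) =
        ∑ i ∈ Finset.range m, (S i).indicator (fun _ => b i) r := by
      refine Finset.sum_congr rfl fun i _ => ?_
      by_cases h3 : r ^ (th81 η i) < f r
      · rw [if_pos h3, Set.indicator_of_mem (show r ∈ S i from ⟨hr, h3⟩)]
      · rw [if_neg h3, Set.indicator_of_notMem (fun h4 : r ∈ S i => h3 h4.2)]
    have h3 : ENNReal.ofReal (f r ^ (12 : ℝ)) ≤ ENNReal.ofReal (a +
        ∑ i ∈ Finset.range m, (S i).indicator (fun _ => b i) r) := by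
      apply ENNReal.ofReal_le_ofReal
      rw [← h2]
      exact h1
    refine h3.trans ?_
    rw [ENNReal.ofReal_add ha (Finset.sum_nonneg fun i _ =>
      Set.indicator_nonneg (fun _ _ => hb i) _), ENNReal.ofReal_sum_of_nonneg (fun i _ =>
      Set.indicator_nonneg (fun _ _ => hb i) _)]
    gcongr with i hi
    by_cases h4 : r ∈ S i
    · rw [Set.indicator_of_mem h4, Set.indicator_of_mem (subset_toMeasurable volume (S i) h4)]
    · rw [Set.indicator_of_notMem h4, ENNReal.ofReal_zero]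
      exact zero_le
  have hlint : ∫⁻ r in Icc A (2 * A), ENNReal.ofReal (f r ^ (12 : ℝ)) ≤
      ENNReal.ofReal (a * A + ∑ i ∈ Finset.range m, b i * A ^ (7 - 12 * th81 η i + ε / 4)) := by
    calc ∫⁻ r in Icc A (2 * A), ENNReal.ofReal (f r ^ (12 : ℝ)) ≤
        ∫⁻ r in Icc A (2 * A), (ENNReal.ofReal a + ∑ i ∈ Finset.range m,
        (T i).indicator (fun _ => ENNReal.ofReal (b i)) r) :=
          setLIntegral_mono' measurableSet_Icc hdom
      _ = ENNReal.ofReal a * ENNReal.ofReal A + ∑ i ∈ Finset.range m,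
          ∫⁻ r in Icc A (2 * A), (T i).indicator (fun _ => ENNReal.ofReal (b i)) r := by
          rw [lintegral_add_left measurable_const, lintegral_finsetSum]
          · congr 1
            rw [lintegral_const, Measure.restrict_apply MeasurableSet.univ, Set.univ_inter,
              Real.volume_Icc]
            congr 2
            ring
          · intro i _
            exact measurable_const.indicator (measurableSet_toMeasurable _ _)
      _ ≤ ENNReal.ofReal a * ENNReal.ofReal A + ∑ i ∈ Finset.range m,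
          ENNReal.ofReal (b i) * ENNReal.ofReal (A ^ (7 - 12 * th81 η i + ε / 4)) := by
          gcongr with i hi
          rw [Finset.mem_range] at hi
          calc ∫⁻ r in Icc A (2 * A), (T i).indicator (fun _ => ENNReal.ofReal (b i)) r
              ≤ ENNReal.ofReal (b i) * (volume.restrict (Icc A (2 * A))) (T i) :=
                lintegral_indicator_const_le _ _
            _ ≤ ENNReal.ofReal (b i) * volume (T i) := by
                gcongr
                exact Measure.restrict_le_self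
            _ = ENNReal.ofReal (b i) * volume (S i) := by rw [measure_toMeasurable]
            _ ≤ _ := by
                gcongr
                exact hlev i hi
      _ = _ := by
          rw [ENNReal.ofReal_add (by positivity) (Finset.sum_nonneg fun i _ =>
            mul_nonneg (hb i) (by positivity)), ENNReal.ofReal_mul ha,
            ENNReal.ofReal_sum_of_nonneg (fun i _ => mul_nonneg (hb i) (by positivity))]
          congr 1
          refine Finset.sum_congr rfl fun i _ => ?_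
          rw [ENNReal.ofReal_mul (hb i)]
  have hI : ∫ r in Icc A (2 * A), f r ^ (12 : ℝ) ≤
      a * A + ∑ i ∈ Finset.range m, b i * A ^ (7 - 12 * th81 η i + ε / 4) := by
    rw [integral_eq_lintegral_of_nonneg_ae
      (Filter.Eventually.of_forall fun r => Real.rpow_nonneg (hf r) _) hint.aestronglyMeasurable]
    refine ENNReal.toReal_le_of_le_ofReal ?_ hlint
    exact add_nonneg (by positivity) (Finset.sum_nonneg fun i _ =>
      mul_nonneg (hb i) (by positivity))
  refine hI.trans ?_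
  have h1 : a * A ≤ 2 ^ 7 * A ^ (7 + ε) := by
    have e1 : a = 2 ^ (12 * th81 η 0) * A ^ (12 * th81 η 0) :=
      Real.mul_rpow (by norm_num) hA0.le
    have e2 : (2 : ℝ) ^ (12 * th81 η 0) ≤ 2 ^ (7 : ℕ) := by
      rw [← Real.rpow_natCast]
      apply Real.rpow_le_rpow_of_exponent_le (by norm_num)
      unfold th81
      push_cast
      nlinarith
    have e3 : A ^ (12 * th81 η 0) * A ≤ A ^ (7 + ε) := by
      calc A ^ (12 * th81 η 0) * A = A ^ (12 * th81 η 0 + 1) := by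
            rw [Real.rpow_add hA0, Real.rpow_one]
        _ ≤ A ^ (7 + ε) := by
            apply Real.rpow_le_rpow_of_exponent_le hA
            unfold th81
            push_cast
            nlinarith
    calc a * A = 2 ^ (12 * th81 η 0) * (A ^ (12 * th81 η 0) * A) := by rw [e1]; ring
      _ ≤ _ := mul_le_mul e2 e3 (by positivity) (by positivity)
  have h2 : ∀ i ∈ Finset.range m, b i * A ^ (7 - 12 * th81 η i + ε / 4) ≤
      (1 + C ^ (12 : ℝ)) * 2 ^ 9 * A ^ (7 + ε) := by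
    intro i hi
    rw [Finset.mem_range] at hi
    have hi' : (i : ℝ) + 1 ≤ m := by exact_mod_cast hi
    have hiη : ((i : ℝ) + 1) * η < 1 / 6 :=
      lt_of_le_of_lt (mul_le_mul_of_nonneg_right hi' hη.le) hm1
    have e1 : (2 * A) ^ (12 * (th81 η i + 2 * η)) =
        2 ^ (12 * (th81 η i + 2 * η)) * A ^ (12 * (th81 η i + 2 * η)) :=
      Real.mul_rpow (by norm_num) hA0.le
    have e2 : (2 : ℝ) ^ (12 * (th81 η i + 2 * η)) ≤ 2 ^ (9 : ℕ) := by
      rw [← Real.rpow_natCast]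
      apply Real.rpow_le_rpow_of_exponent_le (by norm_num)
      unfold th81
      push_cast
      nlinarith
    have e3 : A ^ (12 * (th81 η i + 2 * η)) * A ^ (7 - 12 * th81 η i + ε / 4) ≤ A ^ (7 + ε) := by
      rw [← Real.rpow_add hA0]
      apply Real.rpow_le_rpow_of_exponent_le hA
      nlinarith
    calc b i * A ^ (7 - 12 * th81 η i + ε / 4) =
        (1 + C ^ (12 : ℝ)) * (2 ^ (12 * (th81 η i + 2 * η)) *
          (A ^ (12 * (th81 η i + 2 * η)) * A ^ (7 - 12 * th81 η i + ε / 4))) := by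
          show (1 + C ^ (12 : ℝ)) * (2 * A) ^ (12 * (th81 η i + 2 * η)) *
            A ^ (7 - 12 * th81 η i + ε / 4) = _
          rw [e1]
          ring
      _ ≤ (1 + C ^ (12 : ℝ)) * (2 ^ 9 * A ^ (7 + ε)) := by
          apply mul_le_mul_of_nonneg_left _ (by linarith)
          exact mul_le_mul e2 e3 (by positivity) (by positivity)
      _ = _ := by ring
  have h3 := Finset.sum_le_sum h2
  rw [Finset.sum_const, Finset.card_range, nsmul_eq_mul] at h3
  calc a * A + ∑ i ∈ Finset.range m, b i * A ^ (7 - 12 * th81 η i + ε / 4)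
      ≤ 2 ^ 7 * A ^ (7 + ε) + m * ((1 + C ^ (12 : ℝ)) * 2 ^ 9 * A ^ (7 + ε)) := add_le_add h1 h3
    _ = _ := by ring

private theorem moment81 {f : ℝ → ℝ} (hf : ∀ r, 0 ≤ f r) {s K : ℝ} (hs : 1 ≤ s) (hK : 0 ≤ K) {N₁ : ℕ}
    (hint : ∀ a b : ℝ, 1 ≤ a → IntegrableOn f (Icc a b))
    (hbl : ∀ N : ℕ, N₁ ≤ N → ∫ r in Icc ((2 : ℝ) ^ N) (2 * 2 ^ N), f r ≤ K * ((2 : ℝ) ^ N) ^ s) :
    ∃ C : ℝ, ∀ X : ℝ, 1 ≤ X → ∫ r in (1 : ℝ)..X, f r ≤ C * X ^ s := by
  have hpow : ∀ N : ℕ, (1 : ℝ) ≤ 2 ^ N := fun N => one_le_pow₀ (by norm_num)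
  have hii : ∀ a b : ℝ, 1 ≤ a → a ≤ b → IntervalIntegrable f volume a b := by
    intro a b ha hab
    rw [intervalIntegrable_iff_integrableOn_Icc_of_le hab]
    exact hint a b ha
  have hmono : ∀ a b : ℝ, 1 ≤ a → a ≤ b → ∫ r in (1 : ℝ)..a, f r ≤ ∫ r in (1 : ℝ)..b, f r := by
    intro a b ha hab
    rw [← intervalIntegral.integral_add_adjacent_intervals (hii 1 a le_rfl ha) (hii a b ha hab)]
    have := intervalIntegral.integral_nonneg (μ := volume) hab (fun r _ => hf r)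
    linarith
  let K' : ℝ := K + ∫ r in (1 : ℝ)..(2 ^ N₁), f r
  have hI0 : 0 ≤ ∫ r in (1 : ℝ)..(2 ^ N₁), f r :=
    intervalIntegral.integral_nonneg (hpow N₁) (fun r _ => hf r)
  have hK' : 0 ≤ K' := add_nonneg hK hI0
  have hL : ∀ L : ℕ, ∫ r in (1 : ℝ)..(2 ^ L), f r ≤ K' * ((2 : ℝ) ^ L) ^ s := by
    intro L
    induction L with
    | zero =>
      rw [pow_zero, intervalIntegral.integral_same]
      positivity
    | succ L ih =>
      by_cases hLN : N₁ ≤ L
      · have h2 : ∫ r in (1 : ℝ)..(2 ^ (L + 1)), f r =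
            (∫ r in (1 : ℝ)..(2 ^ L), f r) + ∫ r in Icc ((2 : ℝ) ^ L) (2 * 2 ^ L), f r := by
          rw [← intervalIntegral.integral_add_adjacent_intervals
            (hii 1 (2 ^ L) le_rfl (hpow L)) (hii (2 ^ L) (2 ^ (L + 1)) (hpow L) (by
              rw [pow_succ]; linarith [hpow L]))]
          congr 1
          rw [intervalIntegral.integral_of_le (by rw [pow_succ]; linarith [hpow L]),
            integral_Icc_eq_integral_Ioc, pow_succ, mul_comm ((2 : ℝ) ^ L) 2]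
        rw [h2]
        have h3 := hbl L hLN
        have h4 : ((2 : ℝ) ^ (L + 1)) ^ s = 2 ^ s * ((2 : ℝ) ^ L) ^ s := by
          rw [pow_succ, mul_comm ((2 : ℝ) ^ L) 2, Real.mul_rpow (by norm_num) (by positivity)]
        have h5 : (2 : ℝ) ≤ 2 ^ s := by
          calc (2 : ℝ) = 2 ^ (1 : ℝ) := (Real.rpow_one 2).symm
            _ ≤ 2 ^ s := Real.rpow_le_rpow_of_exponent_le (by norm_num) hs
        have h6 : 0 ≤ ((2 : ℝ) ^ L) ^ s := by positivity
        have h7 : K ≤ K' := le_add_of_nonneg_right hI0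
        calc (∫ r in (1 : ℝ)..(2 ^ L), f r) + ∫ r in Icc ((2 : ℝ) ^ L) (2 * 2 ^ L), f r
            ≤ K' * ((2 : ℝ) ^ L) ^ s + K' * ((2 : ℝ) ^ L) ^ s :=
              add_le_add ih (h3.trans (mul_le_mul_of_nonneg_right h7 h6))
          _ = K' * (2 * ((2 : ℝ) ^ L) ^ s) := by ring
          _ ≤ K' * (2 ^ s * ((2 : ℝ) ^ L) ^ s) := by gcongr
          _ = _ := by rw [h4]
      · have h2 : ∫ r in (1 : ℝ)..(2 ^ (L + 1)), f r ≤ ∫ r in (1 : ℝ)..(2 ^ N₁), f r :=
          hmono _ _ (hpow _) (pow_le_pow_right₀ (by norm_num) (by omega))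
        have h3 : (1 : ℝ) ≤ ((2 : ℝ) ^ (L + 1)) ^ s :=
          Real.one_le_rpow (hpow _) (by linarith)
        calc ∫ r in (1 : ℝ)..(2 ^ (L + 1)), f r ≤ K' := h2.trans (le_add_of_nonneg_left hK)
          _ ≤ _ := le_mul_of_one_le_right hK' h3
  refine ⟨K' * 2 ^ s, fun X hX => ?_⟩
  obtain ⟨L, hL1, hL2⟩ : ∃ L : ℕ, X ≤ 2 ^ L ∧ (2 : ℝ) ^ L ≤ 2 * X := by
    obtain ⟨n, hn1, hn2⟩ := exists_nat_pow_near hX (by norm_num : (1 : ℝ) < 2)
    refine ⟨n + 1, hn2.le, ?_⟩
    rw [pow_succ]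
    linarith
  calc ∫ r in (1 : ℝ)..X, f r ≤ ∫ r in (1 : ℝ)..(2 ^ L), f r := hmono _ _ hX hL1
    _ ≤ K' * ((2 : ℝ) ^ L) ^ s := hL L
    _ ≤ K' * (2 * X) ^ s := by
        apply mul_le_mul_of_nonneg_left _ hK'
        exact Real.rpow_le_rpow (by positivity) hL2 (by linarith)
    _ = K' * 2 ^ s * X ^ s := by
        rw [Real.mul_rpow (by norm_num) (by linarith)]
        ring

private theorem Mom.mono81 {H : ℝ → ℝ} {c : ℝ × ℝ} {p s s' : ℝ} (h : Mom H c p s) (hs : s ≤ s') :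
    Mom H c p s' := by
  obtain ⟨C, hC⟩ := h
  refine ⟨|C|, fun X hX => (hC X hX).trans ?_⟩
  calc C * X ^ s ≤ |C| * X ^ s :=
        mul_le_mul_of_nonneg_right (le_abs_self C) (by positivity)
    _ ≤ |C| * X ^ s' := mul_le_mul_of_nonneg_left
        (Real.rpow_le_rpow_of_exponent_le hX hs) (abs_nonneg C)

theorem ae_twelfth {H : ℝ → ℝ} (hH : IsSupp H) : ∀ᵐ c : ℝ × ℝ, ∀ ε : ℝ, 0 < ε → Mom H c 12 (7 + ε) := by
  have hmain : ∀ j : ℕ, ∀ᵐ c : ℝ × ℝ, Mom H c 12 (7 + 1 / ((j : ℝ) + 1)) := by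
    intro j
    set ε : ℝ := 1 / ((j : ℝ) + 1) with hεdef
    have hε0 : 0 < ε := by positivity
    have hε1 : ε ≤ 1 := by
      rw [hεdef, div_le_one (by positivity)]
      have : (0 : ℝ) ≤ j := Nat.cast_nonneg j
      linarith
    set η : ℝ := ε / 60 with hη
    have hη0 : 0 < η := by positivity
    have hη1 : η ≤ 1 / 60 := by
      rw [hη]
      linarith
    obtain ⟨m, hm1, hm2⟩ : ∃ m : ℕ, (m : ℝ) * η < 1 / 6 ∧ 1 / 6 ≤ ((m : ℝ) + 1) * η := by
      have h1 : 0 < ⌈(1 / 6) / η⌉₊ := Nat.ceil_pos.2 (by positivity)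
      refine ⟨⌈(1 / 6) / η⌉₊ - 1, ?_, ?_⟩
      · rw [← lt_div_iff₀ hη0]
        have h2 : ⌈(1 / 6) / η⌉₊ - 1 < ⌈(1 / 6) / η⌉₊ := by omega
        exact Nat.lt_ceil.1 h2
      · rw [← div_le_iff₀ hη0]
        have h2 := Nat.le_ceil ((1 / 6) / η)
        have h3 : ((⌈(1 / 6) / η⌉₊ - 1 : ℕ) : ℝ) + 1 = (⌈(1 / 6) / η⌉₊ : ℝ) := by
          rw [← Nat.cast_succ]
          congr 1
          omega
        rw [h3]
        exact h2
    have hm : 1 ≤ m := by
      by_contra h1
      have h2 : m = 0 := by omega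
      rw [h2] at hm2
      norm_num at hm2
      linarith
    have hth : ∀ i < m, 1 / 2 < th81 η i ∧ th81 η i < 2 / 3 := by
      intro i hi
      have hi' : (i : ℝ) + 1 ≤ m := by exact_mod_cast hi
      have h1 : ((i : ℝ) + 1) * η < 1 / 6 :=
        lt_of_le_of_lt (mul_le_mul_of_nonneg_right hi' hη0.le) hm1
      have h2 : 0 < ((i : ℝ) + 1) * η := by positivity
      unfold th81
      constructor <;> linarith
    have hae : ∀ᵐ c : ℝ × ℝ, ∀ i : ℕ, i < m → ∃ N₁ : ℕ, ∀ N : ℕ, N₁ ≤ N →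
        volume {R : ℝ | R ∈ Icc ((2 : ℝ) ^ N) (2 * 2 ^ N) ∧ R ^ (th81 η i) < |erc H c R|} ≤
        ENNReal.ofReal (((2 : ℝ) ^ N) ^ (7 - 12 * th81 η i + ε / 4)) := by
      rw [ae_all_iff]
      intro i
      by_cases hi : i < m
      · filter_upwards [ae_block hH (hth i hi).1 (hth i hi).2 (by positivity : 0 < ε / 4)]
          with c hc _
        exact hc
      · exact Filter.Eventually.of_forall fun c h => absurd h hi
    filter_upwards [hae] with c hc
    choose! N₁ hN₁ using hc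
    obtain ⟨C, hC0, hC⟩ := pointwise_c hH c hη0
    have hbl : ∀ N : ℕ, (Finset.range m).sup N₁ ≤ N →
        ∫ r in Icc ((2 : ℝ) ^ N) (2 * 2 ^ N), |erc H c r| ^ (12 : ℝ) ≤
        (2 ^ 7 + m * (1 + C ^ (12 : ℝ)) * 2 ^ 9) * ((2 : ℝ) ^ N) ^ (7 + ε) := by
      intro N hN
      refine block81 (f := fun r => |erc H c r|) (η := η) (m := m) (fun r => abs_nonneg _)
        (one_le_pow₀ (by norm_num)) hη0 hm hm1 ?_ hC0 (by rw [hη]; ring) hη1 hC
        (erc_meas hH c (by norm_num) (one_le_pow₀ (by norm_num))) ?_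
      · unfold th81
        linarith
      · intro i hi
        exact hN₁ i hi N ((Finset.le_sup (Finset.mem_range.2 hi)).trans hN)
    exact moment81 (f := fun r => |erc H c r| ^ (12 : ℝ))
      (fun r => Real.rpow_nonneg (abs_nonneg _) _) (by linarith) (by positivity)
      (fun a b ha => erc_meas hH c (by norm_num) ha) hbl
  filter_upwards [ae_all_iff.2 hmain] with c hc ε hε
  obtain ⟨j, hj⟩ := exists_nat_one_div_lt hε
  exact Mom.mono81 (hc j) (by linarith)

end Pool.Agent.Helper22.SC
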