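import Pool.Agent.Helper22.SC.L7
import Pool.Agent.Helper22.SC.T3b

/-!
# SC-T5: lower bound for the moments at an aligned radius

PROOF. As `bad_of_avg` (SC-L7): `w, W` from `exists_ker`, `neg_avg` gives `A c₀ N₀ R₁` and `Avc w H c (N/A) R ≤ -(c₀ R^(1/2) N^(1/2))`. `K = N/A`. `qw ≥ 0` on `[R/2, 3R/2]` (`qw_nonneg`), `∫ qw ≤ 2`
(`qw_int`), `qw ≤ 2 K C₂` with `C₂ = sup w` (from `IsKer.decay`: `w u ≤ w u (1+|u|)^k ≤ C₂`; `R/r ≤ 2`). Jensen / Hölder for `p ≥ 1`: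
`(c₀ R^(1/2) N^(1/2))^p ≤ (∫ qw |erc|)^p ≤ (∫ qw)^(p-1) ∫ qw |erc|^p ≤ 2^(p-1) · 2 K C₂ ∫_(R/2)^(3R/2) |erc|^p` (Hölder: `Real.inner_le_Lp_mul_Lq`/`integral_mul_le_Lp_mul_Lq_of_nonneg` with
`qw |erc| = qw^(1-1/p) · qw^(1/p)|erc|`, for `p = 1` direct; or `ConvexOn.map_average_le` for the convex function `x^p` and the measure `qw dr`, `convexOn_rpow`; a trick that avoids both: with
`V = c₀ (RN)^(1/2) / 4`, `|E| ≤ V + |E|^p V^(1-p)` pointwise, so `4V ≤ ∫ qw |E| ≤ 2V + V^(1-p) ∫ qw |E|^p`, hence `2 V^p ≤ ∫ qw |E|^p ≤ 2 K C₂ ∫ |E|^p` - use this).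
So `V^p ≤ K C₂ ∫_(R/2)^(3R/2) |E|^p ≤ A₀ N · C (3R/2)^s` if `R/2 ≥ 1` (`R₁ ≥ 2`): `∫_(R/2)^(3R/2) ≤ ∫_1^(3R/2)` (nonnegative integrand, integrable by `erc_meas`).
-/

open MeasureTheory Real Set Filter Topology

set_option autoImplicit false

namespace Pool.Agent.Helper22.SC

open Pool.Agent.Helper22.AE Pool.Agent.Helper22.AC Pool.Agent.Helper92.EO


private lemma young72 {V E p : ℝ} (hV : 0 < V) (hE : 0 ≤ E) (hp : 1 ≤ p) : E ≤ V + E ^ p * V ^ (1 - p) := by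
  rcases le_total E V with h | h
  · have : 0 ≤ E ^ p * V ^ (1 - p) := by positivity
    linarith
  · have hE0 : 0 < E := lt_of_lt_of_le hV h
    have h1 : E ^ p * V ^ (1 - p) = E * (E / V) ^ (p - 1) := by
      rw [Real.div_rpow hE0.le hV.le, Real.rpow_sub hV, Real.rpow_sub hV, Real.rpow_sub hE0, Real.rpow_one, Real.rpow_one]
      field_simp
    have h2 : 1 ≤ (E / V) ^ (p - 1) := by
      apply Real.one_le_rpow _ (by linarith)
      rwa [le_div_iff₀ hV, one_mul]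
    rw [h1]
    nlinarith

theorem moment_of_avg {H : ℝ → ℝ} (hH : IsSupp H) :
    ∃ c₀ A₀ N₀ R₁ : ℝ, 0 < c₀ ∧ 0 < A₀ ∧ 1 ≤ N₀ ∧ 2 ≤ R₁ ∧ ∀ N R : ℝ, N₀ ≤ N → R₁ ≤ R → N ≤ R ^ (2 / 5 : ℝ) → ∀ c : ℝ × ℝ,
      (∀ k : ℤ × ℤ, k ≠ 0 → nk k ≤ N →
        ∃ z : ℤ, |R * (nk k * H (tk k)) + ((k.1 : ℝ) * c.1 + (k.2 : ℝ) * c.2) - z| ≤ 1 / 24) →
        ∀ p s C : ℝ, 1 ≤ p → (∀ X : ℝ, 1 ≤ X → ∫ r in (1 : ℝ)..X, |erc H c r| ^ p ≤ C * X ^ s) →
          (c₀ * R ^ (1 / 2 : ℝ) * N ^ (1 / 2 : ℝ)) ^ p ≤ A₀ * N * (C * (3 * R / 2) ^ s) := by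
  obtain ⟨w, W, hw⟩ := exists_ker
  obtain ⟨A, c₀, N₀, R₁, hA, hc0, hAN, hR1, h⟩ := neg_avg hw hH
  obtain ⟨C₂, hC₂⟩ := hw.decay
  have hwC : ∀ u, w u ≤ C₂ := by
    intro u
    have h1 := hC₂ u
    have h2 := hw.nonneg u
    have h3 : 1 ≤ (1 + u ^ 2) ^ 2 := by nlinarith [sq_nonneg u, sq_nonneg (u ^ 2)]
    nlinarith
  have hC2 : 0 ≤ C₂ := (hw.nonneg 0).trans (hwC 0)
  refine ⟨c₀ / 4, C₂ + 1, N₀, R₁, by positivity, by positivity, hA.trans hAN, hR1, ?_⟩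
  intro N R hN hR hNR c hk p s C hp hmom
  have hR2 : 2 ≤ R := hR1.trans hR
  have hR0 : 0 < R := by linarith
  have hA0 : 0 < A := by linarith
  have hN1 : 1 ≤ N := (hA.trans hAN).trans hN
  have hN0 : 0 < N := by linarith
  have h1 := h N R hN hR hNR c hk
  obtain ⟨K, hK⟩ : ∃ K : ℝ, K = N / A := ⟨_, rfl⟩
  rw [← hK] at h1
  have hK0 : 0 < K := by rw [hK]; positivity
  have hKN : K ≤ N := by
    rw [hK]
    exact div_le_self hN0.le hA
  obtain ⟨V, hV⟩ : ∃ V : ℝ, V = c₀ / 4 * R ^ (1 / 2 : ℝ) * N ^ (1 / 2 : ℝ) := ⟨_, rfl⟩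
  rw [← hV]
  have hV0 : 0 < V := by rw [hV]; positivity
  have hb : R / 2 ≤ 3 * R / 2 := by linarith
  have hmeas := erc_meas hH c (p := p) (by linarith) (a := 1) (b := 3 * R / 2) le_rfl
  have hii : ∀ a b : ℝ, 1 ≤ a → a ≤ b → b ≤ 3 * R / 2 →
      IntervalIntegrable (fun r => |erc H c r| ^ p) volume a b := by
    intro a b ha hab hb'
    rw [intervalIntegrable_iff_integrableOn_Icc_of_le hab]
    exact hmeas.mono_set (Icc_subset_Icc ha hb')
  have hqc : ContinuousOn (qw w K R) (uIcc (R / 2) (3 * R / 2)) := by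
    rw [uIcc_of_le hb]
    exact qw_cont hw hK0 hR0
  have hi1 : IntervalIntegrable (fun r => qw w K R r * |erc H c r| ^ p) volume (R / 2) (3 * R / 2) :=
    (hii _ _ (by linarith) hb le_rfl).continuousOn_mul hqc
  have hi2 : IntervalIntegrable (fun r => qw w K R r * erc H c r) volume (R / 2) (3 * R / 2) :=
    (erc_int hH c (by linarith) hb).continuousOn_mul hqc
  have hi3 : IntervalIntegrable (fun r => qw w K R r) volume (R / 2) (3 * R / 2) := hqc.intervalIntegrable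
  -- the lower bound for the weighted moment
  have h2 : 4 * V ≤ ∫ r in (R / 2)..(3 * R / 2), -(qw w K R r * erc H c r) := by
    rw [intervalIntegral.integral_neg]
    unfold Avc at h1
    have : 4 * V = c₀ * R ^ (1 / 2 : ℝ) * N ^ (1 / 2 : ℝ) := by rw [hV]; ring
    linarith
  have h3 : (∫ r in (R / 2)..(3 * R / 2), -(qw w K R r * erc H c r)) ≤
      ∫ r in (R / 2)..(3 * R / 2), (qw w K R r * V + V ^ (1 - p) * (qw w K R r * |erc H c r| ^ p)) := by
    refine intervalIntegral.integral_mono_on hb hi2.neg ((hi3.mul_const V).add (hi1.const_mul _)) ?_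
    intro r hr
    have hq := qw_nonneg hw hK0 hR0 hr
    have h4 := young72 hV0 (abs_nonneg (erc H c r)) hp
    have h5 : -erc H c r ≤ |erc H c r| := neg_le_abs _
    calc -(qw w K R r * erc H c r) = qw w K R r * (-erc H c r) := by ring
      _ ≤ qw w K R r * (V + |erc H c r| ^ p * V ^ (1 - p)) := mul_le_mul_of_nonneg_left (h5.trans h4) hq
      _ = qw w K R r * V + V ^ (1 - p) * (qw w K R r * |erc H c r| ^ p) := by ring
  rw [intervalIntegral.integral_add (hi3.mul_const V) (hi1.const_mul _), intervalIntegral.integral_mul_const,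
    intervalIntegral.integral_const_mul] at h3
  have h6 := qw_int hw hK0 hR0
  obtain ⟨J, hJ⟩ : ∃ J : ℝ, J = ∫ r in (R / 2)..(3 * R / 2), qw w K R r * |erc H c r| ^ p := ⟨_, rfl⟩
  rw [← hJ] at h3
  have h7 : 2 * V ≤ V ^ (1 - p) * J := by nlinarith
  have h8 : 2 * V ^ p ≤ J := by
    have h9 : V ^ (p - 1) * (2 * V) ≤ V ^ (p - 1) * (V ^ (1 - p) * J) :=
      mul_le_mul_of_nonneg_left h7 (by positivity)
    have h10 : V ^ (p - 1) * V ^ (1 - p) = 1 := by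
      rw [← Real.rpow_add hV0]
      norm_num
    have h11 : V ^ (p - 1) * V = V ^ p := by
      nth_rewrite 2 [← Real.rpow_one V]
      rw [← Real.rpow_add hV0]
      norm_num
    calc 2 * V ^ p = V ^ (p - 1) * (2 * V) := by rw [← h11]; ring
      _ ≤ V ^ (p - 1) * (V ^ (1 - p) * J) := h9
      _ = (V ^ (p - 1) * V ^ (1 - p)) * J := by ring
      _ = J := by rw [h10, one_mul]
  -- the upper bound
  have h12 : J ≤ 2 * K * C₂ * ∫ r in (R / 2)..(3 * R / 2), |erc H c r| ^ p := by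
    rw [hJ, ← intervalIntegral.integral_const_mul]
    refine intervalIntegral.integral_mono_on hb hi1 ((hii _ _ (by linarith) hb le_rfl).const_mul _) ?_
    intro r hr
    refine mul_le_mul_of_nonneg_right ?_ (by positivity)
    unfold qw
    have hr0 : 0 < r := by linarith [hr.1]
    have h13 : R / r ≤ 2 := by
      rw [div_le_iff₀ hr0]
      linarith [hr.1]
    have h14 : 0 ≤ R / r := by positivity
    have h15 := hwC (K * (r - R))
    have h16 := hw.nonneg (K * (r - R))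
    have h17 : K * w (K * (r - R)) ≤ K * C₂ := mul_le_mul_of_nonneg_left h15 hK0.le
    calc K * w (K * (r - R)) * (R / r) ≤ K * C₂ * 2 := mul_le_mul h17 h13 h14 (by positivity)
      _ = 2 * K * C₂ := by ring
  have h18 : (∫ r in (R / 2)..(3 * R / 2), |erc H c r| ^ p) ≤ C * (3 * R / 2) ^ s := by
    have h19 := hmom (3 * R / 2) (by linarith)
    rw [← intervalIntegral.integral_add_adjacent_intervals (hii 1 (R / 2) le_rfl (by linarith) (by linarith))
      (hii (R / 2) (3 * R / 2) (by linarith) hb le_rfl)] at h19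
    have h20 : 0 ≤ ∫ r in (1 : ℝ)..(R / 2), |erc H c r| ^ p :=
      intervalIntegral.integral_nonneg (by linarith) (fun r _ => by positivity)
    linarith
  have h21 : 0 ≤ ∫ r in (R / 2)..(3 * R / 2), |erc H c r| ^ p :=
    intervalIntegral.integral_nonneg hb (fun r _ => by positivity)
  have h22 : V ^ p ≤ K * C₂ * (C * (3 * R / 2) ^ s) := by
    have h23 : 2 * K * C₂ * (∫ r in (R / 2)..(3 * R / 2), |erc H c r| ^ p) ≤ 2 * K * C₂ * (C * (3 * R / 2) ^ s) :=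
      mul_le_mul_of_nonneg_left h18 (by positivity)
    linarith
  refine h22.trans (mul_le_mul_of_nonneg_right ?_ (h21.trans h18))
  calc K * C₂ ≤ N * C₂ := mul_le_mul_of_nonneg_right hKN hC2
    _ ≤ (C₂ + 1) * N := by nlinarith

end Pool.Agent.Helper22.SC
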