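import Pool.Agent.Helper22.SC.T5
import Pool.Agent.Helper22.SC.F3

/-!
# SC-T6: the moments for every centre

PROOF. Copy the proof of `near_bad` (SC-F1) with `moment_of_avg` in place of `bad_of_avg`: for large `s` with `l s = n s + 7` (`hinf`) every `c` is `Close (l s) (n s + 7)` (`close_self`), so there is
`j ∈ [4^l, 2·4^l)` such that all phases are aligned at `R = j T`, `T = TT D n s`, `N = 2^n s`: `4^l T ≤ R ≤ 2·4^l T`, `4^l = 4^7 N²`, `T = D 2^s N³`; `N ≤ R^(2/5)` since `R ≥ N^5`.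
If `Mom H c p s'` with constant `C` (`C ≥ 0`), `s' < (3p - 1)/5`; we may increase `s'`: assume `p/2 ≤ s'` (for `p ≥ 2`, `p/2 ≤ (3p-1)/5`; a moment bound with exponent `s'` implies the one with
a larger exponent, replacing `C` by `|C|`): `c₀^p R^(p/2) N^(p/2) ≤ A₀ N C (3R/2)^s'`, so `c₀^p N^(p/2 - 1) ≤ A₀ C (3/2)^s' R^(s' - p/2) ≤ C' (D 2^s 4^8 N^5)^(s' - p/2)`, and
`5 (s' - p/2) < p/2 - 1`, `N = 2^n s`, `n s ≥ s²` (F2), so this fails for large `s` (as in F2 `grow`; it can be used: with `κ = s' - p/2`: from the inequality take the power `1/(p-2)`: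
`c₁ N^(1/2) ≤ C₁ (2 D 2^s 8^n 4^l)^(κ/(p-2))`, and `θ = 1/2 + κ/(p-2)` has `(2θ-1)(3+2) = 10κ/(p-2) < 1` iff `5κ < p/2 - 1`; `grow` with `e = 2`).
-/

open MeasureTheory Real Set Filter Topology

set_option autoImplicit false

namespace Pool.Agent.Helper22.SC

open Pool.Agent.Helper22.AE Pool.Agent.Helper22.AC

private lemma f6_abs (k : ℤ × ℤ) : |(k.1 : ℝ)| ≤ nk k ∧ |(k.2 : ℝ)| ≤ nk k := by
  have h1 := Complex.abs_re_le_norm (cz k)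
  have h2 := Complex.abs_im_le_norm (cz k)
  constructor
  · simpa [nk, cz] using h1
  · simpa [nk, cz] using h2

private lemma f6_shift {T R hh Jr jr : ℝ} {l n : ℕ} {c : ℝ × ℝ} {v k : ℤ × ℤ} (hJr : Jr = jr + 4 ^ l)
    (hR : R = Jr * T) (hkN : nk k ≤ 2 ^ n)
    (hv1 : |c.1 - jr / 2 ^ l - v.1| ≤ (1 / 2) ^ (n + 7)) (hv2 : |c.2 - jr / 4 ^ l - v.2| ≤ (1 / 2) ^ (n + 7))
    (hz : ∃ z : ℤ, |Jr * (T * (nk k * hh) + ((k.1 : ℝ) * (gen l).1 + (k.2 : ℝ) * (gen l).2)) - z| ≤ 1 / 48) :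
    ∃ z : ℤ, |R * (nk k * hh) + ((k.1 : ℝ) * c.1 + (k.2 : ℝ) * c.2) - z| ≤ 1 / 24 := by
  obtain ⟨z, hz⟩ := hz
  have hp2 : (2 : ℝ) ^ l ≠ 0 := by positivity
  have hp4 : (4 : ℝ) ^ l ≠ 0 := by positivity
  have g1 : Jr * (1 / 2 ^ l) = jr / 2 ^ l + 2 ^ l := by
    rw [hJr, show (4 : ℝ) = 2 * 2 by norm_num, mul_pow]
    field_simp
  have g2 : Jr * (1 / 4 ^ l) = jr / 4 ^ l + 1 := by
    rw [hJr]
    field_simp
  have hx : Jr * (T * (nk k * hh) + ((k.1 : ℝ) * (gen l).1 + (k.2 : ℝ) * (gen l).2)) =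
      R * (nk k * hh) + ((k.1 : ℝ) * (jr / 2 ^ l + 2 ^ l) + (k.2 : ℝ) * (jr / 4 ^ l + 1)) := by
    rw [← g1, ← g2, hR]
    simp only [gen]
    ring
  rw [hx] at hz
  obtain ⟨a1, a2⟩ := f6_abs k
  have hpw : (2 : ℝ) ^ n * (1 / 2) ^ (n + 7) = 1 / 128 := by
    rw [pow_add, ← mul_assoc, ← mul_pow]; norm_num
  have b1 : |(k.1 : ℝ) * (c.1 - jr / 2 ^ l - v.1)| ≤ 1 / 128 := by
    rw [abs_mul, ← hpw]
    exact mul_le_mul (a1.trans hkN) hv1 (abs_nonneg _) (by positivity)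
  have b2 : |(k.2 : ℝ) * (c.2 - jr / 4 ^ l - v.2)| ≤ 1 / 128 := by
    rw [abs_mul, ← hpw]
    exact mul_le_mul (a2.trans hkN) hv2 (abs_nonneg _) (by positivity)
  refine ⟨z + (k.1 * (v.1 - 2 ^ l) + k.2 * (v.2 - 1)), ?_⟩
  have hph : R * (nk k * hh) + ((k.1 : ℝ) * c.1 + (k.2 : ℝ) * c.2) -
      ((z + (k.1 * (v.1 - 2 ^ l) + k.2 * (v.2 - 1)) : ℤ) : ℝ) =
      (R * (nk k * hh) + ((k.1 : ℝ) * (jr / 2 ^ l + 2 ^ l) + (k.2 : ℝ) * (jr / 4 ^ l + 1)) - z) +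
      ((k.1 : ℝ) * (c.1 - jr / 2 ^ l - v.1) + (k.2 : ℝ) * (c.2 - jr / 4 ^ l - v.2)) := by
    push_cast
    ring
  rw [hph]
  have t1 := abs_add_le (R * (nk k * hh) + ((k.1 : ℝ) * (jr / 2 ^ l + 2 ^ l) + (k.2 : ℝ) * (jr / 4 ^ l + 1)) - z)
      ((k.1 : ℝ) * (c.1 - jr / 2 ^ l - v.1) + (k.2 : ℝ) * (c.2 - jr / 4 ^ l - v.2))
  have t2 := abs_add_le ((k.1 : ℝ) * (c.1 - jr / 2 ^ l - v.1)) ((k.2 : ℝ) * (c.2 - jr / 4 ^ l - v.2))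
  linarith

private lemma f6_J {s n l j : ℕ} (hn : 1 ≤ n) (hl : l ≤ n + 7) (hj : j < 4 ^ l) :
    j + 4 ^ l ≤ 2 ^ ((s + 20) * n) := by
  have h1 : (4 : ℕ) ^ l ≤ 4 ^ (n + 7) := Nat.pow_le_pow_right (by norm_num) hl
  have h2 : j + 4 ^ l ≤ 2 * 4 ^ (n + 7) := by linarith
  have h3 : 2 * 4 ^ (n + 7) = 2 ^ (2 * n + 15) := by
    have h4 : (4 : ℕ) ^ (n + 7) = 2 ^ (2 * (n + 7)) := by rw [pow_mul]; norm_num
    have h5 : 2 * n + 15 = 2 * (n + 7) + 1 := by ring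
    rw [h4, ← pow_succ', h5]
  rw [h3] at h2
  refine h2.trans (Nat.pow_le_pow_right (by norm_num) ?_)
  nlinarith

private lemma f6_N {R : ℝ} {n : ℕ} (hR : (8 : ℝ) ^ n ≤ R) : (2 : ℝ) ^ n ≤ R ^ (2 / 5 : ℝ) := by
  have h8 : (0 : ℝ) < 8 ^ n := by positivity
  have h1 : ((8 : ℝ) ^ n) ^ (2 / 5 : ℝ) ≤ R ^ (2 / 5 : ℝ) :=
    Real.rpow_le_rpow h8.le hR (by norm_num)
  refine le_trans ?_ h1
  have h2 : (8 : ℝ) ^ n = ((2 : ℝ) ^ n) ^ (3 : ℕ) := by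
    rw [show (8 : ℝ) = 2 ^ 3 by norm_num, ← pow_mul, ← pow_mul, mul_comm]
  rw [h2, ← Real.rpow_natCast ((2 : ℝ) ^ n) 3, ← Real.rpow_mul (by positivity)]
  have h3 : (1 : ℝ) ≤ 2 ^ n := one_le_pow₀ one_le_two
  calc (2 : ℝ) ^ n = ((2 : ℝ) ^ n) ^ (1 : ℝ) := (Real.rpow_one _).symm
    _ ≤ ((2 : ℝ) ^ n) ^ (((3 : ℕ) : ℝ) * (2 / 5)) := Real.rpow_le_rpow_of_exponent_le h3 (by norm_num)

private lemma near_mom38 {D δ : ℝ} (hD : 1 ≤ D) (hδ : δ ≤ 1 / 4) {H : ℝ → ℝ} (hH : Near δ H) {n l : ℕ → ℕ}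
    (hn : ∀ s, 1 ≤ n s) (hg : ∀ s, (s + 20) * n s ≤ n (s + 1)) (hl : ∀ s, l s ≤ n s + 7)
    (hA : Aligned D n (fun s => gen (l s)) H) :
    ∃ (c₀ A₀ : ℝ) (s₀ : ℕ), 0 < c₀ ∧ 0 < A₀ ∧ ∀ s, s₀ ≤ s → ∀ c : ℝ × ℝ, Close (l s) (n s + 7) c →
      ∀ p q C : ℝ, 1 ≤ p → (∀ X : ℝ, 1 ≤ X → ∫ r in (1 : ℝ)..X, |erc H c r| ^ p ≤ C * X ^ q) →
        ∃ R : ℝ, 1 ≤ R ∧ R ≤ 2 * D * 2 ^ s * 8 ^ n s * 4 ^ l s ∧
          (c₀ * R ^ (1 / 2 : ℝ) * ((2 : ℝ) ^ n s) ^ (1 / 2 : ℝ)) ^ p ≤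
            A₀ * 2 ^ n s * (C * (3 * R / 2) ^ q) := by
  obtain ⟨c₀, A₀, N₀, R₁, hc₀, hA₀, hN₀, hR₁, hbad⟩ := moment_of_avg (isSupp_of_near hδ hH)
  have hns : ∀ s, s ≤ n s := by
    intro s
    induction s with
    | zero => exact Nat.zero_le _
    | succ s ih =>
      have h1 := hg s
      have h2 := hn s
      nlinarith
  obtain ⟨s₀, hs₀⟩ := pow_unbounded_of_one_lt (max N₀ R₁) (one_lt_two : (1 : ℝ) < 2)
  refine ⟨c₀, A₀, s₀, hc₀, hA₀, ?_⟩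
  intro s hs c hc p q C hp hE
  obtain ⟨j, hj, v, hv1, hv2⟩ := hc
  have h2s : (2 : ℝ) ^ s₀ ≤ 2 ^ n s := pow_le_pow_right₀ one_le_two (hs.trans (hns s))
  have hN : N₀ ≤ (2 : ℝ) ^ n s := (le_max_left _ _).trans (hs₀.le.trans h2s)
  have hR : R₁ ≤ (2 : ℝ) ^ n s := (le_max_right _ _).trans (hs₀.le.trans h2s)
  have hT8 : (8 : ℝ) ^ n s ≤ TT D n s := by
    unfold TT
    have h1 : (1 : ℝ) ≤ 2 ^ s := one_le_pow₀ one_le_two
    have h2 : (0 : ℝ) < 8 ^ n s := by positivity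
    have h3 : (1 : ℝ) ≤ D * 2 ^ s := by nlinarith
    nlinarith
  have h28 : (2 : ℝ) ^ n s ≤ 8 ^ n s := pow_le_pow_left₀ (by norm_num) (by norm_num) _
  have h8 : (0 : ℝ) < 8 ^ n s := by positivity
  have hTpos : 0 < TT D n s := h8.trans_le hT8
  have h4 : (1 : ℝ) ≤ 4 ^ l s := one_le_pow₀ (by norm_num)
  obtain ⟨J, hJ⟩ : ∃ J : ℕ, J = j + 4 ^ l s := ⟨_, rfl⟩
  have hJr : (J : ℝ) = j + 4 ^ l s := by rw [hJ]; push_cast; rfl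
  have hj0 : (0 : ℝ) ≤ j := Nat.cast_nonneg j
  have hj' : (j : ℝ) < 4 ^ l s := by exact_mod_cast hj
  have hJ1 : (4 : ℝ) ^ l s ≤ J := by rw [hJr]; linarith
  have hJ2 : (J : ℝ) ≤ 2 * 4 ^ l s := by rw [hJr]; linarith
  obtain ⟨R, hRdef⟩ : ∃ R : ℝ, R = J * TT D n s := ⟨_, rfl⟩
  have hRT : TT D n s ≤ R := by
    have : (1 : ℝ) ≤ J := h4.trans hJ1
    rw [hRdef]; nlinarith
  have hR8 : (8 : ℝ) ^ n s ≤ R := hT8.trans hRT
  have hRR : R₁ ≤ R := hR.trans (h28.trans hR8)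
  have hJle : J ≤ 2 ^ ((s + 20) * n s) := hJ ▸ f6_J (hn s) (hl s) hj
  have key := hbad ((2 : ℝ) ^ n s) R hN hRR (f6_N hR8) c
    (fun k hk hkN => f6_shift hJr hRdef hkN hv1 hv2 (hA s J hJle k hk hkN)) p q C hp hE
  refine ⟨R, by linarith, ?_, key⟩
  have : R ≤ 2 * 4 ^ l s * TT D n s := by
    rw [hRdef]; exact mul_le_mul_of_nonneg_right hJ2 hTpos.le
  refine this.trans (le_of_eq ?_)
  simp only [TT]
  ring

private lemma concl38 {R B N C c₀ A₀ p q : ℝ} (hR : 1 ≤ R) (hRB : R ≤ B) (hN : 0 < N) (hC : 0 ≤ C)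
    (hc₀ : 0 < c₀) (hA₀ : 0 < A₀) (hp : 2 < p) (hq : p / 2 ≤ q)
    (h : (c₀ * R ^ (1 / 2 : ℝ) * N ^ (1 / 2 : ℝ)) ^ p ≤ A₀ * N * (C * (3 * R / 2) ^ q)) :
    c₀ ^ (p / (p - 2)) * N ^ (1 / 2 : ℝ) ≤
      (A₀ * C * (3 / 2) ^ q) ^ (1 / (p - 2)) * B ^ (1 / 2 + (q - p / 2) / (p - 2) - 1 / 2) := by
  have hR0 : 0 < R := by linarith
  have hB0 : 0 < B := by linarith
  have hp2 : 0 < p - 2 := by linarith
  have e1 : (c₀ * R ^ (1 / 2 : ℝ) * N ^ (1 / 2 : ℝ)) ^ p = c₀ ^ p * R ^ (p / 2) * N ^ (p / 2) := by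
    rw [Real.mul_rpow (by positivity) (by positivity), Real.mul_rpow hc₀.le (by positivity),
      ← Real.rpow_mul hR0.le, ← Real.rpow_mul hN.le]
    congr 2
    · congr 1
      ring
    · ring
  have e2 : (3 * R / 2) ^ q = (3 / 2) ^ q * (R ^ (p / 2) * R ^ (q - p / 2)) := by
    rw [← Real.rpow_add hR0, show 3 * R / 2 = 3 / 2 * R by ring,
      Real.mul_rpow (by norm_num) hR0.le]
    congr 2
    ring
  have e3 : N ^ (p / 2) = N * N ^ ((p - 2) / 2) := by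
    nth_rw 2 [← Real.rpow_one N]
    rw [← Real.rpow_add hN]
    congr 1
    ring
  rw [e1, e2, e3] at h
  have hRp : 0 < R ^ (p / 2) := Real.rpow_pos_of_pos hR0 _
  have h1 : c₀ ^ p * N ^ ((p - 2) / 2) ≤ A₀ * C * (3 / 2) ^ q * R ^ (q - p / 2) := by
    have h2 : (R ^ (p / 2) * N) * (c₀ ^ p * N ^ ((p - 2) / 2)) ≤
        (R ^ (p / 2) * N) * (A₀ * C * (3 / 2) ^ q * R ^ (q - p / 2)) := by
      linarith
    exact le_of_mul_le_mul_left h2 (mul_pos hRp hN)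
  have h3 : c₀ ^ p * N ^ ((p - 2) / 2) ≤ A₀ * C * (3 / 2) ^ q * B ^ (q - p / 2) := by
    refine h1.trans (mul_le_mul_of_nonneg_left (Real.rpow_le_rpow hR0.le hRB (by linarith)) ?_)
    positivity
  have h4 := Real.rpow_le_rpow (z := 1 / (p - 2)) (by positivity) h3 (by positivity)
  rw [Real.mul_rpow (by positivity) (by positivity), Real.mul_rpow (by positivity) (by positivity),
    ← Real.rpow_mul hc₀.le, ← Real.rpow_mul hN.le, ← Real.rpow_mul hB0.le] at h4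
  have e4 : p * (1 / (p - 2)) = p / (p - 2) := by ring
  have e5 : (p - 2) / 2 * (1 / (p - 2)) = 1 / 2 := by
    field_simp
  have e6 : (q - p / 2) * (1 / (p - 2)) = 1 / 2 + (q - p / 2) / (p - 2) - 1 / 2 := by ring
  rw [e4, e5, e6] at h4
  exact h4

theorem all_moments {D δ : ℝ} (hD : 1 ≤ D) (hδ : δ ≤ 1 / 4) {H : ℝ → ℝ} (hH : Near δ H) {n l : ℕ → ℕ} (hn : ∀ s, 1 ≤ n s)
    (hg : ∀ s, (s + 20) * n s ≤ n (s + 1)) (hl : ∀ s, l s ≤ n s + 7) (hA : Aligned D n (fun s => gen (l s)) H)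
    (hinf : ∀ s₀, ∃ s, s₀ ≤ s ∧ l s = n s + 7) : ∀ c : ℝ × ℝ, ∀ p : ℝ, 12 < p → ∀ q : ℝ, q < (3 * p - 1) / 5 →
      ¬ Mom H c p q := by
  rintro c p hp q hq ⟨C, hC⟩
  set q' : ℝ := max q (p / 2) with hq'
  have h1 : p / 2 ≤ q' := le_max_right _ _
  have h2 : q' < (3 * p - 1) / 5 := max_lt hq (by linarith)
  have hp2 : 0 < p - 2 := by linarith
  obtain ⟨c₀, A₀, s₀, hc₀, hA₀, hnear⟩ := near_mom38 hD hδ hH hn hg hl hA
  obtain ⟨s₁, hs₁⟩ := grow (D := D) (c₀ := c₀ ^ (p / (p - 2)))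
    (C := (A₀ * |C| * (3 / 2) ^ q') ^ (1 / (p - 2))) (E := 4 ^ 7)
    (θ := 1 / 2 + (q' - p / 2) / (p - 2)) (e := 2) hD (Real.rpow_pos_of_pos hc₀ _) (by norm_num)
    (by
      have : 0 ≤ (q' - p / 2) / (p - 2) := div_nonneg (by linarith) hp2.le
      linarith)
    (by norm_num) (by
      have h3 : (2 * (1 / 2 + (q' - p / 2) / (p - 2)) - 1) * (3 + 2) = 10 * (q' - p / 2) / (p - 2) := by
        ring
      rw [h3, div_lt_one hp2]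
      linarith) hn hg
  obtain ⟨s, hs, hls⟩ := hinf (max s₀ s₁)
  have hcl : Close (l s) (n s + 7) c := by
    rw [hls]
    exact close_self _ c
  have hb : ∀ X : ℝ, 1 ≤ X → ∫ r in (1 : ℝ)..X, |erc H c r| ^ p ≤ |C| * X ^ q' := by
    intro X hX
    have hX0 : 0 ≤ X := by linarith
    calc ∫ r in (1 : ℝ)..X, |erc H c r| ^ p ≤ C * X ^ q := hC X hX
      _ ≤ |C| * X ^ q := mul_le_mul_of_nonneg_right (le_abs_self C) (Real.rpow_nonneg hX0 _)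
      _ ≤ |C| * X ^ q' :=
        mul_le_mul_of_nonneg_left (Real.rpow_le_rpow_of_exponent_le hX (le_max_left _ _)) (abs_nonneg _)
  obtain ⟨R, hR1, hRB, hR⟩ := hnear s (le_trans (le_max_left _ _) hs) c hcl p q' |C| (by linarith) hb
  have h3 := concl38 hR1 hRB (by positivity) (abs_nonneg C) hc₀ hA₀ (by linarith) h1 hR
  have h4 := hs₁ s (le_trans (le_max_right _ _) hs) (l s) (by
    rw [hls, pow_add, mul_comm]
    apply le_of_eq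
    congr 1
    rw [← Real.rpow_natCast 2 (n s), ← Real.rpow_mul (by norm_num), mul_comm, Real.rpow_mul (by norm_num),
      Real.rpow_natCast]
    norm_num)
  exact absurd h3 (not_le.2 h4)

end Pool.Agent.Helper22.SC
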