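import Pool.Agent.Helper22.SC.T6
import Pool.Agent.Helper22.SC.F3

/-!
# SC-T7: the oval, with the moments

PROOF. Copy of `exact_centres` (SC-F4, with its private definitions `nF4`, `lF4`), with the additional conclusion from `all_moments`.
-/

open MeasureTheory Real Set Filter Topology

set_option autoImplicit false

namespace Pool.Agent.Helper22.SC

open Pool.Agent.Helper22.AE Pool.Agent.Helper22.AC

/-- The sequence of the exponents. -/
private noncomputable def nT7 (s : ℕ) : ℕ := (s + 20).factorial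

open Classical in
/-- The sequence of the orders. -/
private noncomputable def lT7 (s : ℕ) : ℕ :=
  if (Nat.unpair s).1 ≠ 0 ∧ 0 < TopologicalSpace.denseSeq ℝ ((Nat.unpair s).1 - 1) ∧
      TopologicalSpace.denseSeq ℝ ((Nat.unpair s).1 - 1) < 2 then
    ⌊TopologicalSpace.denseSeq ℝ ((Nat.unpair s).1 - 1) * nT7 s / 2⌋₊
  else nT7 s + 7

private theorem nT7_pos (s : ℕ) : 1 ≤ nT7 s := Nat.succ_le_of_lt (Nat.factorial_pos _)

private theorem nT7_growth (s : ℕ) : (s + 20) * nT7 s ≤ nT7 (s + 1) := by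
  unfold nT7
  have h1 : s + 1 + 20 = (s + 20) + 1 := by ring
  rw [h1, Nat.factorial_succ]
  exact Nat.mul_le_mul_right _ (Nat.le_succ _)

private theorem lT7_le (s : ℕ) : lT7 s ≤ nT7 s + 7 := by
  unfold lT7
  split_ifs with h
  · refine le_trans ?_ (Nat.le_add_right _ _)
    refine Nat.floor_le_of_le ?_
    have h1 : (0 : ℝ) ≤ nT7 s := Nat.cast_nonneg _
    nlinarith [h.2.2]
  · exact le_rfl

theorem exact_centres3 {δ : ℝ} (hδ : 0 < δ) : ∃ H : ℝ → ℝ, Near δ H ∧ IsSupp H ∧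
    (∀ c : ℝ × ℝ, ∀ θ : ℝ, θ < 3 / 5 → ¬ Bd H c θ) ∧
    (∀ c : ℝ × ℝ, ∀ p : ℝ, 12 < p → ∀ q : ℝ, q < (3 * p - 1) / 5 → ¬ Mom H c p q) ∧
    ∀ θ : ℝ, 3 / 5 < θ → θ < 2 / 3 → ENNReal.ofReal ((4 - 6 * θ) / (2 * θ - 1)) ≤ dimH {c : ℝ × ℝ | ¬ Bd H c θ} := by
  obtain ⟨C₁, hC₁, hoval⟩ := oval_seq
  have hδ' : 0 < min δ (1 / 4) := lt_min hδ (by norm_num)
  set D := max 1 (C₁ / min δ (1 / 4)) with hD
  have hD1 : 1 ≤ D := le_max_left _ _
  obtain ⟨H, hH, hA⟩ := hoval (min δ (1 / 4)) D hδ' (le_max_right _ _) hD1 (fun s => gen (lT7 s)) nT7 nT7_pos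
    nT7_growth
  have hd4 : min δ (1 / 4) ≤ 1 / 4 := min_le_right _ _
  have hdl : min δ (1 / 4) ≤ δ := min_le_left _ _
  refine ⟨H, ⟨hH.smooth, hH.per, fun t => (hH.d0 t).trans hdl, fun t => (hH.d1 t).trans hdl,
    fun t => (hH.d2 t).trans hdl⟩, isSupp_of_near hd4 hH, ?_, ?_, ?_⟩
  · refine all_bad hD1 hd4 hH nT7_pos nT7_growth lT7_le hA fun s₀ => ⟨Nat.pair 0 s₀, Nat.right_le_pair _ _, ?_⟩
    unfold lT7
    rw [if_neg]
    rw [Nat.unpair_pair]
    simp
  · refine all_moments hD1 hd4 hH nT7_pos nT7_growth lT7_le hA fun s₀ => ⟨Nat.pair 0 s₀, Nat.right_le_pair _ _, ?_⟩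
    unfold lT7
    rw [if_neg]
    rw [Nat.unpair_pair]
    simp
  · intro θ h1 h2
    have h3 : 0 < 2 * θ - 1 := by linarith
    refine le_of_forall_lt_imp_le_of_dense fun x hx => ?_
    have hxt : x ≠ ⊤ := ne_top_of_lt hx
    have hx0 : 0 ≤ x.toReal := ENNReal.toReal_nonneg
    have hx1 : x.toReal < (4 - 6 * θ) / (2 * θ - 1) := by
      rwa [← ENNReal.ofReal_toReal hxt, ENNReal.ofReal_lt_ofReal_iff_of_nonneg hx0] at hx
    obtain ⟨t, ht⟩ := (TopologicalSpace.denseRange_denseSeq ℝ).exists_mem_open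
      (isOpen_Ioo (a := x.toReal) (b := (4 - 6 * θ) / (2 * θ - 1))) (nonempty_Ioo.2 hx1)
    set e := TopologicalSpace.denseSeq ℝ t with he
    have he0 : 0 < e := lt_of_le_of_lt hx0 ht.1
    have he1 : e * (2 * θ - 1) < 4 - 6 * θ := (lt_div_iff₀ h3).1 ht.2
    have he2 : e < 2 := by
      by_contra hcon
      nlinarith [not_lt.1 hcon]
    have hσ : StrictMono fun i => Nat.pair (t + 1) i := fun i j hij => Nat.pair_lt_pair_right (t + 1) hij
    have hle : ∀ i, lT7 (Nat.pair (t + 1) i) = ⌊e * nT7 (Nat.pair (t + 1) i) / 2⌋₊ := by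
      intro i
      unfold lT7
      rw [Nat.unpair_pair]
      simp only [Nat.add_sub_cancel]
      rw [if_pos ⟨Nat.succ_ne_zero t, he0, he2⟩]
    have h4 := dim_low hD1 hd4 hH nT7_pos nT7_growth lT7_le hA he0 he2 hσ hle (θ := θ) (by linarith)
      (by linarith) (by nlinarith)
    refine le_trans ?_ h4
    rw [← ENNReal.ofReal_toReal hxt]
    exact ENNReal.ofReal_le_ofReal ht.1.le

end Pool.Agent.Helper22.SC
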