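import Pool.Agent.Helper22.SC.Defs

/-!
# SC-U2: a perturbation of the phases which is small on the whole interval of radii

PROOF. If `Y = 0` the two sums agree (up to the sign of zero: `Fk γ' k = Fk γ k` for `k ∈ B`). Let `Y > 0`, `f k = Fk γ' k - Fk γ k`, `|f k| ≤ Y` on `B`. For `R ∈ [R₁, R₁ + X]`:
`e(-R f) = e(-R₁ f) - 2πi f ∫_{R₁}^{R} e(-u f) du` (`ee_hasDerivAt`), so
`‖cs B a γ' (c,R)‖ ≤ ‖cs B a₁ γ (c,R)‖ + 2π Y ∫_{R₁}^{R₁+X} ‖cs B (b u) γ (c,R)‖ du`, `a₁ k = a k e(-R₁ f k)`, `b u k = a k (f k / Y) e(-u f k)` for `k ∈ B`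
(`0` outside `B`), all bounded by `1`. `(x+y)^6 ≤ 32 (x^6 + y^6)`, `(2πY ∫ |..| du)^6 ≤ (2π)^6 (1/X) ∫ |..|^6 du` (`X Y ≤ 1`, Jensen/Hoelder), Fubini, `h` for each `u`:
the total is `≤ 32 (1 + (2π)^6) M ≤ 2·10^6 M` (`(2π)^6 < 61600`). All functions are continuous on compact sets.
(`M ≥ 0` follows from `h` with `a = 0`.) Useful: `jens86` (private, AC/D6a.lean) is Jensen for the power 6; copy it.
-/

open MeasureTheory Real Set Filter Topology

set_option autoImplicit false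

namespace Pool.Agent.Helper22.SC

open Pool.Agent.Helper22.AE Pool.Agent.Helper22.AC

private theorem young74 {c g : ℝ} (hc : 0 ≤ c) (hg : 0 ≤ g) : 6 * c ^ 5 * g ≤ 5 * c ^ 6 + g ^ 6 := by
  have h : 0 ≤ (g - c) ^ 2 * (g ^ 4 + 2 * c * g ^ 3 + 3 * c ^ 2 * g ^ 2 + 4 * c ^ 3 * g + 5 * c ^ 4) := by
    positivity
  nlinarith [h]

private theorem jens74 {X : Type*} [MeasurableSpace X] {μ : Measure X} {w g : X → ℝ} (hw : ∀ x, 0 ≤ w x)
    (hg : ∀ x, 0 ≤ g x) (i0 : Integrable w μ) (i1 : Integrable (fun x => w x * g x) μ)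
    (i6 : Integrable (fun x => w x * g x ^ 6) μ) :
    (∫ x, w x * g x ∂μ) ^ 6 ≤ (∫ x, w x ∂μ) ^ 5 * ∫ x, w x * g x ^ 6 ∂μ := by
  set W := ∫ x, w x ∂μ with hW
  set I := ∫ x, w x * g x ∂μ with hI
  set J := ∫ x, w x * g x ^ 6 ∂μ with hJ
  have hW0 : 0 ≤ W := integral_nonneg hw
  have hI0 : 0 ≤ I := integral_nonneg fun x => mul_nonneg (hw x) (hg x)
  have hJ0 : 0 ≤ J := integral_nonneg fun x => mul_nonneg (hw x) (pow_nonneg (hg x) 6)
  have key : ∀ c : ℝ, 0 ≤ c → 6 * c ^ 5 * I ≤ 5 * c ^ 6 * W + J := by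
    intro c hc
    have h1 : 6 * c ^ 5 * I = ∫ x, 6 * c ^ 5 * (w x * g x) ∂μ := by
      rw [integral_const_mul]
    have h2 : 5 * c ^ 6 * W + J = ∫ x, (5 * c ^ 6 * w x + w x * g x ^ 6) ∂μ := by
      rw [integral_add (i0.const_mul _) i6, integral_const_mul]
    rw [h1, h2]
    refine integral_mono (i1.const_mul _) ((i0.const_mul _).add i6) fun x => ?_
    have h3 := mul_le_mul_of_nonneg_left (young74 hc (hg x)) (hw x)
    show 6 * c ^ 5 * (w x * g x) ≤ 5 * c ^ 6 * w x + w x * g x ^ 6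
    nlinarith [h3]
  rcases hW0.eq_or_lt with hz | hpos
  · have hI' : I = 0 := by
      by_contra hne
      have hIp : 0 < I := lt_of_le_of_ne hI0 (Ne.symm hne)
      set c := max 1 ((J + 1) / I) with hc
      have hc1 : 1 ≤ c := le_max_left _ _
      have hc2 : (J + 1) / I ≤ c := le_max_right _ _
      have h4 := key c (by linarith)
      rw [← hz] at h4
      have h5 : c ≤ c ^ 5 := by
        calc c = c ^ 1 := (pow_one c).symm
          _ ≤ c ^ 5 := pow_le_pow_right₀ hc1 (by norm_num)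
      have h6 : J + 1 ≤ c * I := (div_le_iff₀ hIp).1 hc2
      have h7 : c * I ≤ c ^ 5 * I := mul_le_mul_of_nonneg_right h5 hI0
      nlinarith
    rw [hI', ← hz]
    simp
  · have h4 := key (I / W) (by positivity)
    have h5 : I ^ 6 / W ^ 5 ≤ J := by
      have e1 : 6 * (I / W) ^ 5 * I = 6 * (I ^ 6 / W ^ 5) := by
        field_simp
      have e2 : 5 * (I / W) ^ 6 * W = 5 * (I ^ 6 / W ^ 5) := by
        field_simp
      rw [e1, e2] at h4
      linarith
    rw [div_le_iff₀ (by positivity)] at h5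
    linarith [h5, mul_comm J (W ^ 5)]

/-- the change of the phase -/
private theorem ee_int74 (f R₁ R : ℝ) :
    ee (-(R * f)) = ee (-(R₁ * f)) - 2 * π * Complex.I * f * ∫ u in R₁..R, ee (-(u * f)) := by
  have hd : ∀ u : ℝ, HasDerivAt (fun u : ℝ => ee (-(u * f))) ((-f : ℝ) • (2 * π * Complex.I * ee (-(u * f)))) u := by
    intro u
    have h1 : HasDerivAt (fun u : ℝ => -(u * f)) (-f) u := (hasDerivAt_mul_const f).fun_neg
    exact (ee_hasDerivAt (-(u * f))).scomp u h1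
  have hc : Continuous fun u : ℝ => ee (-(u * f)) := ee_cont.comp (by fun_prop)
  have hc2 : Continuous fun u : ℝ => ((-f : ℝ) • (2 * π * Complex.I * ee (-(u * f)))) := by fun_prop
  have h1 : ∫ u in R₁..R, ((-f : ℝ) • (2 * π * Complex.I * ee (-(u * f)))) = ee (-(R * f)) - ee (-(R₁ * f)) :=
    intervalIntegral.integral_eq_sub_of_hasDerivAt (fun u _ => hd u) (hc2.intervalIntegrable _ _)
  have h2 : ∫ u in R₁..R, ((-f : ℝ) • (2 * π * Complex.I * ee (-(u * f)))) =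
      -(2 * π * Complex.I * f * ∫ u in R₁..R, ee (-(u * f))) := by
    rw [intervalIntegral.integral_smul, intervalIntegral.integral_const_mul, Complex.real_smul]
    push_cast
    ring
  rw [h2] at h1
  linear_combination -h1

theorem perturb {B : Finset (ℤ × ℤ)} {γ γ' : ℝ → ℝ} {M X R₁ Y : ℝ} (hX : 0 < X) (hY : 0 ≤ Y) (hXY : X * Y ≤ 1)
    (hγ : ∀ k ∈ B, |Fk γ' k - Fk γ k| ≤ Y)
    (h : ∀ a : ℤ × ℤ → ℂ, (∀ k, ‖a k‖ ≤ 1) →
      ∫ q in (Icc (0 : ℝ) 1 ×ˢ Icc (0 : ℝ) 1) ×ˢ Icc R₁ (R₁ + X), ‖cs B a γ q‖ ^ 6 ≤ M)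
    {a : ℤ × ℤ → ℂ} (ha : ∀ k, ‖a k‖ ≤ 1) :
    ∫ q in (Icc (0 : ℝ) 1 ×ˢ Icc (0 : ℝ) 1) ×ˢ Icc R₁ (R₁ + X), ‖cs B a γ' q‖ ^ 6 ≤ 2 * 10 ^ 6 * M := by
  classical
  have hM : 0 ≤ M := by
    refine le_trans ?_ (h (fun _ => 0) fun k => by simp)
    exact integral_nonneg fun q => by positivity
  set I : Set ℝ := Icc R₁ (R₁ + X) with hI
  set D : Set ((ℝ × ℝ) × ℝ) := (Icc (0 : ℝ) 1 ×ˢ Icc (0 : ℝ) 1) ×ˢ I with hD
  have hDc : IsCompact D := (isCompact_Icc.prod isCompact_Icc).prod isCompact_Icc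
  have hIc : IsCompact I := isCompact_Icc
  set f : ℤ × ℤ → ℝ := fun k => Fk γ' k - Fk γ k with hf
  set b : ℝ → ℤ × ℤ → ℂ := fun u k => if k ∈ B then a k * ((f k / Y : ℝ) : ℂ) * ee (-(u * f k)) else 0 with hb
  set a₁ : ℤ × ℤ → ℂ := fun k => a k * ee (-(R₁ * f k)) with ha₁
  have ha₁' : ∀ k, ‖a₁ k‖ ≤ 1 := by
    intro k
    rw [ha₁]
    simp only [norm_mul, ee_norm, mul_one]
    exact ha k
  have hfY : ∀ k ∈ B, |f k / Y| ≤ 1 := by
    intro k hk
    rw [abs_div, abs_of_nonneg hY]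
    exact div_le_one_of_le₀ (hγ k hk) hY
  have hfY' : ∀ k ∈ B, f k = Y * (f k / Y) := by
    intro k hk
    rcases hY.eq_or_lt with h0 | h0
    · have := hγ k hk
      rw [← h0] at this
      have h1 : f k = 0 := abs_eq_zero.1 (le_antisymm this (abs_nonneg _))
      rw [h1, ← h0]
      simp
    · field_simp
  have hb' : ∀ u k, ‖b u k‖ ≤ 1 := by
    intro u k
    rw [hb]
    by_cases hk : k ∈ B
    · simp only [if_pos hk, norm_mul, ee_norm, mul_one, Complex.norm_real, Real.norm_eq_abs]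
      exact mul_le_one₀ (ha k) (abs_nonneg _) (hfY k hk)
    · simp only [if_neg hk, norm_zero]
      exact zero_le_one
  have hcsc : ∀ (a' : ℤ × ℤ → ℂ) (γ'' : ℝ → ℝ), Continuous fun q => cs B a' γ'' q := by
    intro a' γ''
    unfold cs
    refine continuous_finsetSum _ fun k _ => continuous_const.mul (ee_cont.comp ?_)
    fun_prop
  have hcsb : Continuous fun p : ((ℝ × ℝ) × ℝ) × ℝ => cs B (b p.2) γ p.1 := by
    unfold cs
    refine continuous_finsetSum _ fun k hk => ?_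
    have e : (fun p : ((ℝ × ℝ) × ℝ) × ℝ => b p.2 k *
        ee (-((k.1 : ℝ) * p.1.1.1 + (k.2 : ℝ) * p.1.1.2 + p.1.2 * Fk γ k))) =
        fun p : ((ℝ × ℝ) × ℝ) × ℝ => a k * ((f k / Y : ℝ) : ℂ) * ee (-(p.2 * f k)) *
        ee (-((k.1 : ℝ) * p.1.1.1 + (k.2 : ℝ) * p.1.1.2 + p.1.2 * Fk γ k)) := by
      funext p
      rw [hb]
      simp only [if_pos hk]
    rw [e]
    refine (continuous_const.mul (ee_cont.comp ?_)).mul (ee_cont.comp ?_)
    · fun_prop
    · fun_prop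
  -- the identity
  have hid : ∀ q : (ℝ × ℝ) × ℝ, cs B a γ' q =
      cs B a₁ γ q - 2 * π * Complex.I * Y * ∫ u in R₁..q.2, cs B (b u) γ q := by
    intro q
    have e1 : ∫ u in R₁..q.2, cs B (b u) γ q = ∑ k ∈ B, a k * ((f k / Y : ℝ) : ℂ) *
        (∫ u in R₁..q.2, ee (-(u * f k))) *
          ee (-((k.1 : ℝ) * q.1.1 + (k.2 : ℝ) * q.1.2 + q.2 * Fk γ k)) := by
      unfold cs
      rw [intervalIntegral.integral_finsetSum]
      · refine Finset.sum_congr rfl fun k hk => ?_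
        rw [hb]
        simp only [if_pos hk]
        rw [intervalIntegral.integral_mul_const, intervalIntegral.integral_const_mul]
      · intro k hk
        rw [hb]
        simp only [if_pos hk]
        have hc : Continuous fun u : ℝ => ee (-(u * f k)) := ee_cont.comp (by fun_prop)
        exact ((continuous_const.mul hc).mul continuous_const).intervalIntegrable _ _
    rw [e1, Finset.mul_sum]
    unfold cs
    rw [← Finset.sum_sub_distrib]
    refine Finset.sum_congr rfl fun k hk => ?_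
    have e2 : ee (-((k.1 : ℝ) * q.1.1 + (k.2 : ℝ) * q.1.2 + q.2 * Fk γ' k)) =
        ee (-((k.1 : ℝ) * q.1.1 + (k.2 : ℝ) * q.1.2 + q.2 * Fk γ k)) * ee (-(q.2 * f k)) := by
      rw [← ee_add]
      congr 1
      rw [hf]
      ring
    rw [e2, ee_int74 (f k) R₁ q.2, ha₁]
    have e3 : ((f k : ℝ) : ℂ) = (Y : ℂ) * ((f k / Y : ℝ) : ℂ) := by
      rw [← Complex.ofReal_mul, ← hfY' k hk]
    rw [e3]
    ring
  clear_value a₁ b
  -- the pointwise bound
  have hpt : ∀ q ∈ D, ‖cs B a γ' q‖ ^ 6 ≤ 32 * ‖cs B a₁ γ q‖ ^ 6 +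
      32 * (2 * π * Y) ^ 6 * X ^ 5 * ∫ u in I, ‖cs B (b u) γ q‖ ^ 6 := by
    intro q hq
    have hq2 : q.2 ∈ I := hq.2
    have hgc0 : Continuous fun u : ℝ => ((q, u) : ((ℝ × ℝ) × ℝ) × ℝ) := by fun_prop
    have hgc : Continuous fun u => cs B (b u) γ q := hcsb.comp hgc0
    have h1 : ‖cs B a γ' q‖ ≤ ‖cs B a₁ γ q‖ + 2 * π * Y * ∫ u in I, ‖cs B (b u) γ q‖ := by
      rw [hid q]
      refine (norm_sub_le _ _).trans (add_le_add le_rfl ?_)
      rw [norm_mul]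
      have e1 : ‖(2 : ℂ) * π * Complex.I * Y‖ = 2 * π * Y := by
        rw [norm_mul, norm_mul, norm_mul, Complex.norm_I, Complex.norm_real, Complex.norm_real,
          Real.norm_of_nonneg pi_pos.le, Real.norm_of_nonneg hY]
        simp
      rw [e1]
      refine mul_le_mul_of_nonneg_left ?_ (by positivity)
      refine (intervalIntegral.norm_integral_le_integral_norm hq2.1).trans ?_
      rw [intervalIntegral.integral_of_le hq2.1]
      have hi : IntegrableOn (fun u => ‖cs B (b u) γ q‖) I := hgc.norm.continuousOn.integrableOn_compact hIc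
      have hss : Ioc R₁ q.2 ⊆ I := fun u hu => ⟨hu.1.le, hu.2.trans hq2.2⟩
      exact setIntegral_mono_set hi (ae_of_all _ fun u => norm_nonneg _) (LE.le.eventuallyLE hss)
    have h2 : (∫ u in I, ‖cs B (b u) γ q‖) ^ 6 ≤ X ^ 5 * ∫ u in I, ‖cs B (b u) γ q‖ ^ 6 := by
      have h3 := jens74 (μ := volume.restrict I) (w := fun _ => (1 : ℝ)) (g := fun u => ‖cs B (b u) γ q‖)
        (fun _ => zero_le_one) (fun u => norm_nonneg _)
        (continuous_const.continuousOn.integrableOn_compact hIc)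
        ((continuous_const.mul hgc.norm).continuousOn.integrableOn_compact hIc)
        ((continuous_const.mul (hgc.norm.pow 6)).continuousOn.integrableOn_compact hIc)
      have h4 : ∫ _ in I, (1 : ℝ) = X := by
        rw [setIntegral_const, hI, Real.volume_real_Icc_of_le (by linarith), smul_eq_mul, mul_one]
        ring
      rw [h4] at h3
      simpa only [one_mul] using h3
    have hint0 : 0 ≤ ∫ u in I, ‖cs B (b u) γ q‖ := integral_nonneg fun u => norm_nonneg _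
    calc ‖cs B a γ' q‖ ^ 6 ≤ (‖cs B a₁ γ q‖ + 2 * π * Y * ∫ u in I, ‖cs B (b u) γ q‖) ^ 6 :=
          pow_le_pow_left₀ (norm_nonneg _) h1 6
      _ ≤ 2 ^ (6 - 1) * (‖cs B a₁ γ q‖ ^ 6 + (2 * π * Y * ∫ u in I, ‖cs B (b u) γ q‖) ^ 6) :=
          add_pow_le (norm_nonneg _) (by positivity) 6
      _ ≤ _ := by
          rw [mul_pow (2 * π * Y)]
          have h5 := mul_le_mul_of_nonneg_left h2 (by positivity : 0 ≤ (2 * π * Y) ^ 6)
          norm_num
          linarith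
  -- integration
  have hFub : ∫ q in D, ∫ u in I, ‖cs B (b u) γ q‖ ^ 6 = ∫ u in I, ∫ q in D, ‖cs B (b u) γ q‖ ^ 6 := by
    apply integral_integral_swap
    rw [Measure.prod_restrict]
    exact ((hcsb.norm.pow 6).continuousOn.integrableOn_compact (hDc.prod hIc))
  have hIb : ∫ u in I, ∫ q in D, ‖cs B (b u) γ q‖ ^ 6 ≤ X * M := by
    have h1 : ∫ u in I, ∫ q in D, ‖cs B (b u) γ q‖ ^ 6 ≤ ∫ _ in I, M := by
      refine integral_mono_of_nonneg (ae_of_all _ fun u => integral_nonneg fun q => by positivity)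
        (continuous_const.continuousOn.integrableOn_compact hIc) (ae_of_all _ fun u => ?_)
      exact h (b u) (hb' u)
    refine h1.trans (le_of_eq ?_)
    rw [setIntegral_const, hI, Real.volume_real_Icc_of_le (by linarith), smul_eq_mul]
    ring
  have hc1 : Continuous fun q => ‖cs B a₁ γ q‖ ^ 6 := (hcsc a₁ γ).norm.pow 6
  have hc3 : Continuous (Function.uncurry fun (q : (ℝ × ℝ) × ℝ) (u : ℝ) => ‖cs B (b u) γ q‖ ^ 6) := by
    have h0 := hcsb.norm.pow 6
    exact h0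
  have hc2 : Continuous fun q => ∫ u in I, ‖cs B (b u) γ q‖ ^ 6 :=
    continuous_parametric_integral_of_continuous (f := fun q u => ‖cs B (b u) γ q‖ ^ 6) hc3 hIc
  have hc0 : Continuous fun q => ‖cs B a γ' q‖ ^ 6 := (hcsc a γ').norm.pow 6
  have k1 : Continuous fun q => (32 : ℝ) * ‖cs B a₁ γ q‖ ^ 6 := continuous_const.mul hc1
  have k2 : Continuous fun q => 32 * (2 * π * Y) ^ 6 * X ^ 5 * ∫ u in I, ‖cs B (b u) γ q‖ ^ 6 :=
    continuous_const.mul hc2
  have i1 : IntegrableOn (fun q => (32 : ℝ) * ‖cs B a₁ γ q‖ ^ 6) D :=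
    k1.continuousOn.integrableOn_compact hDc
  have i2 : IntegrableOn (fun q => 32 * (2 * π * Y) ^ 6 * X ^ 5 * ∫ u in I, ‖cs B (b u) γ q‖ ^ 6) D :=
    k2.continuousOn.integrableOn_compact hDc
  have h3 : ∫ q in D, ‖cs B a γ' q‖ ^ 6 ≤ ∫ q in D, (32 * ‖cs B a₁ γ q‖ ^ 6 +
      32 * (2 * π * Y) ^ 6 * X ^ 5 * ∫ u in I, ‖cs B (b u) γ q‖ ^ 6) :=
    setIntegral_mono_on (hc0.continuousOn.integrableOn_compact hDc) (i1.add i2) hDc.measurableSet hpt
  rw [integral_add i1 i2, integral_const_mul, integral_const_mul, hFub] at h3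
  have h4 := h a₁ ha₁'
  have h5 : 32 * (2 * π * Y) ^ 6 * X ^ 5 * ∫ u in I, ∫ q in D, ‖cs B (b u) γ q‖ ^ 6 ≤
      32 * (2 * π) ^ 6 * M := by
    have h6 := mul_le_mul_of_nonneg_left hIb (by positivity : 0 ≤ 32 * (2 * π * Y) ^ 6 * X ^ 5)
    refine h6.trans ?_
    have h7 : 32 * (2 * π * Y) ^ 6 * X ^ 5 * (X * M) = 32 * (2 * π) ^ 6 * M * (X * Y) ^ 6 := by ring
    rw [h7]
    have h8 : (X * Y) ^ 6 ≤ 1 := pow_le_one₀ (by positivity) hXY
    have h9 : 0 ≤ 32 * (2 * π) ^ 6 * M := by positivity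
    calc 32 * (2 * π) ^ 6 * M * (X * Y) ^ 6 ≤ 32 * (2 * π) ^ 6 * M * 1 :=
          mul_le_mul_of_nonneg_left h8 h9
      _ = _ := by ring
  have hpi : (2 * π) ^ 6 ≤ 61600 := by
    have h6 : 2 * π ≤ 6.2832 := by linarith [pi_lt_d4]
    calc (2 * π) ^ 6 ≤ (6.2832 : ℝ) ^ 6 := pow_le_pow_left₀ (by positivity) h6 6
      _ ≤ 61600 := by norm_num
  have h6 : 32 * (2 * π) ^ 6 * M ≤ 32 * 61600 * M := by
    have := mul_le_mul_of_nonneg_right hpi hM
    linarith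
  have h7 : (32 : ℝ) * 61600 * M + 32 * M ≤ 2 * 10 ^ 6 * M := by
    nlinarith
  linarith

end Pool.Agent.Helper22.SC
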