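import Pool.Agent.Helper22.SC.U1
import Pool.Agent.Helper22.SC.U2
import Pool.Agent.Helper22.AC.D6b

/-!
# SC-U3: the sixth moment for the phases `ga H α`, `H` only C²

The C² version of `sixth_ga` (AC/D6b.lean); the loss is the factor `1 + X 2^n sin² α`.

PROOF. `B` from `ga_near`, `c₁ c₂` from `adm_self`, `C₀` from `sixth_moment` (AC/C5), `s₀ = 1/(2B)`. Let `Y = 2^(n+1) B sin² α ≤ 1`.
Case `cos α ≥ 0`: `γ = H`, `|Fk (ga H α) k - Fk H k| = nk k |ga H α (tk k) - H (tk k)| ≤ Y` on `blk n`. Let `X' = min X (1/Y)` (`= X` if `Y = 0`), so `1 ≤ X' ≤ X`, `X' Y ≤ 1`, `1/X' ≤ 1/X + Y`.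
Cover `[R₁, R₁+X]` by `m = ⌈X/X'⌉ ≤ 2X/X'` intervals `[R₁ + i X', R₁ + (i+1) X']` (the integrand is `≥ 0`); on each one `sixth_moment` (with `X'`) and `perturb`:
`≤ 2·10^6 C₀ X' (2^n)^(6+ε) (1 + 8^n/X')`. Sum: `≤ 4·10^6 C₀ X (2^n)^(6+ε) (1 + 8^n/X')`, and
`1 + 8^n/X' ≤ 1 + (8^n/X)(1 + X Y) ≤ (1 + 8^n/X)(1 + X Y) ≤ (1 + 8^n/X) (1 + 2B) (1 + X 2^n sin² α)`.
Case `cos α ≤ 0`: `γ t = H (t + π)` and `-ga H α` is close to `γ`; `Fk (ga H α) k = - Fk (-ga H α) k`, so `cs B a (ga H α) (c,R) = cs B a (-ga H α) (c,-R)`; substitute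
`R ↦ -R` as in the proof of `sixth_ga` (AC/D6b: `cs_neg85`, `int_neg85`, private, copy them).
-/

open MeasureTheory Real Set Filter Topology

set_option autoImplicit false

namespace Pool.Agent.Helper22.SC

open Pool.Agent.Helper22.AE Pool.Agent.Helper22.AC

private lemma cs_neg88 (B : Finset (ℤ × ℤ)) (a : ℤ × ℤ → ℂ) (γ : ℝ → ℝ) (q : (ℝ × ℝ) × ℝ) :
    cs B a γ q = cs B a (fun t => -γ t) (q.1, -q.2) := by
  unfold cs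
  refine Finset.sum_congr rfl fun k _ => ?_
  congr 2
  unfold Fk
  ring

private lemma int_neg88 (f : (ℝ × ℝ) × ℝ → ℝ) (S : Set (ℝ × ℝ)) (u v : ℝ) :
    ∫ q in S ×ˢ Icc u v, f (q.1, -q.2) = ∫ q in S ×ˢ Icc (-v) (-u), f q := by
  let e : ((ℝ × ℝ) × ℝ) ≃ᵐ ((ℝ × ℝ) × ℝ) :=
    MeasurableEquiv.prodCongr (MeasurableEquiv.refl (ℝ × ℝ)) (MeasurableEquiv.neg ℝ)
  have he : ∀ q, e q = (q.1, -q.2) := fun q => rfl
  have hmp : MeasurePreserving e volume volume :=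
    (MeasurePreserving.id (volume : Measure (ℝ × ℝ))).prod
      (Measure.measurePreserving_neg (volume : Measure ℝ))
  have h := hmp.setIntegral_preimage_emb e.measurableEmbedding f (S ×ˢ Icc (-v) (-u))
  have hpre : e ⁻¹' (S ×ˢ Icc (-v) (-u)) = S ×ˢ Icc u v := by
    ext q
    rw [mem_preimage, he, mem_prod, mem_prod, mem_Icc, mem_Icc]
    simp only [neg_le_neg_iff]
    tauto
  rw [hpre] at h
  exact h

/-- an interval is covered by `m` intervals -/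
private lemma cover88 {f : (ℝ × ℝ) × ℝ → ℝ} (hf : Continuous f) (h0 : ∀ q, 0 ≤ f q) {X' M : ℝ}
    (hX' : 0 ≤ X')
    (hM : ∀ R₁ : ℝ, ∫ q in (Icc (0 : ℝ) 1 ×ˢ Icc (0 : ℝ) 1) ×ˢ Icc R₁ (R₁ + X'), f q ≤ M) (R₁ : ℝ)
    (m : ℕ) (hm : 1 ≤ m) :
    ∫ q in (Icc (0 : ℝ) 1 ×ˢ Icc (0 : ℝ) 1) ×ˢ Icc R₁ (R₁ + m * X'), f q ≤ m * M := by
  have hint : ∀ u v : ℝ, IntegrableOn f ((Icc (0 : ℝ) 1 ×ˢ Icc (0 : ℝ) 1) ×ˢ Icc u v) volume :=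
    fun u v => hf.continuousOn.integrableOn_compact
      ((isCompact_Icc.prod isCompact_Icc).prod isCompact_Icc)
  induction m, hm using Nat.le_induction with
  | base =>
    rw [Nat.cast_one, one_mul, one_mul]
    exact hM R₁
  | succ m hm ih =>
    have h1 : (Icc (0 : ℝ) 1 ×ˢ Icc (0 : ℝ) 1) ×ˢ Icc R₁ (R₁ + ((m + 1 : ℕ) : ℝ) * X') ⊆
        ((Icc (0 : ℝ) 1 ×ˢ Icc (0 : ℝ) 1) ×ˢ Icc R₁ (R₁ + m * X')) ∪
        ((Icc (0 : ℝ) 1 ×ˢ Icc (0 : ℝ) 1) ×ˢ Icc (R₁ + m * X') (R₁ + m * X' + X')) := by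
      rintro q ⟨hq1, hq2⟩
      rw [mem_Icc] at hq2
      push_cast at hq2
      rcases le_total q.2 (R₁ + m * X') with h | h
      · exact Or.inl ⟨hq1, mem_Icc.mpr ⟨hq2.1, h⟩⟩
      · exact Or.inr ⟨hq1, mem_Icc.mpr ⟨h, by linarith [hq2.2]⟩⟩
    have h2 : volume.restrict ((Icc (0 : ℝ) 1 ×ˢ Icc (0 : ℝ) 1) ×ˢ
        Icc R₁ (R₁ + ((m + 1 : ℕ) : ℝ) * X')) ≤
        volume.restrict ((Icc (0 : ℝ) 1 ×ˢ Icc (0 : ℝ) 1) ×ˢ Icc R₁ (R₁ + m * X')) +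
        volume.restrict ((Icc (0 : ℝ) 1 ×ˢ Icc (0 : ℝ) 1) ×ˢ
          Icc (R₁ + m * X') (R₁ + m * X' + X')) :=
      (Measure.restrict_mono h1 le_rfl).trans (Measure.restrict_union_le _ _)
    have h3 := integral_mono_measure (f := f) h2 (Filter.Eventually.of_forall h0)
      (Integrable.add_measure (hint R₁ (R₁ + m * X')) (hint (R₁ + m * X') (R₁ + m * X' + X')))
    rw [integral_add_measure (hint R₁ (R₁ + m * X'))
      (hint (R₁ + m * X') (R₁ + m * X' + X'))] at h3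
    refine h3.trans ?_
    push_cast
    have h4 := hM (R₁ + m * X')
    linarith [ih]

private lemma key88 {c₁ c₂ C₀ ε : ℝ} (hC₀ : 0 ≤ C₀)
    (hsix : ∀ (n : ℕ) (X : ℝ), 1 ≤ X → ∀ γ : ℝ → ℝ, Adm c₁ c₂ γ → ∀ a : ℤ × ℤ → ℂ,
      (∀ k, ‖a k‖ ≤ 1) → ∀ R₁ : ℝ,
      ∫ q in (Icc (0 : ℝ) 1 ×ˢ Icc (0 : ℝ) 1) ×ˢ Icc R₁ (R₁ + X), ‖cs (blk n) a γ q‖ ^ 6 ≤
        C₀ * X * ((2 : ℝ) ^ n) ^ (6 + ε) * (1 + 8 ^ n / X))
    {γ γ' : ℝ → ℝ} (hγ : Adm c₁ c₂ γ) {n : ℕ} {X Y : ℝ} (hX : 1 ≤ X) (hY : 0 ≤ Y) (hY1 : Y ≤ 1)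
    (hF : ∀ k ∈ blk n, |Fk γ' k - Fk γ k| ≤ Y) {a : ℤ × ℤ → ℂ} (ha : ∀ k, ‖a k‖ ≤ 1) (R₁ : ℝ) :
    ∫ q in (Icc (0 : ℝ) 1 ×ˢ Icc (0 : ℝ) 1) ×ˢ Icc R₁ (R₁ + X), ‖cs (blk n) a γ' q‖ ^ 6 ≤
      4 * 10 ^ 6 * C₀ * X * ((2 : ℝ) ^ n) ^ (6 + ε) * (1 + 8 ^ n / X) * (1 + X * Y) := by
  have hX0 : 0 < X := by linarith
  obtain ⟨X', h1, h2, h3, h4⟩ : ∃ X' : ℝ, 1 ≤ X' ∧ X' ≤ X ∧ X' * Y ≤ 1 ∧ 1 / X' ≤ 1 / X + Y := by
    rcases le_or_gt (X * Y) 1 with h | h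
    · exact ⟨X, hX, le_rfl, h, by linarith⟩
    · have hY0 : 0 < Y := by
        rcases hY.lt_or_eq with h' | h'
        · exact h'
        · rw [← h', mul_zero] at h
          linarith
      refine ⟨1 / Y, ?_, ?_, ?_, ?_⟩
      · rw [le_div_iff₀ hY0]
        linarith
      · rw [div_le_iff₀ hY0]
        exact h.le
      · rw [one_div, inv_mul_cancel₀ hY0.ne']
      · rw [one_div_one_div]
        have : 0 < 1 / X := by positivity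
        linarith
  have hX'0 : 0 < X' := by linarith
  set M : ℝ := C₀ * X' * ((2 : ℝ) ^ n) ^ (6 + ε) * (1 + 8 ^ n / X') with hM
  have hone : ∀ R : ℝ, ∫ q in (Icc (0 : ℝ) 1 ×ˢ Icc (0 : ℝ) 1) ×ˢ Icc R (R + X'),
      ‖cs (blk n) a γ' q‖ ^ 6 ≤ 2 * 10 ^ 6 * M := fun R =>
    perturb hX'0 hY h3 hF (fun a ha => hsix n X' h1 γ hγ a ha R) ha
  have hcont : Continuous (fun q => ‖cs (blk n) a γ' q‖ ^ 6) :=
    (cs_cont (blk n) a γ').norm.pow 6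
  have hr1 : 1 ≤ X / X' := (one_le_div hX'0).mpr h2
  set m : ℕ := ⌈X / X'⌉₊ with hmdef
  have hm1 : 1 ≤ m := Nat.one_le_iff_ne_zero.mpr (Nat.ceil_pos.mpr (by linarith)).ne'
  have hmX : X ≤ m * X' := by
    have := Nat.le_ceil (X / X')
    rwa [div_le_iff₀ hX'0] at this
  have hmX2 : m * X' ≤ 2 * X := by
    have h5 := Nat.ceil_lt_add_one (show 0 ≤ X / X' by positivity)
    have h6 : (m : ℝ) ≤ 2 * (X / X') := by linarith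
    calc m * X' ≤ 2 * (X / X') * X' := mul_le_mul_of_nonneg_right h6 hX'0.le
      _ = 2 * X := by field_simp
  have hcov := cover88 hcont (fun q => by positivity) hX'0.le hone R₁ m hm1
  have hmono : ∫ q in (Icc (0 : ℝ) 1 ×ˢ Icc (0 : ℝ) 1) ×ˢ Icc R₁ (R₁ + X),
      ‖cs (blk n) a γ' q‖ ^ 6 ≤
      ∫ q in (Icc (0 : ℝ) 1 ×ˢ Icc (0 : ℝ) 1) ×ˢ Icc R₁ (R₁ + m * X'),
        ‖cs (blk n) a γ' q‖ ^ 6 := by
    apply setIntegral_mono_set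
    · exact hcont.continuousOn.integrableOn_compact
        ((isCompact_Icc.prod isCompact_Icc).prod isCompact_Icc)
    · exact Filter.Eventually.of_forall fun q => by positivity
    · apply LE.le.eventuallyLE
      exact prod_mono le_rfl (Icc_subset_Icc_right (by linarith))
  refine hmono.trans (hcov.trans ?_)
  have hP : 0 ≤ ((2 : ℝ) ^ n) ^ (6 + ε) := by positivity
  have h8 : (0 : ℝ) < 8 ^ n := by positivity
  have h5 : (1 : ℝ) + 8 ^ n / X' ≤ (1 + 8 ^ n / X) * (1 + X * Y) := by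
    have h6 : (8 : ℝ) ^ n / X' ≤ 8 ^ n * (1 / X + Y) := by
      rw [div_eq_mul_one_div]
      exact mul_le_mul_of_nonneg_left h4 h8.le
    have h7 : (8 : ℝ) ^ n * (1 / X + Y) = 8 ^ n / X * (1 + X * Y) := by field_simp
    have h9 : 0 ≤ X * Y := by positivity
    have h10 : (1 + (8 : ℝ) ^ n / X) * (1 + X * Y) =
        1 + 8 ^ n / X * (1 + X * Y) + X * Y := by ring
    rw [h10]
    linarith
  calc (m : ℝ) * (2 * 10 ^ 6 * M)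
      = 2 * 10 ^ 6 * C₀ * ((2 : ℝ) ^ n) ^ (6 + ε) * (1 + 8 ^ n / X') * (m * X') := by
        rw [hM]; ring
    _ ≤ 2 * 10 ^ 6 * C₀ * ((2 : ℝ) ^ n) ^ (6 + ε) * (1 + 8 ^ n / X') * (2 * X) := by
        apply mul_le_mul_of_nonneg_left hmX2
        positivity
    _ = 4 * 10 ^ 6 * C₀ * X * ((2 : ℝ) ^ n) ^ (6 + ε) * (1 + 8 ^ n / X') := by ring
    _ ≤ 4 * 10 ^ 6 * C₀ * X * ((2 : ℝ) ^ n) ^ (6 + ε) * ((1 + 8 ^ n / X) * (1 + X * Y)) := by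
        apply mul_le_mul_of_nonneg_left h5
        positivity
    _ = _ := by ring

private lemma nk_lt88 {n : ℕ} {k : ℤ × ℤ} (hk : k ∈ blk n) : 0 ≤ nk k ∧ nk k ≤ 2 ^ (n + 1) := by
  unfold blk at hk
  rw [Finset.mem_filter] at hk
  exact ⟨norm_nonneg _, hk.2.2.le⟩

theorem sixth_ga2 {H : ℝ → ℝ} (hH : IsSupp H) {ε : ℝ} (hε : 0 < ε) : ∃ s₀ C : ℝ, 0 < s₀ ∧ 0 < C ∧
    ∀ (n : ℕ) (X R₁ α : ℝ), 1 ≤ X → 2 ^ n * sin α ^ 2 ≤ s₀ → ∀ a : ℤ × ℤ → ℂ, (∀ k, ‖a k‖ ≤ 1) →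
      ∫ q in (Icc (0 : ℝ) 1 ×ˢ Icc (0 : ℝ) 1) ×ˢ Icc R₁ (R₁ + X), ‖cs (blk n) a (ga H α) q‖ ^ 6 ≤
        C * X * ((2 : ℝ) ^ n) ^ (6 + ε) * (1 + 8 ^ n / X) * (1 + X * 2 ^ n * sin α ^ 2) := by
  obtain ⟨B, hB, hnear⟩ := ga_near hH
  obtain ⟨c₁, c₂, hc1, hc12, hA, hA'⟩ := adm_self hH
  obtain ⟨C₀, hC₀, hsix⟩ := sixth_moment (c₂ := c₂) hc1 hε
  refine ⟨1 / (2 * B), 4 * 10 ^ 6 * (C₀ + 1) * (1 + 2 * B), by positivity, by positivity, ?_⟩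
  intro n X R₁ α hX hs a ha
  have hX0 : 0 < X := by linarith
  have hs2 : 0 ≤ sin α ^ 2 := sq_nonneg _
  set Y : ℝ := 2 ^ (n + 1) * (B * sin α ^ 2) with hY
  have hYe : Y = 2 * B * (2 ^ n * sin α ^ 2) := by rw [hY, pow_succ]; ring
  have hY0 : 0 ≤ Y := by positivity
  have hY1 : Y ≤ 1 := by
    rw [hYe]
    rw [le_div_iff₀ (by positivity)] at hs
    linarith
  have hfin : 4 * 10 ^ 6 * C₀ * X * ((2 : ℝ) ^ n) ^ (6 + ε) * (1 + 8 ^ n / X) * (1 + X * Y) ≤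
      4 * 10 ^ 6 * (C₀ + 1) * (1 + 2 * B) * X * ((2 : ℝ) ^ n) ^ (6 + ε) * (1 + 8 ^ n / X) *
        (1 + X * 2 ^ n * sin α ^ 2) := by
    have h1 : 1 + X * Y ≤ (1 + 2 * B) * (1 + X * 2 ^ n * sin α ^ 2) := by
      rw [hYe]
      have h2 : 0 ≤ X * 2 ^ n * sin α ^ 2 := by positivity
      nlinarith
    have h3 : 0 ≤ X * ((2 : ℝ) ^ n) ^ (6 + ε) * (1 + 8 ^ n / X) := by positivity
    have h4 : 0 ≤ 1 + X * Y := by positivity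
    calc 4 * 10 ^ 6 * C₀ * X * ((2 : ℝ) ^ n) ^ (6 + ε) * (1 + 8 ^ n / X) * (1 + X * Y)
        = 4 * 10 ^ 6 * C₀ * (X * ((2 : ℝ) ^ n) ^ (6 + ε) * (1 + 8 ^ n / X)) * (1 + X * Y) := by
          ring
      _ ≤ 4 * 10 ^ 6 * (C₀ + 1) * (X * ((2 : ℝ) ^ n) ^ (6 + ε) * (1 + 8 ^ n / X)) *
          ((1 + 2 * B) * (1 + X * 2 ^ n * sin α ^ 2)) := by
          apply mul_le_mul _ h1 h4 (by positivity)
          apply mul_le_mul_of_nonneg_right _ h3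
          linarith
      _ = _ := by ring
  refine le_trans ?_ hfin
  rcases le_total 0 (cos α) with hc | hc
  · apply key88 hC₀ hsix hA hX hY0 hY1 _ ha
    intro k hk
    obtain ⟨h1, h2⟩ := nk_lt88 hk
    unfold Fk
    rw [← mul_sub, abs_mul, abs_of_nonneg h1, hY]
    exact mul_le_mul h2 ((hnear α (tk k)).1 hc) (abs_nonneg _) (by positivity)
  · have h1 : ∫ q in (Icc (0 : ℝ) 1 ×ˢ Icc (0 : ℝ) 1) ×ˢ Icc (-(R₁ + X)) (-(R₁ + X) + X),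
        ‖cs (blk n) a (fun t => -ga H α t) q‖ ^ 6 ≤
        4 * 10 ^ 6 * C₀ * X * ((2 : ℝ) ^ n) ^ (6 + ε) * (1 + 8 ^ n / X) * (1 + X * Y) := by
      apply key88 hC₀ hsix hA' hX hY0 hY1 _ ha
      intro k hk
      obtain ⟨h1, h2⟩ := nk_lt88 hk
      unfold Fk
      rw [← mul_sub, abs_mul, abs_of_nonneg h1, hY]
      refine mul_le_mul h2 ?_ (abs_nonneg _) (by positivity)
      have h3 := (hnear α (tk k)).2 hc
      have e : -ga H α (tk k) - H (tk k + π) = -(ga H α (tk k) + H (tk k + π)) := by ring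
      rw [e, abs_neg]
      exact h3
    have e1 : -(R₁ + X) + X = -R₁ := by ring
    rw [e1] at h1
    refine le_trans (le_of_eq ?_) h1
    rw [← int_neg88 (fun q => ‖cs (blk n) a (fun t => -ga H α t) q‖ ^ 6)]
    refine integral_congr_ae (Filter.Eventually.of_forall fun q => ?_)
    simp only
    rw [cs_neg88]

end Pool.Agent.Helper22.SC
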