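import Pool.Agent.Helper22.SC.Defs
import Pool.Agent.Helper22.AC.D6a

/-!
# SC-U4: Hoelder on a box with a weight in the angle

PROOF of `m_int`. `(k0 β α ^ 4 / β)^(1/5) = β^(3/5) / (sin² α + β²)^(4/5)`. With `|sin α| ≥ 2|α|/π` on `[-π/2, π/2]` (and the same near `±π`; `sin²` is even and `π`-periodic) the
integral is `4 ∫_0^{π/2} ≤ 2π ∫_0^1 β^(3/5)/(β² + y²)^(4/5) dy` and the last integrand is `≤ 1/β` for `y ≤ β` and `≤ β^(3/5) y^(-8/5)` for `y ≥ β`: the integral is at most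
`1 + 5/3` (if `β ≥ 1` it is at most `1/β ≤ 1`). `2π · 8/3 < 40`.
PROOF of `hoelder_box2`. As `hoelder_box` (AC/D6a.lean, with its private lemma `jens86`: Jensen for the power 6 and a weight): use the weight `m α = (k0 β α ^ 4 / β)^(1/5) > 0` and the function
`(k0 β α / m α) f (α, q)`; `m (k0/m)^6 = k0^6 / m^5 = β k0²` since `m^5 = k0^4/β`; `∫ m ≤ 40`, volume of the box `2^(-3n)`.
-/

open MeasureTheory Real Set Filter Topology

set_option autoImplicit false

namespace Pool.Agent.Helper22.SC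

open Pool.Agent.Helper22.AE Pool.Agent.Helper22.AC

private theorem young50 {c g : ℝ} (hc : 0 ≤ c) (hg : 0 ≤ g) : 6 * c ^ 5 * g ≤ 5 * c ^ 6 + g ^ 6 := by
  have h : 0 ≤ (g - c) ^ 2 * (g ^ 4 + 2 * c * g ^ 3 + 3 * c ^ 2 * g ^ 2 + 4 * c ^ 3 * g + 5 * c ^ 4) := by
    positivity
  nlinarith [h]

private theorem jens50 {X : Type*} [MeasurableSpace X] {μ : Measure X} {w g : X → ℝ} (hw : ∀ x, 0 ≤ w x)
    (hg : ∀ x, 0 ≤ g x) (i0 : Integrable w μ) (i1 : Integrable (fun x => w x * g x) μ)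
    (i6 : Integrable (fun x => w x * g x ^ 6) μ) :
    (∫ x, w x * g x ∂μ) ^ 6 ≤ (∫ x, w x ∂μ) ^ 5 * ∫ x, w x * g x ^ 6 ∂μ := by
  set W := ∫ x, w x ∂μ with hW
  set I := ∫ x, w x * g x ∂μ with hI
  set J := ∫ x, w x * g x ^ 6 ∂μ with hJ
  have hW0 : 0 ≤ W := integral_nonneg hw
  have hI0 : 0 ≤ I := integral_nonneg fun x => mul_nonneg (hw x) (hg x)
  have hJ0 : 0 ≤ J := integral_nonneg fun x => mul_nonneg (hw x) (pow_nonneg (hg x) 6)
  have key : ∀ c : ℝ, 0 ≤ c → 6 * c ^ 5 * I ≤ 5 * c ^ 6 * W + J := by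
    intro c hc
    have h1 : 6 * c ^ 5 * I = ∫ x, 6 * c ^ 5 * (w x * g x) ∂μ := by
      rw [integral_const_mul]
    have h2 : 5 * c ^ 6 * W + J = ∫ x, (5 * c ^ 6 * w x + w x * g x ^ 6) ∂μ := by
      rw [integral_add (i0.const_mul _) i6, integral_const_mul]
    rw [h1, h2]
    refine integral_mono (i1.const_mul _) ((i0.const_mul _).add i6) fun x => ?_
    have h3 := mul_le_mul_of_nonneg_left (young50 hc (hg x)) (hw x)
    show 6 * c ^ 5 * (w x * g x) ≤ 5 * c ^ 6 * w x + w x * g x ^ 6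
    nlinarith [h3]
  rcases hW0.eq_or_lt with hz | hpos
  · have hI' : I = 0 := by
      by_contra hne
      have hIp : 0 < I := lt_of_le_of_ne hI0 (Ne.symm hne)
      set c := max 1 ((J + 1) / I) with hc
      have hc1 : 1 ≤ c := le_max_left _ _
      have hc2 : (J + 1) / I ≤ c := le_max_right _ _
      have h4 := key c (by linarith)
      rw [← hz] at h4
      have h5 : c ≤ c ^ 5 := by
        calc c = c ^ 1 := (pow_one c).symm
          _ ≤ c ^ 5 := pow_le_pow_right₀ hc1 (by norm_num)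
      have h6 : J + 1 ≤ c * I := (div_le_iff₀ hIp).1 hc2
      have h7 : c * I ≤ c ^ 5 * I := mul_le_mul_of_nonneg_right h5 hI0
      nlinarith
    rw [hI', ← hz]
    simp
  · have h4 := key (I / W) (by positivity)
    have h5 : I ^ 6 / W ^ 5 ≤ J := by
      have e1 : 6 * (I / W) ^ 5 * I = 6 * (I ^ 6 / W ^ 5) := by
        field_simp
      have e2 : 5 * (I / W) ^ 6 * W = 5 * (I ^ 6 / W ^ 5) := by
        field_simp
      rw [e1, e2] at h4
      linarith
    rw [div_le_iff₀ (by positivity)] at h5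
    linarith [h5, mul_comm J (W ^ 5)]

private theorem k0_cont50 {β : ℝ} (hβ : 0 < β) : Continuous (fun α => k0 β α) := by
  unfold k0
  exact continuous_const.div (by fun_prop) (fun α => (by positivity : (0 : ℝ) < sin α ^ 2 + β ^ 2).ne')

private noncomputable def mw50 (β α : ℝ) : ℝ := (k0 β α ^ 4 / β) ^ (1 / 5 : ℝ)

private theorem k0_pos50 {β : ℝ} (hβ : 0 < β) (α : ℝ) : 0 < k0 β α := by
  unfold k0
  positivity

private theorem mw_pos50 {β : ℝ} (hβ : 0 < β) (α : ℝ) : 0 < mw50 β α := by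
  have := k0_pos50 hβ α
  unfold mw50
  positivity

private theorem mw_cont50 {β : ℝ} (hβ : 0 < β) : Continuous (fun α => mw50 β α) := by
  unfold mw50
  exact ((k0_cont50 hβ).pow 4 |>.div_const β).rpow_const (fun _ => Or.inr (by norm_num))

private theorem mw_pow50 {β : ℝ} (hβ : 0 < β) (α : ℝ) : mw50 β α ^ 5 = k0 β α ^ 4 / β := by
  have h1 := k0_pos50 hβ α
  unfold mw50
  rw [← Real.rpow_natCast, ← Real.rpow_mul (by positivity)]
  norm_num

private theorem k0_per50 (β : ℝ) : Function.Periodic (fun α => mw50 β α) π := by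
  intro α
  show (k0 β (α + π) ^ 4 / β) ^ (1 / 5 : ℝ) = (k0 β α ^ 4 / β) ^ (1 / 5 : ℝ)
  unfold k0
  rw [sin_add_pi, neg_sq]

private theorem mw_even50 (β α : ℝ) : mw50 β (-α) = mw50 β α := by
  unfold mw50 k0
  rw [sin_neg, neg_sq]

/-- the majorant -/
private noncomputable def maj50 (β α : ℝ) : ℝ :=
  2 * (β / (2 / π * α + β) ^ 2) * (β / (2 / π * α + β)) ^ (3 / 5 - 1 : ℝ)

private theorem maj_pow50 {β α : ℝ} (hβ : 0 < β) (hα : 0 ≤ α) :
    maj50 β α ^ 5 = 32 * β ^ 3 / (2 / π * α + β) ^ 8 := by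
  have hs : 0 < 2 / π * α + β := by positivity
  unfold maj50
  obtain ⟨t, ht⟩ : ∃ t, t = 2 / π * α + β := ⟨_, rfl⟩
  rw [← ht] at hs ⊢
  rw [mul_pow, ← Real.rpow_natCast ((β / t) ^ (3 / 5 - 1 : ℝ)) 5, ← Real.rpow_mul (by positivity)]
  have e : ((3 / 5 - 1 : ℝ) * ((5 : ℕ) : ℝ)) = -((2 : ℕ) : ℝ) := by norm_num
  rw [e, Real.rpow_neg (by positivity), Real.rpow_natCast]
  field_simp
  norm_num

private theorem maj_le50 {β α : ℝ} (hβ : 0 < β) (hα : 0 ≤ α) (hα' : α ≤ π / 2) :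
    mw50 β α ≤ maj50 β α := by
  have hs : 0 < 2 / π * α + β := by positivity
  have hM : 0 ≤ maj50 β α := by
    unfold maj50
    positivity
  have h1 := k0_pos50 hβ α
  have hsin : 2 / π * α ≤ sin α := mul_le_sin hα hα'
  have h2 : k0 β α ≤ 2 * β / (2 / π * α + β) ^ 2 := by
    unfold k0
    rw [div_le_div_iff₀ (by positivity) (by positivity)]
    have h3 : (2 / π * α) ^ 2 ≤ sin α ^ 2 := pow_le_pow_left₀ (by positivity) hsin 2
    nlinarith [sq_nonneg (2 / π * α - β), mul_nonneg hβ.le (sub_nonneg.2 h3),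
      mul_nonneg hβ.le (sq_nonneg (2 / π * α - β))]
  have h4 : mw50 β α ^ 5 ≤ maj50 β α ^ 5 := by
    rw [mw_pow50 hβ, maj_pow50 hβ hα]
    have h5 : k0 β α ^ 4 ≤ (2 * β / (2 / π * α + β) ^ 2) ^ 4 := pow_le_pow_left₀ h1.le h2 4
    calc k0 β α ^ 4 / β ≤ (2 * β / (2 / π * α + β) ^ 2) ^ 4 / β := by
          exact div_le_div_of_nonneg_right h5 hβ.le
      _ = 16 * β ^ 3 / (2 / π * α + β) ^ 8 := by
          field_simp
          norm_num
      _ ≤ 32 * β ^ 3 / (2 / π * α + β) ^ 8 := by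
          apply div_le_div_of_nonneg_right _ (by positivity)
          have : 0 < β ^ 3 := by positivity
          linarith
  exact le_of_pow_le_pow_left₀ (by norm_num) hM h4

private theorem maj_deriv50 {β α : ℝ} (hβ : 0 < β) (hα : 0 ≤ α) :
    HasDerivAt (fun x => -(5 * π / 3) * (β / (2 / π * x + β)) ^ (3 / 5 : ℝ)) (maj50 β α) α := by
  have hs : 0 < 2 / π * α + β := by positivity
  have h1 : HasDerivAt (fun x : ℝ => 2 / π * x + β) (2 / π) α := by
    simpa using ((hasDerivAt_id α).const_mul (2 / π)).add_const β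
  have h2 : HasDerivAt (fun x : ℝ => β / (2 / π * x + β)) (-(β * (2 / π)) / (2 / π * α + β) ^ 2) α := by
    have := (hasDerivAt_const α β).div h1 hs.ne'
    refine this.congr_deriv ?_
    ring
  have h3 := (h2.rpow_const (p := 3 / 5) (Or.inl (by positivity))).const_mul (-(5 * π / 3))
  refine h3.congr_deriv ?_
  unfold maj50
  have hπ := pi_pos
  field_simp

private theorem half50 {β : ℝ} (hβ : 0 < β) : ∫ α in (0 : ℝ)..(π / 2), mw50 β α ≤ 5 * π / 3 := by
  have hπ := pi_pos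
  have hmaj : ContinuousOn (fun α => maj50 β α) (uIcc 0 (π / 2)) := by
    have hne : ∀ x ∈ uIcc (0 : ℝ) (π / 2), 2 / π * x + β ≠ 0 := by
      intro x hx
      rw [uIcc_of_le (by positivity)] at hx
      have : 0 ≤ 2 / π * x := mul_nonneg (by positivity) hx.1
      linarith
    have hc : ContinuousOn (fun x : ℝ => β / (2 / π * x + β)) (uIcc 0 (π / 2)) :=
      continuousOn_const.div (by fun_prop) hne
    unfold maj50
    refine ((continuousOn_const.mul (continuousOn_const.div (by fun_prop) fun x hx => pow_ne_zero 2 (hne x hx))).mul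
      (hc.rpow_const fun x hx => Or.inl (div_ne_zero hβ.ne' (hne x hx))))
  have h1 : ∫ α in (0 : ℝ)..(π / 2), mw50 β α ≤ ∫ α in (0 : ℝ)..(π / 2), maj50 β α := by
    apply intervalIntegral.integral_mono_on (by positivity) ((mw_cont50 hβ).intervalIntegrable _ _)
      hmaj.intervalIntegrable
    intro α hα
    exact maj_le50 hβ hα.1 hα.2
  have h2 : ∫ α in (0 : ℝ)..(π / 2), maj50 β α =
      -(5 * π / 3) * (β / (2 / π * (π / 2) + β)) ^ (3 / 5 : ℝ) - -(5 * π / 3) * (β / (2 / π * 0 + β)) ^ (3 / 5 : ℝ) := by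
    refine intervalIntegral.integral_eq_sub_of_hasDerivAt
      (f := fun x => -(5 * π / 3) * (β / (2 / π * x + β)) ^ (3 / 5 : ℝ)) (fun α hα => ?_) hmaj.intervalIntegrable
    rw [uIcc_of_le (by positivity)] at hα
    exact maj_deriv50 hβ hα.1
  rw [h2, mul_zero, zero_add, div_self hβ.ne', Real.one_rpow] at h1
  have h3 : 0 ≤ (β / (2 / π * (π / 2) + β)) ^ (3 / 5 : ℝ) := by positivity
  nlinarith [mul_nonneg hπ.le h3]

theorem m_int {β : ℝ} (hβ : 0 < β) : ∫ α in (-π)..π, (k0 β α ^ 4 / β) ^ (1 / 5 : ℝ) ≤ 40 := by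
  have hπ := pi_pos
  have hc := mw_cont50 hβ
  have hi : ∀ a b : ℝ, IntervalIntegrable (fun α => mw50 β α) volume a b := fun a b => hc.intervalIntegrable a b
  show ∫ α in (-π)..π, mw50 β α ≤ 40
  have e1 : ∫ α in (-π)..π, mw50 β α = (∫ α in (-π)..0, mw50 β α) + ∫ α in (0 : ℝ)..π, mw50 β α :=
    (intervalIntegral.integral_add_adjacent_intervals (hi _ _) (hi _ _)).symm
  have e2 : ∫ α in (-π)..0, mw50 β α = ∫ α in (-(π / 2))..(π / 2), mw50 β α := by
    have h := (k0_per50 β).intervalIntegral_add_eq (-π) (-(π / 2))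
    have h1 : -π + π = 0 := by ring
    have h2 : -(π / 2) + π = π / 2 := by ring
    rw [h1, h2] at h
    exact h
  have e3 : ∫ α in (0 : ℝ)..π, mw50 β α = ∫ α in (-(π / 2))..(π / 2), mw50 β α := by
    have h := (k0_per50 β).intervalIntegral_add_eq 0 (-(π / 2))
    have h2 : -(π / 2) + π = π / 2 := by ring
    rw [zero_add, h2] at h
    exact h
  have e4 : ∫ α in (-(π / 2))..(π / 2), mw50 β α =
      (∫ α in (-(π / 2))..0, mw50 β α) + ∫ α in (0 : ℝ)..(π / 2), mw50 β α :=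
    (intervalIntegral.integral_add_adjacent_intervals (hi _ _) (hi _ _)).symm
  have e5 : ∫ α in (-(π / 2))..0, mw50 β α = ∫ α in (0 : ℝ)..(π / 2), mw50 β α := by
    have h := intervalIntegral.integral_comp_neg (fun α => mw50 β α) (a := 0) (b := π / 2)
    rw [neg_zero] at h
    rw [← h]
    simp only [mw_even50]
  have h6 := half50 hβ
  have h7 : π < 3.15 := pi_lt_d2
  rw [e1, e2, e3, e4, e5]
  linarith

theorem hoelder_box2 {β : ℝ} (hβ : 0 < β) (n : ℕ) (p : ℕ × ℕ) (R₀ : ℝ) (j : ℕ) {A : Set ℝ} (hA : MeasurableSet A)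
    (hA' : A ⊆ Icc (-π) π) {f : ℝ × ((ℝ × ℝ) × ℝ) → ℝ} (hf : Continuous f) (h0 : ∀ q, 0 ≤ f q) :
    (∫ α in A, k0 β α * ∫ q in bxs n p R₀ j, f (α, q)) ^ 6 ≤
      (40 / 2 ^ (3 * n)) ^ 5 * ∫ α in A, (β * k0 β α ^ 2) * ∫ q in bxs n p R₀ j, f (α, q) ^ 6 := by
  have hB : IsCompact (bxs n p R₀ j) := by
    unfold bxs Pool.Agent.Helper22.AC.sq
    exact (isCompact_Icc.prod isCompact_Icc).prod isCompact_Icc
  have hF : ∀ h : ℝ × ((ℝ × ℝ) × ℝ) → ℝ, Continuous h → Continuous fun α => ∫ q in bxs n p R₀ j, h (α, q) := by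
    intro h hh
    exact continuous_parametric_integral_of_continuous (f := fun α q => h (α, q)) hh hB
  have hF0 : ∀ α, 0 ≤ ∫ q in bxs n p R₀ j, f (α, q) := fun α => integral_nonneg fun q => h0 _
  have hint : ∀ h : ℝ → ℝ, Continuous h → Integrable h (volume.restrict A) := fun h hh =>
    (hh.continuousOn.integrableOn_compact isCompact_Icc).mono_set hA'
  have hkc := k0_cont50 hβ
  have hmc := mw_cont50 hβ
  have hf6 : Continuous fun q => f q ^ 6 := hf.pow 6
  have em : ∀ α, mw50 β α * (k0 β α / mw50 β α * ∫ q in bxs n p R₀ j, f (α, q)) =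
      k0 β α * ∫ q in bxs n p R₀ j, f (α, q) := by
    intro α
    have h1 := (mw_pos50 hβ α).ne'
    field_simp
  have em6 : ∀ α, mw50 β α * (k0 β α / mw50 β α * ∫ q in bxs n p R₀ j, f (α, q)) ^ 6 =
      (β * k0 β α ^ 2) * (∫ q in bxs n p R₀ j, f (α, q)) ^ 6 := by
    intro α
    have h1 := mw_pos50 hβ α
    have h2 := k0_pos50 hβ α
    have h3 := mw_pow50 hβ α
    have h4 : mw50 β α * (k0 β α / mw50 β α) ^ 6 = β * k0 β α ^ 2 := by
      have h5 : mw50 β α * (k0 β α / mw50 β α) ^ 6 = k0 β α ^ 6 / mw50 β α ^ 5 := by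
        field_simp
      rw [h5, h3]
      field_simp
    rw [mul_pow, ← mul_assoc, h4]
  have hgc : Continuous fun α => k0 β α / mw50 β α * ∫ q in bxs n p R₀ j, f (α, q) :=
    (hkc.div hmc fun α => (mw_pos50 hβ α).ne').mul (hF f hf)
  have h1 := jens50 (μ := volume.restrict A) (w := fun α => mw50 β α)
    (g := fun α => k0 β α / mw50 β α * ∫ q in bxs n p R₀ j, f (α, q))
    (fun α => (mw_pos50 hβ α).le)
    (fun α => mul_nonneg (div_nonneg (k0_pos50 hβ α).le (mw_pos50 hβ α).le) (hF0 α))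
    (hint _ hmc) (hint _ (hmc.mul hgc)) (hint _ (hmc.mul (hgc.pow 6)))
  simp only [em, em6] at h1
  have hV : volume.real (bxs n p R₀ j) = 1 / 2 ^ (3 * n) := by
    have hl : ∀ a : ℝ, ∀ b : ℕ, volume.real (Icc (a + (b : ℝ) / 2 ^ n) (a + ((b : ℝ) + 1) / 2 ^ n)) = 1 / 2 ^ n := by
      intro a b
      rw [Real.volume_real_Icc_of_le (by
        have : ((b : ℝ) + 1) / 2 ^ n = b / 2 ^ n + 1 / 2 ^ n := by ring
        have h : (0 : ℝ) ≤ 1 / 2 ^ n := by positivity
        linarith)]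
      ring
    have hl0 := hl 0
    simp only [zero_add] at hl0
    unfold bxs Pool.Agent.Helper22.AC.sq
    rw [Measure.volume_eq_prod, measureReal_prod_prod, Measure.volume_eq_prod, measureReal_prod_prod, hl0, hl0, hl]
    have e : (2 : ℝ) ^ (3 * n) = 2 ^ n * 2 ^ n * 2 ^ n := by
      rw [← pow_add, ← pow_add]
      congr 1
      ring
    rw [e]
    field_simp
  have h2 : ∀ α, (∫ q in bxs n p R₀ j, f (α, q)) ^ 6 ≤ (1 / 2 ^ (3 * n)) ^ 5 * ∫ q in bxs n p R₀ j, f (α, q) ^ 6 := by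
    intro α
    have hfα : Continuous fun q => f (α, q) := hf.comp (Continuous.prodMk continuous_const continuous_id)
    have i1 : Integrable (fun q => (1 : ℝ) * f (α, q)) (volume.restrict (bxs n p R₀ j)) :=
      (continuous_const.mul hfα).continuousOn.integrableOn_compact hB
    have i6 : Integrable (fun q => (1 : ℝ) * f (α, q) ^ 6) (volume.restrict (bxs n p R₀ j)) :=
      (continuous_const.mul (hfα.pow 6)).continuousOn.integrableOn_compact hB
    have i0 : Integrable (fun _ : (ℝ × ℝ) × ℝ => (1 : ℝ)) (volume.restrict (bxs n p R₀ j)) :=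
      continuous_const.continuousOn.integrableOn_compact hB
    have h3 := jens50 (μ := volume.restrict (bxs n p R₀ j)) (w := fun _ => (1 : ℝ)) (g := fun q => f (α, q))
      (fun _ => zero_le_one) (fun q => h0 _) i0 i1 i6
    have h4 : ∫ _ in bxs n p R₀ j, (1 : ℝ) = 1 / 2 ^ (3 * n) := by
      rw [setIntegral_const, hV, smul_eq_mul, mul_one]
    rw [h4] at h3
    simpa only [one_mul] using h3
  have h5 : ∫ α in A, mw50 β α ≤ 40 := by
    have h6 : ∫ α in A, mw50 β α ≤ ∫ α in Icc (-π) π, mw50 β α :=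
      setIntegral_mono_set (hmc.continuousOn.integrableOn_compact isCompact_Icc)
        (ae_of_all _ fun α => (mw_pos50 hβ α).le) (LE.le.eventuallyLE hA')
    have h7 : ∫ y in Icc (-π) π, mw50 β y = ∫ y in (-π)..π, mw50 β y := by
      rw [intervalIntegral.integral_of_le (by linarith [pi_pos]), integral_Icc_eq_integral_Ioc]
    rw [h7] at h6
    exact h6.trans (m_int hβ)
  have hwc : Continuous fun α => β * k0 β α ^ 2 := continuous_const.mul (hkc.pow 2)
  have hw0 : ∀ α, 0 ≤ β * k0 β α ^ 2 := fun α => mul_nonneg hβ.le (sq_nonneg _)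
  have h8 : ∫ α in A, (β * k0 β α ^ 2) * (∫ q in bxs n p R₀ j, f (α, q)) ^ 6 ≤
      (1 / 2 ^ (3 * n)) ^ 5 * ∫ α in A, (β * k0 β α ^ 2) * ∫ q in bxs n p R₀ j, f (α, q) ^ 6 := by
    rw [← integral_const_mul]
    refine integral_mono (hint _ (hwc.mul ((hF f hf).pow 6)))
      (hint _ (continuous_const.mul (hwc.mul (hF (fun q => f q ^ 6) hf6)))) fun α => ?_
    show (β * k0 β α ^ 2) * (∫ q in bxs n p R₀ j, f (α, q)) ^ 6 ≤
      (1 / 2 ^ (3 * n)) ^ 5 * ((β * k0 β α ^ 2) * ∫ q in bxs n p R₀ j, f (α, q) ^ 6)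
    have h9 := mul_le_mul_of_nonneg_left (h2 α) (hw0 α)
    linarith [h9, mul_left_comm (β * k0 β α ^ 2) ((1 / 2 ^ (3 * n) : ℝ) ^ 5) (∫ q in bxs n p R₀ j, f (α, q) ^ 6)]
  have hk5 : (∫ α in A, mw50 β α) ^ 5 ≤ 40 ^ 5 :=
    pow_le_pow_left₀ (integral_nonneg fun α => (mw_pos50 hβ α).le) h5 5
  have hJ0 : 0 ≤ ∫ α in A, (β * k0 β α ^ 2) * (∫ q in bxs n p R₀ j, f (α, q)) ^ 6 :=
    integral_nonneg fun α => mul_nonneg (hw0 α) (pow_nonneg (hF0 α) 6)
  calc (∫ α in A, k0 β α * ∫ q in bxs n p R₀ j, f (α, q)) ^ 6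
      ≤ (∫ α in A, mw50 β α) ^ 5 * ∫ α in A, (β * k0 β α ^ 2) * (∫ q in bxs n p R₀ j, f (α, q)) ^ 6 := h1
    _ ≤ 40 ^ 5 * ((1 / 2 ^ (3 * n)) ^ 5 * ∫ α in A, (β * k0 β α ^ 2) * ∫ q in bxs n p R₀ j, f (α, q) ^ 6) :=
        mul_le_mul hk5 h8 hJ0 (by positivity)
    _ = (40 / 2 ^ (3 * n)) ^ 5 * ∫ α in A, (β * k0 β α ^ 2) * ∫ q in bxs n p R₀ j, f (α, q) ^ 6 := by
        rw [← mul_assoc, ← mul_pow, mul_one_div]

end Pool.Agent.Helper22.SC
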