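import Pool.Agent.Helper22.SC.U6
import Pool.Agent.Helper22.AC.D9
import Pool.Agent.Helper22.AC.D10

/-!
# SC-U8: the exceptional centres (C² version of AC/D9.lean and AC/D10.lean)

PROOF. `exps'`: as `exps` (AC/D7.lean; all four numbers are the same `t ≤ (2θ-1)/4`), plus `e + e2 ≤ 2θ - 1`. `main_null2`: copy `main_null` (AC/D9.lean, with its private lemmas) with `bad_squares2`;
in the middle range `‖VKc‖ ≤ C₁ (R₀^(θ-e) + 2^n)` and `2^n ≤ R₀^(1-θ+e2) ≤ R₀^(θ-e)` (`hmin n hn`, `e + e2 ≤ 2θ - 1`), so the bound `2 C₁ R₀^(θ-e)` is unchanged.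
`dim_exc2`, `ae_exc2`: copy AC/D10.lean without `h3`.
-/

open MeasureTheory Real Set Filter Topology

set_option autoImplicit false

namespace Pool.Agent.Helper22.SC

open Pool.Agent.Helper22.AE Pool.Agent.Helper22.AC

private lemma u8_pow (N : ℕ) (x : ℝ) : ((2 : ℝ) ^ N) ^ x = (2 : ℝ) ^ ((N : ℝ) * x) := by
  rw [← Real.rpow_natCast 2 N, ← Real.rpow_mul (by norm_num)]

private lemma u8_card (N n : ℕ) {θ e ε : ℝ} :
    (((2 : ℝ) ^ N) ^ (θ - e - 1 / 2) * (2 : ℝ) ^ ((3 / 2 : ℝ) * n)) ^ (-(6 : ℝ)) * ((2 : ℝ) ^ n) ^ (9 + ε) *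
      ((2 : ℝ) ^ N + 8 ^ n) =
    ((2 : ℝ) ^ n) ^ ε * (((2 : ℝ) ^ N) ^ (4 - 6 * θ + 6 * e) + 8 ^ n * ((2 : ℝ) ^ N) ^ (3 - 6 * θ + 6 * e)) := by
  have h2 : (0 : ℝ) < 2 := by norm_num
  have e1 : (((2 : ℝ) ^ N) ^ (θ - e - 1 / 2) * (2 : ℝ) ^ ((3 / 2 : ℝ) * n)) ^ (-(6 : ℝ)) * ((2 : ℝ) ^ n) ^ (9 + ε) =
      ((2 : ℝ) ^ n) ^ ε * ((2 : ℝ) ^ N) ^ (3 - 6 * θ + 6 * e) := by
    rw [u8_pow, u8_pow, u8_pow, u8_pow, ← Real.rpow_add h2, ← Real.rpow_mul h2.le, ← Real.rpow_add h2, ← Real.rpow_add h2]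
    congr 1
    ring
  have e2 : ((2 : ℝ) ^ N) ^ (4 - 6 * θ + 6 * e) = ((2 : ℝ) ^ N) ^ (3 - 6 * θ + 6 * e) * (2 : ℝ) ^ N := by
    have h3 : (4 - 6 * θ + 6 * e) = (3 - 6 * θ + 6 * e) + 1 := by ring
    rw [h3, Real.rpow_add (by positivity), Real.rpow_one]
  rw [e1, e2]
  ring

private lemma u8_sq {x : ℝ} (hx : x ∈ Icc (0 : ℝ) 1) (n : ℕ) : ∃ p : ℕ, p < 2 ^ n ∧
    x ∈ Icc ((p : ℝ) / 2 ^ n) (((p : ℝ) + 1) / 2 ^ n) := by
  have h2 : (0 : ℝ) < 2 ^ n := by positivity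
  have h0 : 0 ≤ x * 2 ^ n := mul_nonneg hx.1 h2.le
  by_cases h1 : x = 1
  · refine ⟨2 ^ n - 1, Nat.sub_lt (by positivity) one_pos, ?_⟩
    have h3 : ((2 ^ n - 1 : ℕ) : ℝ) = 2 ^ n - 1 := by
      rw [Nat.cast_sub Nat.one_le_two_pow]
      push_cast
      rfl
    rw [h3, h1]
    constructor
    · rw [div_le_one h2]; linarith
    · rw [le_div_iff₀ h2]; linarith
  · have hx1 : x < 1 := lt_of_le_of_ne hx.2 h1
    refine ⟨⌊x * 2 ^ n⌋₊, ?_, ?_, ?_⟩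
    · rw [Nat.floor_lt h0]
      push_cast
      nlinarith
    · rw [div_le_iff₀ h2]
      exact Nat.floor_le h0
    · rw [le_div_iff₀ h2]
      exact (Nat.lt_floor_add_one _).le

private lemma u8_N (N : ℕ) {e : ℝ} (he : 0 < e) : (N : ℝ) * ((2 : ℝ) ^ N) ^ (-e) ≤ 1 / (e * Real.log 2) := by
  have hl : 0 < Real.log 2 := Real.log_pos (by norm_num)
  have h1 : (N : ℝ) * (e * Real.log 2) ≤ ((2 : ℝ) ^ N) ^ e := by
    rw [u8_pow, Real.rpow_def_of_pos (by norm_num)]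
    have := Real.add_one_le_exp (Real.log 2 * ((N : ℝ) * e))
    linarith
  have h2 : 0 < ((2 : ℝ) ^ N) ^ e := by positivity
  rw [Real.rpow_neg (by positivity), le_div_iff₀ (by positivity), mul_right_comm, ← div_eq_mul_inv, div_le_one h2]
  exact h1

private theorem u8_exps {θ s : ℝ} (h1 : 3 / 5 < θ) (h2 : θ < 2 / 3) (hs : (4 - 6 * θ) / (2 * θ - 1) < s)
    (hs' : (6 - 9 * θ) / (1 - θ) < s) (hs2 : s ≤ 2) : ∃ e e2 ε η : ℝ, 0 < e ∧ 0 < e2 ∧ 0 < ε ∧ ε ≤ 1 ∧ 0 < η ∧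
      2 * e < 2 * θ - 1 ∧ ε < s ∧ 1 - θ + e2 < 1 ∧
      4 - 6 * θ + 6 * e - (s - ε) * (2 * θ - 1 - 2 * e) ≤ -η ∧
      3 - 6 * θ + 6 * e + (3 + ε - s) * (1 - θ + e2) ≤ -η ∧ e + e2 ≤ 2 * θ - 1 := by
  obtain ⟨e, e2, ε, η, he, he2, hε, hε1, hη, h2e, hεs, hτ1, hE1, hE2⟩ := exps h1 h2 hs hs' hs2
  have hm1 := min_le_left e2 (2 * θ - 1 - e)
  have hm2 := min_le_right e2 (2 * θ - 1 - e)
  refine ⟨e, min e2 (2 * θ - 1 - e), ε, η, he, lt_min he2 (by linarith), hε, hε1, hη, h2e, hεs, by linarith, hE1, ?_,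
    by linarith⟩
  have h3 : (3 + ε - s) * (1 - θ + min e2 (2 * θ - 1 - e)) ≤ (3 + ε - s) * (1 - θ + e2) :=
    mul_le_mul_of_nonneg_left (by linarith) (by linarith)
  linarith

theorem main_null2 {H : ℝ → ℝ} (hH : IsSupp H) {θ s : ℝ} (h1 : 3 / 5 < θ) (h2 : θ < 2 / 3)
    (hs : (4 - 6 * θ) / (2 * θ - 1) < s) (hs' : (6 - 9 * θ) / (1 - θ) < s) (hs2 : s ≤ 2) :
    μH[s] {c : ℝ × ℝ | c ∈ Icc (0 : ℝ) 1 ×ˢ Icc (0 : ℝ) 1 ∧ ¬ Bd H c θ} = 0 := by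
  classical
  obtain ⟨e, e2, ε, η, he, he2, hε, hε1, hη, h2e, hεs, hτ1, hE1, hE2, hee⟩ := u8_exps h1 h2 hs hs' hs2
  obtain ⟨φ, hφ⟩ := exists_bump
  obtain ⟨C1, hC1, HB⟩ := bad_squares2 hH hφ hε
  obtain ⟨C2, hC2, HT⟩ := VKc_trivial hH hφ
  obtain ⟨C3, R1, hR1, HD⟩ := errc_le_blocks hH hφ (τ := 1 - θ) (e2 := e2) (by linarith) (by linarith) he2
  have hR : ∀ N : ℕ, (1 : ℝ) ≤ 2 ^ N := fun N => one_le_pow₀ (by norm_num)
  have hδ : ∀ N : ℕ, ((2 : ℝ) ^ N) ^ (-(1 - θ)) ∈ Icc (0 : ℝ) 1 := fun N =>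
    ⟨by positivity, Real.rpow_le_one_of_one_le_of_nonpos (hR N) (by linarith)⟩
  have hlam : ∀ N n : ℕ, 0 < ((2 : ℝ) ^ N) ^ (θ - e - 1 / 2) * (2 : ℝ) ^ ((3 / 2 : ℝ) * n) := fun N n => by positivity
  choose S hS1 hS2 hS3 using fun (N n : ℕ) => HB ((2 : ℝ) ^ N) (hR N) n _ (hδ N) _ (hlam N n)
  set F : ℕ → Finset (ℕ × (ℕ × ℕ)) := fun N =>
    ((midr θ e e2 N).sigma fun n => S N n).image fun x => (x.1, x.2) with hF
  have hFmem : ∀ N n p, n ∈ midr θ e e2 N → p ∈ S N n → (n, p) ∈ F N := by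
    intro N n p hn hp
    rw [hF]
    simp only [Finset.mem_image, Finset.mem_sigma]
    exact ⟨⟨n, p⟩, ⟨hn, hp⟩, rfl⟩
  have hsum : Summable (fun N => ∑ q ∈ F N, ((2 : ℝ) ^ q.1) ^ (-s)) := by
    have hser := (series he2 hε hε1 hεs hs2 (by linarith) hη h2e hE1 hE2).mul_left C1
    refine Summable.of_nonneg_of_le (fun N => Finset.sum_nonneg fun q _ => by positivity) (fun N => ?_) hser
    rw [hF]
    simp only
    rw [Finset.sum_image]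
    · rw [Finset.sum_sigma, Finset.mul_sum]
      refine Finset.sum_le_sum fun n _ => ?_
      simp only [Finset.sum_const, nsmul_eq_mul]
      have h4 := hS2 N n
      rw [mul_assoc, mul_assoc, ← mul_assoc (_ ^ (-(6:ℝ))), u8_card] at h4
      rw [← mul_assoc]
      exact mul_le_mul_of_nonneg_right h4 (by positivity)
    · rintro ⟨a, b⟩ _ ⟨a', b'⟩ _ h
      simp only [Prod.mk.injEq] at h
      obtain ⟨rfl, rfl⟩ := h
      rfl
  have hs0 : 0 < s := lt_trans hε hεs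
  refine measure_mono_null ?_ (limsup_null hs0 F hsum)
  rintro c ⟨hc, hbd⟩
  rw [Set.mem_setOf_eq]
  by_contra hcon
  rw [Filter.not_frequently] at hcon
  apply hbd
  obtain ⟨N1, hN1⟩ := Filter.eventually_atTop.1 hcon
  obtain ⟨N2, hN2⟩ := pow_unbounded_of_one_lt R1 (by norm_num : (1 : ℝ) < 2)
  set N0 := max N1 N2 with hN0
  obtain ⟨C4, hC4⟩ := cntc_bdd hH c ((2 : ℝ) ^ N0)
  have hlog : 0 < Real.log 2 := Real.log_pos (by norm_num)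
  set K : ℝ := |C3| + (C2 + 2 * C1) * (1 / (e * Real.log 2)) with hK
  have hK0 : 0 ≤ K := by positivity
  -- one dyadic range
  have main : ∀ N, N0 ≤ N → ∀ R ∈ Icc ((2 : ℝ) ^ N) (2 * 2 ^ N), |cntc H c R - area H * R ^ 2| ≤ K * ((2 : ℝ) ^ N) ^ θ := by
    intro N hN R hRm
    have hR1N : R1 ≤ (2 : ℝ) ^ N := by
      have : (2 : ℝ) ^ N2 ≤ 2 ^ N := pow_le_pow_right₀ (by norm_num) ((le_max_right _ _).trans hN)
      linarith
    have hex : ∃ n1 : ℕ, ((2 : ℝ) ^ N) ^ (1 - θ + e2) ≤ 2 ^ n1 := by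
      refine ⟨N, ?_⟩
      calc ((2 : ℝ) ^ N) ^ (1 - θ + e2) ≤ ((2 : ℝ) ^ N) ^ (1 : ℝ) := Real.rpow_le_rpow_of_exponent_le (hR N) hτ1.le
        _ = 2 ^ N := Real.rpow_one _
    obtain ⟨n1, hn1d⟩ : ∃ n1, n1 = Nat.find hex := ⟨_, rfl⟩
    have hn1 : ((2 : ℝ) ^ N) ^ (1 - θ + e2) ≤ 2 ^ n1 := by rw [hn1d]; exact Nat.find_spec hex
    have hn1N : n1 ≤ N := by
      rw [hn1d]
      apply Nat.find_min' hex
      calc ((2 : ℝ) ^ N) ^ (1 - θ + e2) ≤ ((2 : ℝ) ^ N) ^ (1 : ℝ) := Real.rpow_le_rpow_of_exponent_le (hR N) hτ1.le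
        _ = 2 ^ N := Real.rpow_one _
    have hmin : ∀ n < n1, (2 : ℝ) ^ n < ((2 : ℝ) ^ N) ^ (1 - θ + e2) := by
      intro n hn
      rw [hn1d] at hn
      exact not_le.1 (Nat.find_min hex hn)
    obtain ⟨σ, hσ, hsupp, hle⟩ := HD ((2 : ℝ) ^ N) hR1N R hRm c n1 hn1
    have h11 : 1 - (1 - θ) = θ := by ring
    rw [h11] at hle
    have hblock : ∀ n ∈ Finset.range n1, ‖VKc φ (fun θ' => R * H θ' + σ * ((2 : ℝ) ^ N) ^ (-(1 - θ))) (((2 : ℝ) ^ N) ^ (-(1 - θ))) n c‖ ≤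
        (C2 + 2 * C1) * ((2 : ℝ) ^ N) ^ (θ - e) := by
      intro n hn
      rw [Finset.mem_range] at hn
      have hone : 1 ≤ ((2 : ℝ) ^ N) ^ (θ - e) := Real.one_le_rpow (hR N) (by linarith)
      by_cases hcase : (2 : ℝ) ^ n < ((2 : ℝ) ^ N) ^ (2 * θ - 1 - 2 * e)
      · have h5 := HT ((2 : ℝ) ^ N) (hR N) n _ (hδ N) σ hσ R hRm hsupp c
        refine h5.trans ?_
        have h6 : (2 : ℝ) ^ ((n : ℝ) / 2) ≤ ((2 : ℝ) ^ N) ^ (θ - 1 / 2 - e) := by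
          have e3 : (2 : ℝ) ^ ((n : ℝ) / 2) = ((2 : ℝ) ^ n) ^ (1 / 2 : ℝ) := by
            rw [u8_pow]
            congr 1
            ring
          have e4 : ((2 : ℝ) ^ N) ^ (θ - 1 / 2 - e) = (((2 : ℝ) ^ N) ^ (2 * θ - 1 - 2 * e)) ^ (1 / 2 : ℝ) := by
            rw [← Real.rpow_mul (by positivity)]
            congr 1
            ring
          rw [e3, e4]
          exact Real.rpow_le_rpow (by positivity) hcase.le (by norm_num)
        calc C2 * ((2 : ℝ) ^ N) ^ (1 / 2 : ℝ) * (2 : ℝ) ^ ((n : ℝ) / 2) ≤ C2 * ((2 : ℝ) ^ N) ^ (1 / 2 : ℝ) * ((2 : ℝ) ^ N) ^ (θ - 1 / 2 - e) :=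
              mul_le_mul_of_nonneg_left h6 (by positivity)
          _ = C2 * ((2 : ℝ) ^ N) ^ (θ - e) := by
              rw [mul_assoc, ← Real.rpow_add (by positivity)]
              congr 2
              ring
          _ ≤ (C2 + 2 * C1) * ((2 : ℝ) ^ N) ^ (θ - e) := mul_le_mul_of_nonneg_right (by linarith) (by positivity)
      · have hmid : n ∈ midr θ e e2 N := by
          unfold midr
          rw [Finset.mem_filter, Finset.mem_range]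
          refine ⟨by omega, not_lt.1 hcase, ?_⟩
          have h7 := (hmin n hn).le
          have h8 : 0 ≤ ((2 : ℝ) ^ N) ^ (1 - θ + e2) := by positivity
          linarith
        obtain ⟨p1, hp1, hc1⟩ := u8_sq hc.1 n
        obtain ⟨p2, hp2, hc2⟩ := u8_sq hc.2 n
        have hcs : c ∈ sq n (p1, p2) := ⟨hc1, hc2⟩
        have hpr : (p1, p2) ∈ Finset.range (2 ^ n) ×ˢ Finset.range (2 ^ n) :=
          Finset.mem_product.2 ⟨Finset.mem_range.2 hp1, Finset.mem_range.2 hp2⟩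
        have hpS : (p1, p2) ∉ S N n := by
          intro hmem
          exact hN1 N ((le_max_left _ _).trans hN) ⟨(n, (p1, p2)), hFmem N n _ hmid hmem, hcs⟩
        have h9 := hS3 N n (p1, p2) hpr hpS c hcs R hRm σ hσ hsupp
        refine h9.trans ?_
        have e5 : ((2 : ℝ) ^ N) ^ (1 / 2 : ℝ) * (2 : ℝ) ^ (-(3 / 2 : ℝ) * n) *
            (((2 : ℝ) ^ N) ^ (θ - e - 1 / 2) * (2 : ℝ) ^ ((3 / 2 : ℝ) * n)) = ((2 : ℝ) ^ N) ^ (θ - e) := by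
          have h20 : (0 : ℝ) < 2 := by norm_num
          rw [u8_pow, u8_pow, u8_pow, ← Real.rpow_add h20, ← Real.rpow_add h20, ← Real.rpow_add h20]
          congr 1
          ring
        rw [e5]
        have hn2 : (2 : ℝ) ^ n ≤ ((2 : ℝ) ^ N) ^ (θ - e) :=
          (hmin n hn).le.trans (Real.rpow_le_rpow_of_exponent_le (hR N) (by linarith))
        calc C1 * (((2 : ℝ) ^ N) ^ (θ - e) + 2 ^ n) ≤ C1 * (((2 : ℝ) ^ N) ^ (θ - e) + ((2 : ℝ) ^ N) ^ (θ - e)) :=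
              mul_le_mul_of_nonneg_left (by linarith) hC1.le
          _ = 2 * C1 * ((2 : ℝ) ^ N) ^ (θ - e) := by ring
          _ ≤ (C2 + 2 * C1) * ((2 : ℝ) ^ N) ^ (θ - e) := mul_le_mul_of_nonneg_right (by linarith) (by positivity)
    have hsum2 := Finset.sum_le_sum hblock
    rw [Finset.sum_const, Finset.card_range, nsmul_eq_mul] at hsum2
    have hfin : (n1 : ℝ) * ((C2 + 2 * C1) * ((2 : ℝ) ^ N) ^ (θ - e)) ≤ (C2 + 2 * C1) * (1 / (e * Real.log 2)) * ((2 : ℝ) ^ N) ^ θ := by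
      have h10 : ((2 : ℝ) ^ N) ^ (θ - e) = ((2 : ℝ) ^ N) ^ (-e) * ((2 : ℝ) ^ N) ^ θ := by
        rw [← Real.rpow_add (by positivity)]
        congr 1
        ring
      have h12 := u8_N N he
      have h13 : (n1 : ℝ) ≤ N := by exact_mod_cast hn1N
      calc (n1 : ℝ) * ((C2 + 2 * C1) * ((2 : ℝ) ^ N) ^ (θ - e)) ≤ (N : ℝ) * ((C2 + 2 * C1) * ((2 : ℝ) ^ N) ^ (θ - e)) :=
            mul_le_mul_of_nonneg_right h13 (by positivity)
        _ = (C2 + 2 * C1) * ((N : ℝ) * ((2 : ℝ) ^ N) ^ (-e)) * ((2 : ℝ) ^ N) ^ θ := by rw [h10]; ring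
        _ ≤ (C2 + 2 * C1) * (1 / (e * Real.log 2)) * ((2 : ℝ) ^ N) ^ θ := by
            apply mul_le_mul_of_nonneg_right _ (by positivity)
            exact mul_le_mul_of_nonneg_left h12 (by positivity)
    have h14 : C3 * ((2 : ℝ) ^ N) ^ θ ≤ |C3| * ((2 : ℝ) ^ N) ^ θ := mul_le_mul_of_nonneg_right (le_abs_self _) (by positivity)
    rw [hK, add_mul]
    linarith
  refine ⟨K + |C4|, fun R hR1' => ?_⟩
  have hRθ : 1 ≤ R ^ θ := Real.one_le_rpow hR1' (by linarith)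
  by_cases hcase : R ≤ (2 : ℝ) ^ N0
  · have h5 := hC4 R hR1' hcase
    calc |cntc H c R - area H * R ^ 2| ≤ |C4| := h5.trans (le_abs_self _)
      _ ≤ |C4| * R ^ θ := le_mul_of_one_le_right (abs_nonneg _) hRθ
      _ ≤ (K + |C4|) * R ^ θ := mul_le_mul_of_nonneg_right (by linarith) (by linarith)
  · rw [not_le] at hcase
    obtain ⟨N, hN1', hN2'⟩ := exists_nat_pow_near hR1' (by norm_num : (1 : ℝ) < 2)
    have hNN : N0 ≤ N := by
      by_contra hlt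
      rw [not_le] at hlt
      have : (2 : ℝ) ^ (N + 1) ≤ 2 ^ N0 := pow_le_pow_right₀ (by norm_num) hlt
      linarith
    have h6 := main N hNN R ⟨hN1', by rw [pow_succ] at hN2'; linarith⟩
    calc |cntc H c R - area H * R ^ 2| ≤ K * ((2 : ℝ) ^ N) ^ θ := h6
      _ ≤ K * R ^ θ := mul_le_mul_of_nonneg_left (Real.rpow_le_rpow (by positivity) hN1' (by linarith)) hK0
      _ ≤ (K + |C4|) * R ^ θ := mul_le_mul_of_nonneg_right (by linarith [abs_nonneg C4]) (by linarith)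

private theorem u8_max {θ : ℝ} (h1 : 3 / 5 < θ) (h2 : θ < 2 / 3) :
    0 < max ((4 - 6 * θ) / (2 * θ - 1)) ((6 - 9 * θ) / (1 - θ)) ∧
      max ((4 - 6 * θ) / (2 * θ - 1)) ((6 - 9 * θ) / (1 - θ)) < 2 := by
  constructor
  · refine lt_max_of_lt_right ?_
    apply div_pos <;> linarith
  · refine max_lt ?_ ?_
    · rw [div_lt_iff₀ (by linarith)]
      linarith
    · rw [div_lt_iff₀ (by linarith)]
      linarith

theorem dim_exc2 {H : ℝ → ℝ} (hH : IsSupp H) {θ : ℝ} (h1 : 3 / 5 < θ) (h2 : θ < 2 / 3) :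
    dimH {c : ℝ × ℝ | ¬ Bd H c θ} ≤ ENNReal.ofReal (max ((4 - 6 * θ) / (2 * θ - 1)) ((6 - 9 * θ) / (1 - θ))) := by
  obtain ⟨hM0, hM2⟩ := u8_max h1 h2
  have hle1 := le_max_left ((4 - 6 * θ) / (2 * θ - 1)) ((6 - 9 * θ) / (1 - θ))
  have hle2 := le_max_right ((4 - 6 * θ) / (2 * θ - 1)) ((6 - 9 * θ) / (1 - θ))
  obtain ⟨M, hM⟩ : ∃ M, M = max ((4 - 6 * θ) / (2 * θ - 1)) ((6 - 9 * θ) / (1 - θ)) := ⟨_, rfl⟩
  rw [← hM] at hM0 hM2 hle1 hle2 ⊢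
  have hlim : Tendsto (fun k : ℕ => M + (2 - M) * (1 / ((k : ℝ) + 1))) atTop (𝓝 (M + (2 - M) * 0)) :=
    (tendsto_one_div_add_atTop_nhds_zero_nat.const_mul (2 - M)).const_add M
  rw [mul_zero, add_zero] at hlim
  have hlim2 := (ENNReal.continuous_ofReal.tendsto M).comp hlim
  refine ge_of_tendsto' hlim2 fun k => ?_
  have hk : 0 < 1 / ((k : ℝ) + 1) := by positivity
  have hk1 : 1 / ((k : ℝ) + 1) ≤ 1 := by
    rw [div_le_one (by positivity)]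
    have : (0 : ℝ) ≤ k := Nat.cast_nonneg k
    linarith
  have hs1 : M < M + (2 - M) * (1 / ((k : ℝ) + 1)) := by
    have : 0 < (2 - M) * (1 / ((k : ℝ) + 1)) := mul_pos (by linarith) hk
    linarith
  have hs2 : M + (2 - M) * (1 / ((k : ℝ) + 1)) ≤ 2 := by
    have : (2 - M) * (1 / ((k : ℝ) + 1)) ≤ (2 - M) * 1 :=
      mul_le_mul_of_nonneg_left hk1 (by linarith)
    linarith
  exact dimH_le_of_unit (by linarith)
    (main_null2 hH h1 h2 (lt_of_le_of_lt hle1 hs1) (lt_of_le_of_lt hle2 hs1) hs2)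

theorem ae_exc2 {H : ℝ → ℝ} (hH : IsSupp H) : ∀ᵐ c : ℝ × ℝ, ∀ ε : ℝ, 0 < ε → Bd H c (3 / 5 + ε) := by
  have hj : ∀ j : ℕ, ∀ᵐ c : ℝ × ℝ, Bd H c (3 / 5 + 1 / (20 * ((j : ℝ) + 1))) := by
    intro j
    have hj0 : (0 : ℝ) ≤ j := Nat.cast_nonneg j
    have hp : 0 < 1 / (20 * ((j : ℝ) + 1)) := by positivity
    have hp2 : 1 / (20 * ((j : ℝ) + 1)) ≤ 1 / 20 := by
      apply one_div_le_one_div_of_le (by norm_num)
      linarith
    have h1 : (3 : ℝ) / 5 < 3 / 5 + 1 / (20 * ((j : ℝ) + 1)) := by linarith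
    have h2 : 3 / 5 + 1 / (20 * ((j : ℝ) + 1)) < 2 / 3 := by linarith
    have hd := dim_exc2 hH h1 h2
    obtain ⟨hM0, hM2⟩ := u8_max h1 h2
    have hlt : dimH {c : ℝ × ℝ | ¬ Bd H c (3 / 5 + 1 / (20 * ((j : ℝ) + 1)))} < ((2 : NNReal) : ENNReal) := by
      refine lt_of_le_of_lt hd ?_
      have h2' : ((2 : NNReal) : ENNReal) = ENNReal.ofReal 2 := by
        rw [ENNReal.ofReal]
        simp
      rw [h2']
      exact (ENNReal.ofReal_lt_ofReal_iff (by norm_num)).2 hM2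
    have h0 := hausdorffMeasure_of_dimH_lt hlt
    have h0' : (volume : Measure (ℝ × ℝ)) {c : ℝ × ℝ | ¬ Bd H c (3 / 5 + 1 / (20 * ((j : ℝ) + 1)))} = 0 := by
      rw [← hausdorffMeasure_prod_real]
      simpa using h0
    exact h0'
  have hall := ae_all_iff.2 hj
  filter_upwards [hall] with c hc ε hε
  obtain ⟨j, hjε⟩ := exists_nat_one_div_lt hε
  obtain ⟨C, hC⟩ := hc j
  refine ⟨|C|, fun R hR => (hC R hR).trans ?_⟩
  have hj0 : (0 : ℝ) ≤ j := Nat.cast_nonneg j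
  have he : 3 / 5 + 1 / (20 * ((j : ℝ) + 1)) ≤ 3 / 5 + ε := by
    have : 1 / (20 * ((j : ℝ) + 1)) ≤ 1 / ((j : ℝ) + 1) := by
      apply one_div_le_one_div_of_le (by positivity)
      linarith
    linarith
  calc C * R ^ (3 / 5 + 1 / (20 * ((j : ℝ) + 1))) ≤ |C| * R ^ (3 / 5 + 1 / (20 * ((j : ℝ) + 1))) :=
        mul_le_mul_of_nonneg_right (le_abs_self C) (Real.rpow_nonneg (by linarith) _)
    _ ≤ |C| * R ^ (3 / 5 + ε) :=
        mul_le_mul_of_nonneg_left (Real.rpow_le_rpow_of_exponent_le hR he) (abs_nonneg C)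

end Pool.Agent.Helper22.SC
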